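import Mathlib

/-!
# Transverse foliations of the plane and their leaf spaces: definitions
-/

namespace Pool.Agent.Helper921_LeafSpaces

open Set Topology

/-- A `1`-manifold, not necessarily Hausdorff: a second countable space in which every point has
an open neighbourhood homeomorphic to the real line. -/
structure IsOneManifold (X : Type*) [TopologicalSpace X] : Prop where
  secondCountable : SecondCountableTopology X
  locally_real : ∀ x : X, ∃ U : Set X, IsOpen U ∧ x ∈ U ∧ Nonempty (U ≃ₜ ℝ)

/-- The plane. -/
abbrev Plane : Type := ℝ × ℝ

/-- The open square `(-1, 1) × (-1, 1)`. -/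
abbrev Square : Type := Ioo (-1 : ℝ) 1 × Ioo (-1 : ℝ) 1

/-- The leaf through `p` of a partition `F` of the plane. -/
def leaf (F : Setoid Plane) (p : Plane) : Set Plane := {q | F p q}

/-- `q` and `q'` lie on the same plaque of `F` in `U`: they can be joined by a path inside the
intersection of a leaf with `U`. -/
def SamePlaque (F : Setoid Plane) (U : Set Plane) (q q' : Plane) : Prop :=
  JoinedIn (leaf F q ∩ U) q q'

/-- A (topological, one-dimensional, nonsingular) foliation of the plane: a partition into path
connected leaves such that every point has an open neighbourhood `U` and a homeomorphism from `U`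
to the open square carrying the plaques (the path components of the intersections of the leaves
with `U`) to the horizontal segments. -/
structure IsFoliation (F : Setoid Plane) : Prop where
  isPathConnected_leaf : ∀ p, IsPathConnected (leaf F p)
  exists_chart : ∀ p, ∃ (U : Set Plane) (φ : U ≃ₜ Square), IsOpen U ∧ p ∈ U ∧
    ∀ q q' : U, SamePlaque F U q q' ↔ (φ q).2 = (φ q').2

/-- Transverse foliations: every point has an open neighbourhood `U` and a homeomorphism from `U`
to the open square carrying the plaques of `F` to the horizontal segments and those of `G` to the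
vertical segments. -/
def AreTransverse (F G : Setoid Plane) : Prop :=
  ∀ p, ∃ (U : Set Plane) (φ : U ≃ₜ Square), IsOpen U ∧ p ∈ U ∧
    (∀ q q' : U, SamePlaque F U q q' ↔ (φ q).2 = (φ q').2) ∧
    (∀ q q' : U, SamePlaque G U q q' ↔ (φ q).1 = (φ q').1)

/-- The pair `(Λ, Λ')` is realized by a pair of transverse foliations of the plane. The leaf space
of `F` is the quotient of the plane by `F`, with the quotient topology. -/
def Realized (Λ Λ' : Type*) [TopologicalSpace Λ] [TopologicalSpace Λ'] : Prop :=
  ∃ F G : Setoid Plane, IsFoliation F ∧ IsFoliation G ∧ AreTransverse F G ∧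
    Nonempty (Quotient F ≃ₜ Λ) ∧ Nonempty (Quotient G ≃ₜ Λ')

end Pool.Agent.Helper921_LeafSpaces
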