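import Mathlib

/-!
# Locally constant cocycles on simply connected spaces are coboundaries

`exists_primitive`: let `(U i)` be an open cover of a simply connected, locally path connected
space `X`, and let `c i : X → G` be functions into an additive group such that `c i - c j` is
locally constant on `U i ∩ U j`. Then there is a function `d` such that `d - c i` is locally
constant on `U i` for all `i`. The proof constructs a covering space of `X`.
-/

namespace Pool.Agent.Helper921_LeafSpaces

open Set Topology Filter TopologicalSpace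

section cover

variable {X : Type*} [TopologicalSpace X] {G : Type*} [AddCommGroup G] {ι : Type*}

/-- The total space of the covering associated to a cochain `c` subordinate to a cover `U`. -/
@[ext] structure TotalSp (U : ι → Opens X) (c : ι → X → G) where
  /-- the base point -/
  base : X
  /-- the point of the fibre -/
  fib : G

variable {U : ι → Opens X} {c : ι → X → G}

/-- The topology of the covering. -/
instance : TopologicalSpace (TotalSp U c) where
  IsOpen W := ∀ (i : ι) (g : G), IsOpen {y | y ∈ U i ∧ (⟨y, g + c i y⟩ : TotalSp U c) ∈ W}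
  isOpen_univ := by
    intro i g
    simpa using (U i).isOpen
  isOpen_inter s t hs ht i g := by
    have := (hs i g).inter (ht i g)
    convert this using 1
    ext y
    constructor
    · rintro ⟨h1, h2, h3⟩
      exact ⟨⟨h1, h2⟩, h1, h3⟩
    · rintro ⟨⟨h1, h2⟩, -, h3⟩
      exact ⟨h1, h2, h3⟩
  isOpen_sUnion S hS i g := by
    have : {y | y ∈ U i ∧ (⟨y, g + c i y⟩ : TotalSp U c) ∈ (⋃₀ S)} =
        ⋃ s ∈ S, {y | y ∈ U i ∧ (⟨y, g + c i y⟩ : TotalSp U c) ∈ s} := by
      ext y
      simp only [mem_sUnion, mem_ofPred_eq, mem_iUnion, exists_prop]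
      constructor
      · rintro ⟨h1, s, hs, h2⟩
        exact ⟨s, hs, h1, h2⟩
      · rintro ⟨s, hs, h1, h2⟩
        exact ⟨h1, s, hs, h2⟩
    rw [this]
    exact isOpen_biUnion fun s hs => hS s hs i g

theorem isOpen_totalSp_iff {W : Set (TotalSp U c)} :
    IsOpen W ↔ ∀ (i : ι) (g : G), IsOpen {y | y ∈ U i ∧ (⟨y, g + c i y⟩ : TotalSp U c) ∈ W} :=
  Iff.rfl

theorem isOpen_base_preimage (V : Set X) (hV : IsOpen V) :
    IsOpen (TotalSp.base ⁻¹' V : Set (TotalSp U c)) := by
  intro i g
  exact (U i).isOpen.inter hV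

/-- The local trivialization over `U i`. -/
def trivHomeo [TopologicalSpace G] [DiscreteTopology G] (i : ι)
    (hc : ∀ j, ∀ x ∈ U i ⊓ U j, ∀ᶠ y in 𝓝 x, c i y - c j y = c i x - c j x) :
    (TotalSp.base ⁻¹' (U i).1 : Set (TotalSp U c)) ≃ₜ ((U i).1 × G) where
  toFun e := (⟨e.1.base, e.2⟩, e.1.fib - c i e.1.base)
  invFun z := ⟨⟨z.1.1, z.2 + c i z.1.1⟩, z.1.2⟩
  left_inv e := by
    apply Subtype.ext
    ext <;> simp
  right_inv z := by
    ext <;> simp
  continuous_toFun := by
    rw [continuous_def]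
    intro s hs
    rw [isOpen_induced_iff]
    refine ⟨{e | ∃ h : e.base ∈ U i, ((⟨e.base, h⟩, e.fib - c i e.base) : ((U i).1 × G)) ∈ s},
      ?_, ?_⟩
    · intro j g
      rw [isOpen_iff_mem_nhds]
      rintro y ⟨hyj, hyi, hys⟩
      have h1 := hc j y ⟨hyi, hyj⟩
      have hs' : IsOpen {z : (U i).1 | (z, (g + c j y) - c i y) ∈ s} :=
        hs.preimage (by fun_prop)
      obtain ⟨O, hO, hO'⟩ := isOpen_induced_iff.1 hs'
      have hyO : y ∈ O := by
        have : (⟨y, hyi⟩ : (U i).1) ∈ Subtype.val ⁻¹' O := by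
          rw [hO']; exact hys
        exact this
      filter_upwards [h1, hO.mem_nhds hyO, (U j).isOpen.mem_nhds hyj,
        (U i).isOpen.mem_nhds hyi] with z hz hzO hzj hzi
      refine ⟨hzj, hzi, ?_⟩
      have : (⟨z, hzi⟩ : (U i).1) ∈ Subtype.val ⁻¹' O := hzO
      rw [hO'] at this
      have h2 : g + c j z - c i z = g + c j y - c i y := by
        have : g + c j z - c i z = g - (c i z - c j z) := by abel
        rw [this, hz]; abel
      simp only [mem_ofPred_eq] at this
      rw [← h2] at this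
      exact this
    · ext e
      constructor
      · rintro ⟨h, h'⟩
        exact h'
      · intro h
        exact ⟨e.2, h⟩
  continuous_invFun := by
    rw [continuous_def]
    intro s hs
    obtain ⟨W, hW, rfl⟩ := isOpen_induced_iff.1 hs
    rw [isOpen_iff_mem_nhds]
    rintro ⟨y, g⟩ hy
    have h1 := (hW i g)
    have h2 : IsOpen {z : (U i).1 | (⟨z.1, g + c i z.1⟩ : TotalSp U c) ∈ W} := by
      have := h1.preimage (continuous_subtype_val (p := fun x => x ∈ (U i).1))
      convert this using 1
      ext z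
      constructor
      · intro h; exact ⟨z.2, h⟩
      · intro h; exact h.2
    have h3 : {z : (U i).1 | (⟨z.1, g + c i z.1⟩ : TotalSp U c) ∈ W} ×ˢ ({g} : Set G) ∈
        𝓝 (y, g) := (h2.prod (isOpen_discrete _)).mem_nhds ⟨hy, rfl⟩
    filter_upwards [h3]
    rintro ⟨z, g'⟩ ⟨hz, hg⟩
    obtain rfl : g' = g := hg
    exact hz

theorem isCoveringMap_base [TopologicalSpace G] [DiscreteTopology G]
    (hcov : ∀ x, ∃ i, x ∈ U i)
    (hc : ∀ i j, ∀ x ∈ U i ⊓ U j, ∀ᶠ y in 𝓝 x, c i y - c j y = c i x - c j x) :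
    IsCoveringMap (TotalSp.base : TotalSp U c → X) := by
  intro x
  obtain ⟨i, hi⟩ := hcov x
  have : IsEvenlyCovered (TotalSp.base : TotalSp U c → X) x G :=
    ⟨inferInstance, U i, hi, (U i).isOpen, isOpen_base_preimage _ (U i).isOpen,
      trivHomeo i (hc i), fun _ => rfl⟩
  exact this.to_isEvenlyCovered_preimage

/-- A locally constant cocycle on a simply connected space is a coboundary. -/
theorem exists_primitive [SimplyConnectedSpace X] [LocallyPathConnectedSpace X]
    (U : ι → Opens X) (c : ι → X → G)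
    (hcov : ∀ x, ∃ i, x ∈ U i)
    (hc : ∀ i j, ∀ x ∈ U i ⊓ U j, ∀ᶠ y in 𝓝 x, c i y - c j y = c i x - c j x) :
    ∃ d : X → G, ∀ i, ∀ x ∈ U i, ∀ᶠ y in 𝓝 x, d y - c i y = d x - c i x := by
  let _ : TopologicalSpace G := ⊥
  have : DiscreteTopology G := ⟨rfl⟩
  have hcm := isCoveringMap_base hcov hc
  obtain ⟨x₀⟩ : Nonempty X := PathConnectedSpace.nonempty
  obtain ⟨s, ⟨-, hs⟩, -⟩ := hcm.existsUnique_continuousMap_lifts
    (ContinuousMap.id X) x₀ ⟨x₀, 0⟩ rfl
  have hs' : ∀ x, (s x).base = x := fun x => congrFun hs x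
  refine ⟨fun x => (s x).fib, fun i x hx => ?_⟩
  have h1 : Continuous (fun y : (U i).1 => (trivHomeo i (hc i)
      ⟨s y.1, by rw [mem_preimage, hs']; exact y.2⟩).2) := by
    apply continuous_snd.comp
    apply (trivHomeo i (hc i)).continuous.comp
    exact (s.continuous.comp continuous_subtype_val).subtype_mk _
  have h2 := (IsLocallyConstant.iff_continuous _).2 h1
  have h3 := (IsLocallyConstant.iff_eventually_eq _).1 h2 ⟨x, hx⟩
  have h4 := (IsOpen.isOpenEmbedding_subtypeVal (U i).isOpen).map_nhds_eq ⟨x, hx⟩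
  simp only at h4
  rw [← h4, eventually_map]
  filter_upwards [h3] with y hy
  have hy' : (s y.1).fib - c i (s y.1).base = (s x).fib - c i (s x).base := hy
  rw [hs', hs'] at hy'
  exact hy'

end cover

end Pool.Agent.Helper921_LeafSpaces
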