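import Mathlib
import Pool.Agent.Helper921_LeafSpaces.Defs
import Pool.Agent.Helper921_LeafSpaces.Cover

/-!
# Points separate simply connected one-manifolds
-/

namespace Pool.Agent.Helper921_LeafSpaces

open Set Topology Filter TopologicalSpace

/-- Every point has an open neighbourhood homeomorphic to the line. -/
def LocReal (X : Type*) [TopologicalSpace X] : Prop :=
  ∀ x : X, ∃ U : Set X, IsOpen U ∧ x ∈ U ∧ Nonempty (U ≃ₜ ℝ)

section basic

variable {X : Type*} [TopologicalSpace X]

theorem exists_emb_of_homeo {U : Set X} (hU : IsOpen U) (e : U ≃ₜ ℝ) :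
    ∃ f : ℝ → X, IsOpenEmbedding f ∧ range f = U := by
  refine ⟨Subtype.val ∘ e.symm, (hU.isOpenEmbedding_subtypeVal).comp e.symm.isOpenEmbedding, ?_⟩
  rw [range_comp, e.symm.surjective.range_eq, image_univ, Subtype.range_coe]

theorem exists_homeo_of_emb {f : ℝ → X} (hf : IsOpenEmbedding f) :
    Nonempty (range f ≃ₜ ℝ) :=
  ⟨(hf.isEmbedding.toHomeomorph).symm⟩

theorem LocReal.exists_emb (hX : LocReal X) (x : X) :
    ∃ f : ℝ → X, IsOpenEmbedding f ∧ f 0 = x := by
  obtain ⟨U, hU, hx, ⟨e⟩⟩ := hX x
  obtain ⟨f, hf, hfU⟩ := exists_emb_of_homeo hU e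
  rw [← hfU] at hx
  obtain ⟨t, rfl⟩ := hx
  exact ⟨fun s => f (s + t), hf.comp (Homeomorph.addRight t).isOpenEmbedding, by simp⟩

theorem LocReal.isClosed_singleton (hX : LocReal X) (x : X) : IsClosed ({x} : Set X) := by
  rw [← isOpen_compl_iff, isOpen_iff_mem_nhds]
  intro y hy
  obtain ⟨f, hf, rfl⟩ := hX.exists_emb y
  by_cases h : x ∈ range f
  · obtain ⟨t, rfl⟩ := h
    have ht : t ≠ 0 := by
      rintro rfl; exact hy rfl
    have h1 : f '' {t}ᶜ ∈ 𝓝 (f 0) :=
      (hf.isOpenMap _ isOpen_compl_singleton).mem_nhds ⟨0, fun h => ht h.symm, rfl⟩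
    filter_upwards [h1]
    rintro _ ⟨s, hs, rfl⟩ h
    exact hs (hf.injective h)
  · have h1 : range f ∈ 𝓝 (f 0) := hf.isOpen_range.mem_nhds ⟨0, rfl⟩
    filter_upwards [h1]
    rintro z hz rfl
    exact h hz

theorem LocReal.isOpen_compl (hX : LocReal X) (x : X) : IsOpen ({x}ᶜ : Set X) :=
  (hX.isClosed_singleton x).isOpen_compl

theorem LocReal.locallyPathConnectedSpace (hX : LocReal X) : LocallyPathConnectedSpace X := by
  constructor
  intro x
  obtain ⟨f, hf, rfl⟩ := hX.exists_emb x
  constructor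
  intro t
  constructor
  · intro ht
    have h1 : f ⁻¹' t ∈ 𝓝 (0 : ℝ) := hf.continuous.continuousAt.preimage_mem_nhds ht
    obtain ⟨ε, hε, h2⟩ := Metric.mem_nhds_iff.1 h1
    refine ⟨f '' Metric.ball 0 ε, ⟨?_, ?_⟩, ?_⟩
    · exact (hf.isOpenMap _ Metric.isOpen_ball).mem_nhds ⟨0, Metric.mem_ball_self hε, rfl⟩
    · exact ((convex_ball (0 : ℝ) ε).isPathConnected ⟨0, Metric.mem_ball_self hε⟩).image
        hf.continuous
    · rintro _ ⟨s, hs, rfl⟩
      exact h2 hs
  · rintro ⟨s, ⟨h1, -⟩, h2⟩
    exact mem_of_superset h1 h2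

end basic

section sep

variable {X : Type*} [TopologicalSpace X] [SimplyConnectedSpace X]

/-- **Separation.** In a simply connected `1`-manifold, the two sides of a point in an interval
are separated by the complement of the point. -/
theorem LocReal.exists_sep (hX : LocReal X) {f : ℝ → X} (hf : IsOpenEmbedding f) (t : ℝ) :
    ∃ d : X → ℤ, (∀ y, y ≠ f t → ∀ᶠ z in 𝓝 y, d z = d y) ∧ (∀ s, s < t → d (f s) = 0) ∧
      (∀ s, t < s → d (f s) = 1) := by
  classical
  have := hX.locallyPathConnectedSpace
  let U : Bool → Opens X := fun b => if b then ⟨{f t}ᶜ, hX.isOpen_compl _⟩ else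
    ⟨range f, hf.isOpen_range⟩
  let c : Bool → X → ℤ := fun b x => if b then 0 else (if x ∈ f '' Ioi t then 1 else 0)
  have hI : IsOpen (f '' Ioi t) := hf.isOpenMap _ isOpen_Ioi
  have hI' : IsOpen (f '' Iio t) := hf.isOpenMap _ isOpen_Iio
  have key : ∀ y, y ∈ range f → y ≠ f t → ∀ᶠ z in 𝓝 y, (z ∈ f '' Ioi t ↔ y ∈ f '' Ioi t) := by
    rintro _ ⟨s, rfl⟩ hs
    rcases lt_trichotomy s t with h | h | h
    · filter_upwards [hI'.mem_nhds ⟨s, h, rfl⟩]
      rintro _ ⟨s', hs', rfl⟩
      constructor
      · rintro ⟨r, hr, hr'⟩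
        have := hf.injective hr'
        subst this
        exact absurd (mem_Iio.1 hs') (not_lt.2 (le_of_lt hr))
      · rintro ⟨r, hr, hr'⟩
        have := hf.injective hr'
        subst this
        exact absurd h (not_lt.2 (le_of_lt hr))
    · exact absurd (by rw [h]) hs
    · filter_upwards [hI.mem_nhds ⟨s, h, rfl⟩] with z hz
      exact ⟨fun _ => ⟨s, h, rfl⟩, fun _ => hz⟩
  obtain ⟨d, hd⟩ := exists_primitive U c (by
    intro x
    by_cases hx : x = f t
    · exact ⟨false, by rw [hx]; exact ⟨t, rfl⟩⟩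
    · exact ⟨true, hx⟩) (by
    intro i j x hx
    rcases i with _ | _ <;> rcases j with _ | _
    · simp
    · have h1 : x ∈ range f := hx.1
      have h2 : x ≠ f t := hx.2
      filter_upwards [key x h1 h2] with z hz
      simp only [c, hz]
    · have h1 : x ∈ range f := hx.2
      have h2 : x ≠ f t := hx.1
      filter_upwards [key x h1 h2] with z hz
      simp only [c, hz]
    · simp [c])
  have hd1 : ∀ y, y ≠ f t → ∀ᶠ z in 𝓝 y, d z = d y := by
    intro y hy
    filter_upwards [hd true y hy] with z hz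
    simpa [c] using hz
  have hd2 : ∀ s, d (f s) - c false (f s) = d (f t) - c false (f t) := by
    have h1 : IsLocallyConstant (fun s => d (f s) - c false (f s)) := by
      rw [IsLocallyConstant.iff_eventually_eq]
      intro s
      exact hf.continuous.continuousAt.eventually (hd false (f s) ⟨s, rfl⟩)
    intro s
    exact h1.apply_eq_of_isPreconnected isPreconnected_univ (mem_univ _) (mem_univ _)
  refine ⟨fun x => d x - (d (f t) - c false (f t)), ?_, ?_, ?_⟩
  · intro y hy
    filter_upwards [hd1 y hy] with z hz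
    rw [hz]
  · intro s hs
    have h1 : c false (f s) = 0 := by
      have : f s ∉ f '' Ioi t := by
        rintro ⟨r, hr, hr'⟩
        have := hf.injective hr'
        subst this
        exact absurd hs (not_lt.2 (le_of_lt hr))
      simp [c]
      intro r hr hr'
      exact this ⟨r, hr, hr'⟩
    have := hd2 s
    simp only
    omega
  · intro s hs
    have h1 : c false (f s) = 1 := by
      have : f s ∈ f '' Ioi t := ⟨s, hs, rfl⟩
      simp only [c]
      simp [this]
    have := hd2 s
    simp only
    omega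

/-- A preconnected set meets an interval in an order connected set. -/
theorem LocReal.ordConnected_preimage (hX : LocReal X) {f : ℝ → X} (hf : IsOpenEmbedding f)
    {C : Set X} (hC : IsPreconnected C) : OrdConnected (f ⁻¹' C) := by
  refine ⟨fun a ha c hc b hb => ?_⟩
  by_contra hbC
  have hab : a < b := lt_of_le_of_ne hb.1 (by rintro rfl; exact hbC ha)
  have hbc : b < c := lt_of_le_of_ne hb.2 (by rintro rfl; exact hbC hc)
  obtain ⟨d, h1, h2, h3⟩ := hX.exists_sep hf b
  have h4 : ContinuousOn d C := by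
    intro y hy
    have hyb : y ≠ f b := by rintro rfl; exact hbC hy
    have : ∀ᶠ z in 𝓝 y, d z = d y := h1 y hyb
    apply ContinuousAt.continuousWithinAt
    exact (continuousAt_const (y := d y)).congr (this.mono fun z hz => hz.symm)
  have h5 := hC.image d h4
  have h6 : (d '' C).Subsingleton := h5.subsingleton
  have h7 := h6 ⟨f a, ha, rfl⟩ ⟨f c, hc, rfl⟩
  rw [h2 a hab, h3 c hbc] at h7
  norm_num at h7

/-- The intersection of a preconnected set and an interval is preconnected. -/
theorem LocReal.isPreconnected_preimage (hX : LocReal X) {f : ℝ → X} (hf : IsOpenEmbedding f)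
    {C : Set X} (hC : IsPreconnected C) : IsPreconnected (f ⁻¹' C) :=
  (hX.ordConnected_preimage hf hC).isPreconnected

theorem LocReal.isPreconnected_inter (hX : LocReal X) {f : ℝ → X} (hf : IsOpenEmbedding f)
    {C : Set X} (hC : IsPreconnected C) : IsPreconnected (C ∩ range f) := by
  rw [← image_preimage_eq_inter_range]
  exact (hX.isPreconnected_preimage hf hC).image f hf.continuous.continuousOn

end sep

end Pool.Agent.Helper921_LeafSpaces
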