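import Mathlib
import Pool.Agent.Helper921_LeafSpaces.Defs
import Pool.Agent.Helper921_LeafSpaces.Sep

/-!
# Basic facts on foliations of the plane
-/

namespace Pool.Agent.Helper921_LeafSpaces

open Set Topology Filter TopologicalSpace

theorem mem_leaf {F : Setoid Plane} {p q : Plane} : q ∈ leaf F p ↔ F p q := Iff.rfl

theorem leaf_eq {F : Setoid Plane} {p q : Plane} (h : F p q) : leaf F p = leaf F q := by
  ext r
  exact ⟨fun hr => F.trans' (F.symm' h) hr, fun hr => F.trans' h hr⟩

theorem SamePlaque.rel {F : Setoid Plane} {U : Set Plane} {q q' : Plane}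
    (h : SamePlaque F U q q') : F q q' := h.target_mem.1

theorem SamePlaque.symm {F : Setoid Plane} {U : Set Plane} {q q' : Plane}
    (h : SamePlaque F U q q') : SamePlaque F U q' q := by
  unfold SamePlaque at *
  rw [← leaf_eq h.target_mem.1]
  exact JoinedIn.symm h

theorem SamePlaque.mono {F : Setoid Plane} {U V : Set Plane} {q q' : Plane}
    (h : SamePlaque F U q q') (hUV : U ⊆ V) : SamePlaque F V q q' :=
  JoinedIn.mono h (inter_subset_inter_right _ hUV)

/-- A transitive relation which holds between points of the same small plaque holds between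
points of the same leaf. -/
theorem leaf_induction {F : Setoid Plane} (hF : ∀ p, IsPathConnected (leaf F p))
    (P : Plane → Plane → Prop) (htrans : ∀ a b c, P a b → P b c → P a c)
    (hloc : ∀ p, ∃ U, IsOpen U ∧ p ∈ U ∧ ∀ q q', SamePlaque F U q q' → P q q')
    {p q : Plane} (h : F p q) : P p q := by
  obtain ⟨γ, hγ⟩ := (hF p).joinedIn p (F.refl' p) q h
  have hext : ∀ t : ℝ, F p (γ.extend t) := by
    intro t
    have : γ.extend t ∈ range γ := by
      rw [← Path.extend_range]
      exact mem_range_self t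
    obtain ⟨s, hs⟩ := this
    rw [← hs]
    exact hγ s
  have key : ∀ s t : ℝ, P (γ.extend s) (γ.extend t) := by
    apply PreconnectedSpace.induction₂' (fun s t : ℝ => P (γ.extend s) (γ.extend t))
    · intro s
      obtain ⟨U, hU, hsU, hP⟩ := hloc (γ.extend s)
      have h1 : γ.extend ⁻¹' U ∈ 𝓝 s := γ.continuous_extend.continuousAt.preimage_mem_nhds
        (hU.mem_nhds hsU)
      obtain ⟨ε, hε, h2⟩ := Metric.mem_nhds_iff.1 h1
      filter_upwards [Metric.ball_mem_nhds s hε] with t ht
      have h3 : JoinedIn (Metric.ball s ε) s t :=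
        ((convex_ball s ε).isPathConnected ⟨s, Metric.mem_ball_self hε⟩).joinedIn s
          (Metric.mem_ball_self hε) t ht
      have h4 := h3.map_continuousOn (f := γ.extend) γ.continuous_extend.continuousOn
      have h5 : SamePlaque F U (γ.extend s) (γ.extend t) := by
        refine JoinedIn.mono h4 ?_
        rintro _ ⟨r, hr, rfl⟩
        exact ⟨F.trans' (F.symm' (hext s)) (hext r), h2 hr⟩
      exact ⟨hP _ _ h5, hP _ _ h5.symm⟩
    · exact ⟨fun a b c => htrans _ _ _⟩
  have := key 0 1
  simpa using this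

/-- The projection to the leaf space is an open map. -/
theorem IsFoliation.eventually_rel {F : Setoid Plane} (hF : IsFoliation F) {p q : Plane}
    (h : F p q) : ∀ O ∈ 𝓝 q, ∀ᶠ p' in 𝓝 p, ∃ o ∈ O, F p' o := by
  refine leaf_induction hF.isPathConnected_leaf
    (fun p q => ∀ O ∈ 𝓝 q, ∀ᶠ p' in 𝓝 p, ∃ o ∈ O, F p' o) ?_ ?_ h
  · intro a b c hab hbc O hO
    have h1 := hbc O hO
    filter_upwards [hab _ h1] with p' hp'
    obtain ⟨o', ⟨o, ho, h2⟩, h3⟩ := hp'
    exact ⟨o, ho, F.trans' h3 h2⟩
  · intro p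
    obtain ⟨U, φ, hU, hp, hφ⟩ := hF.exists_chart p
    refine ⟨U, hU, hp, ?_⟩
    intro q q' hqq' O hO
    have hq : q ∈ U := hqq'.source_mem.2
    have hq' : q' ∈ U := hqq'.target_mem.2
    have h1 := (hφ ⟨q, hq⟩ ⟨q', hq'⟩).1 hqq'
    let g : U → Plane := fun p' => (φ.symm ((φ ⟨q', hq'⟩).1, (φ p').2)).1
    have hg : Continuous g := by
      apply continuous_subtype_val.comp
      apply φ.symm.continuous.comp
      exact continuous_const.prodMk (continuous_snd.comp φ.continuous)
    have hg0 : g ⟨q, hq⟩ = q' := by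
      simp only [g, h1]
      simp
    have h2 : g ⁻¹' O ∈ 𝓝 (⟨q, hq⟩ : U) := by
      apply hg.continuousAt.preimage_mem_nhds
      rw [hg0]; exact hO
    have h3 := (IsOpen.isOpenEmbedding_subtypeVal hU).map_nhds_eq ⟨q, hq⟩
    simp only at h3
    rw [← h3, eventually_map]
    filter_upwards [h2] with p' hp'
    refine ⟨g p', hp', ?_⟩
    have := (hφ p' (φ.symm ((φ ⟨q', hq'⟩).1, (φ p').2))).2 (by simp)
    exact this.rel

theorem IsFoliation.isOpenMap_mk {F : Setoid Plane} (hF : IsFoliation F) :
    IsOpenMap (Quotient.mk F) := by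
  intro O hO
  rw [← isQuotientMap_quotient_mk'.isOpen_preimage, isOpen_iff_mem_nhds]
  rintro p ⟨q, hq, hpq⟩
  have h : F p q := F.symm' (Quotient.exact hpq)
  filter_upwards [hF.eventually_rel h O (hO.mem_nhds hq)] with p' hp'
  obtain ⟨o, ho, h2⟩ := hp'
  exact ⟨o, ho, (Quotient.sound h2).symm⟩

theorem continuous_mk (F : Setoid Plane) : Continuous (Quotient.mk F) :=
  continuous_quotient_mk'

end Pool.Agent.Helper921_LeafSpaces
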