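import Mathlib
import Pool.Agent.Helper921_LeafSpaces.Defs
import Pool.Agent.Helper921_LeafSpaces.Fol

/-!
# Boxes adapted to a pair of transverse foliations
-/

namespace Pool.Agent.Helper921_LeafSpaces

open Set Topology Filter TopologicalSpace

/-- An increasing parametrization of the interval `(c - ε, c + ε)` by the line. -/
noncomputable def param (c ε t : ℝ) : ℝ := c + (2 * ε / Real.pi) * Real.arctan t

theorem param_zero (c ε : ℝ) : param c ε 0 = c := by simp [param]

theorem continuous_param (c ε : ℝ) : Continuous (param c ε) := by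
  unfold param; fun_prop

theorem param_mem {c ε : ℝ} (hε : 0 < ε) (t : ℝ) : param c ε t ∈ Ioo (c - ε) (c + ε) := by
  unfold param
  have h1 := Real.neg_pi_div_two_lt_arctan t
  have h2 := Real.arctan_lt_pi_div_two t
  have hpi := Real.pi_pos
  have h3 : 2 * ε / Real.pi * Real.arctan t < ε := by
    rw [div_mul_eq_mul_div, div_lt_iff₀ hpi]; nlinarith
  have h4 : -ε < 2 * ε / Real.pi * Real.arctan t := by
    rw [div_mul_eq_mul_div, lt_div_iff₀ hpi]; nlinarith
  constructor <;> linarith

theorem param_strictMono {c ε : ℝ} (hε : 0 < ε) : StrictMono (param c ε) := by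
  intro s t hst
  unfold param
  have := Real.arctan_strictMono hst
  have h : 0 < 2 * ε / Real.pi := by have := Real.pi_pos; positivity
  nlinarith

theorem range_param {c ε : ℝ} (hε : 0 < ε) : range (param c ε) = Ioo (c - ε) (c + ε) := by
  apply Subset.antisymm
  · rintro _ ⟨t, rfl⟩
    exact param_mem hε t
  · intro y hy
    have hpi := Real.pi_pos
    have : (y - c) * Real.pi / (2 * ε) ∈ range Real.arctan := by
      rw [Real.range_arctan]
      constructor
      · rw [lt_div_iff₀ (by positivity)]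
        nlinarith [hy.1]
      · rw [div_lt_iff₀ (by positivity)]
        nlinarith [hy.2]
    obtain ⟨t, ht⟩ := this
    refine ⟨t, ?_⟩
    unfold param
    rw [ht]
    field_simp
    ring

theorem isOpenEmbedding_param {c ε : ℝ} (hε : 0 < ε) : IsOpenEmbedding (param c ε) := by
  refine ⟨(param_strictMono hε).isEmbedding_of_ordConnected ?_, ?_⟩
  · rw [range_param hε]; exact ordConnected_Ioo
  · rw [range_param hε]; exact isOpen_Ioo

/-- A box: an open embedding of the plane in the plane which carries the horizontal lines to the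
plaques of `F` and the vertical lines to the plaques of `G`. -/
structure IsBox (F G : Setoid Plane) (ψ : Plane → Plane) : Prop where
  isOpenEmbedding : IsOpenEmbedding ψ
  samePlaque_left : ∀ z z', SamePlaque F (range ψ) (ψ z) (ψ z') ↔ z.2 = z'.2
  samePlaque_right : ∀ z z', SamePlaque G (range ψ) (ψ z) (ψ z') ↔ z.1 = z'.1

theorem AreTransverse.exists_box {F G : Setoid Plane} (hT : AreTransverse F G) (p : Plane)
    {W : Set Plane} (hW : W ∈ 𝓝 p) : ∃ ψ, IsBox F G ψ ∧ ψ 0 = p ∧ range ψ ⊆ W := by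
  obtain ⟨U, φ, hU, hp, hφF, hφG⟩ := hT p
  set a : ℝ := (φ ⟨p, hp⟩).1.1 with ha
  set b : ℝ := (φ ⟨p, hp⟩).2.1 with hb
  have ha1 : a ∈ Ioo (-1 : ℝ) 1 := (φ ⟨p, hp⟩).1.2
  have hb1 : b ∈ Ioo (-1 : ℝ) 1 := (φ ⟨p, hp⟩).2.2
  -- the inclusion of the square in the plane
  let ι : Square → Plane := fun z => (z.1, z.2)
  have hι : IsOpenEmbedding ι :=
    (isOpen_Ioo.isOpenEmbedding_subtypeVal).prodMap (isOpen_Ioo.isOpenEmbedding_subtypeVal)
  have hO : IsOpenMap (ι ∘ φ) := hι.isOpenMap.comp φ.isOpenMap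
  have hW' : (Subtype.val ⁻¹' W : Set U) ∈ 𝓝 (⟨p, hp⟩ : U) :=
    continuous_subtype_val.continuousAt.preimage_mem_nhds hW
  have h1 : (ι ∘ φ) '' (Subtype.val ⁻¹' W) ∈ 𝓝 (a, b) := hO.image_mem_nhds hW'
  obtain ⟨ε, hε, h2⟩ := Metric.mem_nhds_iff.1 h1
  have h3 : ∀ x ∈ Ioo (a - ε) (a + ε), ∀ y ∈ Ioo (b - ε) (b + ε),
      ∃ u : U, u.1 ∈ W ∧ ((φ u).1 : ℝ) = x ∧ ((φ u).2 : ℝ) = y := by
    intro x hx y hy
    have : (x, y) ∈ Metric.ball (a, b) ε := by
      rw [Metric.mem_ball, Prod.dist_eq, max_lt_iff, Real.dist_eq, Real.dist_eq, abs_lt, abs_lt]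
      exact ⟨⟨by linarith [hx.1], by linarith [hx.2]⟩, by linarith [hy.1], by linarith [hy.2]⟩
    obtain ⟨u, hu, hu'⟩ := h2 this
    have e1 : ((φ u).1 : ℝ) = x := congrArg Prod.fst hu'
    have e2 : ((φ u).2 : ℝ) = y := congrArg Prod.snd hu'
    exact ⟨u, hu, e1, e2⟩
  have hx1 : ∀ x ∈ Ioo (a - ε) (a + ε), x ∈ Ioo (-1 : ℝ) 1 := by
    intro x hx
    obtain ⟨u, -, h, -⟩ := h3 x hx b ⟨by linarith, by linarith⟩
    rw [← h]; exact (φ u).1.2
  have hy1 : ∀ y ∈ Ioo (b - ε) (b + ε), y ∈ Ioo (-1 : ℝ) 1 := by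
    intro y hy
    obtain ⟨u, -, -, h⟩ := h3 a ⟨by linarith, by linarith⟩ y hy
    rw [← h]; exact (φ u).2.2
  let κ : Plane → Square := fun z =>
    (⟨param a ε z.1, hx1 _ (param_mem hε _)⟩, ⟨param b ε z.2, hy1 _ (param_mem hε _)⟩)
  have hικ : ι ∘ κ = Prod.map (param a ε) (param b ε) := rfl
  have hκ : IsOpenEmbedding κ := by
    refine IsOpenEmbedding.of_comp κ hι ?_
    rw [hικ]
    exact (isOpenEmbedding_param hε).prodMap (isOpenEmbedding_param hε)
  let ψ : Plane → Plane := fun z => (φ.symm (κ z)).1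
  have hψ : IsOpenEmbedding ψ :=
    (hU.isOpenEmbedding_subtypeVal).comp (φ.symm.isOpenEmbedding.comp hκ)
  have hrange : range ψ ⊆ U := by
    rintro _ ⟨z, rfl⟩
    exact (φ.symm (κ z)).2
  have hWψ : range ψ ⊆ W := by
    rintro _ ⟨z, rfl⟩
    obtain ⟨u, hu, e1, e2⟩ := h3 _ (param_mem (c := a) hε z.1) _ (param_mem (c := b) hε z.2)
    have : φ u = κ z := Prod.ext (Subtype.ext e1) (Subtype.ext e2)
    have h4 : ψ z = u.1 := by
      simp only [ψ, ← this, Homeomorph.symm_apply_apply]
    rw [h4]; exact hu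
  refine ⟨ψ, ⟨hψ, ?_, ?_⟩, ?_, hWψ⟩
  · intro z z'
    constructor
    · intro h
      have h5 := (hφF (φ.symm (κ z)) (φ.symm (κ z'))).1 (h.mono hrange)
      simp only [Homeomorph.apply_symm_apply] at h5
      have h6 : param b ε z.2 = param b ε z'.2 := congrArg Subtype.val h5
      exact (param_strictMono hε).injective h6
    · intro h
      have hrel : ∀ w : Plane, w.2 = z.2 → F (ψ z) (ψ w) := by
        intro w hw
        refine ((hφF (φ.symm (κ z)) (φ.symm (κ w))).2 ?_).rel
        simp only [Homeomorph.apply_symm_apply, κ, hw]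
      have hseg : JoinedIn {w : Plane | w.2 = z.2} z z' := by
        refine JoinedIn.ofLine (f := fun t => ((1 - t) * z.1 + t * z'.1, z.2)) ?_ ?_ ?_ ?_
        · fun_prop
        · simp
        · simp [h]
        · rintro _ ⟨t, -, rfl⟩
          rfl
      have := hseg.map hψ.continuous
      refine JoinedIn.mono this ?_
      rintro _ ⟨w, hw, rfl⟩
      exact ⟨hrel w hw, mem_range_self _⟩
  · intro z z'
    constructor
    · intro h
      have h5 := (hφG (φ.symm (κ z)) (φ.symm (κ z'))).1 (h.mono hrange)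
      simp only [Homeomorph.apply_symm_apply] at h5
      have h6 : param a ε z.1 = param a ε z'.1 := congrArg Subtype.val h5
      exact (param_strictMono hε).injective h6
    · intro h
      have hrel : ∀ w : Plane, w.1 = z.1 → G (ψ z) (ψ w) := by
        intro w hw
        refine ((hφG (φ.symm (κ z)) (φ.symm (κ w))).2 ?_).rel
        simp only [Homeomorph.apply_symm_apply, κ, hw]
      have hseg : JoinedIn {w : Plane | w.1 = z.1} z z' := by
        refine JoinedIn.ofLine (f := fun t => (z.1, (1 - t) * z.2 + t * z'.2)) ?_ ?_ ?_ ?_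
        · fun_prop
        · simp
        · simp [h]
        · rintro _ ⟨t, -, rfl⟩
          rfl
      have := hseg.map hψ.continuous
      refine JoinedIn.mono this ?_
      rintro _ ⟨w, hw, rfl⟩
      exact ⟨hrel w hw, mem_range_self _⟩
  · have : κ 0 = φ ⟨p, hp⟩ := by
      apply Prod.ext <;> apply Subtype.ext
      · simp [κ, param_zero, ← ha]
      · simp [κ, param_zero, ← hb]
    simp only [ψ, this, Homeomorph.symm_apply_apply]

end Pool.Agent.Helper921_LeafSpaces
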