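import Mathlib
import Pool.Agent.Helper921_LeafSpaces.Defs

/-!
# Left and right sides of the points of an oriented simply connected one-manifold
-/

namespace Pool.Agent.Helper921_LeafSpaces

open Set Topology Filter TopologicalSpace

variable {X : Type*} [TopologicalSpace X]

/-- The left and right sides of the points of an oriented simply connected `1`-manifold. -/
structure IsSides (L R : X → Set X) : Prop where
  isOpen_left : ∀ x, IsOpen (L x)
  isOpen_right : ∀ x, IsOpen (R x)
  disjoint : ∀ x, Disjoint (L x) (R x)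
  union : ∀ x, L x ∪ R x = {x}ᶜ
  left_conn : ∀ x, IsPreconnected (insert x (L x))
  right_conn : ∀ x, IsPreconnected (insert x (R x))
  exists_chart : ∀ x, ∃ f : ℝ → X, IsOpenEmbedding f ∧ f 0 = x ∧
    ∀ s t, s < t → f s ∈ L (f t) ∧ f t ∈ R (f s)

/-- The side `S x` is bent. -/
def Bent (S : X → Set X) (x : X) : Prop := ∃ z ∈ S x, x ∈ S z

namespace IsSides

variable {L R : X → Set X}

theorem symm (h : IsSides L R) : IsSides R L where
  isOpen_left := h.isOpen_right
  isOpen_right := h.isOpen_left
  disjoint x := (h.disjoint x).symm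
  union x := by rw [union_comm]; exact h.union x
  left_conn := h.right_conn
  right_conn := h.left_conn
  exists_chart x := by
    obtain ⟨f, hf, hf0, hfs⟩ := h.exists_chart x
    refine ⟨fun t => f (-t), hf.comp (Homeomorph.neg ℝ).isOpenEmbedding, by simp [hf0], ?_⟩
    intro s t hst
    have := hfs (-t) (-s) (by linarith)
    exact ⟨this.2, this.1⟩

theorem notMem_left (h : IsSides L R) (x : X) : x ∉ L x := by
  intro hx
  have : x ∈ ({x}ᶜ : Set X) := by rw [← h.union x]; exact Or.inl hx
  exact this rfl

theorem notMem_right (h : IsSides L R) (x : X) : x ∉ R x := h.symm.notMem_left x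

theorem ne_of_left (h : IsSides L R) {x z : X} (hz : z ∈ L x) : z ≠ x := by
  rintro rfl; exact h.notMem_left _ hz

theorem ne_of_right (h : IsSides L R) {x z : X} (hz : z ∈ R x) : z ≠ x := by
  rintro rfl; exact h.notMem_right _ hz

theorem mem_or (h : IsSides L R) {x z : X} (hz : z ≠ x) : z ∈ L x ∨ z ∈ R x := by
  have : z ∈ ({x}ᶜ : Set X) := hz
  rw [← h.union x] at this
  exact this

theorem not_both (h : IsSides L R) {x z : X} (h1 : z ∈ L x) (h2 : z ∈ R x) : False :=
  Set.disjoint_left.1 (h.disjoint x) h1 h2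

theorem right_of_notMem_left (h : IsSides L R) {x z : X} (hz : z ≠ x) (h1 : z ∉ L x) :
    z ∈ R x := (h.mem_or hz).resolve_left h1

theorem left_of_notMem_right (h : IsSides L R) {x z : X} (hz : z ≠ x) (h1 : z ∉ R x) :
    z ∈ L x := (h.mem_or hz).resolve_right h1

/-- A preconnected set which does not contain `x` and meets `L x` lies in `L x`. -/
theorem subset_left (h : IsSides L R) {C : Set X} (hC : IsPreconnected C) {x z : X}
    (hx : x ∉ C) (hz : z ∈ C) (hzx : z ∈ L x) : C ⊆ L x := by
  apply hC.subset_left_of_subset_union (h.isOpen_left x) (h.isOpen_right x) (h.disjoint x)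
  · rw [h.union]
    intro w hw hwx
    exact hx (hwx ▸ hw)
  · exact ⟨z, hz, hzx⟩

theorem subset_right (h : IsSides L R) {C : Set X} (hC : IsPreconnected C) {x z : X}
    (hx : x ∉ C) (hz : z ∈ C) (hzx : z ∈ R x) : C ⊆ R x :=
  h.symm.subset_left hC hx hz hzx

/-- nesting: `z` right of `x`, `x` left of `z` -/
theorem nest_rl (h : IsSides L R) {x z : X} (h1 : z ∈ R x) (h2 : x ∈ L z) :
    insert z (R z) ⊆ R x :=
  h.subset_right (h.right_conn z) (by
    rintro (h3 | h3)
    · exact h.ne_of_right h1 h3.symm
    · exact h.not_both h2 h3) (mem_insert _ _) h1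

theorem nest_lr (h : IsSides L R) {x z : X} (h1 : z ∈ L x) (h2 : x ∈ R z) :
    insert z (L z) ⊆ L x := h.symm.nest_rl h1 h2

/-- nesting: `z` right of `x`, `x` right of `z` -/
theorem nest_rr (h : IsSides L R) {x z : X} (h1 : z ∈ R x) (h2 : x ∈ R z) :
    insert z (L z) ⊆ R x :=
  h.subset_right (h.left_conn z) (by
    rintro (h3 | h3)
    · exact h.ne_of_right h1 h3.symm
    · exact h.not_both h3 h2) (mem_insert _ _) h1

theorem nest_ll (h : IsSides L R) {x z : X} (h1 : z ∈ L x) (h2 : x ∈ L z) :
    insert z (R z) ⊆ L x := h.symm.nest_rr h1 h2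

end IsSides

end Pool.Agent.Helper921_LeafSpaces
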