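import Mathlib
import Pool.Agent.Helper921_LeafSpaces.Sides

set_option autoImplicit false
set_option linter.unusedSectionVars false

namespace Pool.Agent.Helper921_LeafSpaces

open Set Topology Filter TopologicalSpace

variable {X : Type*} [TopologicalSpace X]

/-- The west side of `k`: `L k` if `k ∈ σ` (positive), `R k` otherwise. -/
def west (L R : X → Set X) (σ : Set X) (k : X) : Set X := {x | (k ∈ σ → x ∈ L k) ∧ (k ∉ σ → x ∈ R k)}

/-! TARGET. Linear order of the core. `K := {x | Bent L x ∧ Bent R x}`.
Note first: if x ≠ z, the side of z which does not contain x is disjoint from the side of x not containing z (nesting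
lemmas). If x, y, z are three different points such that none of them separates the other two (i.e. for each of them the
other two lie in the same side), then the three sides not containing the other two are pairwise disjoint; if all three
points are in K these sides are bent, which contradicts `hthree`. So among three different points of K one separates the
other two.
If K is empty there is nothing to prove. Otherwise fix k0 ∈ K and take
  σ := {k | (k = k0) ∨ (k ∈ R k0 ∧ k0 ∈ L k) ∨ (k ∈ L k0 ∧ k0 ∈ R k)}.
(so west k0 = L k0; for k ∈ R k0 the west side of k is the side containing k0; for k ∈ L k0 the west side of k is the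
side NOT containing k0). For k ≠ k' in K show k ∈ west k' ↔ k' ∉ west k (equivalently k' in the east side of k):
* k = k0 (or k' = k0): by definition.
* k, k' both in R k0: the west sides contain k0; one of k0, k, k' separates the other two; k0 does not (both in R k0). If
  k separates k0 and k': k' is not in west k; and {k} ∪ west k is connected, avoids k', contains k0 ∈ west k', so
  k ∈ west k'. The other case is symmetric (and excludes the first).
* both in L k0: same with the east sides.
* k ∈ L k0, k' ∈ R k0: k' ∉ west k (the east side of k contains k0, and {k0} ∪ R k0 is connected and avoids k), and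
  k ∈ west k' similarly. And the symmetric case. -/

/-- The two sides indexed by a Boolean. -/
def sideB (L R : X → Set X) (b : Bool) (x : X) : Set X := if b then L x else R x

theorem sideB_not {L R : X → Set X} (h : IsSides L R) (b : Bool) {x z : X} (hz : z ≠ x) :
    z ∈ sideB L R (!b) x ↔ z ∉ sideB L R b x := by
  cases b
  · simp only [sideB, Bool.not_false, if_true, Bool.false_eq_true, if_false]
    exact ⟨fun h1 h2 => h.not_both h1 h2, fun h1 => h.left_of_notMem_right hz h1⟩
  · simp only [sideB, Bool.not_true, if_true, Bool.false_eq_true, if_false]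
    exact ⟨fun h1 h2 => h.not_both h2 h1, fun h1 => h.right_of_notMem_left hz h1⟩

theorem sideB_nest {L R : X → Set X} (h : IsSides L R) (b c : Bool) {x y : X} (hxy : x ≠ y)
    (h1 : y ∉ sideB L R b x) (h2 : x ∈ sideB L R c y) : insert x (sideB L R b x) ⊆ sideB L R c y := by
  have hC : IsPreconnected (insert x (sideB L R b x)) := by
    cases b
    · simpa [sideB] using h.right_conn x
    · simpa [sideB] using h.left_conn x
  have hy : y ∉ insert x (sideB L R b x) := by
    rintro (h3 | h3)
    · exact hxy h3.symm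
    · exact h1 h3
  cases c
  · simp only [sideB, Bool.false_eq_true, if_false] at h2 ⊢
    exact h.subset_right hC hy (mem_insert x _) h2
  · simp only [sideB, if_true] at h2 ⊢
    exact h.subset_left hC hy (mem_insert x _) h2

theorem sideB_disj {L R : X → Set X} (h : IsSides L R) (b c : Bool) {x y : X} (hxy : x ≠ y)
    (h1 : y ∉ sideB L R b x) (h2 : x ∉ sideB L R c y) :
    Disjoint (sideB L R b x) (sideB L R c y) := by
  have h3 := sideB_nest h b (!c) hxy h1 ((sideB_not h c hxy).2 h2)
  rw [Set.disjoint_left]
  intro z hz hz2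
  have h4 := h3 (mem_insert_of_mem _ hz)
  have hzy : z ≠ y := by
    rintro rfl
    exact h1 hz
  exact (sideB_not h c hzy).1 h4 hz2

theorem sideB_sep {L R : X → Set X} (h : IsSides L R)
    (hthree : ∀ (x : Fin 3 → X) (S : Fin 3 → X → Set X), (∀ i, S i = L ∨ S i = R) →
      (∀ i, Bent (S i) (x i)) → ¬ ∀ i j, i ≠ j → Disjoint (S i (x i)) (S j (x j)))
    (b : Fin 3 → Bool) (x : Fin 3 → X) (hK : ∀ i, Bent L (x i) ∧ Bent R (x i))
    (hne : ∀ i j, i ≠ j → x i ≠ x j) (hn : ∀ i j, i ≠ j → x j ∉ sideB L R (b i) (x i)) : False := by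
  refine hthree x (fun i => sideB L R (b i)) (fun i => ?_) (fun i => ?_) (fun i j hij => ?_)
  · cases b i
    · right; funext x; simp [sideB]
    · left; funext x; simp [sideB]
  · have e : sideB L R (b i) = L ∨ sideB L R (b i) = R := by
      cases b i
      · right; funext x; simp [sideB]
      · left; funext x; simp [sideB]
    rcases e with e | e
    · simp only [e]; exact (hK i).1
    · simp only [e]; exact (hK i).2
  · exact sideB_disj h (b i) (b j) (hne i j hij) (hn i j hij) (hn j i hij.symm)

/-- two core points on the same side of a core point -/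
theorem sideB_same {L R : X → Set X} (h : IsSides L R)
    (hthree : ∀ (x : Fin 3 → X) (S : Fin 3 → X → Set X), (∀ i, S i = L ∨ S i = R) →
      (∀ i, Bent (S i) (x i)) → ¬ ∀ i j, i ≠ j → Disjoint (S i (x i)) (S j (x j)))
    (k0 k k' : X) (h0 : Bent L k0 ∧ Bent R k0) (h1 : Bent L k ∧ Bent R k)
    (h2 : Bent L k' ∧ Bent R k') (hk : k ≠ k0) (hk' : k' ≠ k0) (hkk : k ≠ k') (b b' c : Bool)
    (hb : k0 ∈ sideB L R b k) (hb' : k0 ∈ sideB L R b' k') (hc : k ∈ sideB L R c k0)
    (hc' : k' ∈ sideB L R c k0) : k' ∉ sideB L R b k ↔ k ∈ sideB L R b' k' := by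
  constructor
  · intro h3
    by_contra h4
    have h5 := sideB_nest h b (!b') hkk h3 ((sideB_not h b' hkk).2 h4)
    exact (sideB_not h b' hk'.symm).1 (h5 (mem_insert_of_mem _ hb)) hb'
  · intro h3 h4
    refine sideB_sep h hthree ![!c, !b, !b'] ![k0, k, k'] ?_ ?_ ?_
    · intro i
      fin_cases i
      · exact h0
      · exact h1
      · exact h2
    · intro i j hij
      fin_cases i <;> fin_cases j <;> simp at hij ⊢
      · exact hk.symm
      · exact hk'.symm
      · exact hk
      · exact hkk
      · exact hk'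
      · exact hkk.symm
    · have n1 : k ∉ sideB L R (!c) k0 := fun h5 => (sideB_not h c hk).1 h5 hc
      have n2 : k' ∉ sideB L R (!c) k0 := fun h5 => (sideB_not h c hk').1 h5 hc'
      have n3 : k0 ∉ sideB L R (!b) k := fun h5 => (sideB_not h b hk.symm).1 h5 hb
      have n4 : k' ∉ sideB L R (!b) k := fun h5 => (sideB_not h b hkk.symm).1 h5 h4
      have n5 : k0 ∉ sideB L R (!b') k' := fun h5 => (sideB_not h b' hk'.symm).1 h5 hb'
      have n6 : k ∉ sideB L R (!b') k' := fun h5 => (sideB_not h b' hkk).1 h5 h3
      intro i j hij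
      fin_cases i <;> fin_cases j
      · exact absurd rfl hij
      · exact n1
      · exact n2
      · exact n3
      · exact absurd rfl hij
      · exact n4
      · exact n5
      · exact n6
      · exact absurd rfl hij

theorem exists_core_order {L R : X → Set X} (h : IsSides L R)
    (hthree : ∀ (x : Fin 3 → X) (S : Fin 3 → X → Set X), (∀ i, S i = L ∨ S i = R) →
      (∀ i, Bent (S i) (x i)) → ¬ ∀ i j, i ≠ j → Disjoint (S i (x i)) (S j (x j))) :
    ∃ σ : Set X, ∀ k k' : X, Bent L k → Bent R k → Bent L k' → Bent R k' → k ≠ k' →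
      (k ∈ west L R σ k' ↔ k' ∉ west L R σ k) := by
  classical
  by_cases hK : ∃ k0, Bent L k0 ∧ Bent R k0
  swap
  · exact ⟨∅, fun k k' h1 h2 _ _ _ => absurd ⟨k, h1, h2⟩ hK⟩
  obtain ⟨k0, h0⟩ := hK
  let σ : Set X := {k | (k = k0) ∨ (k ∈ R k0 ∧ k0 ∈ L k) ∨ (k ∈ L k0 ∧ k0 ∈ R k)}
  have hw : ∀ k, west L R σ k = sideB L R (decide (k ∈ σ)) k := by
    intro k
    ext x
    by_cases hk : k ∈ σ
    · simp [west, sideB, hk]
    · simp [west, sideB, hk]
  have hσ0 : k0 ∈ σ := Or.inl rfl
  -- the position of `k0`
  have hR : ∀ k, k ≠ k0 → k ∈ R k0 → k0 ∈ sideB L R (decide (k ∈ σ)) k := by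
    intro k hk hkR
    by_cases h1 : k0 ∈ L k
    · have : k ∈ σ := Or.inr (Or.inl ⟨hkR, h1⟩)
      simp [sideB, this, h1]
    · have h2 := h.right_of_notMem_left hk.symm h1
      have : k ∉ σ := by
        rintro (h3 | ⟨-, h3⟩ | ⟨h3, -⟩)
        · exact hk h3
        · exact h1 h3
        · exact h.not_both h3 hkR
      simp [sideB, this, h2]
  have hL : ∀ k, k ≠ k0 → k ∈ L k0 → k0 ∉ sideB L R (decide (k ∈ σ)) k := by
    intro k hk hkL
    by_cases h1 : k0 ∈ R k
    · have : k ∈ σ := Or.inr (Or.inr ⟨hkL, h1⟩)
      simp only [sideB, this, decide_true, if_true]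
      exact fun h2 => h.not_both h2 h1
    · have h2 := h.left_of_notMem_right hk.symm h1
      have : k ∉ σ := by
        rintro (h3 | ⟨h3, -⟩ | ⟨-, h3⟩)
        · exact hk h3
        · exact h.not_both hkL h3
        · exact h1 h3
      simp only [sideB, this, decide_false, Bool.false_eq_true, if_false]
      exact h1
  refine ⟨σ, fun k k' a1 a2 b1 b2 hkk => ?_⟩
  rw [hw k, hw k']
  by_cases e0 : k = k0
  · subst e0
    have e1 : sideB L R (decide (k ∈ σ)) k = L k := by simp [sideB, hσ0]
    rw [e1]
    rcases h.mem_or hkk.symm with h1 | h1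
    · exact ⟨fun h2 => absurd h2 (hL k' hkk.symm h1), fun h2 => absurd h1 h2⟩
    · exact ⟨fun _ h2 => h.not_both h2 h1, fun _ => hR k' hkk.symm h1⟩
  by_cases e0' : k' = k0
  · subst e0'
    have e1 : sideB L R (decide (k' ∈ σ)) k' = L k' := by simp [sideB, hσ0]
    rw [e1]
    rcases h.mem_or hkk with h1 | h1
    · exact ⟨fun _ => hL k hkk h1, fun _ => h1⟩
    · exact ⟨fun h2 => absurd h1 (fun h3 => h.not_both h2 h3), fun h2 => absurd (hR k hkk h1) h2⟩
  rcases h.mem_or e0 with h1 | h1 <;> rcases h.mem_or e0' with h2 | h2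
  · -- both left
    have h3 := sideB_same h hthree k0 k k' h0 ⟨a1, a2⟩ ⟨b1, b2⟩ e0 e0' hkk (!decide (k ∈ σ))
      (!decide (k' ∈ σ)) true ((sideB_not h _ (Ne.symm e0)).2 (hL k e0 h1))
      ((sideB_not h _ (Ne.symm e0')).2 (hL k' e0' h2)) (by simpa [sideB] using h1)
      (by simpa [sideB] using h2)
    rw [sideB_not h _ hkk, sideB_not h _ hkk.symm, not_not] at h3
    tauto
  · -- left, right
    have h3 : insert k0 (R k0) ⊆ sideB L R (!decide (k ∈ σ)) k := by
      have := sideB_nest h false (!decide (k ∈ σ)) (Ne.symm e0)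
        (by simp only [sideB, Bool.false_eq_true, if_false]; exact fun h4 => h.not_both h1 h4)
        ((sideB_not h _ (Ne.symm e0)).2 (hL k e0 h1))
      simpa [sideB] using this
    have h4 : insert k0 (L k0) ⊆ sideB L R (decide (k' ∈ σ)) k' := by
      have := sideB_nest h true (decide (k' ∈ σ)) (Ne.symm e0')
        (by simp only [sideB, if_true]; exact fun h4 => h.not_both h4 h2)
        (hR k' e0' h2)
      simpa [sideB] using this
    exact ⟨fun _ => (sideB_not h _ hkk.symm).1 (h3 (mem_insert_of_mem _ h2)),
      fun _ => h4 (mem_insert_of_mem _ h1)⟩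
  · -- right, left
    have h3 : insert k0 (R k0) ⊆ sideB L R (!decide (k' ∈ σ)) k' := by
      have := sideB_nest h false (!decide (k' ∈ σ)) (Ne.symm e0')
        (by simp only [sideB, Bool.false_eq_true, if_false]; exact fun h4 => h.not_both h2 h4)
        ((sideB_not h _ (Ne.symm e0')).2 (hL k' e0' h2))
      simpa [sideB] using this
    have h4 : insert k0 (L k0) ⊆ sideB L R (decide (k ∈ σ)) k := by
      have := sideB_nest h true (decide (k ∈ σ)) (Ne.symm e0)
        (by simp only [sideB, if_true]; exact fun h4 => h.not_both h4 h1)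
        (hR k e0 h1)
      simpa [sideB] using this
    exact ⟨fun h5 => absurd h5 ((sideB_not h _ hkk).1 (h3 (mem_insert_of_mem _ h1))),
      fun h5 => absurd (h4 (mem_insert_of_mem _ h2)) h5⟩
  · -- both right
    have h3 := sideB_same h hthree k0 k k' h0 ⟨a1, a2⟩ ⟨b1, b2⟩ e0 e0' hkk (decide (k ∈ σ))
      (decide (k' ∈ σ)) false (hR k e0 h1) (hR k' e0' h2) (by simpa [sideB] using h1)
      (by simpa [sideB] using h2)
    exact h3.symm

end Pool.Agent.Helper921_LeafSpaces
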