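import Mathlib

set_option autoImplicit false
set_option linter.unusedSectionVars false

namespace Pool.Agent.Helper921_LeafSpaces

open Set

namespace Dfs

section
variable {P : Type*} [PartialOrder P] (idx : P → ℕ)

/-- the least index of an element below `x` and not below `z` -/
noncomputable def nn (x z : P) : ℕ := sInf (idx '' {w | w ≤ x ∧ ¬ w ≤ z})

theorem nn_le {x z w : P} (h1 : w ≤ x) (h2 : ¬ w ≤ z) : nn idx x z ≤ idx w :=
  Nat.sInf_le ⟨w, ⟨h1, h2⟩, rfl⟩

theorem nn_mem {x z : P} (h : ¬ x ≤ z) : ∃ w, w ≤ x ∧ ¬ w ≤ z ∧ idx w = nn idx x z := by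
  obtain ⟨w, ⟨h1, h2⟩, h3⟩ := Nat.sInf_mem (s := idx '' {w | w ≤ x ∧ ¬ w ≤ z}) ⟨_, x, ⟨le_rfl, h⟩, rfl⟩
  exact ⟨w, h1, h2, h3⟩

/-- the linear order without `sep` -/
def LL (x z : P) : Prop := x < z ∨ (¬ x ≤ z ∧ ¬ z ≤ x ∧ nn idx x z < nn idx z x)

theorem LL_irrefl (x : P) : ¬ LL idx x x := by
  rintro (h | ⟨h, -, -⟩)
  · exact lt_irrefl _ h
  · exact h le_rfl

theorem nn_ne (hinj : ∀ x z, idx x = idx z → x ≤ z ∨ z ≤ x) {x z : P} (h1 : ¬ x ≤ z)
    (h2 : ¬ z ≤ x) : nn idx x z ≠ nn idx z x := by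
  intro h
  obtain ⟨w, a1, a2, a3⟩ := nn_mem idx h1
  obtain ⟨w', b1, b2, b3⟩ := nn_mem idx h2
  rcases hinj w w' (by rw [a3, b3, h]) with h' | h'
  · exact a2 (h'.trans b1)
  · exact b2 (h'.trans a1)

theorem LL_total (hinj : ∀ x z, idx x = idx z → x ≤ z ∨ z ≤ x) {x z : P} (hne : x ≠ z) :
    LL idx x z ∨ LL idx z x := by
  by_cases h1 : x ≤ z
  · exact Or.inl (Or.inl (lt_of_le_of_ne h1 hne))
  by_cases h2 : z ≤ x
  · exact Or.inr (Or.inl (lt_of_le_of_ne h2 (Ne.symm hne)))
  rcases lt_or_gt_of_ne (nn_ne idx hinj h1 h2) with h | h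
  · exact Or.inl (Or.inr ⟨h1, h2, h⟩)
  · exact Or.inr (Or.inr ⟨h2, h1, h⟩)

/-- case 2 -/
theorem LL_lt_inc (hchain : ∀ x y z : P, x ≤ z → y ≤ z → x ≤ y ∨ y ≤ x)
    (hmono : ∀ x z, x ≤ z → idx x ≤ idx z) {x y z : P} (hxy : x < y)
    (h1 : ¬ y ≤ z) (h2 : ¬ z ≤ y) (h3 : nn idx y z < nn idx z y) : LL idx x z := by
  by_cases hxz : x ≤ z
  · exact Or.inl (lt_of_le_of_ne hxz (by
      rintro rfl
      exact h2 hxy.le))
  have hzx : ¬ z ≤ x := fun h => h2 (h.trans hxy.le)
  refine Or.inr ⟨hxz, hzx, ?_⟩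
  have e1 : nn idx x z ≤ nn idx y z := by
    obtain ⟨w, a1, a2, a3⟩ := nn_mem idx h1
    rw [← a3]
    rcases hchain w x y a1 hxy.le with h | h
    · exact nn_le idx h a2
    · exact (nn_le idx le_rfl hxz).trans (hmono _ _ h)
  have e2 : nn idx z y ≤ nn idx z x := by
    obtain ⟨w, a1, a2, a3⟩ := nn_mem idx hzx
    rw [← a3]
    refine nn_le idx a1 ?_
    intro h
    rcases hchain w x y h hxy.le with h' | h'
    · exact a2 h'
    · exact hxz (h'.trans a1)
  omega

/-- case 3 -/
theorem LL_inc_lt (hchain : ∀ x y z : P, x ≤ z → y ≤ z → x ≤ y ∨ y ≤ x)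
    (hmono : ∀ x z, x ≤ z → idx x ≤ idx z) {x y z : P} (hyz : y < z)
    (h1 : ¬ x ≤ y) (h2 : ¬ y ≤ x) (h3 : nn idx x y < nn idx y x) : LL idx x z := by
  have hxz : ¬ x ≤ z := by
    intro h
    rcases hchain x y z h hyz.le with h' | h'
    · exact h1 h'
    · exact h2 h'
  have hzx : ¬ z ≤ x := fun h => h2 (hyz.le.trans h)
  refine Or.inr ⟨hxz, hzx, ?_⟩
  have e1 : nn idx x z ≤ nn idx x y := by
    obtain ⟨w, a1, a2, a3⟩ := nn_mem idx h1
    rw [← a3]
    refine nn_le idx a1 ?_
    intro h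
    rcases hchain w y z h hyz.le with h' | h'
    · exact a2 h'
    · exact h2 (h'.trans a1)
  have e2 : nn idx y x ≤ nn idx z x := by
    obtain ⟨w, a1, a2, a3⟩ := nn_mem idx hzx
    rw [← a3]
    rcases hchain w y z a1 hyz.le with h' | h'
    · exact nn_le idx h' a2
    · exact (nn_le idx le_rfl h2).trans (hmono _ _ h')
  omega

theorem no_cycle {x y z : P} (hxy : ¬ x ≤ y) (hxyn : nn idx x y < nn idx y x)
    (hyzn : nn idx y z < nn idx z y) (hzxn : nn idx z x < nn idx x z)
    (m1 : nn idx x y ≤ nn idx y z) (m2 : nn idx x y ≤ nn idx z x) : False := by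
  obtain ⟨w, a1, a2, a3⟩ := nn_mem idx hxy
  by_cases hw : w ≤ z
  · have := nn_le idx hw a2
    omega
  · have := nn_le idx a1 hw
    omega

theorem LL_trans (hchain : ∀ x y z : P, x ≤ z → y ≤ z → x ≤ y ∨ y ≤ x)
    (hmono : ∀ x z, x ≤ z → idx x ≤ idx z) (hinj : ∀ x z, idx x = idx z → x ≤ z ∨ z ≤ x)
    {x y z : P} (hxy : LL idx x y) (hyz : LL idx y z) : LL idx x z := by
  rcases hxy with hxy | ⟨a1, a2, a3⟩
  · rcases hyz with hyz | ⟨b1, b2, b3⟩
    · exact Or.inl (hxy.trans hyz)
    · exact LL_lt_inc idx hchain hmono hxy b1 b2 b3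
  · rcases hyz with hyz | ⟨b1, b2, b3⟩
    · exact LL_inc_lt idx hchain hmono hyz a1 a2 a3
    · by_cases hxz : x ≤ z
      · refine Or.inl (lt_of_le_of_ne hxz ?_)
        rintro rfl
        omega
      by_cases hzx : z ≤ x
      · exfalso
        have hlt : z < x := lt_of_le_of_ne hzx (by
          rintro rfl
          exact hxz le_rfl)
        rcases LL_lt_inc idx hchain hmono hlt a1 a2 a3 with h | ⟨-, -, h⟩
        · exact b2 h.le
        · omega
      rcases lt_or_gt_of_ne (nn_ne idx hinj hxz hzx) with h | h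
      · exact Or.inr ⟨hxz, hzx, h⟩
      · exfalso
        by_cases c1 : nn idx x y ≤ nn idx y z ∧ nn idx x y ≤ nn idx z x
        · exact no_cycle idx a1 a3 b3 h c1.1 c1.2
        by_cases c2 : nn idx y z ≤ nn idx z x ∧ nn idx y z ≤ nn idx x y
        · exact no_cycle idx b1 b3 h a3 c2.1 c2.2
        exact no_cycle idx hzx h a3 b3 (by omega) (by omega)

theorem LL_convex (hchain : ∀ x y z : P, x ≤ z → y ≤ z → x ≤ y ∨ y ≤ x)
    {x y z : P} (hxz : x ≤ z) (hxy : LL idx x y) (hyz : LL idx y z) : x ≤ y := by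
  by_contra hcon
  rcases hxy with hxy | ⟨a1, a2, a3⟩
  · exact hcon hxy.le
  rcases hyz with hyz | ⟨b1, b2, b3⟩
  · rcases hchain x y z hxz hyz.le with h | h
    · exact a1 h
    · exact a2 h
  have e1 : nn idx y z ≥ nn idx y x := by
    obtain ⟨w, c1, c2, c3⟩ := nn_mem idx b1
    rw [← c3]
    exact nn_le idx c1 (fun h => c2 (h.trans hxz))
  have e2 : nn idx z y ≤ nn idx x y := by
    obtain ⟨w, c1, c2, c3⟩ := nn_mem idx a1
    rw [← c3]
    exact nn_le idx (c1.trans hxz) c2
  omega

end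

end Dfs

/-! TARGET. A depth first order on a forest. Pure order theory, no topology.
`P` is a forest: the elements below any element form a chain. `sep` is a strict weak order on `P` compatible with the
forest, `idx` is a monotone index such that two elements with the same index are comparable.
For x, z incomparable (neither x ≤ z nor z ≤ x) put  n x z := sInf {idx w | w ≤ x ∧ ¬ w ≤ z}  (the set is nonempty: w = x).
n x z ≠ n z x: if idx w = idx w' with w ≤ x, ¬ w ≤ z, w' ≤ z, ¬ w' ≤ x then w ≤ w' ≤ z or w' ≤ w ≤ x, contradiction.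
Define
  r x z := sep x z ∨ (¬ sep x z ∧ ¬ sep z x ∧ (x < z ∨ (¬ x ≤ z ∧ ¬ z ≤ x ∧ n x z < n z x))).
Incomparability for `sep` (neither sep x z nor sep z x) is an equivalence relation (strict weak order), x ≤ z implies it.
Transitivity on triples with x, y, z sep-equivalent (the other cases follow from the strict weak order): write D x for
{w | w ≤ x}; D x ∩ D y, D y ∩ D z, D x ∩ D z are initial segments of the chains, so two of these three sets coincide and are
contained in the third.
 * if x, y, z are pairwise incomparable and D y ∩ D z ⊋ D x ∩ D y = D x ∩ D z: then n x y = n x z, and n y x = n z x since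
   both are attained on (D y ∩ D z) \ D x (idx is monotone and the elements of D y \ D x form a chain, the smaller the
   element the smaller the index). So x is on the same side of y and z.
 * all three intersections equal: the three numbers n x y = n x z, n y x = n y z, n z x = n z y.
 * the cases with x < y or y < z are easier (e.g. x < y: D x ⊆ D y; if z is incomparable with y and n y z < n z y then
   either x ≤ z (so x < z), or n x z = n y z because D x \ D z contains the smallest elements of D y \ D z, ...).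
Convexity (the last conclusion): x ≤ z, r x y, r y z implies x ≤ y: sep-equivalence of x, y, z is clear (if sep x y then
sep z y, as x, z are sep-equivalent, contradiction with r y z by asymmetry). If ¬ x ≤ y then also ¬ y ≤ x (r x y and
y < x are incompatible), z is not below y; y ≤ z would make x, y comparable (both ≤ z), so y, z are incomparable as well;
D z \ D y ⊇ D x \ D y and n z y = n x y, n y z = n y x, so r x y excludes r y z.
-/

theorem exists_dfs_order {P : Type*} [PartialOrder P]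
    (hchain : ∀ x y z : P, x ≤ z → y ≤ z → x ≤ y ∨ y ≤ x)
    (sep : P → P → Prop) (hasymm : ∀ x y, sep x y → ¬ sep y x)
    (hneg : ∀ x y z, sep x z → sep x y ∨ sep y z)
    (hle : ∀ x z, x ≤ z → ¬ sep x z ∧ ¬ sep z x)
    (idx : P → ℕ) (hmono : ∀ x z, x ≤ z → idx x ≤ idx z)
    (hinj : ∀ x z, idx x = idx z → x ≤ z ∨ z ≤ x) :
    ∃ r : P → P → Prop, (∀ x, ¬ r x x) ∧ (∀ x y z, r x y → r y z → r x z) ∧
      (∀ x y, x ≠ y → r x y ∨ r y x) ∧ (∀ x z, x < z → r x z) ∧ (∀ x z, sep x z → r x z) ∧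
      (∀ x y z, x ≤ z → r x y → r y z → x ≤ y) := by
  have strans : ∀ x y z, sep x y → sep y z → sep x z := by
    intro x y z h1 h2
    rcases hneg x z y h1 with h | h
    · exact h
    · exact (hasymm _ _ h2 h).elim
  refine ⟨fun x z => sep x z ∨ (¬ sep x z ∧ ¬ sep z x ∧ Dfs.LL idx x z), ?_, ?_, ?_, ?_, ?_, ?_⟩
  · rintro x (h | ⟨-, -, h⟩)
    · exact hasymm _ _ h h
    · exact Dfs.LL_irrefl idx x h
  · rintro x y z (h1 | ⟨h1, h2, h3⟩) (h4 | ⟨h4, h5, h6⟩)
    · exact Or.inl (strans x y z h1 h4)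
    · left
      rcases hneg x z y h1 with h | h
      · exact h
      · exact (h5 h).elim
    · left
      rcases hneg y x z h4 with h | h
      · exact (h2 h).elim
      · exact h
    · right
      refine ⟨?_, ?_, Dfs.LL_trans idx hchain hmono hinj h3 h6⟩
      · intro h
        rcases hneg x y z h with h' | h'
        · exact h1 h'
        · exact h4 h'
      · intro h
        rcases hneg z y x h with h' | h'
        · exact h5 h'
        · exact h2 h'
  · intro x y hne
    by_cases h1 : sep x y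
    · exact Or.inl (Or.inl h1)
    by_cases h2 : sep y x
    · exact Or.inr (Or.inl h2)
    rcases Dfs.LL_total idx hinj hne with h | h
    · exact Or.inl (Or.inr ⟨h1, h2, h⟩)
    · exact Or.inr (Or.inr ⟨h2, h1, h⟩)
  · intro x z h
    exact Or.inr ⟨(hle x z h.le).1, (hle x z h.le).2, Or.inl h⟩
  · intro x z h
    exact Or.inl h
  · rintro x y z hxz (h1 | ⟨h1, h2, h3⟩) (h4 | ⟨h4, h5, h6⟩)
    · exact ((hle x z hxz).1 (strans x y z h1 h4)).elim
    · rcases hneg x z y h1 with h | h
      · exact ((hle x z hxz).1 h).elim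
      · exact (h5 h).elim
    · rcases hneg y x z h4 with h | h
      · exact (h2 h).elim
      · exact ((hle x z hxz).1 h).elim
    · exact Dfs.LL_convex idx hchain hxz h3 h6


end Pool.Agent.Helper921_LeafSpaces
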