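import Mathlib

/-!
# A finite mass on all subsets of a separable space
-/

namespace Pool.Agent.Helper921_LeafSpaces

open Set Topology Filter

open Classical in
/-- The mass of a set: the `n`-th point of the sequence `d` has weight `2 ^ (-(n + 1))`. -/
noncomputable def mass {X : Type*} (d : ℕ → X) (S : Set X) : ℝ :=
  ∑' n, if d n ∈ S then (1 / 2 : ℝ) ^ (n + 1) else 0

section

variable {X : Type*} (d : ℕ → X)

theorem summable_geo : Summable (fun n : ℕ => (1 / 2 : ℝ) ^ (n + 1)) := by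
  have := (summable_geometric_two).mul_left (1 / 2 : ℝ)
  refine this.congr fun n => ?_
  rw [pow_succ]; ring

open Classical in
theorem summable_mass (S : Set X) :
    Summable (fun n => if d n ∈ S then (1 / 2 : ℝ) ^ (n + 1) else 0) := by
  refine Summable.of_nonneg_of_le (fun n => ?_) (fun n => ?_) summable_geo
  · split_ifs <;> positivity
  · split_ifs
    · exact le_rfl
    · positivity

theorem mass_nonneg (S : Set X) : 0 ≤ mass d S := by
  unfold mass
  refine tsum_nonneg fun n => ?_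
  split_ifs <;> positivity

theorem mass_mono {S T : Set X} (h : S ⊆ T) : mass d S ≤ mass d T := by
  unfold mass
  refine (summable_mass d S).tsum_le_tsum (fun n => ?_) (summable_mass d T)
  by_cases h1 : d n ∈ S
  · simp [h1, h h1]
  · simp only [h1, if_false]
    split_ifs <;> positivity

theorem mass_empty : mass d ∅ = 0 := by simp [mass]

theorem mass_union {S T : Set X} (h : Disjoint S T) : mass d (S ∪ T) = mass d S + mass d T := by
  unfold mass
  rw [← (summable_mass d S).tsum_add (summable_mass d T)]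
  refine tsum_congr fun n => ?_
  by_cases h1 : d n ∈ S
  · have h2 : d n ∉ T := Set.disjoint_left.1 h h1
    simp [h1, h2]
  · by_cases h2 : d n ∈ T
    · have h3 : d n ∈ S ∪ T := Or.inr h2
      rw [if_pos h3, if_neg h1, if_pos h2, zero_add]
    · have h3 : d n ∉ S ∪ T := fun h => h.elim h1 h2
      rw [if_neg h3, if_neg h1, if_neg h2, zero_add]

theorem mass_pos {S : Set X} {n : ℕ} (h : d n ∈ S) : 0 < mass d S := by
  unfold mass
  refine (summable_mass d S).tsum_pos (fun n => ?_) n ?_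
  · split_ifs <;> positivity
  · simp only [h, if_true]; positivity

open Classical in
/-- Sets which avoid the first points of the sequence have a small mass. -/
theorem exists_avoid {ε : ℝ} (hε : 0 < ε) :
    ∃ N : ℕ, ∀ S : Set X, (∀ n < N, d n ∉ S) → mass d S < ε := by
  obtain ⟨N, hN⟩ : ∃ N : ℕ, (1 / 2 : ℝ) ^ N < ε :=
    exists_pow_lt_of_lt_one hε (by norm_num)
  refine ⟨N, fun S hS => lt_of_le_of_lt ?_ hN⟩
  unfold mass
  rw [← (summable_mass d S).sum_add_tsum_nat_add N]
  have h1 : ∑ i ∈ Finset.range N, (if d i ∈ S then (1 / 2 : ℝ) ^ (i + 1) else 0) = 0 := by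
    refine Finset.sum_eq_zero fun i hi => ?_
    simp [hS i (Finset.mem_range.1 hi)]
  rw [h1, zero_add]
  have h2 : Summable (fun n : ℕ => (1 / 2 : ℝ) ^ (n + N + 1)) :=
    (summable_nat_add_iff (f := fun n : ℕ => (1 / 2 : ℝ) ^ (n + 1)) N).2 summable_geo
  have h3 : ∑' n : ℕ, (1 / 2 : ℝ) ^ (n + N + 1) = (1 / 2) ^ N := by
    have : ∀ n : ℕ, (1 / 2 : ℝ) ^ (n + N + 1) = (1 / 2) ^ n * ((1 / 2) ^ N * (1 / 2)) := by
      intro n; rw [pow_add, pow_add]; ring
    simp_rw [this]
    rw [tsum_mul_right, tsum_geometric_two]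
    ring
  rw [← h3]
  refine ((summable_nat_add_iff N).2 (summable_mass d S)).tsum_le_tsum (fun n => ?_) h2
  split_ifs
  · exact le_rfl
  · positivity

theorem mass_diff {S T : Set X} (h : S ⊆ T) : mass d (T \ S) = mass d T - mass d S := by
  have := mass_union d (disjoint_sdiff_self_right (x := S) (y := T))
  rw [union_sdiff_cancel h] at this
  linarith

theorem mass_union_le (S T : Set X) : mass d (S ∪ T) ≤ mass d S + mass d T := by
  have h1 : S ∪ T = S ∪ (T \ S) := by simp
  rw [h1, mass_union d disjoint_sdiff_self_right]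
  have := mass_mono d (sdiff_subset : T \ S ⊆ T)
  linarith

/-- Continuity from above along a family decreasing to its intersection. -/
theorem mass_inter_cont (S : ℝ → Set X) (hS : ∀ s t, 0 < s → s ≤ t → S s ⊆ S t) {ε : ℝ}
    (hε : 0 < ε) :
    ∃ δ > 0, ∀ t, 0 < t → t ≤ δ → mass d (S t) < mass d {x | ∀ t, 0 < t → x ∈ S t} + ε := by
  obtain ⟨N, hN⟩ := exists_avoid d hε
  set I : Set X := {x | ∀ t, 0 < t → x ∈ S t} with hI
  have h1 : ∀ n, ∃ δ > 0, ∀ t, 0 < t → t ≤ δ → d n ∉ S t \ I := by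
    intro n
    by_cases hn : d n ∈ I
    · exact ⟨1, one_pos, fun t _ _ h => h.2 hn⟩
    · have : ¬ ∀ t, 0 < t → d n ∈ S t := hn
      push Not at this
      obtain ⟨δ, hδ, h2⟩ := this
      exact ⟨δ, hδ, fun t ht htδ h => h2 (hS t δ ht htδ h.1)⟩
  choose δ hδ0 hδ using h1
  have h2 : ∃ δ₀ > 0, ∀ n < N, δ₀ ≤ δ n := by
    clear hN
    induction N with
    | zero => exact ⟨1, one_pos, fun n hn => absurd hn (Nat.not_lt_zero n)⟩
    | succ N ih =>
      obtain ⟨δ₁, h1, h2⟩ := ih
      refine ⟨min δ₁ (δ N), lt_min h1 (hδ0 N), fun n hn => ?_⟩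
      rcases Nat.lt_succ_iff_lt_or_eq.1 hn with h | rfl
      · exact (min_le_left _ _).trans (h2 n h)
      · exact min_le_right _ _
  obtain ⟨δ₀, h3, h4⟩ := h2
  refine ⟨δ₀, h3, fun t ht htδ => ?_⟩
  have h5 : I ⊆ S t := fun x hx => hx t ht
  have h6 := hN (S t \ I) fun n hn => hδ n t ht (htδ.trans (h4 n hn))
  rw [mass_diff d h5] at h6
  linarith

/-- Continuity from below along a family increasing to its union. -/
theorem mass_union_cont (S : ℝ → Set X) (hS : ∀ s t, 0 < s → s ≤ t → S t ⊆ S s) {ε : ℝ}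
    (hε : 0 < ε) :
    ∃ δ > 0, ∀ t, 0 < t → t ≤ δ → mass d {x | ∃ t, 0 < t ∧ x ∈ S t} - ε < mass d (S t) := by
  obtain ⟨δ, hδ, h⟩ := mass_inter_cont d (fun t => (S t)ᶜ)
    (fun s t hs hst => compl_subset_compl.2 (hS s t hs hst)) hε
  refine ⟨δ, hδ, fun t ht htδ => ?_⟩
  have h1 := h t ht htδ
  have h2 : {x | ∀ t, 0 < t → x ∈ (S t)ᶜ} = {x | ∃ t, 0 < t ∧ x ∈ S t}ᶜ := by
    ext x
    simp only [mem_ofPred_eq, mem_compl_iff, not_exists, not_and]
  rw [h2] at h1
  have h3 : ∀ A : Set X, mass d Aᶜ = mass d univ - mass d A := by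
    intro A
    rw [compl_eq_univ_sdiff, mass_diff d (subset_univ A)]
  rw [h3, h3] at h1
  linarith

end

end Pool.Agent.Helper921_LeafSpaces
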