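import Mathlib
import Pool.Agent.Helper921_LeafSpaces.Sides

set_option autoImplicit false
set_option linter.unusedSectionVars false

namespace Pool.Agent.Helper921_LeafSpaces

open Set Topology Filter TopologicalSpace

variable {X : Type*} [TopologicalSpace X]

/-! TARGET. Right siblings of a point `f 0`.
Write `P := ⋃ t > 0, R (f t)` (open) and `Z := ⋂ t > 0, L (f t)`; since `{f t} ⊆ R (f (t/2))` the complement of `P` is
`Z` (for z ∉ P and t > 0: z ≠ f t because f t ∈ R (f (t/2)), so z ∈ L (f t)). Take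
  C := {c | c ∈ Z and every neighbourhood of c meets P}.
(1) f 0 ∈ C: f 0 ∈ L (f t); points f t with t → 0+ are in R (f (t/2)) ⊆ P.
(2) for c ∈ C and t > 0: f t ∈ R c. Otherwise (f t ≠ c since c ∈ L (f t)) f t ∈ L c; the segment f '' (0, t] is
  connected, does not contain c (c ∈ L (f t') for all t' > 0, so c ≠ f t'), hence lies in L c; so does P: for every t'
  in (0,t], {f t'} ∪ R (f t') ⊆ L c by `nest_ll` (c ∈ L (f t'), f t' ∈ L c), and for t' > t, R (f t') ⊆ R (f t).
  Take a chart g at c (g 0 = c). Every neighbourhood of c meets P ⊆ L c, so there are arbitrarily small u > 0 with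
  g (-u) ∈ P, i.e. g (-u) ∈ R (f t') for some t' > 0, while c ∈ L (f t'). The segment g '' [-u, 0] is connected and
  meets both R (f t') and L (f t'), so it contains f t' (else `subset_left`), f t' = g (-v), 0 < v ≤ u, and then
  c = g 0 ∈ R (g (-v)) = R (f t'), contradicting c ∈ L (f t').
(2') consequently, for c ∈ C with chart g: P ⊆ R c (R (f t) ⊆ R c by `nest_rl`), so the points of P close to c are
  g v with v > 0; if g v ∈ R (f t) then c ∈ L (f t) so f t = g v0 for some 0 < v0 < v, and then g v' ∈ R (f t) ⊆ P for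
  all v' > v0; as v is arbitrarily small, g v ∈ P for ALL v > 0.
(3) c, c' ∈ C distinct: c' ∈ R c. Otherwise c' ∈ L c, an open set disjoint from P (P ⊆ R c), contradiction.
(4) Y := ⋃ c ∈ C, ({c} ∪ L c). Then Y ∪ P = univ because X is connected and Y ∪ P is nonempty, open and closed:
  open: at a point c ∈ C the neighbourhood g '' (-1,1) is contained in L c ∪ {c} ∪ P by (2').
  closed: let p ∉ Y ∪ P, so p ∈ Z, p ∉ C; some open V ∋ p misses P; shrink V to a connected open set (image of an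
  interval under a chart). V misses Y: if V meets {c} ∪ L c then c ∉ V (as V misses P and c ∈ C), so V lies in one side
  of c and meets L c, so V ⊆ L c ⊆ Y, contradicting p ∉ Y.
So every z ∈ Z lies in Y (Z is disjoint from P). -/

theorem exists_siblings [PreconnectedSpace X] {L R : X → Set X} (h : IsSides L R) {f : ℝ → X}
    (hf : IsOpenEmbedding f) (hfo : ∀ s t, s < t → f s ∈ L (f t) ∧ f t ∈ R (f s)) :
    ∃ C : Set X, f 0 ∈ C ∧ (∀ c ∈ C, ∀ t, 0 < t → c ∈ L (f t) ∧ f t ∈ R c) ∧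
      (∀ c ∈ C, ∀ c' ∈ C, c ≠ c' → c' ∈ R c) ∧
      ∀ z, (∀ t, 0 < t → z ∈ L (f t)) → ∃ c ∈ C, z = c ∨ z ∈ L c := by
  classical
  set P : Set X := {x | ∃ t : ℝ, 0 < t ∧ x ∈ R (f t)} with hPdef
  have hPopen : IsOpen P := by
    have : P = ⋃ t : ℝ, ⋃ _ : 0 < t, R (f t) := by
      ext x; simp [hPdef]
    rw [this]
    exact isOpen_iUnion fun t => isOpen_iUnion fun _ => h.isOpen_right _
  have hfP : ∀ t, 0 < t → f t ∈ P := fun t ht =>
    ⟨t / 2, by linarith, (hfo (t / 2) t (by linarith)).2⟩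
  have hA : ∀ z, z ∉ P → ∀ t, 0 < t → z ∈ L (f t) := by
    intro z hz t ht
    refine h.left_of_notMem_right ?_ ?_
    · rintro rfl; exact hz (hfP t ht)
    · intro h1; exact hz ⟨t, ht, h1⟩
  have hB : ∀ z, (∀ t, 0 < t → z ∈ L (f t)) → z ∉ P := by
    rintro z hz ⟨t, ht, h1⟩
    exact h.not_both (hz t ht) h1
  set C : Set X := {c | (∀ t, 0 < t → c ∈ L (f t)) ∧ c ∈ closure P} with hCdef
  have hne : ∀ c ∈ C, ∀ t, 0 < t → f t ≠ c := by
    intro c hc t ht he
    have := hc.1 t ht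
    rw [he] at this
    exact h.notMem_left c this
  -- a segment of a chart joining the two sides of a point contains the point
  have hseg : ∀ (g : ℝ → X), Continuous g → ∀ (a b : ℝ) (p : X), a ≤ b →
      ((g a ∈ L p ∧ g b ∈ R p) ∨ (g a ∈ R p ∧ g b ∈ L p)) → ∃ w, a ≤ w ∧ w ≤ b ∧ g w = p := by
    intro g hg a b p hab hs
    by_contra hcon
    push Not at hcon
    have hc : IsPreconnected (g '' Icc a b) := isPreconnected_Icc.image g hg.continuousOn
    have hp : p ∉ g '' Icc a b := by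
      rintro ⟨w, hw, h1⟩
      exact hcon w hw.1 hw.2 h1
    have ha : g a ∈ g '' Icc a b := ⟨a, ⟨le_rfl, hab⟩, rfl⟩
    have hb : g b ∈ g '' Icc a b := ⟨b, ⟨hab, le_rfl⟩, rfl⟩
    rcases hs with ⟨h1, h2⟩ | ⟨h1, h2⟩
    · exact h.not_both (h.subset_left hc hp ha h1 hb) h2
    · exact h.not_both (h.subset_left hc hp hb h2 ha) h1
  -- (1)
  have h0C : f 0 ∈ C := by
    refine ⟨fun t ht => (hfo 0 t ht).1, ?_⟩
    have h1 : f 0 ∈ closure (f '' Ioi 0) := by
      apply image_closure_subset_closure_image hf.continuous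
      refine ⟨0, ?_, rfl⟩
      rw [closure_Ioi]; exact Set.self_mem_Ici
    refine closure_mono ?_ h1
    rintro _ ⟨t, ht, rfl⟩
    exact hfP t ht
  -- (2)
  have h2 : ∀ c ∈ C, ∀ t, 0 < t → f t ∈ R c := by
    intro c hc t ht
    by_contra hcon
    have hL : f t ∈ L c := h.left_of_notMem_right (hne c hc t ht) hcon
    have hseg1 : f '' Ioc 0 t ⊆ L c := by
      refine h.subset_left (isPreconnected_Ioc.image f hf.continuous.continuousOn) ?_
        ⟨t, ⟨ht, le_rfl⟩, rfl⟩ hL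
      rintro ⟨t', ht', h1⟩
      exact hne c hc t' ht'.1 h1
    have hPL : P ⊆ L c := by
      rintro x ⟨t', ht', hx⟩
      by_cases htt : t' ≤ t
      · exact h.nest_ll (hseg1 ⟨t', ⟨ht', htt⟩, rfl⟩) (hc.1 t' ht') (Or.inr hx)
      · push Not at htt
        have h3 : x ∈ R (f t) :=
          h.nest_rl (hfo t t' htt).2 (hfo t t' htt).1 (Or.inr hx)
        exact h.nest_ll hL (hc.1 t ht) (Or.inr h3)
    obtain ⟨g, hg, hg0, hgo⟩ := h.exists_chart c
    have hcr : c ∈ range g := ⟨0, hg0⟩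
    obtain ⟨y, ⟨v, rfl⟩, hyP⟩ := mem_closure_iff.mp hc.2 (range g) hg.isOpen_range hcr
    have hv : v < 0 := by
      rcases lt_trichotomy v 0 with hv | hv | hv
      · exact hv
      · exfalso
        rw [hv, hg0] at hyP
        exact h.notMem_left c (hPL hyP)
      · exfalso
        have h3 := (hgo 0 v hv).2
        rw [hg0] at h3
        exact h.not_both (hPL hyP) h3
    obtain ⟨t', ht', hx⟩ := hyP
    obtain ⟨w, hw1, hw2, hw3⟩ := hseg g hg.continuous v 0 (f t') hv.le
      (Or.inr ⟨hx, by rw [hg0]; exact hc.1 t' ht'⟩)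
    have hw0 : w ≠ 0 := by
      intro h3
      rw [h3, hg0] at hw3
      exact hne c hc t' ht' hw3.symm
    have h4 := (hgo w 0 (lt_of_le_of_ne hw2 hw0)).2
    rw [hg0, hw3] at h4
    exact h.not_both (hc.1 t' ht') h4
  have hPR : ∀ c ∈ C, P ⊆ R c := by
    rintro c hc x ⟨t, ht, hx⟩
    exact h.nest_rl (h2 c hc t ht) (hc.1 t ht) (Or.inr hx)
  -- (2')
  have h2' : ∀ c ∈ C, ∀ g : ℝ → X, IsOpenEmbedding g → g 0 = c →
      (∀ s t, s < t → g s ∈ L (g t) ∧ g t ∈ R (g s)) → ∀ v, 0 < v → g v ∈ P := by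
    intro c hc g hg hg0 hgo v hv
    have hcr : c ∈ g '' Ioo (-v) v := ⟨0, ⟨by linarith, hv⟩, hg0⟩
    obtain ⟨y, ⟨w, hw, rfl⟩, hyP⟩ := mem_closure_iff.mp hc.2 (g '' Ioo (-v) v)
      (hg.isOpenMap _ isOpen_Ioo) hcr
    have hw0 : 0 < w := by
      rcases lt_trichotomy w 0 with hw' | hw' | hw'
      · exfalso
        have h3 := (hgo w 0 hw').1
        rw [hg0] at h3
        exact h.not_both h3 (hPR c hc hyP)
      · exfalso
        rw [hw', hg0] at hyP
        exact h.notMem_right c (hPR c hc hyP)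
      · exact hw'
    obtain ⟨t, ht, hx⟩ := hyP
    obtain ⟨u, hu1, hu2, hu3⟩ := hseg g hg.continuous 0 w (f t) hw0.le
      (Or.inl ⟨by rw [hg0]; exact hc.1 t ht, hx⟩)
    refine ⟨t, ht, ?_⟩
    rw [← hu3]
    exact (hgo u v (by linarith [hw.2])).2
  -- (3)
  have h3 : ∀ c ∈ C, ∀ c' ∈ C, c ≠ c' → c' ∈ R c := by
    intro c hc c' hc' hcc
    by_contra hcon
    have h4 : c' ∈ L c := h.left_of_notMem_right (Ne.symm hcc) hcon
    obtain ⟨y, hy1, hy2⟩ := mem_closure_iff.mp hc'.2 (L c) (h.isOpen_left c) h4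
    exact h.not_both hy1 (hPR c hc hy2)
  -- (4)
  set Y : Set X := {y | ∃ c ∈ C, y = c ∨ y ∈ L c} with hYdef
  have hopen : IsOpen (Y ∪ P) := by
    rw [isOpen_iff_mem_nhds]
    rintro x (⟨c, hc, rfl | hx⟩ | hx)
    · obtain ⟨g, hg, hg0, hgo⟩ := h.exists_chart x
      refine Filter.mem_of_superset (hg.isOpen_range.mem_nhds ⟨0, hg0⟩) ?_
      rintro _ ⟨v, rfl⟩
      rcases lt_trichotomy v 0 with hv | hv | hv
      · left
        refine ⟨x, hc, Or.inr ?_⟩
        rw [← hg0]; exact (hgo v 0 hv).1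
      · left
        refine ⟨x, hc, Or.inl ?_⟩
        rw [hv, hg0]
      · right
        exact h2' x hc g hg hg0 hgo v hv
    · refine Filter.mem_of_superset ((h.isOpen_left c).mem_nhds hx) ?_
      intro y hy
      exact Or.inl ⟨c, hc, Or.inr hy⟩
    · exact Filter.mem_of_superset (hPopen.mem_nhds hx) fun y hy => Or.inr hy
  have hclosed : IsClosed (Y ∪ P) := by
    rw [← isOpen_compl_iff, isOpen_iff_mem_nhds]
    intro p hp
    have hpP : p ∉ P := fun h5 => hp (Or.inr h5)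
    have hpY : p ∉ Y := fun h5 => hp (Or.inl h5)
    have hpC : p ∉ closure P := fun h5 => hpY ⟨p, ⟨hA p hpP, h5⟩, Or.inl rfl⟩
    obtain ⟨g, hg, hg0, hgo⟩ := h.exists_chart p
    have h5 : IsOpen (g ⁻¹' (closure P)ᶜ) := isClosed_closure.isOpen_compl.preimage hg.continuous
    have h6 : (0 : ℝ) ∈ g ⁻¹' (closure P)ᶜ := by
      change g 0 ∈ (closure P)ᶜ
      rw [hg0]; exact hpC
    obtain ⟨ε, hε, h7⟩ := Metric.isOpen_iff.mp h5 0 h6
    have h8 : p ∈ g '' Metric.ball 0 ε := ⟨0, Metric.mem_ball_self hε, hg0⟩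
    refine Filter.mem_of_superset ((hg.isOpenMap _ Metric.isOpen_ball).mem_nhds h8) ?_
    have h9 : ∀ y ∈ g '' Metric.ball 0 ε, y ∉ closure P := by
      rintro _ ⟨v, hv, rfl⟩
      exact h7 hv
    intro y hy hyW
    rcases hyW with ⟨c, hc, hyc⟩ | hyP
    · have hcV : c ∉ g '' Metric.ball 0 ε := fun h10 => h9 c h10 hc.2
      rcases hyc with rfl | hyc
      · exact hcV hy
      · have hV : IsPreconnected (g '' Metric.ball 0 ε) := by
          refine IsPreconnected.image ?_ g hg.continuous.continuousOn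
          rw [Real.ball_eq_Ioo]
          exact isPreconnected_Ioo
        exact hpY ⟨c, hc, Or.inr (h.subset_left hV hcV hy hyc h8)⟩
    · exact h9 y hy (subset_closure hyP)
  have huniv : Y ∪ P = univ :=
    IsClopen.eq_univ ⟨hclosed, hopen⟩ ⟨f 0, Or.inl ⟨f 0, h0C, Or.inl rfl⟩⟩
  refine ⟨C, h0C, fun c hc t ht => ⟨hc.1 t ht, h2 c hc t ht⟩, h3, ?_⟩
  intro z hz
  have h5 : z ∈ Y ∪ P := by rw [huniv]; exact mem_univ z
  rcases h5 with h5 | h5
  · exact h5
  · exact absurd h5 (hB z hz)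

end Pool.Agent.Helper921_LeafSpaces
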