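import Mathlib
import Pool.Agent.Helper921_LeafSpaces.Sides
import Pool.Agent.Helper921_LeafSpaces.Mass
import Pool.Agent.Helper921_LeafSpaces.CoreOrd
import Pool.Agent.Helper921_LeafSpaces.Dfs
import Pool.Agent.Helper921_LeafSpaces.Siblings

/-!
# The clock of the upper end
-/

namespace Pool.Agent.Helper921_LeafSpaces

open Set Topology Filter TopologicalSpace

set_option linter.unusedSectionVars false

variable {X : Type*} [TopologicalSpace X] {L R : X → Set X} {σ : Set X} {d : ℕ → X}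

/-- `σ` orients the core: the separation order is linear on the points with two bent sides. -/
def IsCoreOrder (L R : X → Set X) (σ : Set X) : Prop :=
  ∀ k k' : X, Bent L k → Bent R k → Bent L k' → Bent R k' → k ≠ k' →
    (k ∈ west L R σ k' ↔ k' ∉ west L R σ k)

theorem west_pos {k : X} (hk : k ∈ σ) : west L R σ k = L k := by
  ext x; simp [west, hk]

theorem west_neg {k : X} (hk : k ∉ σ) : west L R σ k = R k := by
  ext x; simp [west, hk]

theorem west_swap (k : X) : west R L σᶜ k = west L R σ k := by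
  by_cases hk : k ∈ σ
  · rw [west_pos hk, west_neg (by simpa using hk)]
  · rw [west_neg hk, west_pos (by simpa using hk)]

theorem IsCoreOrder.swap (hK : IsCoreOrder L R σ) : IsCoreOrder R L σᶜ := by
  intro k k' h1 h2 h3 h4 hne
  rw [west_swap, west_swap]
  exact hK k k' h2 h1 h4 h3 hne

namespace IsSides

theorem bent_left_mono (h : IsSides L R) {w z : X} (h1 : z ∈ R w) (h2 : w ∈ L z)
    (hb : Bent L w) : Bent L z := by
  obtain ⟨v, hv, hwv⟩ := hb
  exact ⟨v, h.nest_lr h2 h1 (mem_insert_of_mem _ hv), h.nest_ll hwv hv (mem_insert_of_mem _ h1)⟩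

theorem bent_right_anti (h : IsSides L R) {w z : X} (h1 : z ∈ R w) (h2 : w ∈ L z)
    (hb : Bent R z) : Bent R w := h.symm.bent_left_mono h2 h1 hb

theorem pure_left (h : IsSides L R) {x z : X} (hx : ¬ Bent L x) (hz : z ∈ L x) : x ∈ R z := by
  by_contra hc
  exact hx ⟨z, hz, h.left_of_notMem_right (fun e => h.ne_of_left hz e.symm) hc⟩

theorem pure_right (h : IsSides L R) {x z : X} (hx : ¬ Bent R x) (hz : z ∈ R x) : x ∈ L z :=
  h.symm.pure_left hx hz

theorem notMem_west (h : IsSides L R) (k : X) : k ∉ west L R σ k := by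
  by_cases hk : k ∈ σ
  · rw [west_pos hk]; exact h.notMem_left k
  · rw [west_neg hk]; exact h.notMem_right k

theorem isOpen_west (h : IsSides L R) (k : X) : IsOpen (west L R σ k) := by
  by_cases hk : k ∈ σ
  · rw [west_pos hk]; exact h.isOpen_left k
  · rw [west_neg hk]; exact h.isOpen_right k

theorem isPreconnected_insert_west (h : IsSides L R) (k : X) :
    IsPreconnected (insert k (west L R σ k)) := by
  by_cases hk : k ∈ σ
  · rw [west_pos hk]; exact h.left_conn k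
  · rw [west_neg hk]; exact h.right_conn k

theorem west_compl (h : IsSides L R) {k x : X} (hx : x ≠ k) :
    x ∈ west L R σᶜ k ↔ x ∉ west L R σ k := by
  by_cases hk : k ∈ σ
  · rw [west_pos hk, west_neg (by simpa using hk)]
    exact ⟨fun h1 h2 => h.not_both h2 h1, fun h1 => h.right_of_notMem_left hx h1⟩
  · rw [west_neg hk, west_pos (by simpa using hk)]
    exact ⟨fun h1 h2 => h.not_both h1 h2, fun h1 => h.left_of_notMem_right hx h1⟩

theorem subset_west (h : IsSides L R) {C : Set X} (hC : IsPreconnected C) {k x : X}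
    (hk : k ∉ C) (hx : x ∈ C) (hxk : x ∈ west L R σ k) : C ⊆ west L R σ k := by
  by_cases hkσ : k ∈ σ
  · rw [west_pos hkσ] at *; exact h.subset_left hC hk hx hxk
  · rw [west_neg hkσ] at *; exact h.subset_right hC hk hx hxk

/-- A preconnected set missing `k` is on one side of `k`. -/
theorem mem_west_iff (h : IsSides L R) {C : Set X} (hC : IsPreconnected C) {k x y : X}
    (hk : k ∉ C) (hx : x ∈ C) (hy : y ∈ C) : x ∈ west L R σ k ↔ y ∈ west L R σ k :=
  ⟨fun hxk => h.subset_west hC hk hx hxk hy, fun hyk => h.subset_west hC hk hy hyk hx⟩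

end IsSides

namespace IsCoreOrder

theorem subset (hK : IsCoreOrder L R σ) (h : IsSides L R) {k k' : X} (h1 : Bent L k)
    (h2 : Bent R k) (h1' : Bent L k') (h2' : Bent R k') (hkk : k ∈ west L R σ k') :
    insert k (west L R σ k) ⊆ west L R σ k' := by
  have hne : k ≠ k' := by rintro rfl; exact h.notMem_west _ hkk
  refine h.subset_west (h.isPreconnected_insert_west k) ?_ (mem_insert _ _) hkk
  rintro (h3 | h3)
  · exact hne h3.symm
  · exact (hK k k' h1 h2 h1' h2' hne).1 hkk h3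

theorem total (hK : IsCoreOrder L R σ) {k k' : X} (h1 : Bent L k)
    (h2 : Bent R k) (h1' : Bent L k') (h2' : Bent R k') (hne : k ≠ k') :
    k ∈ west L R σ k' ∨ k' ∈ west L R σ k := by
  by_cases hc : k' ∈ west L R σ k
  · exact Or.inr hc
  · exact Or.inl ((hK k k' h1 h2 h1' h2' hne).2 hc)

/-- Two core points `w ≪ z` have the same sign. -/
theorem sign (hK : IsCoreOrder L R σ) (h : IsSides L R) {w z : X} (h1 : Bent L w)
    (h2 : Bent R w) (h1' : Bent L z) (h2' : Bent R z) (hzw : z ∈ R w) (hwz : w ∈ L z) :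
    w ∈ σ ↔ z ∈ σ := by
  have hne : w ≠ z := fun e => h.ne_of_left hwz e
  have key := hK w z h1 h2 h1' h2' hne
  constructor
  · intro hw
    by_contra hz
    rw [west_pos hw, west_neg hz] at key
    exact h.not_both hwz (key.2 fun h3 => h.not_both h3 hzw)
  · intro hz
    by_contra hw
    rw [west_neg hw, west_pos hz] at key
    exact key.1 hwz hzw

end IsCoreOrder

/-- The mass of the points of `S` with a bent left side. -/
noncomputable def mU (L : X → Set X) (d : ℕ → X) (S : Set X) : ℝ := mass d (S ∩ {x | Bent L x})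

open Classical in
/-- The reading of the upper clock at a core point. -/
noncomputable def tU (L R : X → Set X) (σ : Set X) (d : ℕ → X) (k : X) : ℝ :=
  if k ∈ σ then mU L d (insert k (L k)) else mU L d (R k)

theorem tU_pos {k : X} (hk : k ∈ σ) : tU L R σ d k = mU L d (insert k (L k)) := by
  simp [tU, hk]

theorem tU_neg {k : X} (hk : k ∉ σ) : tU L R σ d k = mU L d (R k) := by
  simp [tU, hk]

theorem mU_mono {S T : Set X} (hST : ∀ x ∈ S, Bent L x → x ∈ T) : mU L d S ≤ mU L d T :=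
  mass_mono d fun x hx => ⟨hST x hx.1 hx.2, hx.2⟩

theorem mU_nonneg (S : Set X) : 0 ≤ mU L d S := mass_nonneg d _

theorem mU_union {S T : Set X} (hST : ∀ x ∈ S, x ∉ T) : mU L d (S ∪ T) = mU L d S + mU L d T := by
  unfold mU
  rw [union_inter_distrib_right, mass_union]
  rw [Set.disjoint_left]
  exact fun x hx hx' => hST x hx.1 hx'.1

theorem mU_le_univ (S : Set X) : mU L d S ≤ mU L d univ := mU_mono fun _ _ _ => trivial

theorem mU_west_le (k : X) : mU L d (west L R σ k) ≤ tU L R σ d k := by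
  by_cases hk : k ∈ σ
  · rw [west_pos hk, tU_pos hk]; exact mU_mono fun x hx _ => mem_insert_of_mem _ hx
  · rw [west_neg hk, tU_neg hk]

theorem tU_le (k : X) : tU L R σ d k ≤ mU L d (insert k (west L R σ k)) := by
  by_cases hk : k ∈ σ
  · rw [west_pos hk, tU_pos hk]
  · rw [west_neg hk, tU_neg hk]; exact mU_mono fun x hx _ => mem_insert_of_mem _ hx

theorem IsCoreOrder.tU_mono (hK : IsCoreOrder L R σ) (h : IsSides L R) {k k' : X}
    (h1 : Bent L k) (h2 : Bent R k) (h1' : Bent L k') (h2' : Bent R k')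
    (hkk : k ∈ west L R σ k') : tU L R σ d k ≤ tU L R σ d k' :=
  (tU_le k).trans ((mU_mono fun _ hx _ => hK.subset h h1 h2 h1' h2' hkk hx).trans (mU_west_le k'))

/-- **The slots of the upper clock.** -/
theorem exists_slots (h : IsSides L R) (hK : IsCoreOrder L R σ)
    (hd : DenseRange d) :
    ∃ a b : X → ℝ,
      (∀ x, Bent L x → ¬ Bent R x → b x = a x + mU L d (R x)) ∧
      (∀ x, Bent L x → ¬ Bent R x → 0 ≤ a x ∧ b x ≤ mU L d univ) ∧
      (∀ x z, Bent L x → ¬ Bent R x → Bent L z → ¬ Bent R z → z ∈ R x → a x ≤ a z ∧ b z ≤ b x) ∧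
      (∀ x z, Bent L x → ¬ Bent R x → Bent L z → ¬ Bent R z → x ≠ z → z ∉ R x → x ∉ R z →
        b x ≤ a z ∨ b z ≤ a x) ∧
      (∀ x k, Bent L x → ¬ Bent R x → Bent L k → Bent R k → x ∈ west L R σ k →
        b x ≤ tU L R σ d k) ∧
      (∀ x k, Bent L x → ¬ Bent R x → Bent L k → Bent R k → x ∉ west L R σ k →
        tU L R σ d k ≤ a x) := by
  classical
  -- points of `R x` for `x` with pure right side
  have hR : ∀ x, Bent L x → ¬ Bent R x → ∀ z ∈ R x, x ∈ L z ∧ Bent L z ∧ ¬ Bent R z := by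
    intro x hx hx' z hz
    have h1 := h.pure_right hx' hz
    exact ⟨h1, h.bent_left_mono hz h1 hx, fun h2 => hx' (h.bent_right_anti hz h1 h2)⟩
  let P : Type _ := {x : X // Bent L x ∧ ¬ Bent R x}
  let instP : PartialOrder P :=
    { le := fun x z => z.1 = x.1 ∨ z.1 ∈ R x.1
      le_refl := fun x => Or.inl rfl
      le_trans := by
        rintro ⟨x, hx⟩ ⟨y, hy⟩ ⟨z, hz⟩ hxy hyz
        rcases hxy with h1 | h1
        · change y = x at h1; subst h1; exact hyz
        · rcases hyz with h2 | h2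
          · change z = y at h2; subst h2; exact Or.inr h1
          · exact Or.inr (h.nest_rl h1 (hR x hx.1 hx.2 y h1).1 (mem_insert_of_mem _ h2))
      le_antisymm := by
        rintro ⟨x, hx⟩ ⟨y, hy⟩ hxy hyx
        rcases hxy with h1 | h1
        · exact Subtype.ext h1.symm
        · rcases hyx with h2 | h2
          · exact Subtype.ext h2
          · exact (h.not_both (hR x hx.1 hx.2 y h1).1 h2).elim }
  have le_iff : ∀ x z : P, x ≤ z ↔ z.1 = x.1 ∨ z.1 ∈ R x.1 := fun x z => Iff.rfl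
  have lt_of : ∀ x z : P, z.1 ∈ R x.1 → x < z := by
    intro x z hz
    refine lt_of_le_of_ne (Or.inr hz) ?_
    rintro rfl
    exact h.notMem_right _ hz
  have hchain : ∀ x y z : P, x ≤ z → y ≤ z → x ≤ y ∨ y ≤ x := by
    rintro ⟨x, hx⟩ ⟨y, hy⟩ ⟨z, hz⟩ hxz hyz
    by_contra hc
    rw [not_or] at hc
    obtain ⟨h1, h2⟩ := hc
    rw [le_iff, not_or] at h1 h2
    simp only at h1 h2
    have h3 : y ∈ L x := h.left_of_notMem_right h1.1 h1.2
    have h4 : x ∈ L y := h.left_of_notMem_right h2.1 h2.2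
    have h5 := h.nest_ll h3 h4
    have h6 : z ∈ L x := by
      apply h5
      rcases hyz with h7 | h7
      · exact Or.inl h7
      · exact Or.inr h7
    rcases hxz with h7 | h7
    · change z = x at h7
      exact h.notMem_left x (h7 ▸ h6)
    · exact h.not_both h6 h7
  have hconnR : ∀ x, IsPreconnected (insert x (R x)) := h.right_conn
  -- no core point in `insert x (R x)`
  have hnc : ∀ x, Bent L x → ¬ Bent R x → ∀ k, Bent R k → k ∉ insert x (R x) := by
    intro x hx hx' k hk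
    rintro (rfl | h1)
    · exact hx' hk
    · exact (hR x hx hx' k h1).2.2 hk
  have hside : ∀ x, Bent L x → ¬ Bent R x → ∀ k, Bent R k → ∀ z ∈ insert x (R x),
      (z ∈ west L R σ k ↔ x ∈ west L R σ k) := fun x hx hx' k hk z hz =>
    h.mem_west_iff (hconnR x) (hnc x hx hx' k hk) hz (mem_insert _ _)
  let sep : P → P → Prop := fun x z => ∃ k, Bent L k ∧ Bent R k ∧ x.1 ∈ west L R σ k ∧
    z.1 ∉ west L R σ k
  have hPk : ∀ x : P, ∀ k, Bent R k → x.1 ≠ k := by
    rintro ⟨x, hx⟩ k hk e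
    change x = k at e
    subst e
    exact hx.2 hk
  have hasymm : ∀ x y, sep x y → ¬ sep y x := by
    rintro x y ⟨k, hk1, hk2, hx, hy⟩ ⟨k', hk1', hk2', hy', hx'⟩
    have hne : k ≠ k' := by rintro rfl; exact hy hy'
    rcases hK.total hk1 hk2 hk1' hk2' hne with h1 | h1
    · exact hx' (hK.subset h hk1 hk2 hk1' hk2' h1 (mem_insert_of_mem _ hx))
    · exact hy (hK.subset h hk1' hk2' hk1 hk2 h1 (mem_insert_of_mem _ hy'))
  have hneg : ∀ x y z, sep x z → sep x y ∨ sep y z := by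
    rintro x y z ⟨k, hk1, hk2, hx, hz⟩
    by_cases hy : y.1 ∈ west L R σ k
    · exact Or.inr ⟨k, hk1, hk2, hy, hz⟩
    · exact Or.inl ⟨k, hk1, hk2, hx, hy⟩
  have hle : ∀ x z : P, x ≤ z → ¬ sep x z ∧ ¬ sep z x := by
    intro x z hxz
    have h1 : z.1 ∈ insert x.1 (R x.1) := hxz
    constructor
    · rintro ⟨k, hk1, hk2, hx, hz⟩
      exact hz ((hside x.1 x.2.1 x.2.2 k hk2 z.1 h1).2 hx)
    · rintro ⟨k, hk1, hk2, hz, hx⟩
      exact hx ((hside x.1 x.2.1 x.2.2 k hk2 z.1 h1).1 hz)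
  have hexR : ∀ x : X, ∃ n, d n ∈ R x := by
    intro x
    obtain ⟨f, hf, hf0, hfo⟩ := h.exists_chart x
    have hne : (R x).Nonempty := ⟨f 1, by have := (hfo 0 1 one_pos).2; rwa [hf0] at this⟩
    exact hd.exists_mem_open (h.isOpen_right x) hne
  let idx : P → ℕ := fun x => Nat.find (hexR x.1)
  have hmono : ∀ x z, x ≤ z → idx x ≤ idx z := by
    intro x z hxz
    apply Nat.find_min'
    have h1 : d (idx z) ∈ R z.1 := Nat.find_spec (hexR z.1)
    rcases hxz with h2 | h2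
    · rwa [h2] at h1
    · exact h.nest_rl h2 (hR x.1 x.2.1 x.2.2 z.1 h2).1 (mem_insert_of_mem _ h1)
  have hinj : ∀ x z, idx x = idx z → x ≤ z ∨ z ≤ x := by
    intro x z hxz
    have h1 : d (idx x) ∈ R x.1 := Nat.find_spec (hexR x.1)
    have h2 : d (idx z) ∈ R z.1 := Nat.find_spec (hexR z.1)
    rw [← hxz] at h2
    have h3 := hR x.1 x.2.1 x.2.2 _ h1
    exact hchain x z ⟨d (idx x), h3.2⟩ (Or.inr h1) (Or.inr h2)
  obtain ⟨r, hirr, htrans, htot, hlt, hsep, hconv⟩ :=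
    exists_dfs_order hchain sep hasymm hneg hle idx hmono hinj
  -- the points before `x`
  let B : P → Set X := fun x => {z | (Bent R z ∧ x.1 ∉ west L R σ z) ∨
    ∃ hz : Bent L z ∧ ¬ Bent R z, r ⟨z, hz⟩ x ∨ z = x.1}
  -- reading off
  have hBR : ∀ x : P, ∀ z ∈ B x, z ∉ R x.1 := by
    rintro x z hz hzR
    have h1 := hR x.1 x.2.1 x.2.2 z hzR
    rcases hz with h2 | ⟨hz, h2⟩
    · exact h1.2.2 h2.1
    · rcases h2 with h2 | h2
      · exact hirr _ (htrans _ _ _ h2 (hlt x ⟨z, hz⟩ (lt_of x ⟨z, hz⟩ hzR)))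
      · exact h.notMem_right _ (h2 ▸ hzR)
  have key1 : ∀ x z : P, x ≤ z → ∀ w ∈ B x, Bent L w → w ∈ B z := by
    rintro x z hxz w hw hwL
    rcases hw with h1 | ⟨hw, h1⟩
    · refine Or.inl ⟨h1.1, fun h2 => h1.2 ?_⟩
      exact (hside x.1 x.2.1 x.2.2 w h1.1 z.1 hxz).1 h2
    · refine Or.inr ⟨hw, ?_⟩
      rcases eq_or_lt_of_le hxz with h2 | h2
      · rw [← h2]; exact h1
      · left
        rcases h1 with h1 | h1
        · exact htrans _ _ _ h1 (hlt _ _ h2)
        · have : (⟨w, hw⟩ : P) = x := Subtype.ext h1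
          rw [this]
          exact hlt _ _ h2
  have key2 : ∀ x z : P, x ≤ z → ∀ w ∈ B z ∪ R z.1, Bent L w → w ∈ B x ∪ R x.1 := by
    rintro x z hxz w hw hwL
    have hRR : ∀ w ∈ R z.1, w ∈ R x.1 := by
      intro w hw
      rcases hxz with h2 | h2
      · rwa [h2] at hw
      · exact h.nest_rl h2 (hR x.1 x.2.1 x.2.2 z.1 h2).1 (mem_insert_of_mem _ hw)
    rcases hw with hw | hw
    · rcases hw with h1 | ⟨hw, h1⟩
      · refine Or.inl (Or.inl ⟨h1.1, fun h2 => h1.2 ?_⟩)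
        exact (hside x.1 x.2.1 x.2.2 w h1.1 z.1 hxz).2 h2
      · rcases h1 with h1 | h1
        · by_cases h3 : (⟨w, hw⟩ : P) = x
          · exact Or.inl (Or.inr ⟨hw, Or.inr (congrArg Subtype.val h3)⟩)
          · rcases htot _ _ h3 with h4 | h4
            · exact Or.inl (Or.inr ⟨hw, Or.inl h4⟩)
            · rcases hconv x ⟨w, hw⟩ z hxz h4 h1 with h5 | h5
              · exact absurd (Subtype.ext h5) h3
              · exact Or.inr h5
        · rcases hxz with h2 | h2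
          · exact Or.inl (Or.inr ⟨hw, Or.inr (h1.trans h2)⟩)
          · exact Or.inr (h1 ▸ h2)
    · exact Or.inr (hRR w hw)
  have key3 : ∀ x z : P, ¬ x ≤ z → ¬ z ≤ x → r x z → ∀ w ∈ B x ∪ R x.1, Bent L w → w ∈ B z := by
    rintro x z hxz hzx hr w hw hwL
    rcases hw with hw | hw
    · rcases hw with h1 | ⟨hw, h1⟩
      · refine Or.inl ⟨h1.1, fun h2 => ?_⟩
        exact hirr _ (htrans _ _ _ hr (hsep z x ⟨w, hwL, h1.1, h2, h1.2⟩))
      · refine Or.inr ⟨hw, Or.inl ?_⟩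
        rcases h1 with h1 | h1
        · exact htrans _ _ _ h1 hr
        · have : (⟨w, hw⟩ : P) = x := Subtype.ext h1
          rw [this]
          exact hr
    · have h1 := hR x.1 x.2.1 x.2.2 w hw
      refine Or.inr ⟨h1.2, Or.inl ?_⟩
      by_contra h3
      have hxw : x ≤ ⟨w, h1.2⟩ := Or.inr hw
      have h4 : z ≠ ⟨w, h1.2⟩ := by rintro rfl; exact hxz hxw
      rcases htot _ _ h4 with h5 | h5
      · exact hxz (hconv x z ⟨w, h1.2⟩ hxw hr h5)
      · exact h3 h5
  have key4 : ∀ x : P, ∀ k, Bent L k → Bent R k → x.1 ∈ west L R σ k →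
      ∀ w ∈ B x ∪ R x.1, Bent L w → w ∈ west L R σ k := by
    rintro x k hk1 hk2 hxk w hw hwL
    rcases hw with hw | hw
    · rcases hw with h1 | ⟨hw, h1⟩
      · by_cases h2 : w = k
        · rw [h2] at h1; exact absurd hxk h1.2
        · by_contra h3
          have h4 := (hK.total hwL h1.1 hk1 hk2 h2).resolve_left h3
          exact h1.2 (hK.subset h hk1 hk2 hwL h1.1 h4 (mem_insert_of_mem _ hxk))
      · rcases h1 with h1 | h1
        · by_contra h3
          exact hirr _ (htrans _ _ _ h1 (hsep x ⟨w, hw⟩ ⟨k, hk1, hk2, hxk, h3⟩))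
        · rw [h1]; exact hxk
    · exact (hside x.1 x.2.1 x.2.2 k hk2 w (mem_insert_of_mem _ hw)).2 hxk
  have key5 : ∀ x : P, ∀ k, Bent L k → Bent R k → x.1 ∉ west L R σ k →
      ∀ w ∈ insert k (west L R σ k), Bent L w → w ∈ B x := by
    rintro x k hk1 hk2 hxk w hw hwL
    rcases hw with hw | hw
    · rw [hw]; exact Or.inl ⟨hk2, hxk⟩
    · by_cases hwR : Bent R w
      · refine Or.inl ⟨hwR, fun h2 => hxk ?_⟩
        exact hK.subset h hwL hwR hk1 hk2 hw (mem_insert_of_mem _ h2)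
      · exact Or.inr ⟨⟨hwL, hwR⟩, Or.inl (hsep ⟨w, hwL, hwR⟩ x ⟨k, hk1, hk2, hw, hxk⟩)⟩
  let a : X → ℝ := fun x => if hx : Bent L x ∧ ¬ Bent R x then mU L d (B ⟨x, hx⟩) else 0
  let b : X → ℝ := fun x => if hx : Bent L x ∧ ¬ Bent R x then mU L d (B ⟨x, hx⟩ ∪ R x) else 0
  have ha : ∀ x (hx : Bent L x ∧ ¬ Bent R x), a x = mU L d (B ⟨x, hx⟩) := by
    intro x hx; simp only [a, dif_pos hx]
  have hb : ∀ x (hx : Bent L x ∧ ¬ Bent R x), b x = mU L d (B ⟨x, hx⟩ ∪ R x) := by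
    intro x hx; simp only [b, dif_pos hx]
  refine ⟨a, b, ?_, ?_, ?_, ?_, ?_, ?_⟩
  · intro x hx1 hx2
    rw [ha x ⟨hx1, hx2⟩, hb x ⟨hx1, hx2⟩]
    exact mU_union (hBR ⟨x, hx1, hx2⟩)
  · intro x hx1 hx2
    rw [ha x ⟨hx1, hx2⟩, hb x ⟨hx1, hx2⟩]
    exact ⟨mU_nonneg _, mU_le_univ _⟩
  · intro x z hx1 hx2 hz1 hz2 hzx
    rw [ha x ⟨hx1, hx2⟩, hb x ⟨hx1, hx2⟩, ha z ⟨hz1, hz2⟩, hb z ⟨hz1, hz2⟩]
    exact ⟨mU_mono (key1 ⟨x, hx1, hx2⟩ ⟨z, hz1, hz2⟩ (Or.inr hzx)),
      mU_mono (key2 ⟨x, hx1, hx2⟩ ⟨z, hz1, hz2⟩ (Or.inr hzx))⟩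
  · intro x z hx1 hx2 hz1 hz2 hne h1 h2
    rw [ha x ⟨hx1, hx2⟩, hb x ⟨hx1, hx2⟩, ha z ⟨hz1, hz2⟩, hb z ⟨hz1, hz2⟩]
    have hxz : ¬ (⟨x, hx1, hx2⟩ : P) ≤ ⟨z, hz1, hz2⟩ := by
      rintro (h3 | h3)
      · exact hne h3.symm
      · exact h1 h3
    have hzx : ¬ (⟨z, hz1, hz2⟩ : P) ≤ ⟨x, hx1, hx2⟩ := by
      rintro (h3 | h3)
      · exact hne h3
      · exact h2 h3
    rcases htot ⟨x, hx1, hx2⟩ ⟨z, hz1, hz2⟩ (fun e => hne (congrArg Subtype.val e)) with h3 | h3
    · exact Or.inl (mU_mono (key3 _ _ hxz hzx h3))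
    · exact Or.inr (mU_mono (key3 _ _ hzx hxz h3))
  · intro x k hx1 hx2 hk1 hk2 hxk
    rw [hb x ⟨hx1, hx2⟩]
    exact (mU_mono (key4 ⟨x, hx1, hx2⟩ k hk1 hk2 hxk)).trans (mU_west_le k)
  · intro x k hx1 hx2 hk1 hk2 hxk
    rw [ha x ⟨hx1, hx2⟩]
    exact (tU_le k).trans (mU_mono (key5 ⟨x, hx1, hx2⟩ k hk1 hk2 hxk))

end Pool.Agent.Helper921_LeafSpaces
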