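import Mathlib
import Pool.Agent.Helper921_LeafSpaces.Sides

set_option autoImplicit false
set_option linter.unusedSectionVars false

namespace Pool.Agent.Helper921_LeafSpaces

open Set Topology Filter TopologicalSpace

variable {X : Type*} [TopologicalSpace X]

namespace ConvexAux

/-- the germ of `V` at a boundary point -/
theorem germ {L R : X → Set X} (h : IsSides L R)
    {V : Set X} (hconv : ∀ x ∈ V, ∀ z ∈ V, ∀ w, x ∈ L w → z ∈ R w → w ∈ V)
    {c : X} (hcV : c ∉ V) (hc : c ∈ closure V) (hVL : V ⊆ L c) :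
    ∃ N : Set X, IsOpen N ∧ c ∈ N ∧ N ⊆ V ∪ (L c)ᶜ ∧ IsPreconnected (N ∩ V) := by
  obtain ⟨g, hg, hg0, hgs⟩ := h.exists_chart c
  have hR : ∀ t : ℝ, 0 ≤ t → g t ∉ L c := by
    intro t ht hL
    rcases ht.eq_or_lt with rfl | ht
    · rw [hg0] at hL; exact h.notMem_left c hL
    · have := (hgs 0 t ht).2
      rw [hg0] at this
      exact h.not_both hL this
  have near : ∀ s : ℝ, s < 0 → ∃ v : ℝ, s < v ∧ v < 0 ∧ g v ∈ V := by
    intro s hs
    have ho : IsOpen (g '' Ioo s 1) := hg.isOpenMap _ isOpen_Ioo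
    have hm : c ∈ g '' Ioo s 1 := ⟨0, ⟨hs, by norm_num⟩, hg0⟩
    obtain ⟨y, ⟨v, hv, rfl⟩, hyV⟩ := mem_closure_iff.1 hc _ ho hm
    refine ⟨v, hv.1, ?_, hyV⟩
    by_contra h0
    exact hR v (not_lt.1 h0) (hVL hyV)
  obtain ⟨v1, -, hv1, hv1V⟩ := near (-1) (by norm_num)
  have hin : ∀ w : ℝ, v1 < w → w < 0 → g w ∈ V := by
    intro w hw1 hw2
    obtain ⟨v3, h3, -, h3V⟩ := near w hw2
    exact hconv _ hv1V _ h3V _ (hgs v1 w hw1).1 (hgs w v3 h3).2
  refine ⟨g '' Ioo v1 1, hg.isOpenMap _ isOpen_Ioo, ⟨0, ⟨hv1, by norm_num⟩, hg0⟩, ?_, ?_⟩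
  · rintro _ ⟨t, ht, rfl⟩
    by_cases h0 : t < 0
    · exact Or.inl (hin t ht.1 h0)
    · exact Or.inr (hR t (not_lt.1 h0))
  · have : g '' Ioo v1 1 ∩ V = g '' Ioo v1 0 := by
      ext y
      constructor
      · rintro ⟨⟨t, ht, rfl⟩, hy⟩
        refine ⟨t, ⟨ht.1, ?_⟩, rfl⟩
        by_contra h0
        exact hR t (not_lt.1 h0) (hVL hy)
      · rintro ⟨t, ht, rfl⟩
        exact ⟨⟨t, ⟨ht.1, ht.2.trans (by norm_num)⟩, rfl⟩, hin t ht.1 ht.2⟩
    rw [this]
    exact isPreconnected_Ioo.image _ hg.continuous.continuousOn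

/-- everything about the `V`-side `S` of a boundary point `c` -/
structure Good (V : Set X) (c : X) (S : Set X) : Prop where
  notMem : c ∉ V
  mem_closure : c ∈ closure V
  isOpen : IsOpen S
  sub : V ⊆ S
  self : c ∉ S
  other : IsOpen (Sᶜ \ {c})
  conn : IsPreconnected Sᶜ
  side : ∀ C : Set X, IsPreconnected C → c ∉ C → (C ∩ S).Nonempty → C ⊆ S
  germ : ∃ N : Set X, IsOpen N ∧ c ∈ N ∧ N ⊆ V ∪ Sᶜ ∧ IsPreconnected (N ∩ V)

theorem good_left {L R : X → Set X} (h : IsSides L R)
    {V : Set X} (hconv : ∀ x ∈ V, ∀ z ∈ V, ∀ w, x ∈ L w → z ∈ R w → w ∈ V)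
    {c : X} (hcV : c ∉ V) (hc : c ∈ closure V) (hVL : V ⊆ L c) : Good V c (L c) := by
  have e1 : (L c)ᶜ \ {c} = R c := by
    ext y
    constructor
    · rintro ⟨h1, h2⟩
      exact h.right_of_notMem_left h2 h1
    · intro hy
      exact ⟨fun hL => h.not_both hL hy, fun hyc => h.ne_of_right hy hyc⟩
  have e2 : (L c)ᶜ = insert c (R c) := by
    ext y
    constructor
    · intro h1
      by_cases h2 : y = c
      · exact Or.inl h2
      · exact Or.inr (h.right_of_notMem_left h2 h1)
    · rintro (rfl | hy)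
      · exact h.notMem_left y
      · exact fun hL => h.not_both hL hy
  refine ⟨hcV, hc, h.isOpen_left c, hVL, h.notMem_left c, ?_, ?_, ?_, germ h hconv hcV hc hVL⟩
  · rw [e1]; exact h.isOpen_right c
  · rw [e2]; exact h.right_conn c
  · rintro C hC hcC ⟨z, hz, hzL⟩
    exact h.subset_left hC hcC hz hzL

theorem exists_good {L R : X → Set X} (h : IsSides L R)
    {V : Set X} (hconv : ∀ x ∈ V, ∀ z ∈ V, ∀ w, x ∈ L w → z ∈ R w → w ∈ V)
    {c : X} (hcV : c ∉ V) (hc : c ∈ closure V) : ∃ S, Good V c S := by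
  by_cases h1 : V ⊆ L c
  · exact ⟨_, good_left h hconv hcV hc h1⟩
  by_cases h2 : V ⊆ R c
  · exact ⟨_, good_left h.symm (fun x hx z hz w hxw hzw => hconv z hz x hx w hzw hxw) hcV hc h2⟩
  exfalso
  obtain ⟨x, hx, hxL⟩ := not_subset.1 h1
  obtain ⟨z, hz, hzR⟩ := not_subset.1 h2
  have hxc : x ≠ c := fun e => hcV (e ▸ hx)
  have hzc : z ≠ c := fun e => hcV (e ▸ hz)
  exact hcV (hconv z hz x hx c (h.left_of_notMem_right hzc hzR) (h.right_of_notMem_left hxc hxL))

/-- `c` is a boundary point at which `V` is `A` -/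
def Ty (V A : Set X) (c : X) (S : Set X) : Prop :=
  Good V c S ∧ ∃ N : Set X, IsOpen N ∧ c ∈ N ∧ N ⊆ V ∪ Sᶜ ∧ N ∩ V ⊆ A

/-- the extension of `A` -/
def Ext (V A : Set X) : Set X := A ∪ {y | ∃ c S, Ty V A c S ∧ y ∉ S}

theorem isOpen_ext {V A : Set X} (hA : IsOpen A) : IsOpen (Ext V A) := by
  rw [isOpen_iff_forall_mem_open]
  rintro y (hy | ⟨c, S, ⟨hG, N, hN, hcN, hNV, hNA⟩, hy⟩)
  · exact ⟨A, subset_union_left, hA, hy⟩
  · by_cases hyc : y = c
    · subst hyc
      refine ⟨N, ?_, hN, hcN⟩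
      intro z hz
      rcases hNV hz with hzV | hzS
      · exact Or.inl (hNA ⟨hz, hzV⟩)
      · exact Or.inr ⟨y, S, ⟨hG, N, hN, hcN, hNV, hNA⟩, hzS⟩
    · refine ⟨Sᶜ \ {c}, ?_, hG.other, hy, hyc⟩
      rintro z ⟨hz, -⟩
      exact Or.inr ⟨c, S, ⟨hG, N, hN, hcN, hNV, hNA⟩, hz⟩

theorem mem_side {V : Set X} {c c' : X} {S S' : Set X} (hG : Good V c S) (hG' : Good V c' S')
    (hne : c ≠ c') : c ∈ S' := by
  by_contra hcS
  obtain ⟨y, hy1, hy2⟩ := mem_closure_iff.1 hG.mem_closure _ hG'.other ⟨hcS, hne⟩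
  exact hy1.1 (hG'.sub hy2)

theorem disjoint_ext {V A B : Set X} (hAV : A ⊆ V) (hBV : B ⊆ V) (hAB : Disjoint A B) :
    Disjoint (Ext V A) (Ext V B) := by
  rw [Set.disjoint_left]
  rintro y (hy | ⟨c, S, ⟨hG, N, hN, hcN, hNV, hNA⟩, hy⟩)
    (hy' | ⟨c', S', ⟨hG', N', hN', hcN', hNV', hNA'⟩, hy'⟩)
  · exact Set.disjoint_left.1 hAB hy hy'
  · exact hy' (hG'.sub (hAV hy))
  · exact hy (hG.sub (hBV hy'))
  · have hne : c ≠ c' := by
      rintro rfl
      obtain ⟨z, ⟨hz1, hz2⟩, hz3⟩ := mem_closure_iff.1 hG.mem_closure _ (hN.inter hN') ⟨hcN, hcN'⟩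
      exact Set.disjoint_left.1 hAB (hNA ⟨hz1, hz3⟩) (hNA' ⟨hz2, hz3⟩)
    have h1 : c ∈ S' := mem_side hG hG' hne
    have h2 : c' ∈ S := mem_side hG' hG hne.symm
    have h3 : Sᶜ ⊆ S' := hG'.side Sᶜ hG.conn (fun h => h h2) ⟨c, hG.self, h1⟩
    exact hy' (h3 hy)

end ConvexAux

/-! TARGET. An open set which is convex for the separation by points is connected.
Suppose V = A ∪ B with A, B disjoint open nonempty (V open, so A, B may be taken open: A = V ∩ O₁, B = V ∩ O₂; use
`isPreconnected_iff_subset_of_disjoint` or the definition). For a boundary point c of V (c ∉ V, every neighbourhood of c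
meets V): V lies in one side of c (V ⊆ L c or V ⊆ R c), else by convexity c ∈ V. Let O c be {c} ∪ (the other side), a
connected set (`left_conn`, `right_conn`) disjoint from V. Take a chart g at c (g 0 = c), say V ⊆ L c. There are
arbitrarily small v > 0 with g (-v) ∈ V (the points g v, v ≥ 0 are not in L c), and by convexity (w = g (-v) lies between
g (-v1) and g (-v2), i.e. g (-v1) ∈ L w, g (-v2) ∈ R w for v2 < v < v1) the whole germ g '' (-v0, 0) is in V; it is
connected so it lies in A or in B. So every boundary point c is either A-type (a one-sided germ at c lies in A) or B-type,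
not both. Let
  A' := A ∪ ⋃ {O c | c A-type boundary point},  B' := B ∪ ⋃ {O c | c B-type boundary point}.
* A' is open: at c of A-type, g '' (-v0, v0) ⊆ A ∪ O c; the other points of O c are in the open side of c. Same for B'.
* A' ∩ B' = ∅: A ∩ B = ∅; O c ∩ V = ∅; and for c A-type, c' B-type (so c ≠ c'): c is in the closure of V and V is in the
  V-side of c', so c is not in the other (open) side of c', so c is in the V-side of c'; likewise c' ∉ O c. So O c is
  connected, avoids c', and meets the V-side of c'; so O c ⊆ V-side of c', which is disjoint from O c'.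
* A' ∪ B' = univ, because A' ∪ B' = V ∪ ⋃ O c is open, nonempty and closed and X is connected: closed: let p be outside.
  p is not a boundary point of V and not in V so some connected open N ∋ p (image of an interval under a chart) misses V. If
  N meets O c then c ∉ N (every neighbourhood of c meets V), so N lies in the side of c different from V's side, so
  p ∈ O c, contradiction.
Then X = A' ⊔ B', both open nonempty, contradiction with X connected. -/

open ConvexAux in
theorem isPreconnected_of_convex [PreconnectedSpace X] {L R : X → Set X} (h : IsSides L R)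
    {V : Set X} (hV : IsOpen V) (hconv : ∀ x ∈ V, ∀ z ∈ V, ∀ w, x ∈ L w → z ∈ R w → w ∈ V) :
    IsPreconnected V := by
  rw [isPreconnected_iff_subset_of_disjoint]
  intro O₁ O₂ ho1 ho2 hcov hdis
  by_contra hcon
  push Not at hcon
  obtain ⟨hn1, hn2⟩ := hcon
  set A := V ∩ O₁ with hA
  set B := V ∩ O₂ with hB
  have hAo : IsOpen A := hV.inter ho1
  have hBo : IsOpen B := hV.inter ho2
  have hAB : Disjoint A B := by
    rw [Set.disjoint_left]
    rintro y ⟨hy1, hy2⟩ ⟨-, hy3⟩
    have : y ∈ V ∩ (O₁ ∩ O₂) := ⟨hy1, hy2, hy3⟩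
    rw [hdis] at this
    exact this
  have hVAB : V ⊆ A ∪ B := by
    intro y hy
    rcases hcov hy with h1 | h1
    · exact Or.inl ⟨hy, h1⟩
    · exact Or.inr ⟨hy, h1⟩
  have hBne : B.Nonempty := by
    obtain ⟨y, hy, hy1⟩ := not_subset.1 hn1
    rcases hVAB hy with h1 | h1
    · exact absurd h1.2 hy1
    · exact ⟨y, h1⟩
  have hAne : A.Nonempty := by
    obtain ⟨y, hy, hy1⟩ := not_subset.1 hn2
    rcases hVAB hy with h1 | h1
    · exact ⟨y, h1⟩
    · exact absurd h1.2 hy1
  have hAV : A ⊆ V := inter_subset_left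
  have hBV : B ⊆ V := inter_subset_left
  have hdisj := disjoint_ext (V := V) hAV hBV hAB
  have hE1 := isOpen_ext (V := V) hAo
  have hE2 := isOpen_ext (V := V) hBo
  -- every boundary point has a type
  have htype : ∀ c S, Good V c S → Ty V A c S ∨ Ty V B c S := by
    intro c S hG
    obtain ⟨N, hN, hcN, hNV, hconn⟩ := hG.germ
    have hsub : N ∩ V ⊆ A ∪ B := fun y hy => hVAB hy.2
    have hempty : (N ∩ V) ∩ (A ∩ B) = ∅ := by
      rw [Set.disjoint_iff_inter_eq_empty.1 hAB, inter_empty]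
    rcases isPreconnected_iff_subset_of_disjoint.1 hconn A B hAo hBo hsub hempty with h1 | h1
    · exact Or.inl ⟨hG, N, hN, hcN, hNV, h1⟩
    · exact Or.inr ⟨hG, N, hN, hcN, hNV, h1⟩
  have hmem : ∀ c S y, Good V c S → y ∉ S → y ∈ Ext V A ∪ Ext V B := by
    intro c S y hG hy
    rcases htype c S hG with h1 | h1
    · exact Or.inl (Or.inr ⟨c, S, h1, hy⟩)
    · exact Or.inr (Or.inr ⟨c, S, h1, hy⟩)
  have hclosed : IsClosed (Ext V A ∪ Ext V B) := by
    rw [← isOpen_compl_iff, isOpen_iff_forall_mem_open]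
    intro p hp
    have hpV : p ∉ V := by
      intro hpV
      rcases hVAB hpV with h1 | h1
      · exact hp (Or.inl (Or.inl h1))
      · exact hp (Or.inr (Or.inl h1))
    have hpc : p ∉ closure V := by
      intro hpc
      obtain ⟨S, hG⟩ := exists_good h hconv hpV hpc
      exact hp (hmem p S p hG hG.self)
    obtain ⟨f, hf, hf0, -⟩ := h.exists_chart p
    have hopen : IsOpen (f ⁻¹' (closure V)ᶜ) := isClosed_closure.isOpen_compl.preimage hf.continuous
    obtain ⟨ε, hε, hball⟩ := Metric.isOpen_iff.1 hopen 0 (by rw [mem_preimage, hf0]; exact hpc)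
    set N := f '' Metric.ball 0 ε with hNdef
    have hNo : IsOpen N := hf.isOpenMap _ Metric.isOpen_ball
    have hNc : IsPreconnected N := by
      rw [hNdef, Real.ball_eq_Ioo]
      exact isPreconnected_Ioo.image _ hf.continuous.continuousOn
    have hpN : p ∈ N := ⟨0, Metric.mem_ball_self hε, hf0⟩
    have hNV : ∀ y ∈ N, y ∉ closure V := by
      rintro _ ⟨t, ht, rfl⟩
      exact hball ht
    refine ⟨N, ?_, hNo, hpN⟩
    have key : ∀ c S y, Good V c S → y ∈ N → y ∉ S → False := by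
      intro c S y hG hyN hyS
      have hcN : c ∉ N := fun hc => hNV c hc hG.mem_closure
      by_cases hne : (N ∩ S).Nonempty
      · exact hyS (hG.side N hNc hcN hne hyN)
      · have : p ∉ S := fun hpS => hne ⟨p, hpN, hpS⟩
        exact hp (hmem c S p hG this)
    rintro y hyN ((hy | ⟨c, S, hT, hy⟩) | (hy | ⟨c, S, hT, hy⟩))
    · exact hNV y hyN (subset_closure (hAV hy))
    · exact key c S y hT.1 hyN hy
    · exact hNV y hyN (subset_closure (hBV hy))
    · exact key c S y hT.1 hyN hy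
  have hclopen : IsClopen (Ext V A ∪ Ext V B) := ⟨hclosed, hE1.union hE2⟩
  have hAne' : (Ext V A).Nonempty := hAne.mono subset_union_left
  have hBne' : (Ext V B).Nonempty := hBne.mono subset_union_left
  have huniv : Ext V A ∪ Ext V B = univ := by
    rcases isClopen_iff.1 hclopen with h1 | h1
    · exfalso
      obtain ⟨y, hy⟩ := hAne'
      have : y ∈ Ext V A ∪ Ext V B := Or.inl hy
      rw [h1] at this
      exact this
    · exact h1
  have hcompl : (Ext V A)ᶜ = Ext V B := by
    ext y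
    constructor
    · intro hy
      have : y ∈ Ext V A ∪ Ext V B := by rw [huniv]; trivial
      rcases this with h1 | h1
      · exact absurd h1 hy
      · exact h1
    · intro hy hy'
      exact Set.disjoint_left.1 hdisj hy' hy
  have hAclopen : IsClopen (Ext V A) := ⟨by rw [← isOpen_compl_iff, hcompl]; exact hE2, hE1⟩
  rcases isClopen_iff.1 hAclopen with h1 | h1
  · obtain ⟨y, hy⟩ := hAne'
    rw [h1] at hy
    exact hy
  · obtain ⟨y, hy⟩ := hBne'
    rw [← hcompl, h1] at hy
    exact hy trivial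

end Pool.Agent.Helper921_LeafSpaces
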