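import Mathlib
import Pool.Agent.Helper921_LeafSpaces.Clock

/-!
# Slots of the upper clock: monotonicity and continuity
-/

namespace Pool.Agent.Helper921_LeafSpaces

open Set Topology Filter TopologicalSpace

set_option linter.unusedSectionVars false

variable {X : Type*} [TopologicalSpace X] {L R : X → Set X} {σ : Set X} {d : ℕ → X}

/-- The properties of the slots of the upper clock. -/
structure IsSlots (L R : X → Set X) (σ : Set X) (d : ℕ → X) (a b : X → ℝ) : Prop where
  length : ∀ x, Bent L x → ¬ Bent R x → b x = a x + mU L d (R x)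
  bound : ∀ x, Bent L x → ¬ Bent R x → 0 ≤ a x ∧ b x ≤ mU L d univ
  nested : ∀ x z, Bent L x → ¬ Bent R x → Bent L z → ¬ Bent R z → z ∈ R x →
    a x ≤ a z ∧ b z ≤ b x
  disj : ∀ x z, Bent L x → ¬ Bent R x → Bent L z → ¬ Bent R z → x ≠ z → z ∉ R x → x ∉ R z →
    b x ≤ a z ∨ b z ≤ a x
  west_le : ∀ x k, Bent L x → ¬ Bent R x → Bent L k → Bent R k → x ∈ west L R σ k →
    b x ≤ tU L R σ d k
  east_le : ∀ x k, Bent L x → ¬ Bent R x → Bent L k → Bent R k → x ∉ west L R σ k →
    tU L R σ d k ≤ a x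

/-- The slot of a point in the upper clock. -/
def slot (L R : X → Set X) (σ : Set X) (d : ℕ → X) (a b : X → ℝ) (x : X) : Set ℝ :=
  {τ | (Bent L x → Bent R x → (x ∈ σ → tU L R σ d x < τ) ∧ (x ∉ σ → τ < tU L R σ d x)) ∧
    (Bent L x → ¬ Bent R x → a x < τ ∧ τ < b x)}

variable {a b : X → ℝ}

theorem slot_univ {x : X} (hx : ¬ Bent L x) (τ : ℝ) : τ ∈ slot L R σ d a b x :=
  ⟨fun h => absurd h hx, fun h => absurd h hx⟩

theorem mem_slot_core_pos {x : X} (h1 : Bent L x) (h2 : Bent R x) (hσ : x ∈ σ) {τ : ℝ} :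
    τ ∈ slot L R σ d a b x ↔ tU L R σ d x < τ := by
  constructor
  · intro h; exact (h.1 h1 h2).1 hσ
  · intro h
    exact ⟨fun _ _ => ⟨fun _ => h, fun h' => absurd hσ h'⟩, fun _ h' => absurd h2 h'⟩

theorem mem_slot_core_neg {x : X} (h1 : Bent L x) (h2 : Bent R x) (hσ : x ∉ σ) {τ : ℝ} :
    τ ∈ slot L R σ d a b x ↔ τ < tU L R σ d x := by
  constructor
  · intro h; exact (h.1 h1 h2).2 hσ
  · intro h
    exact ⟨fun _ _ => ⟨fun h' => absurd h' hσ, fun _ => h⟩, fun _ h' => absurd h2 h'⟩

theorem mem_slot_plus {x : X} (h1 : Bent L x) (h2 : ¬ Bent R x) {τ : ℝ} :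
    τ ∈ slot L R σ d a b x ↔ a x < τ ∧ τ < b x := by
  constructor
  · intro h; exact h.2 h1 h2
  · intro h
    exact ⟨fun _ h' => absurd h' h2, fun _ _ => h⟩

theorem slot_cases (x : X) : (slot L R σ d a b x = univ) ∨
    (∃ c, slot L R σ d a b x = Ioi c) ∨ (∃ c, slot L R σ d a b x = Iio c) ∨
    (∃ c c', slot L R σ d a b x = Ioo c c') := by
  by_cases h1 : Bent L x
  · by_cases h2 : Bent R x
    · by_cases hσ : x ∈ σ
      · right; left
        exact ⟨_, by ext τ; exact mem_slot_core_pos h1 h2 hσ⟩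
      · right; right; left
        exact ⟨_, by ext τ; exact mem_slot_core_neg h1 h2 hσ⟩
    · right; right; right
      exact ⟨_, _, by ext τ; exact mem_slot_plus h1 h2⟩
  · left
    ext τ
    exact ⟨fun _ => trivial, fun _ => slot_univ h1 τ⟩

theorem isOpen_slot (x : X) : IsOpen (slot L R σ d a b x) := by
  rcases slot_cases (L := L) (R := R) (σ := σ) (d := d) (a := a) (b := b) x with
    h | ⟨c, h⟩ | ⟨c, h⟩ | ⟨c, c', h⟩ <;> rw [h]
  · exact isOpen_univ
  · exact isOpen_Ioi
  · exact isOpen_Iio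
  · exact isOpen_Ioo

theorem ordConnected_slot (x : X) : OrdConnected (slot L R σ d a b x) := by
  rcases slot_cases (L := L) (R := R) (σ := σ) (d := d) (a := a) (b := b) x with
    h | ⟨c, h⟩ | ⟨c, h⟩ | ⟨c, c', h⟩ <;> rw [h]
  · exact ordConnected_univ
  · exact ordConnected_Ioi
  · exact ordConnected_Iio
  · exact ordConnected_Ioo

/-- Slots decrease along the order. -/
theorem IsSlots.mono (hs : IsSlots L R σ d a b) (h : IsSides L R) (hK : IsCoreOrder L R σ)
    {w z : X} (hzw : z ∈ R w) (hwz : w ∈ L z) :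
    slot L R σ d a b z ⊆ slot L R σ d a b w := by
  intro τ hτ
  by_cases hwL : Bent L w
  swap
  · exact slot_univ hwL τ
  have hzL : Bent L z := h.bent_left_mono hzw hwz hwL
  have hne : w ≠ z := fun e => h.ne_of_left hwz e
  by_cases hzR : Bent R z
  · have hwR : Bent R w := h.bent_right_anti hzw hwz hzR
    have hsign := hK.sign h hwL hwR hzL hzR hzw hwz
    by_cases hw : w ∈ σ
    · have hz := hsign.1 hw
      rw [mem_slot_core_pos hzL hzR hz] at hτ
      rw [mem_slot_core_pos hwL hwR hw]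
      refine lt_of_le_of_lt (hK.tU_mono h hwL hwR hzL hzR ?_) hτ
      rw [west_pos hz]; exact hwz
    · have hz : z ∉ σ := fun e => hw (hsign.2 e)
      rw [mem_slot_core_neg hzL hzR hz] at hτ
      rw [mem_slot_core_neg hwL hwR hw]
      refine lt_of_lt_of_le hτ (hK.tU_mono h hzL hzR hwL hwR ?_)
      rw [west_neg hw]; exact hzw
  · rw [mem_slot_plus hzL hzR] at hτ
    by_cases hwR : Bent R w
    · by_cases hw : w ∈ σ
      · rw [mem_slot_core_pos hwL hwR hw]
        refine lt_of_le_of_lt (hs.east_le z w hzL hzR hwL hwR ?_) hτ.1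
        rw [west_pos hw]; exact fun h' => h.not_both h' hzw
      · rw [mem_slot_core_neg hwL hwR hw]
        refine lt_of_lt_of_le hτ.2 (hs.west_le z w hzL hzR hwL hwR ?_)
        rw [west_neg hw]; exact hzw
    · rw [mem_slot_plus hwL hwR]
      have := hs.nested w z hwL hwR hzL hzR hzw
      exact ⟨this.1.trans_lt hτ.1, hτ.2.trans_le this.2⟩

/-- **Right continuity** of the slots. -/
theorem IsSlots.right_cont [PreconnectedSpace X] (hs : IsSlots L R σ d a b) (h : IsSides L R)
    (hK : IsCoreOrder L R σ) {f : ℝ → X} (hf : IsOpenEmbedding f)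
    (hfo : ∀ s t, s < t → f s ∈ L (f t) ∧ f t ∈ R (f s)) {τ : ℝ} (hτ : τ ∈ slot L R σ d a b (f 0))
    (hτ0 : 0 < τ) (hτ1 : (∃ x, Bent L x) → τ < mU L d univ)
    (hc : ∀ c, Bent L c → Bent R c → (∀ t, 0 < t → c ∈ L (f t) ∧ f t ∈ R c) →
      c ∈ R (f 0) → f 0 ∈ R c →
      (c ∈ σ → tU L R σ d c < τ) ∧ (c ∉ σ → τ < tU L R σ d c)) :
    ∃ t, 0 < t ∧ τ ∈ slot L R σ d a b (f t) := by
  classical
  by_cases hall : ∀ t, 0 < t → Bent L (f t)
  swap
  · push Not at hall
    obtain ⟨t, ht, hb⟩ := hall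
    exact ⟨t, ht, slot_univ hb τ⟩
  have hτ1 : τ < mU L d univ := hτ1 ⟨f 1, hall 1 one_pos⟩
  obtain ⟨C, hC0, hC1, hC2, hC3⟩ := exists_siblings h hf hfo
  -- the two parts of the space
  set Z : Set X := {z | ∀ t, 0 < t → z ∈ L (f t)} with hZ
  set P : Set X := {z | ∃ t, 0 < t ∧ z ∈ R (f t)} with hP
  have hnestR : ∀ s t, s < t → insert (f t) (R (f t)) ⊆ R (f s) := fun s t hst =>
    h.nest_rl (hfo s t hst).2 (hfo s t hst).1
  have hnestL : ∀ s t, s < t → insert (f s) (L (f s)) ⊆ L (f t) := fun s t hst =>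
    h.nest_lr (hfo s t hst).1 (hfo s t hst).2
  have hZP : ∀ z, z ∉ P → z ∈ Z := by
    intro z hz t ht
    have h1 : z ≠ f t := by
      rintro rfl
      exact hz ⟨t / 2, by positivity, (hfo (t / 2) t (by linarith)).2⟩
    exact h.left_of_notMem_right h1 fun h2 => hz ⟨t, ht, h2⟩
  have hZP' : ∀ z ∈ Z, z ∉ P := fun z hz ⟨t, ht, h1⟩ => h.not_both (hz t ht) h1
  -- left bent points of `Z`
  have hZA : ∀ z ∈ Z, Bent L z → ∃ c ∈ C, Bent L c ∧ (z = c ∨ z ∈ L c) := by
    intro z hz hzL
    obtain ⟨c, hcC, hzc⟩ := hC3 z hz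
    refine ⟨c, hcC, ?_, hzc⟩
    rcases hzc with h1 | h1
    · rwa [← h1]
    · by_cases h2 : c ∈ R z
      · exact h.bent_left_mono h2 h1 hzL
      · exact ⟨z, h1, h.left_of_notMem_right (fun e => h.ne_of_left h1 e.symm) h2⟩
  -- uniqueness of the siblings of a given sign
  have huniq : ∀ c ∈ C, ∀ c' ∈ C, Bent L c → Bent R c → Bent L c' → Bent R c' →
      (c ∈ σ ↔ c' ∈ σ) → c = c' := by
    intro c hcC c' hc'C h1 h2 h1' h2' hσ
    by_contra hne
    have h3 := hC2 c hcC c' hc'C hne
    have h4 := hC2 c' hc'C c hcC (Ne.symm hne)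
    have key := hK c c' h1 h2 h1' h2' hne
    by_cases hcσ : c ∈ σ
    · have hc'σ := hσ.1 hcσ
      rw [west_pos hcσ, west_pos hc'σ] at key
      exact h.not_both (key.2 fun h5 => h.not_both h5 h3) h4
    · have hc'σ : c' ∉ σ := fun e => hcσ (hσ.2 e)
      rw [west_neg hcσ, west_neg hc'σ] at key
      exact key.1 h4 h3
  have hcτ : ∀ c ∈ C, Bent L c → Bent R c →
      (c ∈ σ → tU L R σ d c < τ) ∧ (c ∉ σ → τ < tU L R σ d c) := by
    intro c hcC h1 h2
    by_cases hc0 : c = f 0
    · rw [← hc0] at hτ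
      exact hτ.1 h1 h2
    · exact hc c h1 h2 (hC1 c hcC) (hC2 _ hC0 c hcC (Ne.symm hc0)) (hC2 c hcC _ hC0 hc0)
  -- masses
  have hPZ : mU L d univ = mU L d P + mU L d Z := by
    rw [← mU_union (fun x hx hx' => hZP' x hx' hx)]
    apply le_antisymm
    · refine mU_mono fun x _ _ => ?_
      by_cases hx : x ∈ P
      · exact Or.inl hx
      · exact Or.inr (hZP x hx)
    · exact mU_le_univ _
  have hcompl : ∀ c, mU L d univ = mU L d (R c) + mU L d (insert c (L c)) := by
    intro c
    rw [← mU_union]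
    · apply le_antisymm
      · refine mU_mono fun x _ _ => ?_
        by_cases hx : x = c
        · exact Or.inr (Or.inl hx)
        · rcases h.mem_or hx with h1 | h1
          · exact Or.inr (Or.inr h1)
          · exact Or.inl h1
      · exact mU_le_univ _
    · rintro x hx (h1 | h1)
      · exact h.ne_of_right hx h1
      · exact h.not_both h1 hx
  by_cases hR : ∃ t, 0 < t ∧ Bent R (f t)
  · -- the points `f t` are core points
    obtain ⟨t₀, ht₀, hR0⟩ := hR
    have hRt : ∀ t, 0 < t → t ≤ t₀ → Bent R (f t) := by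
      intro t ht htt
      rcases eq_or_lt_of_le htt with h1 | h1
      · rwa [h1]
      · exact h.bent_right_anti (hfo t t₀ h1).2 (hfo t t₀ h1).1 hR0
    have hσt : ∀ t, 0 < t → t ≤ t₀ → (f t ∈ σ ↔ f t₀ ∈ σ) := by
      intro t ht htt
      rcases eq_or_lt_of_le htt with h1 | h1
      · rw [h1]
      · exact hK.sign h (hall t ht) (hRt t ht htt) (hall t₀ ht₀) hR0 (hfo t t₀ h1).2
          (hfo t t₀ h1).1
    have hCK : ∀ c ∈ C, Bent L c → Bent R c ∧ (c ∈ σ ↔ f t₀ ∈ σ) := by
      intro c hcC h1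
      have h2 := hC1 c hcC t₀ ht₀
      have h3 := h.bent_right_anti h2.2 h2.1 hR0
      exact ⟨h3, hK.sign h h1 h3 (hall t₀ ht₀) hR0 h2.2 h2.1⟩
    have huniq' : ∀ c ∈ C, ∀ c' ∈ C, Bent L c → Bent L c' → c = c' := by
      intro c hcC c' hc'C h1 h1'
      have h2 := hCK c hcC h1
      have h2' := hCK c' hc'C h1'
      exact huniq c hcC c' hc'C h1 h2.1 h1' h2'.1 (h2.2.trans h2'.2.symm)
    by_cases hpos : f t₀ ∈ σ
    · -- positive
      have hlt : mU L d Z < τ := by
        by_cases hD : ∃ c ∈ C, Bent L c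
        · obtain ⟨c, hcC, hcL⟩ := hD
          have h1 := hCK c hcC hcL
          have h2 := (hcτ c hcC hcL h1.1).1 (h1.2.2 hpos)
          refine lt_of_le_of_lt ?_ h2
          rw [tU_pos (h1.2.2 hpos)]
          refine mU_mono fun z hz hzL => ?_
          obtain ⟨c', hc'C, hc'L, hz'⟩ := hZA z hz hzL
          rw [huniq' c hcC c' hc'C hcL hc'L]
          exact hz'
        · have : mU L d Z = 0 := by
            apply le_antisymm _ (mU_nonneg _)
            rw [← mass_empty d]
            refine mass_mono d ?_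
            rintro z ⟨hz, hzL⟩
            obtain ⟨c, hcC, hcL, -⟩ := hZA z hz hzL
            exact absurd ⟨c, hcC, hcL⟩ hD
          rw [this]; exact hτ0
      obtain ⟨δ, hδ, hcont⟩ := mass_inter_cont d
        (fun t => insert (f t) (L (f t)) ∩ {x | Bent L x}) (by
          intro s t hs hst
          rcases eq_or_lt_of_le hst with h1 | h1
          · rw [h1]
          · exact inter_subset_inter_left _ ((hnestL s t h1).trans (subset_insert _ _)))
        (sub_pos.2 hlt)
      refine ⟨min δ t₀, lt_min hδ ht₀, ?_⟩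
      have h1 := hcont (min δ t₀) (lt_min hδ ht₀) (min_le_left _ _)
      rw [mem_slot_core_pos (hall _ (lt_min hδ ht₀)) (hRt _ (lt_min hδ ht₀) (min_le_right _ _))
        ((hσt _ (lt_min hδ ht₀) (min_le_right _ _)).2 hpos),
        tU_pos ((hσt _ (lt_min hδ ht₀) (min_le_right _ _)).2 hpos)]
      have h2 : mass d {x | ∀ t, 0 < t → x ∈ insert (f t) (L (f t)) ∩ {x | Bent L x}} ≤
          mU L d Z := by
        refine mass_mono d ?_
        intro x hx
        refine ⟨fun t ht => ?_, (hx 1 one_pos).2⟩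
        exact hnestL (t / 2) t (by linarith) (hx (t / 2) (by positivity)).1
      unfold mU at h2 ⊢
      unfold mU at h1
      linarith
    · -- negative
      have hlt : τ < mU L d P := by
        by_cases hD : ∃ c ∈ C, Bent L c
        · obtain ⟨c, hcC, hcL⟩ := hD
          have h1 := hCK c hcC hcL
          have hcσ : c ∉ σ := fun e => hpos (h1.2.1 e)
          have h2 := (hcτ c hcC hcL h1.1).2 hcσ
          refine lt_of_lt_of_le h2 ?_
          rw [tU_neg hcσ]
          refine mU_mono fun z hz hzL => ?_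
          by_contra hzP
          obtain ⟨c', hc'C, hc'L, hz'⟩ := hZA z (hZP z hzP) hzL
          rw [← huniq' c hcC c' hc'C hcL hc'L] at hz'
          rcases hz' with h3 | h3
          · exact h.ne_of_right hz h3
          · exact h.not_both h3 hz
        · have : mU L d Z = 0 := by
            apply le_antisymm _ (mU_nonneg _)
            rw [← mass_empty d]
            refine mass_mono d ?_
            rintro z ⟨hz, hzL⟩
            obtain ⟨c, hcC, hcL, -⟩ := hZA z hz hzL
            exact absurd ⟨c, hcC, hcL⟩ hD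
          linarith
      obtain ⟨δ, hδ, hcont⟩ := mass_union_cont d
        (fun t => R (f t) ∩ {x | Bent L x}) (by
          intro s t hs hst
          rcases eq_or_lt_of_le hst with h1 | h1
          · rw [h1]
          · exact inter_subset_inter_left _ ((subset_insert _ _).trans (hnestR s t h1)))
        (sub_pos.2 hlt)
      refine ⟨min δ t₀, lt_min hδ ht₀, ?_⟩
      have h1 := hcont (min δ t₀) (lt_min hδ ht₀) (min_le_left _ _)
      have hnσ : f (min δ t₀) ∉ σ :=
        fun e => hpos ((hσt _ (lt_min hδ ht₀) (min_le_right _ _)).1 e)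
      rw [mem_slot_core_neg (hall _ (lt_min hδ ht₀)) (hRt _ (lt_min hδ ht₀) (min_le_right _ _))
        hnσ, tU_neg hnσ]
      have h2 : mU L d P ≤ mass d {x | ∃ t, 0 < t ∧ x ∈ R (f t) ∩ {x | Bent L x}} := by
        refine mass_mono d ?_
        rintro x ⟨⟨t, ht, hx⟩, hxL⟩
        exact ⟨t, ht, hx, hxL⟩
      unfold mU at h2 ⊢
      unfold mU at h1
      linarith
  · -- the points `f t` have a pure right side
    push Not at hR
    have hcont : ∀ ε > 0, ∃ δ > 0, ∀ t, 0 < t → t ≤ δ →
        mU L d P - ε < mU L d (R (f t)) := by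
      intro ε hε
      obtain ⟨δ, hδ, hcont⟩ := mass_union_cont d
        (fun t => R (f t) ∩ {x | Bent L x}) (by
          intro s t hs hst
          rcases eq_or_lt_of_le hst with h1 | h1
          · rw [h1]
          · exact inter_subset_inter_left _ ((subset_insert _ _).trans (hnestR s t h1))) hε
      refine ⟨δ, hδ, fun t ht htδ => ?_⟩
      have h1 := hcont t ht htδ
      have h2 : mU L d P ≤ mass d {x | ∃ t, 0 < t ∧ x ∈ R (f t) ∩ {x | Bent L x}} := by
        refine mass_mono d ?_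
        rintro x ⟨⟨t, ht, hx⟩, hxL⟩
        exact ⟨t, ht, hx, hxL⟩
      unfold mU at h2 ⊢
      linarith
    obtain ⟨α, β, h1, h2, h3, h4⟩ : ∃ α β, (∀ t, 0 < t → α ≤ a (f t) ∧ b (f t) ≤ β) ∧
        β - α ≤ mU L d P ∧ α < τ ∧ τ < β := by
      by_cases hx : Bent L (f 0) ∧ ¬ Bent R (f 0)
      · -- the point itself has a pure right side
        rw [mem_slot_plus hx.1 hx.2] at hτ
        refine ⟨a (f 0), b (f 0), fun t ht => hs.nested _ _ hx.1 hx.2 (hall t ht) (hR t ht)
          (hfo 0 t ht).2, ?_, hτ.1, hτ.2⟩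
        rw [hs.length _ hx.1 hx.2]
        have : mU L d (R (f 0)) ≤ mU L d P := by
          refine mU_mono fun z hz _ => ?_
          by_contra hzP
          obtain ⟨c, hcC, hzc⟩ := hC3 z (hZP z hzP)
          by_cases hc0 : c = f 0
          · rw [hc0] at hzc
            rcases hzc with h1 | h1
            · exact h.ne_of_right hz h1
            · exact h.not_both h1 hz
          · exact hx.2 ⟨c, hC2 _ hC0 c hcC (Ne.symm hc0), hC2 c hcC _ hC0 hc0⟩
        linarith
      · -- all the left bent siblings are core points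
        have hCK : ∀ c ∈ C, Bent L c → Bent R c := by
          intro c hcC h1
          by_cases hc0 : c = f 0
          · by_contra h2
            exact hx (hc0 ▸ ⟨h1, h2⟩)
          · exact ⟨f 0, hC2 c hcC _ hC0 hc0, hC2 _ hC0 c hcC (Ne.symm hc0)⟩
        set A₁ : Set X := {z | ∃ c ∈ C, Bent L c ∧ c ∈ σ ∧ (z = c ∨ z ∈ L c)} with hA₁
        set A₂ : Set X := {z | ∃ c ∈ C, Bent L c ∧ c ∉ σ ∧ (z = c ∨ z ∈ L c)} with hA₂
        have hA₁' : (mU L d A₁ = 0) ∨ ∃ c ∈ C, Bent L c ∧ Bent R c ∧ c ∈ σ ∧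
            mU L d A₁ ≤ tU L R σ d c := by
          by_cases hD : ∃ c ∈ C, Bent L c ∧ c ∈ σ
          · obtain ⟨c, hcC, hcL, hcσ⟩ := hD
            refine Or.inr ⟨c, hcC, hcL, hCK c hcC hcL, hcσ, ?_⟩
            rw [tU_pos hcσ]
            refine mU_mono ?_
            rintro z ⟨c', hc'C, hc'L, hc'σ, hz⟩ -
            rw [huniq c hcC c' hc'C hcL (hCK c hcC hcL) hc'L (hCK c' hc'C hc'L)
              ⟨fun _ => hc'σ, fun _ => hcσ⟩]
            exact hz
          · left
            apply le_antisymm _ (mU_nonneg _)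
            rw [← mass_empty d]
            refine mass_mono d ?_
            rintro z ⟨⟨c, hcC, hcL, hcσ, -⟩, -⟩
            exact absurd ⟨c, hcC, hcL, hcσ⟩ hD
        have hA₂' : (mU L d A₂ = 0) ∨ ∃ c ∈ C, Bent L c ∧ Bent R c ∧ c ∉ σ ∧
            mU L d A₂ ≤ mU L d univ - tU L R σ d c := by
          by_cases hD : ∃ c ∈ C, Bent L c ∧ c ∉ σ
          · obtain ⟨c, hcC, hcL, hcσ⟩ := hD
            refine Or.inr ⟨c, hcC, hcL, hCK c hcC hcL, hcσ, ?_⟩
            rw [tU_neg hcσ, hcompl c, add_sub_cancel_left]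
            refine mU_mono ?_
            rintro z ⟨c', hc'C, hc'L, hc'σ, hz⟩ -
            rw [huniq c hcC c' hc'C hcL (hCK c hcC hcL) hc'L (hCK c' hc'C hc'L)
              ⟨fun e => absurd e hcσ, fun e => absurd e hc'σ⟩]
            exact hz
          · left
            apply le_antisymm _ (mU_nonneg _)
            rw [← mass_empty d]
            refine mass_mono d ?_
            rintro z ⟨⟨c, hcC, hcL, hcσ, -⟩, -⟩
            exact absurd ⟨c, hcC, hcL, hcσ⟩ hD
        have hZle : mU L d Z ≤ mU L d A₁ + mU L d A₂ := by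
          have h1 : mU L d Z ≤ mU L d (A₁ ∪ A₂) := by
            refine mU_mono fun z hz hzL => ?_
            obtain ⟨c, hcC, hcL, hzc⟩ := hZA z hz hzL
            by_cases hcσ : c ∈ σ
            · exact Or.inl ⟨c, hcC, hcL, hcσ, hzc⟩
            · exact Or.inr ⟨c, hcC, hcL, hcσ, hzc⟩
          refine h1.trans ?_
          unfold mU
          rw [union_inter_distrib_right]
          exact mass_union_le d _ _
        refine ⟨mU L d A₁, mU L d univ - mU L d A₂, fun t ht => ⟨?_, ?_⟩, by linarith, ?_, ?_⟩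
        · rcases hA₁' with h1 | ⟨c, hcC, hcL, hcR, hcσ, h1⟩
          · rw [h1]; exact (hs.bound _ (hall t ht) (hR t ht)).1
          · refine h1.trans (hs.east_le _ _ (hall t ht) (hR t ht) hcL hcR ?_)
            rw [west_pos hcσ]
            exact fun h2 => h.not_both h2 (hC1 c hcC t ht).2
        · rcases hA₂' with h1 | ⟨c, hcC, hcL, hcR, hcσ, h1⟩
          · rw [h1, sub_zero]; exact (hs.bound _ (hall t ht) (hR t ht)).2
          · have h2 := hs.west_le _ _ (hall t ht) (hR t ht) hcL hcR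
              (by rw [west_neg hcσ]; exact (hC1 c hcC t ht).2)
            linarith
        · rcases hA₁' with h1 | ⟨c, hcC, hcL, hcR, hcσ, h1⟩
          · rw [h1]; exact hτ0
          · exact h1.trans_lt ((hcτ c hcC hcL hcR).1 hcσ)
        · rcases hA₂' with h1 | ⟨c, hcC, hcL, hcR, hcσ, h1⟩
          · rw [h1, sub_zero]; exact hτ1
          · have := (hcτ c hcC hcL hcR).2 hcσ
            linarith
    obtain ⟨δ, hδ, h5⟩ := hcont (min (τ - α) (β - τ)) (lt_min (by linarith) (by linarith))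
    have h6 := h5 δ hδ le_rfl
    have h7 := h1 δ hδ
    have h8 := hs.length _ (hall δ hδ) (hR δ hδ)
    have h9 := min_le_left (τ - α) (β - τ)
    have h10 := min_le_right (τ - α) (β - τ)
    refine ⟨δ, hδ, (mem_slot_plus (hall δ hδ) (hR δ hδ)).2 ⟨by linarith, by linarith⟩⟩

end Pool.Agent.Helper921_LeafSpaces
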