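import Mathlib
import Pool.Agent.Helper921_LeafSpaces.Slots

/-!
# Gaps and ends of the core
-/

namespace Pool.Agent.Helper921_LeafSpaces

open Set Topology Filter TopologicalSpace

set_option linter.unusedSectionVars false

variable {X : Type*} [TopologicalSpace X] {L R : X → Set X} {σ : Set X} {d : ℕ → X}

theorem IsCoreOrder.compl (hK : IsCoreOrder L R σ) (h : IsSides L R) :
    IsCoreOrder L R σᶜ := by
  intro k k' h1 h2 h1' h2' hne
  rw [h.west_compl hne, h.west_compl (Ne.symm hne)]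
  have := hK k k' h1 h2 h1' h2' hne
  tauto

/-- The mass of a right germ. -/
theorem germ_pos (h : IsSides L R) (hd : DenseRange d) {f : ℝ → X} (hf : IsOpenEmbedding f)
    (hfo : ∀ s t, s < t → f s ∈ L (f t) ∧ f t ∈ R (f s)) (hb : Bent L (f 0)) :
    0 < mU L d (f '' Ioo 0 1) := by
  obtain ⟨n, hn⟩ := hd.exists_mem_open (hf.isOpenMap _ isOpen_Ioo)
    ((nonempty_Ioo.2 (zero_lt_one' ℝ)).image f)
  unfold mU
  apply mass_pos d (n := n)
  refine ⟨hn, ?_⟩
  obtain ⟨t, ht, htn⟩ := hn
  rw [← htn]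
  exact h.bent_left_mono (hfo 0 t ht.1).2 (hfo 0 t ht.1).1 hb

theorem chart_neg {f : ℝ → X} (hf : IsOpenEmbedding f)
    (hfo : ∀ s t, s < t → f s ∈ L (f t) ∧ f t ∈ R (f s)) :
    IsOpenEmbedding (fun t => f (-t)) ∧
      ∀ s t, s < t → f (-s) ∈ R (f (-t)) ∧ f (-t) ∈ L (f (-s)) :=
  ⟨hf.comp (Homeomorph.neg ℝ).isOpenEmbedding, fun s t hst =>
    ⟨(hfo (-t) (-s) (by linarith)).2, (hfo (-t) (-s) (by linarith)).1⟩⟩

/-- The mass of a left germ. -/
theorem germ_pos' (h : IsSides L R) (hd : DenseRange d) {f : ℝ → X} (hf : IsOpenEmbedding f)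
    (hfo : ∀ s t, s < t → f s ∈ L (f t) ∧ f t ∈ R (f s)) (hb : Bent R (f 0)) :
    0 < mU R d (f '' Ioo (-1) 0) := by
  have h1 := chart_neg hf hfo
  have h2 := germ_pos h.symm hd h1.1 h1.2 (by simpa using hb)
  have h3 : (fun t => f (-t)) '' Ioo 0 1 = f '' Ioo (-1) 0 := by
    ext x
    constructor
    · rintro ⟨t, ht, rfl⟩
      exact ⟨-t, ⟨by linarith [ht.2], by linarith [ht.1]⟩, rfl⟩
    · rintro ⟨t, ht, rfl⟩
      exact ⟨-t, ⟨by linarith [ht.2], by linarith [ht.1]⟩, by simp⟩
  rwa [h3] at h2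

/-- The gaps around a positive core point. -/
theorem exists_gap (h : IsSides L R) (hK : IsCoreOrder L R σ) (hd : DenseRange d) {k : X}
    (hL : Bent L k) (hR : Bent R k) (hk : k ∈ σ) :
    ∃ ε > 0, (∀ k', Bent L k' → Bent R k' → k' ∈ west L R σ k → k' ∉ σ →
        tU R L σᶜ d k' + ε ≤ tU R L σᶜ d k) ∧
      (∀ k', Bent L k' → Bent R k' → k ∈ west L R σ k' → k' ∉ σ →
        tU L R σ d k + ε ≤ tU L R σ d k') ∧
      ε ≤ tU R L σᶜ d k ∧ tU L R σ d k + ε ≤ mU L d univ := by
  obtain ⟨f, hf, rfl, hfo⟩ := h.exists_chart k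
  have g1 := germ_pos h hd hf hfo hL
  have g2 := germ_pos' h hd hf hfo hR
  have hkc : f 0 ∉ σᶜ := fun e => e hk
  refine ⟨min (mU L d (f '' Ioo 0 1)) (mU R d (f '' Ioo (-1) 0)), lt_min g1 g2, ?_, ?_, ?_, ?_⟩
  · intro k' h1 h2 hkk' hk'
    refine (add_le_add_right (min_le_right _ _) _).trans ?_
    rw [tU_neg hkc, tU_pos (show k' ∈ σᶜ from hk')]
    have havoid : ∀ s, s ≤ 0 → f s ≠ k' := by
      intro s hs hsk
      rcases eq_or_lt_of_le hs with h3 | h3
      · rw [h3] at hsk; exact hk' (hsk ▸ hk)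
      · have := hfo s 0 h3
        rw [hsk] at this
        exact hk' ((hK.sign h h1 h2 hL hR this.2 this.1).2 hk)
    have hsub : insert k' (R k') ⊆ L (f 0) := by
      have := hK.subset h h1 h2 hL hR hkk'
      rwa [west_neg hk', west_pos hk] at this
    have h0 : f 0 ∉ west L R σ k' :=
      (hK k' (f 0) h1 h2 hL hR (fun e => h.notMem_west _ (e ▸ hkk'))).1 hkk'
    rw [west_neg hk'] at h0
    have hnot : ∀ s, s ≤ 0 → f s ∉ insert k' (R k') := by
      intro s hs
      rintro (h3 | h3)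
      · exact havoid s hs h3
      · have h4 : IsPreconnected (f '' Icc s 0) :=
          isPreconnected_Icc.image _ hf.continuous.continuousOn
        have h5 : k' ∉ f '' Icc s 0 := by
          rintro ⟨r, hr, hrk⟩; exact havoid r hr.2 hrk
        exact h0 (h.subset_right h4 h5 ⟨s, ⟨le_rfl, hs⟩, rfl⟩ h3 ⟨0, ⟨hs, le_rfl⟩, rfl⟩)
    rw [← mU_union]
    · refine mU_mono ?_
      rintro x (hx | ⟨s, hs, rfl⟩) -
      · exact hsub hx
      · exact (hfo s 0 hs.2).1
    · rintro x hx ⟨s, hs, rfl⟩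
      exact hnot s hs.2.le hx
  · intro k' h1 h2 hkk' hk'
    refine (add_le_add_right (min_le_left _ _) _).trans ?_
    rw [tU_pos hk, tU_neg hk']
    have havoid : ∀ s, 0 ≤ s → f s ≠ k' := by
      intro s hs hsk
      rcases eq_or_lt_of_le hs with h3 | h3
      · rw [← h3] at hsk; exact hk' (hsk ▸ hk)
      · have := hfo 0 s h3
        rw [hsk] at this
        exact hk' ((hK.sign h hL hR h1 h2 this.2 this.1).1 hk)
    have hsub : insert (f 0) (L (f 0)) ⊆ R k' := by
      have := hK.subset h hL hR h1 h2 hkk'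
      rwa [west_neg hk', west_pos hk] at this
    have hin : ∀ s, 0 ≤ s → f s ∈ R k' := by
      intro s hs
      have h4 : IsPreconnected (f '' Icc 0 s) :=
        isPreconnected_Icc.image _ hf.continuous.continuousOn
      have h5 : k' ∉ f '' Icc 0 s := by
        rintro ⟨r, hr, hrk⟩; exact havoid r hr.1 hrk
      exact h.subset_right h4 h5 ⟨0, ⟨le_rfl, hs⟩, rfl⟩ (hsub (mem_insert _ _))
        ⟨s, ⟨hs, le_rfl⟩, rfl⟩
    rw [← mU_union]
    · refine mU_mono ?_
      rintro x (hx | ⟨s, hs, rfl⟩) -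
      · exact hsub hx
      · exact hin s hs.1.le
    · rintro x (hx | hx) ⟨s, hs, rfl⟩
      · exact (ne_of_gt hs.1) (hf.injective hx)
      · exact h.not_both hx (hfo 0 s hs.1).2
  · refine (min_le_right _ _).trans ?_
    rw [tU_neg hkc]
    refine mU_mono ?_
    rintro x ⟨s, hs, rfl⟩ -
    exact (hfo s 0 hs.2).1
  · refine (add_le_add_right (min_le_left _ _) _).trans ?_
    rw [tU_pos hk, ← mU_union]
    · exact mU_le_univ _
    · rintro x (hx | hx) ⟨s, hs, rfl⟩
      · exact (ne_of_gt hs.1) (hf.injective hx)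
      · exact h.not_both hx (hfo 0 s hs.1).2

/-- The third alternative for the west end, near a point in the closure of the core. -/
theorem end_of_right (h : IsSides L R) (hK : IsCoreOrder L R σ) (hd : DenseRange d)
    {f : ℝ → X} (hf : IsOpenEmbedding f)
    (hfo : ∀ s t, s < t → f s ∈ L (f t) ∧ f t ∈ R (f s))
    (hy : ∀ k, Bent L k → Bent R k → f 0 ∈ west L R σ k) {t : ℝ} (ht : 0 < t)
    (h1 : Bent L (f t)) (h2 : Bent R (f t)) :
    f t ∈ σ ∧ ∃ c > 0, (∀ k, Bent L k → Bent R k → (k = f t ∨ k ∈ west L R σ (f t)) → k ∈ σ) ∧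
      ∀ k, Bent L k → Bent R k → c ≤ mU R d (west L R σ k) := by
  have hpos : ∀ s, 0 < s → Bent L (f s) → Bent R (f s) → f s ∈ σ := by
    intro s hs h3 h4
    by_contra hc
    have h5 := hy _ h3 h4
    rw [west_neg hc] at h5
    exact h.not_both (hfo 0 s hs).1 h5
  have hyR : Bent R (f 0) := h.bent_right_anti (hfo 0 t ht).2 (hfo 0 t ht).1 h2
  have hyL : ¬ Bent L (f 0) := fun e => h.notMem_west _ (hy _ e hyR)
  refine ⟨hpos t ht h1 h2, mU R d (f '' Ioo (-1) 0), germ_pos' h hd hf hfo hyR, ?_, ?_⟩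
  · rintro k hk1 hk2 (rfl | hk)
    · exact hpos t ht h1 h2
    · have h3 : k ∈ f '' Icc 0 t := by
        by_contra hc
        have h4 : IsPreconnected (f '' Icc 0 t) :=
          isPreconnected_Icc.image _ hf.continuous.continuousOn
        have h5 := h.subset_west h4 hc ⟨0, ⟨le_rfl, ht.le⟩, rfl⟩ (hy k hk1 hk2)
          ⟨t, ⟨ht.le, le_rfl⟩, rfl⟩
        exact (hK k (f t) hk1 hk2 h1 h2 (fun e => h.notMem_west _ (e ▸ hk))).1 hk h5
      obtain ⟨s, hs, rfl⟩ := h3
      rcases eq_or_lt_of_le hs.1 with h4 | h4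
      · rw [← h4] at hk1; exact absurd hk1 hyL
      · exact hpos s h4 hk1 hk2
  · intro k hk1 hk2
    refine mU_mono ?_
    rintro x ⟨s, hs, rfl⟩ -
    have h3 : k ∉ insert (f 0) (L (f 0)) := by
      rintro (h4 | h4)
      · rw [h4] at hk1; exact hyL hk1
      · have h5 := h.pure_left hyL h4
        exact hyL (h.bent_left_mono h5 h4 hk1)
    exact h.subset_west (h.left_conn (f 0)) h3 (mem_insert _ _) (hy k hk1 hk2)
      (mem_insert_of_mem _ (hfo s 0 hs.2).1)

/-- **The west end of the core.** -/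
theorem west_end [PreconnectedSpace X] (h : IsSides L R) (hK : IsCoreOrder L R σ)
    (hd : DenseRange d) :
    (∀ k, Bent L k → ¬ Bent R k) ∨
    (∀ ε > 0, ∃ k, Bent L k ∧ Bent R k ∧ mass d (insert k (west L R σ k)) < ε) ∨
    ∃ k₁, Bent L k₁ ∧ Bent R k₁ ∧ ∃ c > 0,
      (∀ k, Bent L k → Bent R k → (k = k₁ ∨ k ∈ west L R σ k₁) → (k ∈ σ ↔ k₁ ∈ σ)) ∧
      (k₁ ∈ σ → ∀ k, Bent L k → Bent R k → c ≤ mU R d (west L R σ k)) ∧
      (k₁ ∉ σ → ∀ k, Bent L k → Bent R k → c ≤ mU L d (west L R σ k)) := by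
  classical
  by_cases hne : ∀ k, Bent L k → ¬ Bent R k
  · exact Or.inl hne
  right
  push Not at hne
  obtain ⟨q, hq1, hq2⟩ := hne
  set Y : Set X := {y | ∀ k, Bent L k → Bent R k → y ∈ west L R σ k} with hY
  have hwne : ∀ k, (west L R σ k).Nonempty := by
    intro k
    obtain ⟨f, hf, rfl, hfo⟩ := h.exists_chart k
    by_cases hk : f 0 ∈ σ
    · rw [west_pos hk]; exact ⟨f (-1), (hfo (-1) 0 (by norm_num)).1⟩
    · rw [west_neg hk]; exact ⟨f 1, (hfo 0 1 (by norm_num)).2⟩
  by_cases hYe : Y = ∅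
  · left
    intro ε hε
    obtain ⟨N, hN⟩ := exists_avoid d hε
    have hno : ∀ k₁, Bent L k₁ → Bent R k₁ → ∃ k, Bent L k ∧ Bent R k ∧ k ∈ west L R σ k₁ := by
      intro k₁ h1 h2
      by_contra hc
      push Not at hc
      obtain ⟨y, hy⟩ := hwne k₁
      have : y ∈ Y := by
        intro k hk1 hk2
        by_cases hkk : k = k₁
        · rw [hkk]; exact hy
        · have h3 := (hK.total hk1 hk2 h1 h2 hkk).resolve_left (hc k hk1 hk2)
          exact hK.subset h h1 h2 hk1 hk2 h3 (mem_insert_of_mem _ hy)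
      rw [hYe] at this
      exact this
    have hpt : ∀ y, ∃ k, Bent L k ∧ Bent R k ∧ y ∉ insert k (west L R σ k) := by
      intro y
      have hy : y ∉ Y := by rw [hYe]; exact notMem_empty y
      have : ¬ ∀ k, Bent L k → Bent R k → y ∈ west L R σ k := hy
      push Not at this
      obtain ⟨k₁, h1, h2, h3⟩ := this
      obtain ⟨k, hk1, hk2, hkk⟩ := hno k₁ h1 h2
      refine ⟨k, hk1, hk2, fun h4 => h3 (hK.subset h hk1 hk2 h1 h2 hkk h4)⟩
    have hind : ∀ n : ℕ, ∃ k, Bent L k ∧ Bent R k ∧ ∀ m < n, d m ∉ insert k (west L R σ k) := by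
      intro n
      induction n with
      | zero => exact ⟨q, hq1, hq2, fun m hm => absurd hm (Nat.not_lt_zero m)⟩
      | succ n ih =>
        obtain ⟨k, hk1, hk2, hk⟩ := ih
        obtain ⟨k', hk1', hk2', hk'⟩ := hpt (d n)
        by_cases hkk : k = k'
        · subst hkk
          refine ⟨k, hk1, hk2, fun m hm => ?_⟩
          rcases Nat.lt_succ_iff_lt_or_eq.1 hm with h3 | rfl
          · exact hk m h3
          · exact hk'
        · rcases hK.total hk1 hk2 hk1' hk2' hkk with h3 | h3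
          · refine ⟨k, hk1, hk2, fun m hm => ?_⟩
            rcases Nat.lt_succ_iff_lt_or_eq.1 hm with h4 | rfl
            · exact hk m h4
            · exact fun h5 => hk' (mem_insert_of_mem _ (hK.subset h hk1 hk2 hk1' hk2' h3 h5))
          · refine ⟨k', hk1', hk2', fun m hm => ?_⟩
            rcases Nat.lt_succ_iff_lt_or_eq.1 hm with h4 | rfl
            · exact fun h5 => hk m h4 (mem_insert_of_mem _ (hK.subset h hk1' hk2' hk1 hk2 h3 h5))
            · exact hk'
    obtain ⟨k, hk1, hk2, hk⟩ := hind N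
    exact ⟨k, hk1, hk2, hN _ hk⟩
  · right
    have hYne : Y.Nonempty := nonempty_iff_ne_empty.2 hYe
    have hYu : Y ≠ univ := by
      intro e
      have : q ∈ Y := by rw [e]; trivial
      exact h.notMem_west _ (this q hq1 hq2)
    have hncl : ¬ IsClopen Y := by
      intro hc
      rcases isClopen_iff.1 hc with e | e
      · exact hYe e
      · exact hYu e
    by_cases hYo : IsOpen Y
    · have hYc : ¬ IsClosed Y := fun e => hncl ⟨e, hYo⟩
      obtain ⟨z, hz, hzY⟩ : ∃ z ∈ closure Y, z ∉ Y := by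
        by_contra hc
        push Not at hc
        exact hYc (closure_subset_iff_isClosed.1 hc)
      have : ¬ ∀ k, Bent L k → Bent R k → z ∈ west L R σ k := hzY
      push Not at this
      obtain ⟨k₀, h1, h2, h3⟩ := this
      -- a point of the closure is not on the east side of a core point
      have heast : ∀ k, Bent L k → Bent R k → z ∉ west L R σᶜ k := by
        intro k hk1 hk2 hzk
        obtain ⟨y, hy1, hy2⟩ := mem_closure_iff.1 hz _ (h.isOpen_west (σ := σᶜ) k) hzk
        have hyk : y ≠ k := by rintro rfl; exact h.notMem_west _ hy1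
        exact (h.west_compl hyk).1 hy1 (hy2 k hk1 hk2)
      have hzk : z = k₀ := by
        by_contra hc
        exact heast k₀ h1 h2 ((h.west_compl hc).2 h3)
      subst hzk
      have hfirst : ∀ k, Bent L k → Bent R k → k ∉ west L R σ z := by
        intro k hk1 hk2 hkz
        have hne : k ≠ z := by rintro rfl; exact h.notMem_west _ hkz
        exact heast k hk1 hk2 ((h.west_compl (Ne.symm hne)).2 ((hK k z hk1 hk2 h1 h2 hne).1 hkz))
      have hsub : ∀ k, Bent L k → Bent R k → west L R σ z ⊆ west L R σ k := by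
        intro k hk1 hk2
        by_cases hkz : k = z
        · rw [hkz]
        · have := (hK.total hk1 hk2 h1 h2 hkz).resolve_left (hfirst k hk1 hk2)
          exact (subset_insert _ _).trans (hK.subset h h1 h2 hk1 hk2 this)
      obtain ⟨f, hf, rfl, hfo⟩ := h.exists_chart z
      refine ⟨f 0, h1, h2, min (mU L d (f '' Ioo 0 1)) (mU R d (f '' Ioo (-1) 0)),
        lt_min (germ_pos h hd hf hfo h1) (germ_pos' h hd hf hfo h2), ?_, ?_, ?_⟩
      · rintro k hk1 hk2 (rfl | hk)
        · rfl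
        · exact absurd hk (hfirst k hk1 hk2)
      · intro hσ k hk1 hk2
        refine (min_le_right _ _).trans (mU_mono ?_)
        rintro x ⟨s, hs, rfl⟩ -
        apply hsub k hk1 hk2
        rw [west_pos hσ]
        exact (hfo s 0 hs.2).1
      · intro hσ k hk1 hk2
        refine (min_le_left _ _).trans (mU_mono ?_)
        rintro x ⟨s, hs, rfl⟩ -
        apply hsub k hk1 hk2
        rw [west_neg hσ]
        exact (hfo 0 s hs.1).2
    · rw [isOpen_iff_mem_nhds] at hYo
      push Not at hYo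
      obtain ⟨y, hy, hyn⟩ := hYo
      obtain ⟨f, hf, rfl, hfo⟩ := h.exists_chart y
      have hex : ∃ s, f s ∉ Y := by
        by_contra hc
        push Not at hc
        apply hyn
        filter_upwards [hf.isOpen_range.mem_nhds (mem_range_self 0)]
        rintro _ ⟨s, rfl⟩
        exact hc s
      obtain ⟨s, hs⟩ := hex
      have : ¬ ∀ k, Bent L k → Bent R k → f s ∈ west L R σ k := hs
      push Not at this
      obtain ⟨k, hk1, hk2, hk3⟩ := this
      have hseg : k ∈ f '' uIcc 0 s := by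
        by_contra hc
        have h4 : IsPreconnected (f '' uIcc 0 s) :=
          isPreconnected_uIcc.image _ hf.continuous.continuousOn
        exact hk3 (h.subset_west h4 hc ⟨0, left_mem_uIcc, rfl⟩ (hy k hk1 hk2)
          ⟨s, right_mem_uIcc, rfl⟩)
      obtain ⟨t, -, rfl⟩ := hseg
      rcases lt_trichotomy t 0 with ht | ht | ht
      · have h5 := chart_neg hf hfo
        obtain ⟨h6, c, hc, h7, h8⟩ := end_of_right (σ := σᶜ) (d := d) h.symm hK.swap hd h5.1 h5.2
          (by
            intro k hk1 hk2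
            rw [west_swap]
            simpa using hy k hk2 hk1) (t := -t) (by linarith) (by simpa using hk2)
            (by simpa using hk1)
        simp only [neg_neg, west_swap] at h6 h7 h8
        refine ⟨f t, hk1, hk2, c, hc, ?_, ?_, ?_⟩
        · intro k hk1 hk2 hk
          have h9 := h7 k hk2 hk1 hk
          exact ⟨fun e => absurd e h9, fun e => absurd e h6⟩
        · intro e; exact absurd e h6
        · intro _ k hk1 hk2
          exact h8 k hk2 hk1
      · subst ht
        exact absurd (hy _ hk1 hk2) (h.notMem_west _)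
      · obtain ⟨h6, c, hc, h7, h8⟩ := end_of_right (σ := σ) (d := d) h hK hd hf hfo hy ht hk1 hk2
        refine ⟨f t, hk1, hk2, c, hc, ?_, ?_, ?_⟩
        · intro k hk1 hk2 hk
          exact ⟨fun _ => h6, fun _ => h7 k hk1 hk2 hk⟩
        · intro _ k hk1 hk2
          exact h8 k hk1 hk2
        · intro e; exact absurd h6 e

end Pool.Agent.Helper921_LeafSpaces
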