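import Mathlib
import Pool.Agent.Helper921_LeafSpaces.Sides

set_option autoImplicit false
set_option linter.unusedSectionVars false

namespace Pool.Agent.Helper921_LeafSpaces

open Set Topology Filter TopologicalSpace

variable {X : Type*} [TopologicalSpace X]

/-! Auxiliary facts. -/

section fibre

variable {L R : X → Set X}

/-- increasing open embeddings of the line -/
def exists_fibre_function_Ch (L R : X → Set X) (f : ℝ → X) : Prop :=
  IsOpenEmbedding f ∧ ∀ s t, s < t → f s ∈ L (f t) ∧ f t ∈ R (f s)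

theorem exists_fibre_function_downR (h : IsSides L R) {f : ℝ → X}
    (hf : exists_fibre_function_Ch L R f) {s t : ℝ} (hst : s ≤ t) : R (f t) ⊆ R (f s) := by
  rcases hst.eq_or_lt with rfl | hst
  · exact Subset.rfl
  · exact (subset_insert _ _).trans (h.nest_rl (hf.2 s t hst).2 (hf.2 s t hst).1)

theorem exists_fibre_function_upL (h : IsSides L R) {f : ℝ → X}
    (hf : exists_fibre_function_Ch L R f) {s t : ℝ} (hst : s ≤ t) : L (f s) ⊆ L (f t) := by
  rcases hst.eq_or_lt with rfl | hst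
  · exact Subset.rfl
  · exact (subset_insert _ _).trans (h.nest_lr (hf.2 s t hst).1 (hf.2 s t hst).2)

theorem exists_fibre_function_mem_R (h : IsSides L R) {f : ℝ → X}
    (hf : exists_fibre_function_Ch L R f) {s t : ℝ} : f t ∈ R (f s) ↔ s < t := by
  refine ⟨fun h1 => ?_, fun h1 => (hf.2 s t h1).2⟩
  by_contra hst
  rcases (not_lt.mp hst).eq_or_lt with rfl | hst
  · exact h.notMem_right _ h1
  · exact h.not_both (hf.2 t s hst).1 h1

theorem exists_fibre_function_mem_L (h : IsSides L R) {f : ℝ → X}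
    (hf : exists_fibre_function_Ch L R f) {s t : ℝ} : f t ∈ L (f s) ↔ t < s := by
  refine ⟨fun h1 => ?_, fun h1 => (hf.2 t s h1).1⟩
  by_contra hst
  rcases (not_lt.mp hst).eq_or_lt with rfl | hst
  · exact h.notMem_left _ h1
  · exact h.not_both h1 (hf.2 s t hst).2

/-- step 1 -/
theorem exists_fibre_function_H0 (h : IsSides L R) {V : Set X} (hVo : IsOpen V)
    (hVc : IsPreconnected V)
    (hT : ∀ x z, x ∈ V → z ∈ V → x ≠ z → (z ∈ R x ∧ x ∈ L z) ∨ (z ∈ L x ∧ x ∈ R z))
    {f : ℝ → X} (hf : exists_fibre_function_Ch L R f) {x' : X} (hx : f 0 ∈ V) (hx' : x' ∈ V)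
    (hxx' : x' ∈ R (f 0)) : ∃ t, 0 < t ∧ x' ∈ R (f t) := by
  by_contra hcon
  push Not at hcon
  have hL : ∀ t, 0 < t → x' ∈ L (f t) := by
    intro t ht
    by_cases he : x' = f t
    · exfalso
      apply hcon (t / 2) (by linarith)
      rw [he]
      exact (hf.2 (t / 2) t (by linarith)).2
    · exact h.left_of_notMem_right he (hcon t ht)
  let B : Set X := {w | w ∈ V ∧ w ∈ R (f 0) ∧ ∀ t, 0 < t → w ∈ L (f t)}
  have hx'B : x' ∈ B := ⟨hx', hxx', hL⟩
  have hBo : IsOpen B := by
    rw [isOpen_iff_forall_mem_open]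
    rintro w ⟨hwV, hwR, hwL⟩
    have hne : f 0 ≠ w := (h.ne_of_right hwR).symm
    have hxw : f 0 ∈ L w := by
      rcases hT (f 0) w hx hwV hne with h1 | h1
      · exact h1.2
      · exact absurd hwR (fun h2 => h.not_both h1.1 h2)
    obtain ⟨g, hg, hg0, hg2⟩ := h.exists_chart w
    have o1 : IsOpen (f ⁻¹' (L w)) := (h.isOpen_left w).preimage hf.1.continuous
    have o2 : IsOpen (g ⁻¹' (R (f 0) ∩ V)) :=
      ((h.isOpen_right _).inter hVo).preimage hg.continuous
    obtain ⟨ε₁, hε₁, hb1⟩ := Metric.isOpen_iff.mp o1 0 hxw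
    obtain ⟨ε₂, hε₂, hb2⟩ := Metric.isOpen_iff.mp o2 0 (by
      change g 0 ∈ R (f 0) ∩ V
      rw [hg0]; exact ⟨hwR, hwV⟩)
    refine ⟨g '' (Metric.ball 0 ε₂), ?_, (hg.isOpenMap _ Metric.isOpen_ball),
      ⟨0, Metric.mem_ball_self hε₂, hg0⟩⟩
    have hNc : IsPreconnected (g '' (Metric.ball 0 ε₂)) :=
      ((convex_ball (0:ℝ) ε₂).isPreconnected).image _ hg.continuous.continuousOn
    have hdis : ∀ t, 0 < t → t < ε₁ → f t ∉ g '' (Metric.ball 0 ε₂) := by
      rintro t ht ht1 ⟨u, hu, hgu⟩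
      have hy : f t ∈ L w := hb1 (by simp [abs_of_pos ht, ht1])
      have hu0 : u < 0 := by
        by_contra hu0
        rcases (not_lt.mp hu0).eq_or_lt with he | hlt
        · rw [← hgu, ← he, hg0] at hy
          exact h.notMem_left _ hy
        · have := (hg2 0 u hlt).2
          rw [hg0, hgu] at this
          exact h.not_both hy this
      have h1 := (hg2 u 0 hu0).2
      rw [hg0, hgu] at h1
      exact h.not_both (hwL t ht) h1
    have hsub : ∀ t, 0 < t → g '' (Metric.ball 0 ε₂) ⊆ L (f t) := by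
      intro t ht
      have h1 : g '' (Metric.ball 0 ε₂) ⊆ L (f (min t (ε₁ / 2))) := by
        have hm : 0 < min t (ε₁ / 2) := lt_min ht (by linarith)
        have hm2 : min t (ε₁ / 2) < ε₁ := (min_le_right _ _).trans_lt (by linarith)
        exact h.subset_left hNc (hdis _ hm hm2) ⟨0, Metric.mem_ball_self hε₂, hg0⟩ (hwL _ hm)
      exact h1.trans (exists_fibre_function_upL h hf (min_le_left _ _))
    intro y hy
    have hy2 : y ∈ R (f 0) ∩ V := by
      obtain ⟨u, hu, rfl⟩ := hy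
      exact hb2 hu
    exact ⟨hy2.2, hy2.1, fun t ht => hsub t ht hy⟩
  let O : Set X := L (f 0) ∪ range f ∪ ⋃ t ∈ Ioi (0:ℝ), R (f t)
  have hOo : IsOpen O := by
    refine IsOpen.union (IsOpen.union (h.isOpen_left _) hf.1.isOpen_range) ?_
    exact isOpen_biUnion fun t _ => h.isOpen_right _
  have hcov : V ⊆ B ∪ O := by
    intro v hv
    by_cases hvx : v = f 0
    · exact Or.inr (Or.inl (Or.inr ⟨0, hvx.symm⟩))
    rcases h.mem_or hvx with h1 | h1
    · exact Or.inr (Or.inl (Or.inl h1))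
    by_cases h2 : ∀ t, 0 < t → v ∈ L (f t)
    · exact Or.inl ⟨hv, h1, h2⟩
    · push Not at h2
      obtain ⟨t, ht, h3⟩ := h2
      refine Or.inr (Or.inr ?_)
      refine mem_biUnion (x := t / 2) (by simp [ht]) ?_
      by_cases h4 : v = f t
      · rw [h4]
        exact (hf.2 (t / 2) t (by linarith)).2
      · exact exists_fibre_function_downR h hf (by linarith) (h.right_of_notMem_left h4 h3)
  obtain ⟨y, _, ⟨_, hyR, hyL⟩, hyO⟩ := hVc B O hBo hOo hcov ⟨x', hx', hx'B⟩
    ⟨f 0, hx, Or.inl (Or.inr ⟨0, rfl⟩)⟩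
  rcases hyO with (h1 | ⟨t, rfl⟩) | h1
  · exact h.not_both h1 hyR
  · have ht : 0 < t := (exists_fibre_function_mem_R h hf).mp hyR
    exact h.notMem_left _ (hyL t ht)
  · simp only [mem_iUnion] at h1
    obtain ⟨t, ht, h1⟩ := h1
    exact h.not_both (hyL t ht) h1

theorem exists_fibre_function_H (h : IsSides L R) {V : Set X} (hVo : IsOpen V)
    (hVc : IsPreconnected V)
    (hT : ∀ x z, x ∈ V → z ∈ V → x ≠ z → (z ∈ R x ∧ x ∈ L z) ∨ (z ∈ L x ∧ x ∈ R z))
    {f : ℝ → X} (hf : exists_fibre_function_Ch L R f) {x' : X} {a : ℝ} (hx : f a ∈ V)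
    (hx' : x' ∈ V) (hxx' : x' ∈ R (f a)) : ∃ t, a < t ∧ x' ∈ R (f t) := by
  have hg : exists_fibre_function_Ch L R (fun t => f (a + t)) := by
    refine ⟨hf.1.comp (Homeomorph.addLeft a).isOpenEmbedding, fun s t hst => ?_⟩
    exact hf.2 _ _ (by linarith)
  obtain ⟨t, ht, h1⟩ := exists_fibre_function_H0 h hVo hVc hT hg (x' := x') (by simpa using hx) hx'
    (by simpa using hxx')
  exact ⟨a + t, by linarith, h1⟩

/-- the coordinate of a chart, extended to the whole space -/
noncomputable def exists_fibre_function_rho (R : X → Set X) (f : ℝ → X) (x : X) : ℝ :=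
  sSup (insert (-1) {t : ℝ | t ∈ Ioo (-1:ℝ) 1 ∧ x ∈ R (f t)})

theorem exists_fibre_function_bdd (R : X → Set X) (f : ℝ → X) (x : X) :
    BddAbove (insert (-1) {t : ℝ | t ∈ Ioo (-1:ℝ) 1 ∧ x ∈ R (f t)}) := by
  refine ⟨1, ?_⟩
  rintro t (rfl | ht)
  · norm_num
  · exact ht.1.2.le

theorem exists_fibre_function_rho_ge (R : X → Set X) (f : ℝ → X) (x : X) :
    -1 ≤ exists_fibre_function_rho R f x :=
  le_csSup (exists_fibre_function_bdd R f x) (mem_insert _ _)

theorem exists_fibre_function_rho_le (R : X → Set X) (f : ℝ → X) (x : X) :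
    exists_fibre_function_rho R f x ≤ 1 := by
  refine csSup_le ⟨-1, mem_insert _ _⟩ ?_
  rintro t (rfl | ht)
  · norm_num
  · exact ht.1.2.le

theorem exists_fibre_function_lt_rho (R : X → Set X) (f : ℝ → X) (x : X) (c : ℝ) :
    c < exists_fibre_function_rho R f x ↔ c < -1 ∨ ∃ t ∈ Ioo (-1:ℝ) 1, c < t ∧ x ∈ R (f t) := by
  unfold exists_fibre_function_rho
  rw [lt_csSup_iff (exists_fibre_function_bdd R f x) ⟨-1, mem_insert _ _⟩]
  constructor
  · rintro ⟨t, (rfl | ht), h1⟩
    · exact Or.inl h1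
    · exact Or.inr ⟨t, ht.1, h1, ht.2⟩
  · rintro (h1 | ⟨t, ht, h1, h2⟩)
    · exact ⟨-1, mem_insert _ _, h1⟩
    · exact ⟨t, mem_insert_of_mem _ ⟨ht, h2⟩, h1⟩

theorem exists_fibre_function_le_rho {R : X → Set X} {f : ℝ → X} {x : X} {t : ℝ}
    (ht : t ∈ Ioo (-1:ℝ) 1) (h : x ∈ R (f t)) : t ≤ exists_fibre_function_rho R f x :=
  le_csSup (exists_fibre_function_bdd R f x) (mem_insert_of_mem _ ⟨ht, h⟩)

theorem exists_fibre_function_rho_mono {R : X → Set X} {f : ℝ → X} {x z : X}
    (h : ∀ t ∈ Ioo (-1:ℝ) 1, x ∈ R (f t) → z ∈ R (f t)) :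
    exists_fibre_function_rho R f x ≤ exists_fibre_function_rho R f z := by
  refine csSup_le_csSup (exists_fibre_function_bdd R f z) ⟨-1, mem_insert _ _⟩ ?_
  exact insert_subset_insert fun t ht => ⟨ht.1, h t ht.1 ht.2⟩

theorem exists_fibre_function_rho_eq (h : IsSides L R) {f : ℝ → X}
    (hf : exists_fibre_function_Ch L R f) {t : ℝ} (ht : t ∈ Ioo (-1:ℝ) 1) :
    exists_fibre_function_rho R f (f t) = t := by
  apply le_antisymm
  · refine csSup_le ⟨-1, mem_insert _ _⟩ ?_
    rintro s (rfl | hs)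
    · exact ht.1.le
    · exact ((exists_fibre_function_mem_R h hf).mp hs.2).le
  · refine le_of_forall_lt fun c hc => ?_
    rw [exists_fibre_function_lt_rho]
    obtain ⟨u, hu1, hu2⟩ := exists_between (max_lt hc ht.1)
    refine Or.inr ⟨u, ⟨(le_max_right _ _).trans_lt hu1, hu2.trans ht.2⟩,
      (le_max_left _ _).trans_lt hu1, ?_⟩
    exact (exists_fibre_function_mem_R h hf).mpr hu2

theorem exists_fibre_function_rho_cont (h : IsSides L R) {f : ℝ → X}
    (hf : exists_fibre_function_Ch L R f) : Continuous (exists_fibre_function_rho R f) := by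
  rw [OrderTopology.continuous_iff]
  intro a
  constructor
  · have : exists_fibre_function_rho R f ⁻¹' Ioi a =
        {_x : X | a < -1} ∪ ⋃ t ∈ {t : ℝ | t ∈ Ioo (-1:ℝ) 1 ∧ a < t}, R (f t) := by
      ext x
      rw [mem_preimage, mem_Ioi, exists_fibre_function_lt_rho]
      simp only [mem_union, mem_ofPred_eq, mem_iUnion, exists_prop]
      refine or_congr Iff.rfl ⟨?_, ?_⟩
      · rintro ⟨t, h1, h2, h3⟩; exact ⟨t, ⟨h1, h2⟩, h3⟩
      · rintro ⟨t, ⟨h1, h2⟩, h3⟩; exact ⟨t, h1, h2, h3⟩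
    rw [this]
    exact IsOpen.union isOpen_const (isOpen_biUnion fun t _ => h.isOpen_right _)
  · by_cases ha : 1 < a
    · have : exists_fibre_function_rho R f ⁻¹' Iio a = univ := by
        ext x
        simp only [mem_preimage, mem_Iio, mem_univ, iff_true]
        exact (exists_fibre_function_rho_le R f x).trans_lt ha
      rw [this]
      exact isOpen_univ
    · rw [isOpen_iff_forall_mem_open]
      intro x hx
      rw [mem_preimage, mem_Iio] at hx
      obtain ⟨t', h1, h2⟩ := exists_between hx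
      obtain ⟨t, h3, h4⟩ := exists_between h2
      have hge := exists_fibre_function_rho_ge R f x
      have ht' : t' ∈ Ioo (-1:ℝ) 1 := ⟨by linarith, by linarith⟩
      have hnR : x ∉ R (f t') := fun h5 => by
        have := exists_fibre_function_le_rho ht' h5
        linarith
      refine ⟨L (f t), ?_, h.isOpen_left _, ?_⟩
      · intro y hy
        rw [mem_preimage, mem_Iio]
        refine lt_of_le_of_lt (csSup_le (a := t) ⟨-1, mem_insert _ _⟩ ?_) h4
        rintro u (rfl | hu)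
        · linarith
        · by_contra hut
          push Not at hut
          exact h.not_both (exists_fibre_function_upL h hf hut.le hy) hu.2
      · by_cases h5 : x = f t'
        · rw [h5]
          exact (exists_fibre_function_mem_L h hf).mpr h3
        · exact exists_fibre_function_upL h hf h3.le (h.left_of_notMem_right h5 hnR)

/-- the weights -/
theorem exists_fibre_function_q : HasSum (fun n : ℕ => (1 / 2 : ℝ) ^ (n + 1)) 1 := by
  have h1 := (hasSum_geometric_two).mul_right (1 / 2 : ℝ)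
  have h2 : (2 : ℝ) * (1 / 2) = 1 := by norm_num
  rw [h2] at h1
  simpa only [pow_succ] using h1

theorem exists_fibre_function_tail {T : ℕ → ℝ} (h0 : ∀ n, 0 ≤ T n)
    (h1 : ∀ n, T n ≤ (1 / 2) ^ (n + 1)) {δ : ℝ} (hδ : 0 ≤ δ) (N : ℕ)
    (h2 : ∀ n < N, T n ≤ (1 / 2) ^ (n + 1) * δ) : ∑' n, T n ≤ δ + (1 / 2) ^ N := by
  have hTs : Summable T := Summable.of_nonneg_of_le h0 h1 exists_fibre_function_q.summable
  rw [← hTs.sum_add_tsum_nat_add N]
  have e1 : ∑ i ∈ Finset.range N, T i ≤ δ := by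
    calc ∑ i ∈ Finset.range N, T i ≤ ∑ i ∈ Finset.range N, (1 / 2 : ℝ) ^ (i + 1) * δ :=
          Finset.sum_le_sum fun i hi => h2 i (Finset.mem_range.mp hi)
      _ = (∑ i ∈ Finset.range N, (1 / 2 : ℝ) ^ (i + 1)) * δ := by rw [Finset.sum_mul]
      _ ≤ 1 * δ := mul_le_mul_of_nonneg_right
          (sum_le_hasSum _ (fun i _ => by positivity) exists_fibre_function_q) hδ
      _ = δ := one_mul _
  have e2 : HasSum (fun i : ℕ => (1 / 2 : ℝ) ^ (i + N + 1)) ((1 / 2) ^ N) := by
    have := exists_fibre_function_q.mul_right ((1 / 2 : ℝ) ^ N)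
    rw [one_mul] at this
    have e : (fun i : ℕ => (1 / 2 : ℝ) ^ (i + 1) * (1 / 2) ^ N) =
        fun i : ℕ => (1 / 2 : ℝ) ^ (i + N + 1) := by
      funext i
      rw [← pow_add]
      congr 1
      omega
    rwa [e] at this
  have e3 : ∑' i, T (i + N) ≤ (1 / 2) ^ N := by
    rw [← e2.tsum_eq]
    exact ((summable_nat_add_iff N).mpr hTs).tsum_le_tsum (fun i => h1 _) e2.summable
  linarith

/-- the cut-off functions -/
noncomputable def exists_fibre_function_lam (c d s : ℝ) : ℝ := max (min (d - |s - c|) 1) 0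

theorem exists_fibre_function_lam_nn (c d s : ℝ) : 0 ≤ exists_fibre_function_lam c d s :=
  le_max_right _ _

theorem exists_fibre_function_lam_le (c d s : ℝ) : exists_fibre_function_lam c d s ≤ 1 :=
  max_le (min_le_right _ _) zero_le_one

theorem exists_fibre_function_lam_pos (c d s : ℝ) :
    0 < exists_fibre_function_lam c d s ↔ |s - c| < d := by
  unfold exists_fibre_function_lam
  rw [lt_max_iff, lt_min_iff, sub_pos]
  simp

theorem exists_fibre_function_lam_lip (c d s s' : ℝ) :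
    |exists_fibre_function_lam c d s - exists_fibre_function_lam c d s'| ≤ |s - s'| := by
  unfold exists_fibre_function_lam
  refine (abs_max_sub_max_le_abs _ _ _).trans ?_
  refine (abs_min_sub_min_le_max _ _ _ _).trans ?_
  rw [sub_self, abs_zero, max_eq_left (abs_nonneg _)]
  have e1 : d - |s - c| - (d - |s' - c|) = |s' - c| - |s - c| := by ring
  rw [e1]
  refine (abs_abs_sub_abs_le _ _).trans ?_
  rw [abs_sub_comm s s']
  apply le_of_eq
  congr 1
  ring

theorem exists_fibre_function_lam_cont (c d : ℝ) :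
    Continuous (exists_fibre_function_lam c d) := by
  unfold exists_fibre_function_lam
  fun_prop

end fibre

/-! TARGET. -/

theorem exists_fibre_function [SecondCountableTopology X] {L R : X → Set X} (h : IsSides L R)
    (U : Set (ℝ × X)) (hU : IsOpen U) (hne : ∀ s, {x | (s, x) ∈ U}.Nonempty)
    (hS : ∀ s, IsPreconnected {x | (s, x) ∈ U})
    (hT : ∀ s x z, (s, x) ∈ U → (s, z) ∈ U → x ≠ z →
      (z ∈ R x ∧ x ∈ L z) ∨ (z ∈ L x ∧ x ∈ R z)) :
    ∃ (G : ℝ × X → ℝ) (S : ℝ → ℝ), Continuous G ∧ (∀ s, 0 < S s) ∧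
      (∀ s s', |S s - S s'| ≤ |s - s'|) ∧ (∀ s s' x, |G (s, x) - G (s', x)| ≤ |s - s'|) ∧
      (∀ s x z, (s, x) ∈ U → (s, z) ∈ U → z ∈ R x → G (s, x) < G (s, z)) ∧
      ∀ s, (fun x => G (s, x)) '' {x | (s, x) ∈ U} = Ioo 0 (S s) := by
  classical
  have : Nonempty X := ⟨(hne 0).some⟩
  -- boxes
  have hbox : ∀ p : ℝ × X, p ∈ U → ∃ (f : ℝ → X) (ε : ℝ), exists_fibre_function_Ch L R f ∧
      f 0 = p.2 ∧ 0 < ε ∧ ∀ s t, |s - p.1| < ε → |t| < 1 → (s, f t) ∈ U := by
    rintro ⟨s₀, x⟩ hp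
    obtain ⟨f, hf, hf0, hf2⟩ := h.exists_chart x
    have hc : Continuous (fun q : ℝ × ℝ => ((q.1, f q.2) : ℝ × X)) :=
      continuous_fst.prodMk (hf.continuous.comp continuous_snd)
    obtain ⟨ε, hε, hb⟩ := Metric.isOpen_iff.mp (hU.preimage hc) (s₀, 0) (by
      change (s₀, f 0) ∈ U
      rw [hf0]; exact hp)
    refine ⟨fun t => f (ε * t), ε, ⟨?_, ?_⟩, ?_, hε, ?_⟩
    · exact hf.comp (Homeomorph.mulLeft₀ ε hε.ne').isOpenEmbedding
    · intro s t hst
      exact hf2 _ _ (mul_lt_mul_of_pos_left hst hε)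
    · simp [hf0]
    · intro s t hs ht
      have : ((s, ε * t) : ℝ × ℝ) ∈ Metric.ball (s₀, (0:ℝ)) ε := by
        rw [Metric.mem_ball, Prod.dist_eq, max_lt_iff]
        refine ⟨by simpa [Real.dist_eq] using hs, ?_⟩
        simp only [Real.dist_eq, sub_zero, abs_mul, abs_of_pos hε]
        calc ε * |t| < ε * 1 := mul_lt_mul_of_pos_left ht hε
          _ = ε := mul_one ε
      exact hb this
  choose! F E hF using hbox
  have hW : ∀ p ∈ U, {q : ℝ × X | |q.1 - p.1| < E p ∧ q.2 ∈ F p '' Ioo (-1) 1} ∈ 𝓝[U] p := by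
    intro p hp
    apply mem_nhdsWithin_of_mem_nhds
    obtain ⟨h1, h2, h3, h4⟩ := hF p hp
    have o1 : IsOpen {q : ℝ × X | |q.1 - p.1| < E p ∧ q.2 ∈ F p '' Ioo (-1) 1} := by
      refine IsOpen.inter ?_ ?_
      · exact isOpen_lt ((continuous_fst.sub continuous_const).abs) continuous_const
      · exact (h1.1.isOpenMap _ isOpen_Ioo).preimage continuous_snd
    refine o1.mem_nhds ⟨by simpa using h3, ⟨0, by simp, h2⟩⟩
  obtain ⟨t, htU, htc, hcov⟩ := TopologicalSpace.countable_cover_nhdsWithin hW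
  have htn : t.Nonempty := by
    obtain ⟨x, hx⟩ := hne 0
    have := hcov hx
    simp only [mem_iUnion] at this
    obtain ⟨p, hp, _⟩ := this
    exact ⟨p, hp⟩
  obtain ⟨e, he⟩ := htc.exists_eq_range htn
  have heU : ∀ n, e n ∈ U := fun n => htU (he ▸ mem_range_self n)
  set c : ℕ → ℝ := fun n => (e n).1 with hcdef
  set d : ℕ → ℝ := fun n => E (e n) with hddef
  set f : ℕ → ℝ → X := fun n => F (e n) with hfdef
  have hf : ∀ n, exists_fibre_function_Ch L R (f n) := fun n => (hF _ (heU n)).1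
  have hfU : ∀ n s u, |s - c n| < d n → u ∈ Ioo (-1:ℝ) 1 → (s, f n u) ∈ U := fun n s u hs hu =>
    (hF _ (heU n)).2.2.2 s u hs (abs_lt.mpr hu)
  have hcov2 : ∀ s x, (s, x) ∈ U → ∃ n, |s - c n| < d n ∧ ∃ u ∈ Ioo (-1:ℝ) 1, f n u = x := by
    intro s x hx
    have := hcov hx
    simp only [mem_iUnion] at this
    obtain ⟨p, hp, h1, h2⟩ := this
    rw [he] at hp
    obtain ⟨n, rfl⟩ := hp
    exact ⟨n, h1, h2⟩
  set lam : ℕ → ℝ → ℝ := fun n s => exists_fibre_function_lam (c n) (d n) s with hlam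
  set rho : ℕ → X → ℝ := fun n x => exists_fibre_function_rho R (f n) x with hrho
  have lam0 : ∀ n s, 0 ≤ lam n s := fun n s => exists_fibre_function_lam_nn _ _ _
  have lam1 : ∀ n s, lam n s ≤ 1 := fun n s => exists_fibre_function_lam_le _ _ _
  have lamp : ∀ n s, 0 < lam n s ↔ |s - c n| < d n := fun n s =>
    exists_fibre_function_lam_pos _ _ _
  have rho0 : ∀ n x, 0 ≤ (rho n x + 1) / 2 := fun n x => by
    have := exists_fibre_function_rho_ge R (f n) x
    have : -1 ≤ rho n x := this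
    linarith
  have rho1 : ∀ n x, (rho n x + 1) / 2 ≤ 1 := fun n x => by
    have := exists_fibre_function_rho_le R (f n) x
    have : rho n x ≤ 1 := this
    linarith
  -- monotonicity
  have mono : ∀ n s x z, (s, x) ∈ U → (s, z) ∈ U → z ∈ R x → 0 < lam n s →
      rho n x ≤ rho n z := by
    intro n s x z hx hz hzx hl
    refine exists_fibre_function_rho_mono fun u hu hxu => ?_
    have hfu := hfU n s u ((lamp n s).mp hl) hu
    have h1 : f n u ∈ L x := by
      rcases hT s (f n u) x hfu hx (h.ne_of_right hxu).symm with h2 | h2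
      · exact h2.2
      · exact absurd hxu (fun h3 => h.not_both h2.1 h3)
    exact h.nest_rl hxu h1 (mem_insert_of_mem _ hzx)
  have hterm : ∀ n s x, 0 ≤ lam n s * ((rho n x + 1) / 2) ∧
      lam n s * ((rho n x + 1) / 2) ≤ lam n s := fun n s x =>
    ⟨mul_nonneg (lam0 n s) (rho0 n x), mul_le_of_le_one_right (lam0 n s) (rho1 n x)⟩
  have hq : ∀ n : ℕ, (0:ℝ) < (1 / 2) ^ (n + 1) := fun n => by positivity
  have hsum : Summable (fun n : ℕ => (1 / 2 : ℝ) ^ (n + 1)) := exists_fibre_function_q.summable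
  have sumS : ∀ s, Summable (fun n : ℕ => (1 / 2 : ℝ) ^ (n + 1) * lam n s) := fun s =>
    Summable.of_nonneg_of_le (fun n => mul_nonneg (hq n).le (lam0 n s))
      (fun n => mul_le_of_le_one_right (hq n).le (lam1 n s)) hsum
  have sumG : ∀ s x, Summable
      (fun n : ℕ => (1 / 2 : ℝ) ^ (n + 1) * (lam n s * ((rho n x + 1) / 2))) := fun s x =>
    Summable.of_nonneg_of_le (fun n => mul_nonneg (hq n).le (hterm n s x).1)
      (fun n => mul_le_mul_of_nonneg_left (hterm n s x).2 (hq n).le) (sumS s)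
  have lip : ∀ (a b : ℕ → ℝ) (δ : ℝ), Summable (fun n : ℕ => (1 / 2 : ℝ) ^ (n + 1) * a n) →
      Summable (fun n : ℕ => (1 / 2 : ℝ) ^ (n + 1) * b n) → (∀ n, |a n - b n| ≤ δ) →
      |(∑' n : ℕ, (1 / 2 : ℝ) ^ (n + 1) * a n) - ∑' n : ℕ, (1 / 2 : ℝ) ^ (n + 1) * b n| ≤ δ := by
    intro a b δ ha hb hab
    rw [← ha.tsum_sub hb]
    have h1 := exists_fibre_function_q.mul_right δ
    rw [one_mul] at h1
    have := tsum_of_norm_bounded h1 (f := fun n : ℕ =>
      (1 / 2 : ℝ) ^ (n + 1) * a n - (1 / 2 : ℝ) ^ (n + 1) * b n) (fun n => by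
      rw [← mul_sub, Real.norm_eq_abs, abs_mul, abs_of_pos (hq n)]
      exact mul_le_mul_of_nonneg_left (hab n) (hq n).le)
    simpa [Real.norm_eq_abs] using this
  have Gpos : ∀ s x, (s, x) ∈ U →
      0 < ∑' n : ℕ, (1 / 2 : ℝ) ^ (n + 1) * (lam n s * ((rho n x + 1) / 2)) := by
    intro s x hx
    obtain ⟨n, hn, u, hu, rfl⟩ := hcov2 s x hx
    refine (sumG s (f n u)).tsum_pos (fun m => mul_nonneg (hq m).le (hterm m s _).1) n ?_
    have h1 : rho n (f n u) = u := exists_fibre_function_rho_eq h (hf n) hu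
    have h2 : 0 < lam n s := (lamp n s).mpr hn
    rw [h1]
    have h3 : 0 < (u + 1) / 2 := by linarith [hu.1]
    exact mul_pos (hq n) (mul_pos h2 h3)
  have Glt : ∀ s x, (s, x) ∈ U →
      ∑' n : ℕ, (1 / 2 : ℝ) ^ (n + 1) * (lam n s * ((rho n x + 1) / 2)) <
        ∑' n : ℕ, (1 / 2 : ℝ) ^ (n + 1) * lam n s := by
    intro s x hx
    obtain ⟨n, hn, u, hu, rfl⟩ := hcov2 s x hx
    refine (sumG s (f n u)).tsum_lt_tsum (i := n)
      (fun m => mul_le_mul_of_nonneg_left (hterm m s _).2 (hq m).le) ?_ (sumS s)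
    have h1 : rho n (f n u) = u := exists_fibre_function_rho_eq h (hf n) hu
    have h2 : 0 < lam n s := (lamp n s).mpr hn
    rw [h1]
    have h3 : (u + 1) / 2 < 1 := by linarith [hu.2]
    exact mul_lt_mul_of_pos_left (mul_lt_of_lt_one_right h2 h3) (hq n)
  have Gcont : Continuous (fun p : ℝ × X =>
      ∑' n : ℕ, (1 / 2 : ℝ) ^ (n + 1) * (lam n p.1 * ((rho n p.2 + 1) / 2))) := by
    refine continuous_tsum (u := fun n : ℕ => (1 / 2 : ℝ) ^ (n + 1)) ?_ hsum ?_
    · intro n
      have c1 : Continuous (lam n) := exists_fibre_function_lam_cont _ _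
      have c2 : Continuous (rho n) := exists_fibre_function_rho_cont h (hf n)
      exact continuous_const.mul ((c1.comp continuous_fst).mul
        (((c2.comp continuous_snd).add continuous_const).div_const 2))
    · intro n p
      have h1 := hterm n p.1 p.2
      rw [Real.norm_eq_abs, abs_of_nonneg (mul_nonneg (hq n).le h1.1)]
      exact mul_le_of_le_one_right (hq n).le (h1.2.trans (lam1 n p.1))
  -- points near the lower end
  have lo : ∀ s (η : ℝ), 0 < η → η < 2 → ∀ N : ℕ, ∃ x, (s, x) ∈ U ∧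
      ∀ n < N, 0 < lam n s → rho n x ≤ -1 + η := by
    intro s η hη hη2 N
    induction N with
    | zero =>
      obtain ⟨x, hx⟩ := hne s
      exact ⟨x, hx, fun n hn => absurd hn (by omega)⟩
    | succ N ih =>
      obtain ⟨x, hx, ih⟩ := ih
      by_cases hl : 0 < lam N s
      · have hu : -1 + η ∈ Ioo (-1:ℝ) 1 := ⟨by linarith, by linarith⟩
        have hy := hfU N s (-1 + η) ((lamp N s).mp hl) hu
        have hrN : rho N (f N (-1 + η)) = -1 + η := exists_fibre_function_rho_eq h (hf N) hu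
        by_cases hxy : x = f N (-1 + η)
        · refine ⟨x, hx, fun n hn hln => ?_⟩
          rcases Nat.lt_succ_iff_lt_or_eq.mp hn with h1 | rfl
          · exact ih n h1 hln
          · rw [hxy, hrN]
        · rcases hT s x _ hx hy hxy with h2 | h2
          · refine ⟨x, hx, fun n hn hln => ?_⟩
            rcases Nat.lt_succ_iff_lt_or_eq.mp hn with h1 | rfl
            · exact ih n h1 hln
            · exact (mono n s x _ hx hy h2.1 hln).trans hrN.le
          · refine ⟨_, hy, fun n hn hln => ?_⟩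
            rcases Nat.lt_succ_iff_lt_or_eq.mp hn with h1 | rfl
            · exact (mono n s _ x hy hx h2.2 hln).trans (ih n h1 hln)
            · exact hrN.le
      · refine ⟨x, hx, fun n hn hln => ?_⟩
        rcases Nat.lt_succ_iff_lt_or_eq.mp hn with h1 | rfl
        · exact ih n h1 hln
        · exact absurd hln hl
  -- points near the upper end
  have hi : ∀ s (η : ℝ), 0 < η → η < 2 → ∀ N : ℕ, ∃ x, (s, x) ∈ U ∧
      ∀ n < N, 0 < lam n s → 1 - η ≤ rho n x := by
    intro s η hη hη2 N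
    induction N with
    | zero =>
      obtain ⟨x, hx⟩ := hne s
      exact ⟨x, hx, fun n hn => absurd hn (by omega)⟩
    | succ N ih =>
      obtain ⟨x, hx, ih⟩ := ih
      by_cases hl : 0 < lam N s
      · have hu : 1 - η ∈ Ioo (-1:ℝ) 1 := ⟨by linarith, by linarith⟩
        have hy := hfU N s (1 - η) ((lamp N s).mp hl) hu
        have hrN : rho N (f N (1 - η)) = 1 - η := exists_fibre_function_rho_eq h (hf N) hu
        by_cases hxy : x = f N (1 - η)
        · refine ⟨x, hx, fun n hn hln => ?_⟩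
          rcases Nat.lt_succ_iff_lt_or_eq.mp hn with h1 | rfl
          · exact ih n h1 hln
          · rw [hxy, hrN]
        · rcases hT s x _ hx hy hxy with h2 | h2
          · refine ⟨_, hy, fun n hn hln => ?_⟩
            rcases Nat.lt_succ_iff_lt_or_eq.mp hn with h1 | rfl
            · exact (ih n h1 hln).trans (mono n s x _ hx hy h2.1 hln)
            · exact hrN.ge
          · refine ⟨x, hx, fun n hn hln => ?_⟩
            rcases Nat.lt_succ_iff_lt_or_eq.mp hn with h1 | rfl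
            · exact ih n h1 hln
            · exact hrN.ge.trans (mono n s _ x hy hx h2.2 hln)
      · refine ⟨x, hx, fun n hn hln => ?_⟩
        rcases Nat.lt_succ_iff_lt_or_eq.mp hn with h1 | rfl
        · exact ih n h1 hln
        · exact absurd hln hl
  have htail : ∀ ε : ℝ, 0 < ε → ∃ (N : ℕ) (η : ℝ), 0 < η ∧ η < 2 ∧
      η / 2 + (1 / 2 : ℝ) ^ N ≤ ε := by
    intro ε hε
    obtain ⟨N, hN⟩ := exists_pow_lt_of_lt_one (half_pos hε) (by norm_num : (1 / 2 : ℝ) < 1)
    refine ⟨N, min 1 ε, lt_min one_pos hε, (min_le_left _ _).trans_lt (by norm_num), ?_⟩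
    have := min_le_right (1:ℝ) ε
    linarith
  refine ⟨fun p => ∑' n : ℕ, (1 / 2 : ℝ) ^ (n + 1) * (lam n p.1 * ((rho n p.2 + 1) / 2)),
    fun s => ∑' n : ℕ, (1 / 2 : ℝ) ^ (n + 1) * lam n s, Gcont, ?_, ?_, ?_, ?_, ?_⟩
  · intro s
    obtain ⟨x, hx⟩ := hne s
    exact (Gpos s x hx).trans (Glt s x hx)
  · intro s s'
    exact lip _ _ _ (sumS s) (sumS s') fun n => exists_fibre_function_lam_lip _ _ _ _
  · intro s s' x
    refine lip _ _ _ (sumG s x) (sumG s' x) fun n => ?_
    rw [← sub_mul, abs_mul, abs_of_nonneg (rho0 n x)]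
    exact (mul_le_of_le_one_right (abs_nonneg _) (rho1 n x)).trans
      (exists_fibre_function_lam_lip _ _ _ _)
  · intro s x z hx hz hzx
    obtain ⟨n, hn, u, hu, rfl⟩ := hcov2 s x hx
    refine (sumG s (f n u)).tsum_lt_tsum (i := n) (fun m => ?_) ?_ (sumG s z)
    · refine mul_le_mul_of_nonneg_left ?_ (hq m).le
      rcases (lam0 m s).eq_or_lt with h1 | h1
      · rw [← h1]; simp
      · have := mono m s _ z hx hz hzx h1
        exact mul_le_mul_of_nonneg_left (by linarith) h1.le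
    · have h1 : rho n (f n u) = u := exists_fibre_function_rho_eq h (hf n) hu
      have h2 : 0 < lam n s := (lamp n s).mpr hn
      have hVo : IsOpen {x | (s, x) ∈ U} := hU.preimage (Continuous.prodMk_right s)
      obtain ⟨w, hw, hzw⟩ := exists_fibre_function_H h hVo (hS s)
        (fun x z hx hz hxz => hT s x z hx hz hxz) (hf n) hx hz hzx
      have h3 : u < rho n z := by
        obtain ⟨v, hv1, hv2⟩ := exists_between (lt_min hw hu.2)
        have hv3 : v ∈ Ioo (-1:ℝ) 1 := ⟨hu.1.trans hv1, hv2.trans_le (min_le_right _ _)⟩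
        have := exists_fibre_function_le_rho (R := R) (f := f n) hv3
          (exists_fibre_function_downR h (hf n) (hv2.trans_le (min_le_left _ _)).le hzw)
        exact hv1.trans_le this
      rw [h1]
      exact mul_lt_mul_of_pos_left (mul_lt_mul_of_pos_left (by linarith) h2) (hq n)
  · intro s
    apply Subset.antisymm
    · rintro _ ⟨x, hx, rfl⟩
      exact ⟨Gpos s x hx, Glt s x hx⟩
    · rintro v ⟨hv0, hv1⟩
      -- lower point
      obtain ⟨N, η, hη, hη2, hN⟩ := htail v hv0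
      obtain ⟨x₀, hx₀, hlo⟩ := lo s η hη hη2 N
      have g0 : ∑' n : ℕ, (1 / 2 : ℝ) ^ (n + 1) * (lam n s * ((rho n x₀ + 1) / 2)) ≤ v := by
        refine (exists_fibre_function_tail (fun n => mul_nonneg (hq n).le (hterm n s x₀).1)
          (fun n => mul_le_of_le_one_right (hq n).le ((hterm n s x₀).2.trans (lam1 n s)))
          (δ := η / 2) (by linarith) N ?_).trans hN
        intro n hn
        refine mul_le_mul_of_nonneg_left ?_ (hq n).le
        rcases (lam0 n s).eq_or_lt with h1 | h1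
        · rw [← h1, zero_mul]; linarith
        · have h2 := hlo n hn h1
          calc lam n s * ((rho n x₀ + 1) / 2) ≤ 1 * ((rho n x₀ + 1) / 2) :=
                mul_le_mul_of_nonneg_right (lam1 n s) (rho0 n x₀)
            _ ≤ η / 2 := by linarith
      -- upper point
      obtain ⟨N', η', hη', hη2', hN'⟩ := htail (∑' n : ℕ, (1 / 2 : ℝ) ^ (n + 1) * lam n s - v)
        (by linarith)
      obtain ⟨x₁, hx₁, hhi⟩ := hi s η' hη' hη2' N'
      have g1 : v ≤ ∑' n : ℕ, (1 / 2 : ℝ) ^ (n + 1) * (lam n s * ((rho n x₁ + 1) / 2)) := by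
        have hdiff : (∑' n : ℕ, (1 / 2 : ℝ) ^ (n + 1) * lam n s) -
            ∑' n : ℕ, (1 / 2 : ℝ) ^ (n + 1) * (lam n s * ((rho n x₁ + 1) / 2)) =
            ∑' n : ℕ, (1 / 2 : ℝ) ^ (n + 1) * (lam n s * (1 - (rho n x₁ + 1) / 2)) := by
          rw [← (sumS s).tsum_sub (sumG s x₁)]
          exact tsum_congr fun n => by ring
        have hb : ∑' n : ℕ, (1 / 2 : ℝ) ^ (n + 1) * (lam n s * (1 - (rho n x₁ + 1) / 2)) ≤
            η' / 2 + (1 / 2) ^ N' := by
          have r0 : ∀ n, 0 ≤ 1 - (rho n x₁ + 1) / 2 := fun n => by linarith [rho1 n x₁]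
          have r1 : ∀ n, 1 - (rho n x₁ + 1) / 2 ≤ 1 := fun n => by linarith [rho0 n x₁]
          refine exists_fibre_function_tail
            (fun n => mul_nonneg (hq n).le (mul_nonneg (lam0 n s) (r0 n)))
            (fun n => mul_le_of_le_one_right (hq n).le
              ((mul_le_of_le_one_right (lam0 n s) (r1 n)).trans (lam1 n s)))
            (δ := η' / 2) (by linarith) N' ?_
          intro n hn
          refine mul_le_mul_of_nonneg_left ?_ (hq n).le
          rcases (lam0 n s).eq_or_lt with h1 | h1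
          · rw [← h1, zero_mul]; linarith
          · have h2 := hhi n hn h1
            calc lam n s * (1 - (rho n x₁ + 1) / 2) ≤ 1 * (1 - (rho n x₁ + 1) / 2) :=
                  mul_le_mul_of_nonneg_right (lam1 n s) (r0 n)
              _ ≤ η' / 2 := by linarith
        linarith
      have hcs : Continuous (fun x : X =>
          ∑' n : ℕ, (1 / 2 : ℝ) ^ (n + 1) * (lam n s * ((rho n x + 1) / 2))) :=
        Gcont.comp (Continuous.prodMk_right s)
      exact (hS s).intermediate_value hx₀ hx₁ hcs.continuousOn ⟨g0, g1⟩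

end Pool.Agent.Helper921_LeafSpaces
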