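import Mathlib
import Pool.Agent.Helper921_LeafSpaces.Box

/-!
# Sections over the leaf space of a transverse foliation
-/

namespace Pool.Agent.Helper921_LeafSpaces

open Set Topology Filter TopologicalSpace

/-- A continuous map `e` from the line which is open and takes its values in an interval is
injective. -/
theorem injective_of_isOpenMap {X : Type*} [TopologicalSpace X] {f : ℝ → X}
    (hf : IsOpenEmbedding f) {e : ℝ → X} (he : Continuous e) (ho : IsOpenMap e)
    (hr : ∀ x, e x ∈ range f) : Function.Injective e := by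
  choose h hh using hr
  have hcont : Continuous h := by
    rw [hf.isInducing.continuous_iff]
    have : f ∘ h = e := funext hh
    rw [this]; exact he
  have key : ∀ u v, u < v → e u ≠ e v := by
    intro u v huv heq
    have h1 : h u = h v := hf.injective (by rw [hh, hh, heq])
    obtain ⟨c, -, hc⟩ := exists_isLocalExtr_Ioo huv hcont.continuousOn h1
    have h2 : ∀ N ∈ 𝓝 c, h '' N ∈ 𝓝 (h c) := by
      intro N hN
      have h3 : e '' N ∈ 𝓝 (e c) := ho.image_mem_nhds hN
      rw [← hh c] at h3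
      filter_upwards [hf.continuous.continuousAt.preimage_mem_nhds h3] with y hy
      obtain ⟨x, hx, hxy⟩ := hy
      exact ⟨x, hx, hf.injective (by rw [hh, hxy])⟩
    rcases hc with hc | hc
    · have h4 := h2 _ hc
      obtain ⟨ε, hε, h5⟩ := Metric.mem_nhds_iff.1 h4
      obtain ⟨x, hx, hx'⟩ := h5 (show h c - ε / 2 ∈ Metric.ball (h c) ε by
        rw [Metric.mem_ball, Real.dist_eq, abs_lt]; constructor <;> linarith)
      have : h c ≤ h x := hx
      linarith
    · have h4 := h2 _ hc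
      obtain ⟨ε, hε, h5⟩ := Metric.mem_nhds_iff.1 h4
      obtain ⟨x, hx, hx'⟩ := h5 (show h c + ε / 2 ∈ Metric.ball (h c) ε by
        rw [Metric.mem_ball, Real.dist_eq, abs_lt]; constructor <;> linarith)
      have : h x ≤ h c := hx
      linarith
  intro u v huv
  rcases lt_trichotomy u v with h | h | h
  · exact absurd huv (key _ _ h)
  · exact h
  · exact absurd huv.symm (key _ _ h)

variable {F G : Setoid Plane}

/-- Near every point there is a box whose horizontal lines are embedded as open intervals in the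
leaf space of `G`. -/
theorem exists_goodBox (hG : IsFoliation G) (hT : AreTransverse F G)
    (hQ : LocReal (Quotient G)) (p : Plane) :
    ∃ ψ, IsBox F G ψ ∧ ψ 0 = p ∧
      ∀ y : ℝ, IsOpenEmbedding (fun x : ℝ => (Quotient.mk G (ψ (x, y)))) := by
  obtain ⟨f, hf, hf0⟩ := hQ.exists_emb (Quotient.mk G p)
  have hW : Quotient.mk G ⁻¹' (range f) ∈ 𝓝 p := by
    apply (continuous_mk G).continuousAt.preimage_mem_nhds
    rw [← hf0]
    exact hf.isOpen_range.mem_nhds (mem_range_self _)
  obtain ⟨ψ, hψ, hψ0, hψW⟩ := hT.exists_box p hW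
  refine ⟨ψ, hψ, hψ0, fun y => ?_⟩
  have hcont : Continuous (fun x : ℝ => (Quotient.mk G (ψ (x, y)))) :=
    (continuous_mk G).comp (hψ.isOpenEmbedding.continuous.comp (by fun_prop))
  have hopen : IsOpenMap (fun x : ℝ => (Quotient.mk G (ψ (x, y)))) := by
    intro O hO
    have : (fun x : ℝ => (Quotient.mk G (ψ (x, y)))) '' O =
        Quotient.mk G '' (ψ '' (O ×ˢ univ)) := by
      ext v
      constructor
      · rintro ⟨x, hx, rfl⟩
        exact ⟨ψ (x, y), ⟨(x, y), ⟨hx, trivial⟩, rfl⟩, rfl⟩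
      · rintro ⟨_, ⟨⟨x, y'⟩, ⟨hx, -⟩, rfl⟩, rfl⟩
        exact ⟨x, hx, Quotient.sound ((hψ.samePlaque_right (x, y) (x, y')).2 rfl).rel⟩
    rw [this]
    exact hG.isOpenMap_mk _ (hψ.isOpenEmbedding.isOpenMap _ (hO.prod isOpen_univ))
  exact .of_continuous_injective_isOpenMap hcont
    (injective_of_isOpenMap hf hcont hopen fun x => hψW (mem_range_self _)) hopen

/-- `s` is a section, over the open set `V` of the leaf space of `G`, with values in the leaf of
`F` through `p`. -/
structure IsSec (F G : Setoid Plane) (p : Plane) (V : Set (Quotient G))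
    (s : Quotient G → Plane) : Prop where
  isOpen : IsOpen V
  isPreconnected : IsPreconnected V
  continuousOn : ContinuousOn s V
  mk_eq : ∀ v ∈ V, Quotient.mk G (s v) = v
  rel : ∀ v ∈ V, F p (s v)

theorem IsSec.eqOn (hG : IsFoliation G) (hT : AreTransverse F G)
    (hQ : LocReal (Quotient G)) {p : Plane} {V₁ V₂ : Set (Quotient G)}
    {s₁ s₂ : Quotient G → Plane} (h₁ : IsSec F G p V₁ s₁) (h₂ : IsSec F G p V₂ s₂)
    (hV : IsPreconnected (V₁ ∩ V₂)) {v₀ : Quotient G} (hv₀ : v₀ ∈ V₁ ∩ V₂)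
    (heq : s₁ v₀ = s₂ v₀) : EqOn s₁ s₂ (V₁ ∩ V₂) := by
  classical
  have := hQ.locallyPathConnectedSpace
  let χ : Quotient G → ℤ := fun v => if s₁ v = s₂ v then 1 else 0
  have hχ : ContinuousOn χ (V₁ ∩ V₂) := by
    intro v hv
    have hc₁ : ContinuousAt s₁ v := (h₁.continuousOn v hv.1).continuousAt (h₁.isOpen.mem_nhds hv.1)
    have hc₂ : ContinuousAt s₂ v := (h₂.continuousOn v hv.2).continuousAt (h₂.isOpen.mem_nhds hv.2)
    have : ∀ᶠ w in 𝓝 v, χ w = χ v := by
      by_cases hvv : s₁ v = s₂ v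
      · obtain ⟨ψ, hψ, hψ0, hψi⟩ := exists_goodBox hG hT hQ (s₁ v)
        have hr : range ψ ∈ 𝓝 (s₁ v) := by
          rw [← hψ0]; exact hψ.isOpenEmbedding.isOpen_range.mem_nhds (mem_range_self _)
        have hN : V₁ ∩ V₂ ∩ (s₁ ⁻¹' (range ψ) ∩ s₂ ⁻¹' (range ψ)) ∈ 𝓝 v := by
          refine inter_mem ((h₁.isOpen.inter h₂.isOpen).mem_nhds hv) (inter_mem ?_ ?_)
          · exact hc₁.preimage_mem_nhds hr
          · exact hc₂.preimage_mem_nhds (by rw [← hvv]; exact hr)
        obtain ⟨O, ⟨hO, hOp⟩, hON⟩ := (path_connected_basis v).mem_iff.1 hN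
        filter_upwards [hO] with w hw
        have hvO : v ∈ O := mem_of_mem_nhds hO
        have hj : JoinedIn O v w := hOp.joinedIn v hvO w hw
        have aux : ∀ s : Quotient G → Plane, ContinuousOn s O → (∀ w ∈ O, F p (s w)) →
            (∀ w ∈ O, s w ∈ range ψ) → (s v = ψ 0) → ∃ x : ℝ, s w = ψ (x, 0) := by
          intro s hs hs1 hs2 hs3
          have h3 : SamePlaque F (range ψ) (s v) (s w) := by
            refine JoinedIn.mono (hj.map_continuousOn hs) ?_
            rintro _ ⟨u, hu, rfl⟩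
            exact ⟨F.trans' (F.symm' (hs1 v hvO)) (hs1 u hu), hs2 u hu⟩
          obtain ⟨z, hz⟩ := hs2 w hw
          rw [hs3, ← hz, hψ.samePlaque_left] at h3
          refine ⟨z.1, ?_⟩
          rw [← hz]
          congr 1
          exact Prod.ext rfl h3.symm
        obtain ⟨x₁, hx₁⟩ := aux s₁ (h₁.continuousOn.mono fun u hu => (hON hu).1.1)
          (fun w hw => h₁.rel w (hON hw).1.1) (fun w hw => (hON hw).2.1) hψ0.symm
        obtain ⟨x₂, hx₂⟩ := aux s₂ (h₂.continuousOn.mono fun u hu => (hON hu).1.2)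
          (fun w hw => h₂.rel w (hON hw).1.2) (fun w hw => (hON hw).2.2) (by rw [← hvv, hψ0])
        have h5 : Quotient.mk G (ψ (x₁, 0)) = Quotient.mk G (ψ (x₂, 0)) := by
          rw [← hx₁, ← hx₂, h₁.mk_eq w (hON hw).1.1, h₂.mk_eq w (hON hw).1.2]
        have h6 : x₁ = x₂ := (hψi 0).injective h5
        have h7 : s₁ w = s₂ w := by rw [hx₁, hx₂, h6]
        simp only [χ, h7, hvv]
      · have h3 : ∀ᶠ w in 𝓝 v, s₁ w ≠ s₂ w := (hc₁.prodMk hc₂).eventually (isClosed_diagonal.isOpen_compl.mem_nhds hvv)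
        filter_upwards [h3] with w hw
        simp only [χ, hw, hvv]
    apply ContinuousAt.continuousWithinAt
    exact (continuousAt_const (y := χ v)).congr (this.mono fun z hz => hz.symm)
  have h6 : (χ '' (V₁ ∩ V₂)).Subsingleton := (hV.image χ hχ).subsingleton
  intro v hv
  have h7 := h6 ⟨v, hv, rfl⟩ ⟨v₀, hv₀, rfl⟩
  simp only [χ, heq, if_true] at h7
  by_contra hne
  rw [if_neg hne] at h7
  exact absurd h7 (by norm_num)

theorem exists_plaqueSec {ψ : Plane → Plane} (hψ : IsBox F G ψ)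
    (hi : ∀ y : ℝ, IsOpenEmbedding (fun x : ℝ => (Quotient.mk G (ψ (x, y))))) (z : Plane)
    {p : Plane} (hp : F p (ψ z)) :
    ∃ s, IsSec F G p (range fun x : ℝ => Quotient.mk G (ψ (x, z.2))) s ∧
      ∀ x : ℝ, s (Quotient.mk G (ψ (x, z.2))) = ψ (x, z.2) := by
  set e : ℝ → Quotient G := fun x => Quotient.mk G (ψ (x, z.2)) with he
  have hee : IsOpenEmbedding e := hi z.2
  let s : Quotient G → Plane := fun v => ψ (Function.invFun e v, z.2)
  have hse : ∀ x, s (e x) = ψ (x, z.2) := by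
    intro x
    simp only [s]
    rw [Function.leftInverse_invFun hee.injective x]
  refine ⟨s, ⟨hee.isOpen_range, isPreconnected_range hee.continuous, ?_, ?_, ?_⟩, hse⟩
  · rintro _ ⟨x, rfl⟩
    apply ContinuousAt.continuousWithinAt
    rw [← hee.continuousAt_iff]
    have : s ∘ e = fun x => ψ (x, z.2) := funext hse
    rw [this]
    exact (hψ.isOpenEmbedding.continuous.comp (by fun_prop)).continuousAt
  · rintro _ ⟨x, rfl⟩
    rw [hse]
  · rintro _ ⟨x, rfl⟩
    rw [hse]
    exact F.trans' hp ((hψ.samePlaque_left z (x, z.2)).2 rfl).rel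

/-- **Sections.** Two points of the same leaf of `F` lie on a common section over an open connected
subset of the leaf space of `G`. -/
theorem exists_section [SimplyConnectedSpace (Quotient G)] (hF : IsFoliation F)
    (hG : IsFoliation G) (hT : AreTransverse F G) (hQ : LocReal (Quotient G)) {p q : Plane}
    (h : F p q) :
    ∃ V s, IsSec F G p V s ∧ Quotient.mk G p ∈ V ∧ s (Quotient.mk G p) = p ∧
      Quotient.mk G q ∈ V ∧ s (Quotient.mk G q) = q := by
  classical
  have key : (F p p ∧ ∃ V s, IsSec F G p V s ∧ Quotient.mk G p ∈ V ∧ s (Quotient.mk G p) = p ∧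
      Quotient.mk G p ∈ V ∧ s (Quotient.mk G p) = p) →
      (F p q ∧ ∃ V s, IsSec F G p V s ∧ Quotient.mk G p ∈ V ∧ s (Quotient.mk G p) = p ∧
      Quotient.mk G q ∈ V ∧ s (Quotient.mk G q) = q) := by
    refine leaf_induction hF.isPathConnected_leaf
      (fun a b => (F p a ∧ ∃ V s, IsSec F G p V s ∧ Quotient.mk G p ∈ V ∧
        s (Quotient.mk G p) = p ∧ Quotient.mk G a ∈ V ∧ s (Quotient.mk G a) = a) →
        (F p b ∧ ∃ V s, IsSec F G p V s ∧ Quotient.mk G p ∈ V ∧
        s (Quotient.mk G p) = p ∧ Quotient.mk G b ∈ V ∧ s (Quotient.mk G b) = b)) ?_ ?_ h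
    · intro a b c hab hbc ha
      exact hbc (hab ha)
    · intro r
      obtain ⟨ψ, hψ, hψ0, hi⟩ := exists_goodBox hG hT hQ r
      refine ⟨range ψ, hψ.isOpenEmbedding.isOpen_range, by rw [← hψ0]; exact mem_range_self _, ?_⟩
      rintro a b hab ⟨hpa, V₁, s₁, h₁, hpV, hsp, haV, hsa⟩
      obtain ⟨z, rfl⟩ : a ∈ range ψ := hab.source_mem.2
      obtain ⟨z', rfl⟩ : b ∈ range ψ := hab.target_mem.2
      have hzz : z.2 = z'.2 := (hψ.samePlaque_left z z').1 hab
      obtain ⟨s₂, h₂, hs₂⟩ := exists_plaqueSec hψ hi z hpa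
      set V₂ : Set (Quotient G) := range fun x : ℝ => Quotient.mk G (ψ (x, z.2)) with hV₂
      have hzV : Quotient.mk G (ψ z) ∈ V₂ := ⟨z.1, rfl⟩
      have hz'V : Quotient.mk G (ψ z') ∈ V₂ := ⟨z'.1, by rw [hzz]⟩
      have hsz : s₂ (Quotient.mk G (ψ z)) = ψ z := hs₂ z.1
      have hsz' : s₂ (Quotient.mk G (ψ z')) = ψ z' := by
        have := hs₂ z'.1
        rw [hzz] at this
        exact this
      have hpre : IsPreconnected (V₁ ∩ V₂) := hQ.isPreconnected_inter (hi z.2) h₁.isPreconnected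
      have heq : EqOn s₁ s₂ (V₁ ∩ V₂) := h₁.eqOn hG hT hQ h₂ hpre ⟨haV, hzV⟩ (by rw [hsa, hsz])
      have e1 : EqOn (V₁.piecewise s₁ s₂) s₁ V₁ := fun v hv => piecewise_eq_of_mem _ _ _ hv
      have e2 : EqOn (V₁.piecewise s₁ s₂) s₂ V₂ := by
        intro v hv
        by_cases h : v ∈ V₁
        · rw [e1 h, heq ⟨h, hv⟩]
        · exact piecewise_eq_of_notMem _ _ _ h
      refine ⟨F.trans' hpa hab.rel, V₁ ∪ V₂, V₁.piecewise s₁ s₂,
        ⟨h₁.isOpen.union h₂.isOpen, ?_, ?_, ?_, ?_⟩, Or.inl hpV, ?_, Or.inr hz'V, ?_⟩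
      · exact IsPreconnected.union _ haV hzV h₁.isPreconnected h₂.isPreconnected
      · exact (h₁.continuousOn.congr e1).union_of_isOpen (h₂.continuousOn.congr e2) h₁.isOpen
          h₂.isOpen
      · rintro v (hv | hv)
        · rw [e1 hv]; exact h₁.mk_eq v hv
        · rw [e2 hv]; exact h₂.mk_eq v hv
      · rintro v (hv | hv)
        · rw [e1 hv]; exact h₁.rel v hv
        · rw [e2 hv]; exact h₂.rel v hv
      · rw [e1 hpV, hsp]
      · rw [e2 hz'V, hsz']
  refine (key ⟨F.refl' p, ?_⟩).2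
  obtain ⟨ψ, hψ, hψ0, hi⟩ := exists_goodBox hG hT hQ p
  obtain ⟨s₂, h₂, hs₂⟩ := exists_plaqueSec hψ hi 0 (p := p) (by rw [hψ0])
  have h0 : Quotient.mk G p ∈ range fun x : ℝ => Quotient.mk G (ψ (x, (0 : Plane).2)) :=
    ⟨0, by rw [← hψ0]; rfl⟩
  have h1 : s₂ (Quotient.mk G p) = p := by
    have := hs₂ 0
    rw [show ((0 : ℝ), (0 : Plane).2) = (0 : Plane) from rfl, hψ0] at this
    exact this
  exact ⟨_, s₂, h₂, h0, h1, h0, h1⟩

/-- A leaf of `F` meets a leaf of `G` at most once. -/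
theorem eq_of_rel_rel [SimplyConnectedSpace (Quotient G)] (hF : IsFoliation F)
    (hG : IsFoliation G) (hT : AreTransverse F G) (hQ : LocReal (Quotient G)) {p q : Plane}
    (h : F p q) (h' : G p q) : p = q := by
  obtain ⟨V, s, -, -, hp, -, hq⟩ := exists_section hF hG hT hQ h
  rw [← hp, ← hq, Quotient.sound h']

/-- The leaf of `F` through a point projects to a set of points of the leaf space of `G` any two
of which lie in a common open connected Hausdorff set. -/
theorem exists_unbranched [SimplyConnectedSpace (Quotient G)] (hF : IsFoliation F)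
    (hG : IsFoliation G) (hT : AreTransverse F G) (hQ : LocReal (Quotient G)) {p q : Plane}
    (h : F p q) :
    ∃ V : Set (Quotient G), IsOpen V ∧ IsPreconnected V ∧ T2Space V ∧
      Quotient.mk G p ∈ V ∧ Quotient.mk G q ∈ V := by
  obtain ⟨V, s, hs, hp, -, hq, -⟩ := exists_section hF hG hT hQ h
  refine ⟨V, hs.isOpen, hs.isPreconnected, ?_, hp, hq⟩
  have hcont : Continuous (V.domRestrict s) := hs.continuousOn.domRestrict
  have hinj : Function.Injective (V.domRestrict s) := by
    intro u v huv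
    apply Subtype.ext
    rw [← hs.mk_eq u u.2, ← hs.mk_eq v v.2]
    exact congrArg _ huv
  exact T2Space.of_injective_continuous hinj hcont

end Pool.Agent.Helper921_LeafSpaces
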