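import Mathlib
import Pool.Agent.Helper921_LeafSpaces.Sect

/-!
# The half-space obstruction
-/

namespace Pool.Agent.Helper921_LeafSpaces

open Set Topology Filter TopologicalSpace

/-- Two points of `X` are aligned if they lie in a common open, connected, Hausdorff subset. -/
def Aligned {X : Type*} [TopologicalSpace X] (x z : X) : Prop :=
  ∃ V : Set X, IsOpen V ∧ IsConnected V ∧ T2Space V ∧ x ∈ V ∧ z ∈ V

/-- A half-space of `X` is a connected component of the complement of a point. -/
def IsHalfSpace {X : Type*} [TopologicalSpace X] (H : Set X) : Prop :=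
  ∃ x y : X, y ≠ x ∧ H = connectedComponentIn {x}ᶜ y

/-- A bent half-space of `X` is a connected component of the complement of a point `x` which
contains a point that is not aligned with `x`. -/
def IsBentHalfSpace {X : Type*} [TopologicalSpace X] (H : Set X) : Prop :=
  ∃ x y : X, y ≠ x ∧ H = connectedComponentIn {x}ᶜ y ∧ ∃ z ∈ H, ¬ Aligned x z

section transport

variable {X Y : Type*} [TopologicalSpace X] [TopologicalSpace Y]

theorem Aligned.map (e : X ≃ₜ Y) {x z : X} (h : Aligned x z) : Aligned (e x) (e z) := by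
  obtain ⟨V, hV, hc, hT, hx, hz⟩ := h
  refine ⟨e '' V, e.isOpenMap _ hV, hc.image e e.continuous.continuousOn, ?_,
    mem_image_of_mem e hx, mem_image_of_mem e hz⟩
  exact T2Space.of_injective_continuous (e.image V).symm.injective (e.image V).symm.continuous

theorem aligned_map_iff (e : X ≃ₜ Y) {x z : X} : Aligned (e x) (e z) ↔ Aligned x z := by
  refine ⟨fun h => ?_, fun h => h.map e⟩
  have := h.map e.symm
  simpa using this

theorem image_component (e : X ≃ₜ Y) {x y : X} (h : y ≠ x) :
    e '' connectedComponentIn {x}ᶜ y = connectedComponentIn {e x}ᶜ (e y) := by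
  rw [e.image_connectedComponentIn h, image_compl_eq e.bijective, image_singleton]

theorem IsHalfSpace.map (e : X ≃ₜ Y) {H : Set X} (h : IsHalfSpace H) : IsHalfSpace (e '' H) := by
  obtain ⟨x, y, hy, rfl⟩ := h
  exact ⟨e x, e y, fun h => hy (e.injective h), image_component e hy⟩

theorem IsBentHalfSpace.map (e : X ≃ₜ Y) {H : Set X} (h : IsBentHalfSpace H) :
    IsBentHalfSpace (e '' H) := by
  obtain ⟨x, y, hy, rfl, z, hz, hxz⟩ := h
  exact ⟨e x, e y, fun h => hy (e.injective h), image_component e hy, e z,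
    mem_image_of_mem e hz, fun h => hxz ((aligned_map_iff e).1 h)⟩

end transport

theorem LocReal.of_homeo {X Y : Type*} [TopologicalSpace X] [TopologicalSpace Y]
    (h : LocReal X) (e : X ≃ₜ Y) : LocReal Y := by
  intro y
  obtain ⟨f, hf, hf0⟩ := h.exists_emb (e.symm y)
  have hef : IsOpenEmbedding (e ∘ f) := e.isOpenEmbedding.comp hf
  refine ⟨range (e ∘ f), hef.isOpen_range, ⟨0, by simp [hf0]⟩, exists_homeo_of_emb hef⟩

variable {F G : Setoid Plane}

/-- **The core of the obstruction.** For every bent half-space `H` of the leaf space of `G` there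
is a half-space `K` of the leaf space of `F` such that every leaf of `F` in `K` meets only the
leaves of `G` in `H`. -/
theorem exists_halfSpace [SimplyConnectedSpace (Quotient F)] [SimplyConnectedSpace (Quotient G)]
    (hF : IsFoliation F) (hG : IsFoliation G) (hT : AreTransverse F G)
    (hQF : LocReal (Quotient F)) (hQG : LocReal (Quotient G)) {H : Set (Quotient G)}
    (hH : IsBentHalfSpace H) :
    ∃ K : Set (Quotient F), IsHalfSpace K ∧
      ∀ q : Plane, Quotient.mk F q ∈ K → Quotient.mk G q ∈ H := by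
  have := hQF.locallyPathConnectedSpace
  have := hQG.locallyPathConnectedSpace
  obtain ⟨x, y₀, hy₀, hHeq, z, hz, hxz⟩ := hH
  obtain ⟨p, rfl⟩ := Quotient.exists_rep z
  obtain ⟨q₀, rfl⟩ := Quotient.exists_rep x
  change Quotient.mk G p ∈ H at hz
  change ¬ Aligned (Quotient.mk G q₀) (Quotient.mk G p) at hxz
  -- leaves of `F` do not meet both the leaf of `G` through `p` and the one through `q₀`
  have hav : ∀ q, F p q → ¬ G q₀ q := by
    intro q hpq hqq
    obtain ⟨V, hV, hVc, hVT, h1, h2⟩ := exists_unbranched hF hG hT hQG hpq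
    apply hxz
    rw [Quotient.sound hqq]
    exact ⟨V, hV, ⟨⟨_, h1⟩, hVc⟩, hVT, h2, h1⟩
  set g : Quotient F := Quotient.mk F p with hg
  set A : Set (Quotient F) := Quotient.mk F '' (leaf G q₀) with hA
  have hAc : IsPreconnected A :=
    (hG.isPathConnected_leaf q₀).isConnected.isPreconnected.image _
      (continuous_mk F).continuousOn
  have hgA : g ∉ A := by
    rintro ⟨q, hq, hqp⟩
    exact hav q (F.symm' (Quotient.exact hqp)) hq
  have ha₀ : Quotient.mk F q₀ ∈ A := ⟨q₀, G.refl' q₀, rfl⟩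
  obtain ⟨f, hf, hf0⟩ := hQF.exists_emb g
  obtain ⟨d, hd, hdl, hdr⟩ := hQF.exists_sep hf 0
  rw [hf0] at hd
  have hdc : ContinuousOn d {g}ᶜ := by
    intro y hy
    have h1 : ∀ᶠ z in 𝓝 y, d z = d y := hd y hy
    apply ContinuousAt.continuousWithinAt
    exact (continuousAt_const (y := d y)).congr (h1.mono fun z hz => hz.symm)
  have hconst : ∀ C : Set (Quotient F), IsPreconnected C → C ⊆ {g}ᶜ → ∀ u ∈ C, ∀ v ∈ C,
      d u = d v := by
    intro C hC hCg u hu v hv
    exact (hC.image d (hdc.mono hCg)).subsingleton ⟨u, hu, rfl⟩ ⟨v, hv, rfl⟩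
  -- a ray of the interval not on the side of `A`
  obtain ⟨I, y₁, hIc, hIg, hy₁, hIcl, hne⟩ : ∃ (I : Set (Quotient F)) (y₁ : Quotient F),
      IsPreconnected I ∧ I ⊆ {g}ᶜ ∧ y₁ ∈ I ∧ g ∈ closure I ∧ d y₁ ≠ d (Quotient.mk F q₀) := by
    by_cases h : d (Quotient.mk F q₀) = 0
    · refine ⟨f '' Ioi 0, f 1, isPreconnected_Ioi.image _ hf.continuous.continuousOn, ?_,
        ⟨1, by norm_num, rfl⟩, ?_, ?_⟩
      · rintro _ ⟨s, hs, rfl⟩ h
        rw [mem_singleton_iff, ← hf0] at h
        exact (ne_of_gt hs) (hf.injective h)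
      · rw [← hf0]
        apply image_closure_subset_closure_image hf.continuous
        exact ⟨0, by rw [closure_Ioi]; exact mem_Ici.2 le_rfl, rfl⟩
      · rw [hdr 1 (by norm_num), h]; norm_num
    · refine ⟨f '' Iio 0, f (-1), isPreconnected_Iio.image _ hf.continuous.continuousOn, ?_,
        ⟨-1, by norm_num, rfl⟩, ?_, ?_⟩
      · rintro _ ⟨s, hs, rfl⟩ h
        rw [mem_singleton_iff, ← hf0] at h
        exact (ne_of_lt hs) (hf.injective h)
      · rw [← hf0]
        apply image_closure_subset_closure_image hf.continuous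
        exact ⟨0, by rw [closure_Iio]; exact mem_Iic.2 le_rfl, rfl⟩
      · rw [hdl (-1) (by norm_num)]; exact fun h' => h h'.symm
  have hy₁g : y₁ ≠ g := hIg hy₁
  set K : Set (Quotient F) := connectedComponentIn {g}ᶜ y₁ with hK
  have hKc : IsPreconnected K := isPreconnected_connectedComponentIn
  have hKg : K ⊆ {g}ᶜ := connectedComponentIn_subset _ _
  have hy₁K : y₁ ∈ K := mem_connectedComponentIn hy₁g
  have hIK : I ⊆ K := hIc.subset_connectedComponentIn hy₁ hIg
  have hKA : Disjoint K A := by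
    rw [Set.disjoint_left]
    intro v hvK hvA
    apply hne
    rw [hconst K hKc hKg y₁ hy₁K v hvK]
    exact hconst A hAc (fun w hw h => hgA (h ▸ hw)) v hvA _ ha₀
  have hK'c : IsPreconnected (insert g K) := by
    apply hKc.subset_closure (subset_insert _ _)
    exact insert_subset (closure_mono hIK hIcl) subset_closure
  have hK'A : ∀ v ∈ insert g K, v ∉ A := by
    rintro v (rfl | hv)
    · exact hgA
    · exact fun h => Set.disjoint_left.1 hKA hv h
  refine ⟨K, ⟨g, y₁, hy₁g, rfl⟩, ?_⟩
  -- the two open sets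
  have hopenx : IsOpen ({Quotient.mk G q₀}ᶜ : Set (Quotient G)) := hQG.isOpen_compl _
  have hHo : IsOpen H := by
    rw [hHeq]; exact IsOpen.connectedComponentIn hopenx
  have hHc : IsOpen ({Quotient.mk G q₀}ᶜ \ H : Set (Quotient G)) := by
    rw [isOpen_iff_mem_nhds]
    rintro v ⟨hvx, hvH⟩
    have h1 : IsOpen (connectedComponentIn {Quotient.mk G q₀}ᶜ v) :=
      IsOpen.connectedComponentIn hopenx
    filter_upwards [h1.mem_nhds (mem_connectedComponentIn hvx)] with w hw
    refine ⟨connectedComponentIn_subset _ _ hw, fun hwH => hvH ?_⟩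
    rw [hHeq] at hwH ⊢
    have e1 := connectedComponentIn_eq hw
    have e2 := connectedComponentIn_eq hwH
    change connectedComponentIn {Quotient.mk G q₀}ᶜ y₀ = _ at e2
    change v ∈ connectedComponentIn {Quotient.mk G q₀}ᶜ y₀
    rw [e2, ← e1]
    exact mem_connectedComponentIn hvx
  set O₁ : Set (Quotient F) := Quotient.mk F '' (Quotient.mk G ⁻¹' H) with hO₁
  set O₂ : Set (Quotient F) := Quotient.mk F '' (Quotient.mk G ⁻¹' ({Quotient.mk G q₀}ᶜ \ H))
    with hO₂
  have hO₁o : IsOpen O₁ := hF.isOpenMap_mk _ (hHo.preimage (continuous_mk G))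
  have hO₂o : IsOpen O₂ := hF.isOpenMap_mk _ (hHc.preimage (continuous_mk G))
  have hmiss : ∀ q, Quotient.mk F q ∈ insert g K → Quotient.mk G q ≠ Quotient.mk G q₀ := by
    intro q hq h
    exact hK'A _ hq ⟨q, G.symm' (Quotient.exact h), rfl⟩
  have hcover : insert g K ⊆ O₁ ∪ O₂ := by
    intro v hv
    obtain ⟨q, rfl⟩ := Quotient.exists_rep v
    change Quotient.mk F q ∈ insert g K at hv
    by_cases h : Quotient.mk G q ∈ H
    · exact Or.inl ⟨q, h, rfl⟩
    · exact Or.inr ⟨q, ⟨hmiss q hv, h⟩, rfl⟩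
  have hdisj : insert g K ∩ (O₁ ∩ O₂) = ∅ := by
    rw [Set.eq_empty_iff_forall_notMem]
    rintro v ⟨hv, ⟨q, hq, rfl⟩, ⟨q', hq', hqq'⟩⟩
    have h1 : F q q' := F.symm' (Quotient.exact hqq')
    have h2 : IsPreconnected (Quotient.mk G '' (leaf F q)) :=
      (hF.isPathConnected_leaf q).isConnected.isPreconnected.image _
        (continuous_mk G).continuousOn
    have h3 : Quotient.mk G '' (leaf F q) ⊆ {Quotient.mk G q₀}ᶜ := by
      rintro _ ⟨r, hr, rfl⟩
      apply hmiss
      rw [← Quotient.sound hr]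
      exact hv
    have h4 : Quotient.mk G '' (leaf F q) ⊆ connectedComponentIn {Quotient.mk G q₀}ᶜ
        (Quotient.mk G q) := h2.subset_connectedComponentIn ⟨q, F.refl' q, rfl⟩ h3
    have h5 := h4 ⟨q', h1, rfl⟩
    apply hq'.2
    have h6 : Quotient.mk G q ∈ H := hq
    rw [hHeq] at h6 ⊢
    rw [connectedComponentIn_eq h6]
    exact h5
  have hgO₁ : g ∈ O₁ := ⟨p, hz, rfl⟩
  have hgO₂ : g ∉ O₂ := by
    intro h
    have : g ∈ insert g K ∩ (O₁ ∩ O₂) := ⟨mem_insert _ _, hgO₁, h⟩
    rw [hdisj] at this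
    exact this
  have hsub : insert g K ⊆ O₁ := by
    rcases isPreconnected_iff_subset_of_disjoint.1 hK'c O₁ O₂ hO₁o hO₂o hcover hdisj with h | h
    · exact h
    · exact absurd (h (mem_insert _ _)) hgO₂
  intro q hq
  by_contra hqH
  have h1 : Quotient.mk F q ∈ O₂ := ⟨q, ⟨hmiss q (mem_insert_of_mem _ hq), hqH⟩, rfl⟩
  have : Quotient.mk F q ∈ insert g K ∩ (O₁ ∩ O₂) :=
    ⟨mem_insert_of_mem _ hq, hsub (mem_insert_of_mem _ hq), h1⟩
  rw [hdisj] at this
  exact this

end Pool.Agent.Helper921_LeafSpaces
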