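import Mathlib
import Pool.Agent.Helper921_LeafSpaces.Sides
import Pool.Agent.Helper921_LeafSpaces.Obst

set_option autoImplicit false
set_option linter.unusedSectionVars false

namespace Pool.Agent.Helper921_LeafSpaces

open Set Topology Filter TopologicalSpace

variable {X : Type*} [TopologicalSpace X]

/-! TARGET. If z is right of x and x is right of z then x and z are not aligned.
Let V be open, connected, Hausdorff (as a subspace; so distinct points of V have disjoint open neighbourhoods in X, V being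
open) with x, z ∈ V.
(cut) If V is preconnected and x ∈ V then V ∩ insert x (R x) is preconnected, the same with L: if it is covered by open O₁, O₂
 disjoint on it, x ∈ O₁, then V is covered by the open sets O₁ ∪ L x and O₂ ∩ R x, which are disjoint on V, so V ⊆ O₁ ∪ L x.
(H) Let v, x ∈ V, x ∈ L v, f a chart at v (f 0 = v, increasing). Then x ∈ L (f (-ε)) for some ε > 0. Otherwise x ∈ R (f (-ε))
 for all small ε > 0 (x = f (-ε) gives x ∈ L (f (-ε/2))), hence for all ε > 0 (monotone by nesting). Let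
 Q := {w ∈ V ∩ L v | ∀ ε > 0, w ∈ R (f (-ε))} ∋ x. In the preconnected set V ∩ insert v (L v), Q is relatively open:
 for q ∈ Q, q ≠ v, take disjoint open N_q ∋ q, N_v ∋ v, N_q connected (image of an interval under a chart), inside V ∩ L v;
 f '' (-ε₀, ε₀) ⊆ N_v; for 0 < ε < ε₀, N_q is connected and avoids f (-ε), so N_q ⊆ R (f (-ε)); for ε ≥ ε₀ use nesting. And its
 complement is relatively open: at v the points f (-ε') are not in Q (f (-ε') ∉ R (f (-ε'))), and w ∈ L v \ Q has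
 w ∉ R (f (-ε)) for some ε so w ∈ L (f (-ε/2)), an open set disjoint from Q. Contradiction with preconnectedness.
 By symmetry (`IsSides.symm`): x ∈ R v implies x ∈ R (f ε) for some ε > 0.
Now let z ∈ R x, x ∈ R z. In the preconnected set V ∩ insert x (R x) consider
 A := {x} ∪ {v | v ∈ R x, x ∈ L v} and B := {v | v ∈ R x, x ∈ R v} ∋ z. Both are relatively open: at x: points f t, t > 0, of a chart
 at x are in A. At v ∈ A, v ≠ x: points f t with t > 0 of a chart f at v: x ∈ L v ⊆ L (f t); points f (-t): x ∈ L (f (-t)) for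
 small t by (H) and nesting; and R x is open. At v ∈ B: points f (-t): x ∈ R v ⊆ R (f (-t)); points f t: by (H). Contradiction. -/


/-- small connected open neighbourhoods -/
theorem exists_small {L R : X → Set X} (h : IsSides L R) {q : X} {U : Set X} (hU : IsOpen U)
    (hq : q ∈ U) : ∃ N : Set X, IsOpen N ∧ IsPreconnected N ∧ q ∈ N ∧ N ⊆ U := by
  obtain ⟨g, hg, hg0, -⟩ := h.exists_chart q
  have h1 : g ⁻¹' U ∈ 𝓝 (0 : ℝ) := hg.continuous.continuousAt.preimage_mem_nhds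
    (by rw [hg0]; exact hU.mem_nhds hq)
  obtain ⟨δ, hδ, hb⟩ := Metric.mem_nhds_iff.1 h1
  rw [Real.ball_eq_Ioo] at hb
  refine ⟨g '' Ioo (0 - δ) (0 + δ), hg.isOpenMap _ isOpen_Ioo,
    isPreconnected_Ioo.image _ hg.continuous.continuousOn, ⟨0, ⟨by linarith, by linarith⟩, hg0⟩, ?_⟩
  rintro _ ⟨t, ht, rfl⟩
  exact hb ht

/-- (cut) -/
theorem cut_right {L R : X → Set X} (h : IsSides L R) {V : Set X} (hV : IsPreconnected V) {x : X}
    (hx : x ∈ V) : IsPreconnected (V ∩ insert x (R x)) := by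
  have key : ∀ u v : Set X, IsOpen u → IsOpen v → V ∩ insert x (R x) ⊆ u ∪ v → x ∈ u →
      (V ∩ insert x (R x) ∩ v).Nonempty → (V ∩ insert x (R x) ∩ (u ∩ v)).Nonempty := by
    intro u v hu hv hsub hxu hnv
    by_contra hne
    rw [not_nonempty_iff_eq_empty] at hne
    have hne' : ∀ w, w ∈ V → (w = x ∨ w ∈ R x) → w ∈ u → w ∈ v → False := by
      intro w h1 h2 h3 h4
      have : w ∈ V ∩ insert x (R x) ∩ (u ∩ v) := ⟨⟨h1, h2⟩, h3, h4⟩
      rw [hne] at this
      exact this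
    have h1 : V ⊆ (u ∪ L x) ∪ (v ∩ R x) := by
      intro w hw
      by_cases hwx : w = x
      · left; left; rw [hwx]; exact hxu
      rcases h.mem_or hwx with h2 | h2
      · left; right; exact h2
      · rcases hsub ⟨hw, Or.inr h2⟩ with h3 | h3
        · left; left; exact h3
        · right; exact ⟨h3, h2⟩
    have h2 : (V ∩ (u ∪ L x)).Nonempty := ⟨x, hx, Or.inl hxu⟩
    have h3 : (V ∩ (v ∩ R x)).Nonempty := by
      obtain ⟨w, ⟨hwV, hw⟩, hwv⟩ := hnv
      rcases hw with hw | hw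
      · exact (hne' w hwV (Or.inl hw) (by rw [hw]; exact hxu) hwv).elim
      · exact ⟨w, hwV, hwv, hw⟩
    obtain ⟨w, hwV, hw1, hw2, hw3⟩ := hV _ _ (hu.union (h.isOpen_left x))
      (hv.inter (h.isOpen_right x)) h1 h2 h3
    rcases hw1 with hw1 | hw1
    · exact hne' w hwV (Or.inr hw3) hw1 hw2
    · exact h.not_both hw1 hw3
  intro u v hu hv hsub hnu hnv
  rcases hsub ⟨hx, Or.inl rfl⟩ with h1 | h1
  · exact key u v hu hv hsub h1 hnv
  · rw [inter_comm u v]
    exact key v u hv hu (by rw [union_comm]; exact hsub) h1 hnu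

theorem cut_left {L R : X → Set X} (h : IsSides L R) {V : Set X} (hV : IsPreconnected V) {x : X}
    (hx : x ∈ V) : IsPreconnected (V ∩ insert x (L x)) := cut_right h.symm hV hx

/-- separation of two points of an open Hausdorff subset -/
theorem sep {V : Set X} (hV : IsOpen V) (hT : T2Space V) {q v : X} (hq : q ∈ V) (hv : v ∈ V)
    (hne : q ≠ v) : ∃ Nq Nv : Set X, IsOpen Nq ∧ IsOpen Nv ∧ q ∈ Nq ∧ v ∈ Nv ∧ Disjoint Nq Nv := by
  obtain ⟨u, w, hu, hw, hqu, hvw, hd⟩ := t2_separation (X := V) (x := ⟨q, hq⟩) (y := ⟨v, hv⟩)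
    (by intro h; exact hne (congrArg Subtype.val h))
  refine ⟨Subtype.val '' u, Subtype.val '' w, hV.isOpenMap_subtype_val _ hu,
    hV.isOpenMap_subtype_val _ hw, ⟨_, hqu, rfl⟩, ⟨_, hvw, rfl⟩, ?_⟩
  exact (disjoint_image_iff Subtype.val_injective).2 hd

/-- (H) -/
theorem persist_left {L R : X → Set X} (h : IsSides L R) {V : Set X} (hVo : IsOpen V)
    (hVc : IsPreconnected V) (hT : T2Space V) {v x : X} (hv : v ∈ V) (hx : x ∈ V) (hxv : x ∈ L v)
    {f : ℝ → X} (hf : IsOpenEmbedding f) (hf0 : f 0 = v)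
    (hfm : ∀ s t, s < t → f s ∈ L (f t) ∧ f t ∈ R (f s)) : ∃ ε > 0, x ∈ L (f (-ε)) := by
  by_contra hcon
  push Not at hcon
  have hLmono : ∀ s t, s < t → L (f s) ⊆ L (f t) := fun s t hst =>
    (subset_insert _ _).trans (h.nest_lr (hfm s t hst).1 (hfm s t hst).2)
  have hRmono : ∀ s t, s < t → R (f t) ⊆ R (f s) := fun s t hst =>
    (subset_insert _ _).trans (h.nest_rl (hfm s t hst).2 (hfm s t hst).1)
  have hxR : ∀ ε > 0, x ∈ R (f (-ε)) := by
    intro ε hε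
    refine h.right_of_notMem_left ?_ (hcon ε hε)
    intro he
    apply hcon (ε / 2) (by linarith)
    rw [he]
    exact (hfm (-ε) (-(ε / 2)) (by linarith)).1
  let Q : Set X := {w | w ∈ V ∧ w ∈ L v ∧ ∀ ε > 0, w ∈ R (f (-ε))}
  have hQo : IsOpen Q := by
    rw [isOpen_iff_forall_mem_open]
    rintro q ⟨hqV, hqL, hqR⟩
    obtain ⟨Nq, Nv, hNq, hNv, hq, hv', hd⟩ := sep hVo hT hqV hv (h.ne_of_left hqL)
    obtain ⟨N, hNo, hNc, hqN, hNs⟩ := exists_small h
      ((hNq.inter hVo).inter (h.isOpen_left v)) ⟨⟨hq, hqV⟩, hqL⟩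
    have h1 : f ⁻¹' Nv ∈ 𝓝 (0 : ℝ) := hf.continuous.continuousAt.preimage_mem_nhds
      (by rw [hf0]; exact hNv.mem_nhds hv')
    obtain ⟨δ, hδ, hb⟩ := Metric.mem_nhds_iff.1 h1
    rw [Real.ball_eq_Ioo] at hb
    refine ⟨N, ?_, hNo, hqN⟩
    intro w hw
    have hw' := hNs hw
    refine ⟨hw'.1.2, hw'.2, ?_⟩
    have hsmall : ∀ ε > 0, ε < δ → N ⊆ R (f (-ε)) := by
      intro ε hε hεδ
      refine h.subset_right hNc ?_ hqN (hqR ε hε)
      intro hmem
      have h2 : f (-ε) ∈ Nv := hb ⟨by linarith, by linarith⟩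
      exact disjoint_left.1 hd (hNs hmem).1.1 h2
    intro ε hε
    rcases lt_or_ge ε δ with h2 | h2
    · exact hsmall ε hε h2 hw
    · exact hRmono (-ε) (-(δ / 2)) (by linarith) (hsmall (δ / 2) (by linarith) (by linarith) hw)
  let O : Set X := f '' Ioo (-1) 1 ∪ ⋃ ε : {ε : ℝ // 0 < ε}, L (f (-ε.1))
  have hO : IsOpen O := (hf.isOpenMap _ isOpen_Ioo).union
    (isOpen_iUnion fun ε => h.isOpen_left _)
  have hS := cut_left h hVc hv
  have hcov : V ∩ insert v (L v) ⊆ Q ∪ O := by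
    rintro w ⟨hwV, hw⟩
    rcases hw with hw | hw
    · right; left
      exact ⟨0, ⟨by norm_num, by norm_num⟩, by rw [hf0, hw]⟩
    · by_cases hQ : ∀ ε > 0, w ∈ R (f (-ε))
      · left; exact ⟨hwV, hw, hQ⟩
      · right; right
        push Not at hQ
        obtain ⟨ε, hε, hwε⟩ := hQ
        rw [mem_iUnion]
        refine ⟨⟨ε / 2, by linarith⟩, ?_⟩
        show w ∈ L (f (-(ε / 2)))
        by_cases he : w = f (-ε)
        · rw [he]; exact (hfm (-ε) (-(ε / 2)) (by linarith)).1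
        · exact hLmono (-ε) (-(ε / 2)) (by linarith) (h.left_of_notMem_right he hwε)
  obtain ⟨w, ⟨hwV, hwv⟩, ⟨-, hwL, hwR⟩, hwO⟩ := hS Q O hQo hO hcov
    ⟨x, ⟨hx, Or.inr hxv⟩, hx, hxv, hxR⟩
    ⟨v, ⟨hv, Or.inl rfl⟩, Or.inl ⟨0, ⟨by norm_num, by norm_num⟩, hf0⟩⟩
  rcases hwO with ⟨t, ht, rfl⟩ | hwO
  · rcases lt_trichotomy t 0 with h1 | h1 | h1
    · have := hwR (-t) (by linarith)
      rw [neg_neg] at this
      exact h.notMem_right _ this
    · rw [h1, hf0] at hwL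
      exact h.notMem_left _ hwL
    · have := (hfm 0 t h1).2
      rw [hf0] at this
      exact h.not_both hwL this
  · rw [mem_iUnion] at hwO
    obtain ⟨⟨ε, hε⟩, hw⟩ := hwO
    exact h.not_both hw (hwR ε hε)

theorem persist_right {L R : X → Set X} (h : IsSides L R) {V : Set X} (hVo : IsOpen V)
    (hVc : IsPreconnected V) (hT : T2Space V) {v x : X} (hv : v ∈ V) (hx : x ∈ V) (hxv : x ∈ R v)
    {f : ℝ → X} (hf : IsOpenEmbedding f) (hf0 : f 0 = v)
    (hfm : ∀ s t, s < t → f s ∈ L (f t) ∧ f t ∈ R (f s)) : ∃ ε > 0, x ∈ R (f ε) := by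
  obtain ⟨ε, hε, h1⟩ := persist_left h.symm hVo hVc hT hv hx hxv (f := fun t => f (-t))
    (hf.comp (Homeomorph.neg ℝ).isOpenEmbedding) (by simpa using hf0) (fun s t hst => by
      have := hfm (-t) (-s) (by linarith)
      exact ⟨this.2, this.1⟩)
  refine ⟨ε, hε, ?_⟩
  simpa using h1

theorem not_aligned_of_right {L R : X → Set X} (h : IsSides L R) {x z : X} (hz : z ∈ R x)
    (hx : x ∈ R z) : ¬ Aligned x z := by
  rintro ⟨V, hVo, hVc', hT, hxV, hzV⟩
  have hVc := hVc'.isPreconnected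
  have hS := cut_right h hVc hxV
  let A : Set X := {v | v ∈ V ∧ v ∈ R x ∧ x ∈ L v}
  let B : Set X := {v | v ∈ V ∧ v ∈ R x ∧ x ∈ R v}
  have hA : IsOpen A := by
    rw [isOpen_iff_forall_mem_open]
    rintro v ⟨hvV, hvR, hxL⟩
    obtain ⟨f, hf, hf0, hfm⟩ := h.exists_chart v
    obtain ⟨ε, hε, h1⟩ := persist_left h hVo hVc hT hvV hxV hxL hf hf0 hfm
    refine ⟨f '' Ioo (-ε) 1 ∩ V ∩ R x, ?_, ((hf.isOpenMap _ isOpen_Ioo).inter hVo).inter
      (h.isOpen_right x), ⟨⟨0, ⟨by linarith, by norm_num⟩, hf0⟩, hvV⟩, hvR⟩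
    rintro _ ⟨⟨⟨t, ht, rfl⟩, h2⟩, h3⟩
    refine ⟨h2, h3, ?_⟩
    exact (h.nest_lr (hfm (-ε) t ht.1).1 (hfm (-ε) t ht.1).2) (mem_insert_of_mem _ h1)
  have hB : IsOpen B := by
    rw [isOpen_iff_forall_mem_open]
    rintro v ⟨hvV, hvR, hxR⟩
    obtain ⟨f, hf, hf0, hfm⟩ := h.exists_chart v
    obtain ⟨ε, hε, h1⟩ := persist_right h hVo hVc hT hvV hxV hxR hf hf0 hfm
    refine ⟨f '' Ioo (-1) ε ∩ V ∩ R x, ?_, ((hf.isOpenMap _ isOpen_Ioo).inter hVo).inter
      (h.isOpen_right x), ⟨⟨0, ⟨by norm_num, by linarith⟩, hf0⟩, hvV⟩, hvR⟩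
    rintro _ ⟨⟨⟨t, ht, rfl⟩, h2⟩, h3⟩
    refine ⟨h2, h3, ?_⟩
    exact (h.nest_rl (hfm t ε ht.2).2 (hfm t ε ht.2).1) (mem_insert_of_mem _ h1)
  obtain ⟨g, hg, hg0, hgm⟩ := h.exists_chart x
  have hN : IsOpen (g '' Ioo (-1) 1) := hg.isOpenMap _ isOpen_Ioo
  have hxN : x ∈ g '' Ioo (-1) 1 := ⟨0, ⟨by norm_num, by norm_num⟩, hg0⟩
  have hcov : V ∩ insert x (R x) ⊆ (g '' Ioo (-1) 1 ∪ A) ∪ B := by
    rintro w ⟨hwV, hw⟩
    rcases hw with hw | hw
    · left; left; rw [hw]; exact hxN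
    · rcases h.mem_or (h.ne_of_right hw).symm with h1 | h1
      · left; right; exact ⟨hwV, hw, h1⟩
      · right; exact ⟨hwV, hw, h1⟩
  obtain ⟨w, ⟨hwV, -⟩, hw1, -, hwR, hxw⟩ := hS _ _ (hN.union hA) hB hcov
    ⟨x, ⟨hxV, Or.inl rfl⟩, Or.inl hxN⟩ ⟨z, ⟨hzV, Or.inr hz⟩, hzV, hz, hx⟩
  rcases hw1 with ⟨t, ht, rfl⟩ | ⟨-, -, hw1⟩
  · rcases lt_trichotomy t 0 with h1 | h1 | h1
    · have := (hgm t 0 h1).1
      rw [hg0] at this
      exact h.not_both this hwR
    · rw [h1, hg0] at hwR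
      exact h.notMem_right _ hwR
    · have := (hgm 0 t h1).1
      rw [hg0] at this
      exact h.not_both this hxw
  · exact h.not_both hw1 hxw

end Pool.Agent.Helper921_LeafSpaces
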