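import Mathlib
import Pool.Agent.Helper921_LeafSpaces.Obst

/-!
# The half-space obstruction for realized pairs
-/

namespace Pool.Agent.Helper921_LeafSpaces

open Set Topology Filter TopologicalSpace

theorem SamePlaque.prod_comm_iff {F G : Setoid Plane} (hT : AreTransverse F G) :
    AreTransverse G F := by
  intro p
  obtain ⟨U, φ, hU, hp, h1, h2⟩ := hT p
  exact ⟨U, φ.trans (Homeomorph.prodComm _ _), hU, hp, fun q q' => h2 q q', fun q q' => h1 q q'⟩

theorem Realized.symm {Λ Λ' : Type*} [TopologicalSpace Λ] [TopologicalSpace Λ']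
    (h : Realized Λ Λ') : Realized Λ' Λ := by
  obtain ⟨F, G, hF, hG, hT, h1, h2⟩ := h
  exact ⟨G, F, hG, hF, SamePlaque.prod_comm_iff hT, h2, h1⟩

theorem IsOneManifold.locReal {X : Type*} [TopologicalSpace X] (h : IsOneManifold X) :
    LocReal X := h.locally_real

theorem SimplyConnectedSpace.of_homeo {X Y : Type*} [TopologicalSpace X] [TopologicalSpace Y]
    (e : X ≃ₜ Y) [SimplyConnectedSpace Y] : SimplyConnectedSpace X :=
  e.toHomotopyEquiv.simplyConnectedSpace

/-- One half of the half-space obstruction. -/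
theorem exists_halfSpace_map {Λ Λ' : Type*} [TopologicalSpace Λ] [TopologicalSpace Λ']
    [SimplyConnectedSpace Λ] [SimplyConnectedSpace Λ'] (hΛ : IsOneManifold Λ)
    (hΛ' : IsOneManifold Λ') (h : Realized Λ Λ') :
    ∃ Φ : {H : Set Λ' // IsBentHalfSpace H} → {K : Set Λ // IsHalfSpace K},
      ∀ H H', Disjoint H.1 H'.1 → Disjoint (Φ H).1 (Φ H').1 := by
  obtain ⟨F, G, hF, hG, hT, ⟨eF⟩, ⟨eG⟩⟩ := h
  have := SimplyConnectedSpace.of_homeo eF
  have := SimplyConnectedSpace.of_homeo eG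
  have hQF : LocReal (Quotient F) := hΛ.locReal.of_homeo eF.symm
  have hQG : LocReal (Quotient G) := hΛ'.locReal.of_homeo eG.symm
  have key : ∀ H : {H : Set Λ' // IsBentHalfSpace H}, ∃ K : {K : Set Λ // IsHalfSpace K},
      ∀ q : Plane, eF (Quotient.mk F q) ∈ K.1 → eG (Quotient.mk G q) ∈ H.1 := by
    rintro ⟨H, hH⟩
    obtain ⟨K, hK, hKH⟩ := exists_halfSpace hF hG hT hQF hQG (hH.map eG.symm)
    refine ⟨⟨eF '' K, hK.map eF⟩, ?_⟩
    intro q hq
    obtain ⟨v, hv, hvq⟩ := hq
    rw [eF.injective hvq] at hv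
    obtain ⟨w, hw, hwq⟩ := hKH q hv
    rw [← hwq]
    simpa using hw
  choose Φ hΦ using key
  refine ⟨Φ, ?_⟩
  intro H H' hHH
  rw [Set.disjoint_left]
  intro v hv hv'
  obtain ⟨w, rfl⟩ := eF.surjective v
  obtain ⟨q, rfl⟩ := Quotient.exists_rep w
  exact Set.disjoint_left.1 hHH (hΦ H q hv) (hΦ H' q hv')

/-- A half-space of the line contains an open ray. -/
theorem IsHalfSpace.real {K : Set ℝ} (hK : IsHalfSpace K) : ∃ x, Iio x ⊆ K ∨ Ioi x ⊆ K := by
  obtain ⟨x, y, hy, rfl⟩ := hK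
  refine ⟨x, ?_⟩
  rcases lt_or_gt_of_ne hy with h | h
  · left
    exact isPreconnected_Iio.subset_connectedComponentIn h fun z hz => ne_of_lt hz
  · right
    exact isPreconnected_Ioi.subset_connectedComponentIn h fun z hz => ne_of_gt hz

/-- There are no three pairwise disjoint half-spaces in the line. -/
theorem not_three_halfSpaces (K : Fin 3 → Set ℝ) (hK : ∀ i, IsHalfSpace (K i)) :
    ¬ ∀ i j, i ≠ j → Disjoint (K i) (K j) := by
  intro hd
  have h1 : ∀ i j, i ≠ j → ∀ x y, Iio x ⊆ K i → ¬ Iio y ⊆ K j := by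
    intro i j hij x y hx hy
    have := Set.disjoint_left.1 (hd i j hij) (hx (show min x y - 1 ∈ Iio x by
      have := min_le_left x y; simp only [mem_Iio]; linarith))
    exact this (hy (by have := min_le_right x y; simp only [mem_Iio]; linarith))
  have h2 : ∀ i j, i ≠ j → ∀ x y, Ioi x ⊆ K i → ¬ Ioi y ⊆ K j := by
    intro i j hij x y hx hy
    have := Set.disjoint_left.1 (hd i j hij) (hx (show max x y + 1 ∈ Ioi x by
      have := le_max_left x y; simp only [mem_Ioi]; linarith))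
    exact this (hy (by have := le_max_right x y; simp only [mem_Ioi]; linarith))
  obtain ⟨x0, h0⟩ := (hK 0).real
  obtain ⟨x1, h01⟩ := (hK 1).real
  obtain ⟨x2, h02⟩ := (hK 2).real
  rcases h0 with h0 | h0 <;> rcases h01 with h01 | h01 <;> rcases h02 with h02 | h02
  · exact h1 0 1 (by decide) _ _ h0 h01
  · exact h1 0 1 (by decide) _ _ h0 h01
  · exact h1 0 2 (by decide) _ _ h0 h02
  · exact h2 1 2 (by decide) _ _ h01 h02
  · exact h1 1 2 (by decide) _ _ h01 h02
  · exact h2 0 2 (by decide) _ _ h0 h02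
  · exact h2 0 1 (by decide) _ _ h0 h01
  · exact h2 0 1 (by decide) _ _ h0 h01

/-- If a pair with first member the line is realized, the second member has no three pairwise
disjoint bent half-spaces. -/
theorem not_three_bent {Λ' : Type*} [TopologicalSpace Λ']
    [SimplyConnectedSpace Λ'] (hΛ' : IsOneManifold Λ') (h : Realized ℝ Λ')
    (H : Fin 3 → Set Λ') (hH : ∀ i, IsBentHalfSpace (H i)) :
    ¬ ∀ i j, i ≠ j → Disjoint (H i) (H j) := by
  intro hd
  have hR : IsOneManifold ℝ := ⟨inferInstance, fun x => ⟨univ, isOpen_univ, mem_univ _,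
    ⟨Homeomorph.Set.univ ℝ⟩⟩⟩
  obtain ⟨Φ, hΦ⟩ := exists_halfSpace_map hR hΛ' h
  exact not_three_halfSpaces (fun i => (Φ ⟨H i, hH i⟩).1) (fun i => (Φ ⟨H i, hH i⟩).2)
    fun i j hij => hΦ _ _ (hd i j hij)

end Pool.Agent.Helper921_LeafSpaces
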