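import Mathlib
import Pool.Agent.Helper921_LeafSpaces.Sides
import Pool.Agent.Helper921_LeafSpaces.Sep

set_option autoImplicit false
set_option linter.unusedSectionVars false

namespace Pool.Agent.Helper921_LeafSpaces

open Set Topology Filter TopologicalSpace

/-! TARGET. Existence of an orientation and of the two sides of every point.
1. For every open embedding f : ℝ → X with f 0 = x put
   Rf := connectedComponentIn {x}ᶜ (f 1), Lf := connectedComponentIn {x}ᶜ (f (-1)).
   By `exists_sep` the function d is locally constant on {x}ᶜ, so it is constant on preconnected subsets of {x}ᶜ; so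
   Lf ≠ Rf, they are disjoint, open (X locally connected, {x}ᶜ open). f '' (0,∞) ⊆ Rf, f '' (-∞,0) ⊆ Lf.
   Every component C of {x}ᶜ is Lf or Rf: C is open; it is not closed in X (X is connected, C is not empty and x ∉ C) so some
   point of its closure is not in C; such a point cannot be in {x}ᶜ (there it would lie in another, open, component), so x is
   in the closure of C and C meets f '' (-1,1) \ {x}, so it contains one of the two half intervals. Hence
   Lf ∪ Rf = {x}ᶜ; insert x Rf is preconnected (x is in the closure of Rf), the same for Lf.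
2. Orientation. For each x choose f_x with f_x 0 = x and put R0 x := Rf, L0 x := Lf for f = f_x.
   For an open embedding f and a point y = f t exactly one of (a) f '' (t,∞) ⊆ R0 y, (b) f '' (t,∞) ⊆ L0 y holds (and then
   f '' (-∞,t) is in the other one: by 1 applied to the embedding s ↦ f (s + t)). Put c_f (y) := 0 in case (a), 1 in case (b),
   in ZMod 2 (and 0 outside of the range). For two embeddings f, g and a common point y = f t = g u, near y the map g⁻¹ ∘ f is a
   local homeomorphism between intervals, so it is strictly increasing or strictly decreasing near t; in the first case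
   c_f = c_g near y, in the second c_f = c_g + 1 near y. (For y' near y: y' = f t' = g u'; the germ of f '' (t',∞) at y' is the
   germ of g '' (u',∞) or of g '' (-∞,u').) So `exists_primitive` applied to the cover by the ranges of all open embeddings
   (index type: {f : ℝ → X // IsOpenEmbedding f}) gives d : X → ZMod 2 with d - c_f locally constant on the range of f, hence
   constant on it (the range is connected). Put R x := R0 x if d x = 0, L0 x if d x = 1; L x := the other one.
3. Charts: for a given x take f := f_x if d - c_f ≡ 0 on the range of f_x and f t := f_x (-t) otherwise (then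
   c_f changes by 1). So d = c_f on the range of f and f '' (t,∞) ⊆ R (f t), f '' (-∞,t) ⊆ L (f t) for every t. -/

namespace ExistsIsSidesAux

/-- right side of `f t` seen from `f` -/
def Rt {X : Type*} [TopologicalSpace X] (f : ℝ → X) (t : ℝ) : Set X :=
  connectedComponentIn {f t}ᶜ (f (t + 1))

/-- left side of `f t` seen from `f` -/
def Lt {X : Type*} [TopologicalSpace X] (f : ℝ → X) (t : ℝ) : Set X :=
  connectedComponentIn {f t}ᶜ (f (t - 1))

theorem mem_Rt {X : Type*} [TopologicalSpace X] {f : ℝ → X} (hf : IsOpenEmbedding f) {s t : ℝ}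
    (h : t < s) : f s ∈ Rt f t := by
  have h1 : IsPreconnected (f '' Ioi t) := isPreconnected_Ioi.image f hf.continuous.continuousOn
  have h2 : f '' Ioi t ⊆ {f t}ᶜ := by
    rintro _ ⟨r, hr, rfl⟩ h3
    exact absurd (hf.injective h3) (ne_of_gt hr)
  exact h1.subset_connectedComponentIn
    (mem_image_of_mem f (by simp : t + 1 ∈ Ioi t)) h2 (mem_image_of_mem f h)

theorem mem_Lt {X : Type*} [TopologicalSpace X] {f : ℝ → X} (hf : IsOpenEmbedding f) {s t : ℝ}
    (h : s < t) : f s ∈ Lt f t := by
  have h1 : IsPreconnected (f '' Iio t) := isPreconnected_Iio.image f hf.continuous.continuousOn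
  have h2 : f '' Iio t ⊆ {f t}ᶜ := by
    rintro _ ⟨r, hr, rfl⟩ h3
    exact absurd (hf.injective h3) (ne_of_lt hr)
  exact h1.subset_connectedComponentIn
    (mem_image_of_mem f (by simp : t - 1 ∈ Iio t)) h2 (mem_image_of_mem f h)

theorem ne_succ {X : Type*} [TopologicalSpace X] {f : ℝ → X} (hf : IsOpenEmbedding f) (t : ℝ) :
    f (t + 1) ∈ ({f t}ᶜ : Set X) := by
  intro h
  have := hf.injective h
  linarith

theorem ne_pred {X : Type*} [TopologicalSpace X] {f : ℝ → X} (hf : IsOpenEmbedding f) (t : ℝ) :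
    f (t - 1) ∈ ({f t}ᶜ : Set X) := by
  intro h
  have := hf.injective h
  linarith

/-- two components that meet agree -/
theorem comp_eq {X : Type*} [TopologicalSpace X] {F : Set X} {x y z : X}
    (h1 : z ∈ connectedComponentIn F x) (h2 : z ∈ connectedComponentIn F y) :
    connectedComponentIn F x = connectedComponentIn F y := by
  rw [connectedComponentIn_eq h1, connectedComponentIn_eq h2]

theorem disj {X : Type*} [TopologicalSpace X] [SimplyConnectedSpace X]
    (hX : LocReal X) {f : ℝ → X} (hf : IsOpenEmbedding f) (t : ℝ) :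
    Disjoint (Lt f t) (Rt f t) := by
  rw [Set.disjoint_left]
  intro z hz1 hz2
  have h1 : Lt f t = Rt f t := comp_eq hz1 hz2
  obtain ⟨d, hd, hd0, hd1⟩ := hX.exists_sep hf t
  have h2 : IsPreconnected (Lt f t) := isPreconnected_connectedComponentIn
  have h3 : ContinuousOn d (Lt f t) := by
    intro y hy
    have hy' : y ≠ f t := fun h => (connectedComponentIn_subset _ _ hy) h
    have h4 : d =ᶠ[𝓝 y] fun _ => d y := hd y hy'
    exact (continuousAt_const.congr h4.symm).continuousWithinAt
  have h5 := h2.constant h3 (mem_Lt hf (by linarith : t - 1 < t))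
    (h1 ▸ mem_Rt hf (by linarith : t < t + 1))
  rw [hd0 _ (by linarith), hd1 _ (by linarith)] at h5
  exact zero_ne_one h5

theorem mem_closure_comp {X : Type*} [TopologicalSpace X] [SimplyConnectedSpace X]
    (hX : LocReal X) (x y : X) (hy : y ∈ ({x}ᶜ : Set X)) :
    x ∈ closure (connectedComponentIn {x}ᶜ y) := by
  have := hX.locallyPathConnectedSpace
  by_contra hx
  set C := connectedComponentIn {x}ᶜ y with hC
  have hCo : IsOpen C := (hX.isOpen_compl x).connectedComponentIn
  have hyC : y ∈ C := mem_connectedComponentIn hy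
  have hxC : x ∉ C := fun h => (connectedComponentIn_subset _ _ h) rfl
  have hCc : IsClosed C := by
    rw [← closure_subset_iff_isClosed]
    intro z hz
    by_contra hzC
    have hzx : z ∈ ({x}ᶜ : Set X) := by
      intro h
      rw [mem_singleton_iff] at h
      exact hx (h ▸ hz)
    have hDo : IsOpen (connectedComponentIn {x}ᶜ z) := (hX.isOpen_compl x).connectedComponentIn
    have hzD : z ∈ connectedComponentIn {x}ᶜ z := mem_connectedComponentIn hzx
    obtain ⟨w, hw1, hw2⟩ := mem_closure_iff.mp hz _ hDo hzD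
    have h1 := comp_eq hw1 hw2
    exact hzC (by rw [hC, ← h1]; exact hzD)
  rcases isClopen_iff.mp ⟨hCc, hCo⟩ with h | h
  · rw [h] at hyC
    exact hyC
  · rw [h] at hxC
    exact hxC (mem_univ x)

theorem comp_eq_or {X : Type*} [TopologicalSpace X] [SimplyConnectedSpace X]
    (hX : LocReal X) {f : ℝ → X} (hf : IsOpenEmbedding f) (t : ℝ) (y : X)
    (hy : y ∈ ({f t}ᶜ : Set X)) :
    connectedComponentIn {f t}ᶜ y = Lt f t ∨ connectedComponentIn {f t}ᶜ y = Rt f t := by
  have h1 := mem_closure_comp hX (f t) y hy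
  obtain ⟨w, hw1, hw2⟩ := mem_closure_iff.mp h1 _ hf.isOpen_range (mem_range_self t)
  obtain ⟨s, rfl⟩ := hw1
  rcases lt_trichotomy s t with h | h | h
  · exact Or.inl (comp_eq hw2 (mem_Lt hf h))
  · rw [h] at hw2
    exact absurd rfl (connectedComponentIn_subset _ _ hw2)
  · exact Or.inr (comp_eq hw2 (mem_Rt hf h))

theorem union_eq {X : Type*} [TopologicalSpace X] [SimplyConnectedSpace X]
    (hX : LocReal X) {f : ℝ → X} (hf : IsOpenEmbedding f) (t : ℝ) :
    Lt f t ∪ Rt f t = {f t}ᶜ := by
  apply Subset.antisymm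
  · exact union_subset (connectedComponentIn_subset _ _) (connectedComponentIn_subset _ _)
  · intro y hy
    have hyC : y ∈ connectedComponentIn {f t}ᶜ y := mem_connectedComponentIn hy
    rcases comp_eq_or hX hf t y hy with h | h
    · exact Or.inl (h ▸ hyC)
    · exact Or.inr (h ▸ hyC)

theorem insert_conn {X : Type*} [TopologicalSpace X] [SimplyConnectedSpace X]
    (hX : LocReal X) (x y : X) (hy : y ∈ ({x}ᶜ : Set X)) :
    IsPreconnected (insert x (connectedComponentIn {x}ᶜ y)) := by
  refine IsPreconnected.subset_closure (isPreconnected_connectedComponentIn (F := {x}ᶜ) (x := y))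
    (subset_insert _ _) ?_
  exact insert_subset (mem_closure_comp hX x y hy) subset_closure

/-- comparison of two charts near a common point -/
theorem compare {X : Type*} [TopologicalSpace X]
    {f g : ℝ → X} (hf : IsOpenEmbedding f) (hg : IsOpenEmbedding g)
    (t u : ℝ) (h : f t = g u) :
    (∀ᶠ z in 𝓝 (f t), ∃ t' u', f t' = z ∧ g u' = z ∧ Rt f t' = Rt g u') ∨
    (∀ᶠ z in 𝓝 (f t), ∃ t' u', f t' = z ∧ g u' = z ∧ Rt f t' = Lt g u') := by
  have h1 : ∀ᶠ s in 𝓝 t, f s ∈ range g := by
    apply hf.continuous.continuousAt.eventually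
    rw [h]
    exact hg.isOpen_range.mem_nhds (mem_range_self u)
  obtain ⟨ε, hε, hball⟩ := Metric.eventually_nhds_iff_ball.mp h1
  set a := t - ε / 2 with ha
  set b := t + ε / 2 with hb
  have hab : a ≤ b := by rw [ha, hb]; linarith
  have hI : ∀ s ∈ Icc a b, f s ∈ range g := by
    intro s hs
    apply hball
    rw [Metric.mem_ball, Real.dist_eq, abs_lt]
    constructor
    · have := hs.1
      rw [ha] at this
      linarith
    · have := hs.2
      rw [hb] at this
      linarith
  choose! φ hφ using hI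
  have hφc : ContinuousOn φ (Icc a b) := by
    have h2 : ContinuousOn (g ∘ φ) (Icc a b) := by
      refine hf.continuous.continuousOn.congr ?_
      intro s hs
      exact hφ s hs
    rwa [← hg.isInducing.continuousOn_iff] at h2
  have hφi : InjOn φ (Icc a b) := by
    intro s hs s' hs' hss
    apply hf.injective
    rw [← hφ s hs, ← hφ s' hs', hss]
  have hbI : b ∈ Icc a b := right_mem_Icc.mpr hab
  have hnear : f '' Ioo a b ∈ 𝓝 (f t) := by
    refine (hf.isOpenMap _ isOpen_Ioo).mem_nhds (mem_image_of_mem f ?_)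
    constructor
    · rw [ha]; linarith
    · rw [hb]; linarith
  rcases hφc.strictMonoOn_of_injOn_Icc' hab hφi with hmono | hanti
  · left
    filter_upwards [hnear] with z hz
    obtain ⟨s, hs, rfl⟩ := hz
    have hsI : s ∈ Icc a b := Ioo_subset_Icc_self hs
    refine ⟨s, φ s, rfl, hφ s hsI, ?_⟩
    have h3 : f b ∈ Rt f s := mem_Rt hf hs.2
    have h4 : f b ∈ Rt g (φ s) := by
      rw [← hφ b hbI]
      exact mem_Rt hg (hmono hsI hbI hs.2)
    unfold Rt at h4 ⊢
    rw [hφ s hsI] at h4 ⊢
    exact comp_eq h3 h4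
  · right
    filter_upwards [hnear] with z hz
    obtain ⟨s, hs, rfl⟩ := hz
    have hsI : s ∈ Icc a b := Ioo_subset_Icc_self hs
    refine ⟨s, φ s, rfl, hφ s hsI, ?_⟩
    have h3 : f b ∈ Rt f s := mem_Rt hf hs.2
    have h4 : f b ∈ Lt g (φ s) := by
      rw [← hφ b hbI]
      exact mem_Lt hg (hanti hsI hbI hs.2)
    unfold Lt at h4 ⊢
    unfold Rt at h3 ⊢
    rw [hφ s hsI] at h4 ⊢
    exact comp_eq h3 h4

end ExistsIsSidesAux

open ExistsIsSidesAux in
theorem exists_isSides {X : Type*} [TopologicalSpace X] [SimplyConnectedSpace X]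
    (hX : LocReal X) :
    ∃ L R : X → Set X, IsSides L R ∧ (∀ x, IsPreconnected (L x)) ∧ ∀ x, IsPreconnected (R x) := by
  classical
  have := hX.locallyPathConnectedSpace
  choose e he he0 using hX.exists_emb
  set R0 : X → Set X := fun x => Rt (e x) 0 with hR0
  set L0 : X → Set X := fun x => Lt (e x) 0 with hL0
  have hdisj0 : ∀ x, Disjoint (L0 x) (R0 x) := fun x => disj hX (he x) 0
  -- dichotomy
  have hdich : ∀ (f : ℝ → X), IsOpenEmbedding f → ∀ t,
      (Rt f t = R0 (f t) ∧ Lt f t = L0 (f t)) ∨ (Rt f t = L0 (f t) ∧ Lt f t = R0 (f t)) := by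
    intro f hf t
    have hdf := disj hX hf t
    have h1 := comp_eq_or hX (he (f t)) 0 (f (t + 1)) (by rw [he0]; exact ne_succ hf t)
    have h2 := comp_eq_or hX (he (f t)) 0 (f (t - 1)) (by rw [he0]; exact ne_pred hf t)
    rw [he0] at h1 h2
    have h1' : Rt f t = L0 (f t) ∨ Rt f t = R0 (f t) := h1
    have h2' : Lt f t = L0 (f t) ∨ Lt f t = R0 (f t) := h2
    have hne : Lt f t ≠ Rt f t := by
      intro h
      have h3 : f (t + 1) ∈ Rt f t := mem_Rt hf (by linarith)
      exact Set.disjoint_left.mp hdf (h ▸ h3) h3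
    rcases h1' with h1 | h1 <;> rcases h2' with h2 | h2
    · exact absurd (h2.trans h1.symm) hne
    · exact Or.inr ⟨h1, h2⟩
    · exact Or.inl ⟨h1, h2⟩
    · exact absurd (h2.trans h1.symm) hne
  have hLR0 : ∀ x, L0 x ≠ R0 x := by
    intro x h
    have h3 : e x (0 + 1) ∈ R0 x := mem_Rt (he x) (by linarith)
    exact Set.disjoint_left.mp (hdisj0 x) (h ▸ h3) h3
  -- cocycle
  set c : {f : ℝ → X // IsOpenEmbedding f} → X → ZMod 2 := fun f y =>
    if ∃ t, f.1 t = y ∧ Rt f.1 t = R0 y then 0 else 1 with hc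
  have hc0 : ∀ (f : {f : ℝ → X // IsOpenEmbedding f}) t, Rt f.1 t = R0 (f.1 t) → c f (f.1 t) = 0 := by
    intro f t h
    simp only [hc]
    rw [if_pos ⟨t, rfl, h⟩]
  have hc1 : ∀ (f : {f : ℝ → X // IsOpenEmbedding f}) t, Rt f.1 t = L0 (f.1 t) → c f (f.1 t) = 1 := by
    intro f t h
    simp only [hc]
    rw [if_neg]
    rintro ⟨s, hs, hs'⟩
    have hst : s = t := f.2.injective hs
    subst hst
    exact hLR0 _ (h.symm.trans hs')
  have hsame : ∀ (f g : {f : ℝ → X // IsOpenEmbedding f}) (t u : ℝ), f.1 t = g.1 u →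
      Rt f.1 t = Rt g.1 u → c f (f.1 t) - c g (f.1 t) = 0 := by
    intro f g t u h1 h2
    rcases hdich f.1 f.2 t with ⟨h3, _⟩ | ⟨h3, _⟩
    · have h4 : Rt g.1 u = R0 (g.1 u) := by rw [← h2, h3, h1]
      have h5 := hc0 g u h4
      rw [← h1] at h5
      rw [hc0 f t h3, h5]
      rfl
    · have h4 : Rt g.1 u = L0 (g.1 u) := by rw [← h2, h3, h1]
      have h5 := hc1 g u h4
      rw [← h1] at h5
      rw [hc1 f t h3, h5]
      rfl
  have hdiff : ∀ (f g : {f : ℝ → X // IsOpenEmbedding f}) (t u : ℝ), f.1 t = g.1 u →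
      Rt f.1 t = Lt g.1 u → c f (f.1 t) - c g (f.1 t) = 1 := by
    intro f g t u h1 h2
    rcases hdich f.1 f.2 t with ⟨h3, _⟩ | ⟨h3, _⟩
    · have h4 : Lt g.1 u = R0 (g.1 u) := by rw [← h2, h3, h1]
      have h4' : Rt g.1 u = L0 (g.1 u) := by
        rcases hdich g.1 g.2 u with ⟨_, h6⟩ | ⟨h6, _⟩
        · exact absurd (h6.symm.trans h4) (hLR0 _)
        · exact h6
      have h5 := hc1 g u h4'
      rw [← h1] at h5
      rw [hc0 f t h3, h5]
      decide
    · have h4 : Lt g.1 u = L0 (g.1 u) := by rw [← h2, h3, h1]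
      have h4' : Rt g.1 u = R0 (g.1 u) := by
        rcases hdich g.1 g.2 u with ⟨h6, _⟩ | ⟨_, h6⟩
        · exact h6
        · exact absurd (h4.symm.trans h6) (hLR0 _)
      have h5 := hc0 g u h4'
      rw [← h1] at h5
      rw [hc1 f t h3, h5]
      decide
  obtain ⟨d, hd⟩ := exists_primitive
    (fun f : {f : ℝ → X // IsOpenEmbedding f} => (⟨range f.1, f.2.isOpen_range⟩ : Opens X)) c
    (fun x => ⟨⟨e x, he x⟩, ⟨0, he0 x⟩⟩) (by
      rintro f g x ⟨⟨t, hft⟩, ⟨u, hgu⟩⟩
      subst hft
      rcases compare f.2 g.2 t u hgu.symm with h | h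
      · have key : ∀ᶠ z in 𝓝 (f.1 t), c f z - c g z = 0 := by
          filter_upwards [h] with z hz
          obtain ⟨t', u', h1, h2, h3⟩ := hz
          have h4 := hsame f g t' u' (h1.trans h2.symm) h3
          rwa [h1] at h4
        filter_upwards [key] with z hz
        rw [hz, key.self_of_nhds]
      · have key : ∀ᶠ z in 𝓝 (f.1 t), c f z - c g z = 1 := by
          filter_upwards [h] with z hz
          obtain ⟨t', u', h1, h2, h3⟩ := hz
          have h4 := hdiff f g t' u' (h1.trans h2.symm) h3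
          rwa [h1] at h4
        filter_upwards [key] with z hz
        rw [hz, key.self_of_nhds])
  have hconst : ∀ (f : {f : ℝ → X // IsOpenEmbedding f}) (s t : ℝ),
      d (f.1 s) - c f (f.1 s) = d (f.1 t) - c f (f.1 t) := by
    intro f
    have h1 : IsLocallyConstant (fun s : ℝ => d (f.1 s) - c f (f.1 s)) := by
      rw [IsLocallyConstant.iff_eventually_eq]
      intro t
      exact f.2.continuous.continuousAt.eventually (hd f (f.1 t) (mem_range_self t))
    intro s t
    exact h1.apply_eq_of_preconnectedSpace s t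
  set R : X → Set X := fun x => if d x = 0 then R0 x else L0 x with hR
  set L : X → Set X := fun x => if d x = 0 then L0 x else R0 x with hL
  have hd01 : ∀ x, d x = 0 ∨ d x = 1 := by
    intro x
    generalize d x = w
    revert w
    decide
  have hLR : ∀ x, (L x = L0 x ∧ R x = R0 x) ∨ (L x = R0 x ∧ R x = L0 x) := by
    intro x
    by_cases h : d x = 0
    · left
      simp only [hL, hR, if_pos h, and_self]
    · right
      simp only [hL, hR, if_neg h, and_self]
  have hopen0 : ∀ x, IsOpen (L0 x) ∧ IsOpen (R0 x) := by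
    intro x
    exact ⟨(hX.isOpen_compl _).connectedComponentIn, (hX.isOpen_compl _).connectedComponentIn⟩
  have hunion0 : ∀ x, L0 x ∪ R0 x = {x}ᶜ := by
    intro x
    have := union_eq hX (he x) 0
    rwa [he0] at this
  have hins0 : ∀ x, IsPreconnected (insert x (L0 x)) ∧ IsPreconnected (insert x (R0 x)) := by
    intro x
    have h1 := insert_conn hX (e x 0) (e x (0 - 1)) (ne_pred (he x) 0)
    have h2 := insert_conn hX (e x 0) (e x (0 + 1)) (ne_succ (he x) 0)
    rw [he0] at h1 h2
    refine ⟨?_, ?_⟩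
    · simp only [hL0, Lt]
      rw [he0]
      exact h1
    · simp only [hR0, Rt]
      rw [he0]
      exact h2
  have hpre0 : ∀ x, IsPreconnected (L0 x) ∧ IsPreconnected (R0 x) :=
    fun x => ⟨isPreconnected_connectedComponentIn, isPreconnected_connectedComponentIn⟩
  have hchart : ∀ f : {f : ℝ → X // IsOpenEmbedding f}, d (f.1 0) = c f (f.1 0) →
      ∀ s t, s < t → f.1 s ∈ L (f.1 t) ∧ f.1 t ∈ R (f.1 s) := by
    intro f h0
    have h1 : ∀ t, d (f.1 t) = c f (f.1 t) := by
      intro t
      have h2 := hconst f t 0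
      rw [h0, sub_self] at h2
      exact sub_eq_zero.mp h2
    have h2 : ∀ t, L (f.1 t) = Lt f.1 t ∧ R (f.1 t) = Rt f.1 t := by
      intro t
      rcases hdich f.1 f.2 t with ⟨h3, h4⟩ | ⟨h3, h4⟩
      · have h5 : d (f.1 t) = 0 := by rw [h1, hc0 f t h3]
        simp only [hL, hR, if_pos h5]
        exact ⟨h4.symm, h3.symm⟩
      · have h5 : d (f.1 t) ≠ 0 := by
          rw [h1, hc1 f t h3]
          decide
        simp only [hL, hR, if_neg h5]
        exact ⟨h4.symm, h3.symm⟩
    intro s t hst
    rw [(h2 t).1, (h2 s).2]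
    exact ⟨mem_Lt f.2 hst, mem_Rt f.2 hst⟩
  refine ⟨L, R, ⟨?_, ?_, ?_, ?_, ?_, ?_, ?_⟩, ?_, ?_⟩
  · intro x
    rcases hLR x with ⟨h1, _⟩ | ⟨h1, _⟩
    · rw [h1]; exact (hopen0 x).1
    · rw [h1]; exact (hopen0 x).2
  · intro x
    rcases hLR x with ⟨_, h1⟩ | ⟨_, h1⟩
    · rw [h1]; exact (hopen0 x).2
    · rw [h1]; exact (hopen0 x).1
  · intro x
    rcases hLR x with ⟨h1, h2⟩ | ⟨h1, h2⟩
    · rw [h1, h2]; exact hdisj0 x
    · rw [h1, h2]; exact (hdisj0 x).symm
  · intro x
    rcases hLR x with ⟨h1, h2⟩ | ⟨h1, h2⟩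
    · rw [h1, h2]; exact hunion0 x
    · rw [h1, h2, union_comm]; exact hunion0 x
  · intro x
    rcases hLR x with ⟨h1, _⟩ | ⟨h1, _⟩
    · rw [h1]; exact (hins0 x).1
    · rw [h1]; exact (hins0 x).2
  · intro x
    rcases hLR x with ⟨_, h1⟩ | ⟨_, h1⟩
    · rw [h1]; exact (hins0 x).2
    · rw [h1]; exact (hins0 x).1
  · intro x
    have hex : Rt (e x) 0 = R0 (e x 0) := by
      simp only [hR0]
      rw [he0]
    rcases hd01 x with h | h
    · refine ⟨e x, he x, he0 x, ?_⟩
      refine hchart ⟨e x, he x⟩ ?_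
      have h1 := hc0 ⟨e x, he x⟩ 0 hex
      simp only at h1 ⊢
      rw [h1, he0, h]
    · have hneg : IsOpenEmbedding (fun s : ℝ => e x (-s)) :=
        (he x).comp (Homeomorph.neg ℝ).isOpenEmbedding
      refine ⟨fun s => e x (-s), hneg, by simp [he0], ?_⟩
      refine hchart ⟨fun s => e x (-s), hneg⟩ ?_
      have h2 : Rt (fun s => e x (-s)) 0 = L0 (e x (-0)) := by
        simp only [hL0, Rt, Lt]
        rw [neg_zero, he0, he0]
        congr 2
        norm_num
      have h1 := hc1 ⟨fun s => e x (-s), hneg⟩ 0 h2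
      simp only at h1 ⊢
      rw [h1, neg_zero, he0, h]
  · intro x
    rcases hLR x with ⟨h1, _⟩ | ⟨h1, _⟩
    · rw [h1]; exact (hpre0 x).1
    · rw [h1]; exact (hpre0 x).2
  · intro x
    rcases hLR x with ⟨_, h1⟩ | ⟨_, h1⟩
    · rw [h1]; exact (hpre0 x).2
    · rw [h1]; exact (hpre0 x).1

end Pool.Agent.Helper921_LeafSpaces
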