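import Mathlib

set_option autoImplicit false
set_option linter.unusedSectionVars false

namespace Pool.Agent.Helper921_LeafSpaces

open Set Topology Filter

namespace PathAux

variable {K : Type*} [LinearOrder K]

/-- the distances that bound the displacement of the point `k` -/
def D (t u : K → ℝ) (B : ℝ) (P : K → Prop) (k : K) : Set ℝ :=
  {d | d = t k ∨ d = B - u k ∨ (∃ k' < k, ¬ P k' ∧ d = t k - t k') ∨
    ∃ k', k < k' ∧ ¬ P k' ∧ d = u k' - u k}

noncomputable def e (t u : K → ℝ) (B : ℝ) (P : K → Prop) (k : K) : ℝ := sInf (D t u B P k)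

section

variable {t u : K → ℝ} {B : ℝ} {P : K → Prop} (ht : Monotone t) (hu : Monotone u)
  (ht0 : ∀ k, 0 ≤ t k) (huB : ∀ k, u k ≤ B)

include ht hu ht0 huB

theorem D_nonneg {k : K} {d : ℝ} (hd : d ∈ D t u B P k) : 0 ≤ d := by
  rcases hd with rfl | rfl | ⟨k', hk, -, rfl⟩ | ⟨k', hk, -, rfl⟩
  · exact ht0 k
  · linarith [huB k]
  · linarith [ht hk.le]
  · linarith [hu hk.le]

theorem e_le {k : K} {d : ℝ} (hd : d ∈ D t u B P k) : e t u B P k ≤ d :=
  csInf_le ⟨0, fun _ h => D_nonneg ht hu ht0 huB h⟩ hd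

omit ht hu ht0 huB in
theorem le_e {k : K} {x : ℝ} (h : ∀ d ∈ D t u B P k, x ≤ d) : x ≤ e t u B P k :=
  le_csInf ⟨t k, Or.inl rfl⟩ h

theorem e_le_t (k : K) : e t u B P k ≤ t k := e_le ht hu ht0 huB (Or.inl rfl)

theorem e_le_u (k : K) : e t u B P k ≤ B - u k := e_le ht hu ht0 huB (Or.inr (Or.inl rfl))

theorem e_le_lt {k k' : K} (h : k' < k) (h' : ¬ P k') : e t u B P k ≤ t k - t k' :=
  e_le ht hu ht0 huB (Or.inr (Or.inr (Or.inl ⟨k', h, h', rfl⟩)))

theorem e_le_gt {k k' : K} (h : k < k') (h' : ¬ P k') : e t u B P k ≤ u k' - u k :=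
  e_le ht hu ht0 huB (Or.inr (Or.inr (Or.inr ⟨k', h, h', rfl⟩)))

omit ht hu ht0 huB in
theorem e_pos {k : K} (h : ∃ ε > 0, (∀ k' < k, ¬ P k' → t k' + ε ≤ t k) ∧
      (∀ k', k < k' → ¬ P k' → u k + ε ≤ u k') ∧ ε ≤ t k ∧ u k + ε ≤ B) :
    0 < e t u B P k := by
  obtain ⟨ε, hε, h1, h2, h3, h4⟩ := h
  refine lt_of_lt_of_le hε (le_e ?_)
  rintro d (rfl | rfl | ⟨k', hk, hn, rfl⟩ | ⟨k', hk, hn, rfl⟩)
  · exact h3
  · linarith
  · linarith [h1 k' hk hn]
  · linarith [h2 k' hk hn]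

/-- two points of the same kind -/
theorem e_same {k k' : K} (hk : P k) (hk' : P k') (h : k ≤ k') :
    e t u B P k' ≤ e t u B P k + (t k' - t k) ∧ e t u B P k ≤ e t u B P k' + (u k' - u k) := by
  have hΔt : t k ≤ t k' := ht h
  have hΔu : u k ≤ u k' := hu h
  constructor
  · have h1 : e t u B P k' - (t k' - t k) ≤ e t u B P k := by
      refine le_e ?_
      rintro d (rfl | rfl | ⟨l, hl, hn, rfl⟩ | ⟨l, hl, hn, rfl⟩)
      · linarith [e_le_t (P := P) ht hu ht0 huB k']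
      · linarith [e_le_u (P := P) ht hu ht0 huB k']
      · linarith [e_le_lt ht hu ht0 huB (lt_of_lt_of_le hl h) hn]
      · rcases lt_trichotomy l k' with h2 | h2 | h2
        · have h3 := e_le_lt ht hu ht0 huB h2 hn
          have h4 := ht hl.le
          have h5 := hu hl.le
          linarith
        · exact absurd (h2 ▸ hk') hn
        · linarith [e_le_gt ht hu ht0 huB h2 hn]
    linarith
  · have h1 : e t u B P k - (u k' - u k) ≤ e t u B P k' := by
      refine le_e ?_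
      rintro d (rfl | rfl | ⟨l, hl, hn, rfl⟩ | ⟨l, hl, hn, rfl⟩)
      · linarith [e_le_t (P := P) ht hu ht0 huB k]
      · linarith [e_le_u (P := P) ht hu ht0 huB k]
      · rcases lt_trichotomy l k with h2 | h2 | h2
        · linarith [e_le_lt ht hu ht0 huB h2 hn]
        · exact absurd (h2 ▸ hk) hn
        · have h3 := e_le_gt ht hu ht0 huB h2 hn
          have h4 := ht hl.le
          have h5 := hu hl.le
          linarith
      · linarith [e_le_gt ht hu ht0 huB (lt_of_le_of_lt h hl) hn]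
    linarith

/-- lower bound near the lower end -/
theorem e_lower {k k₁ : K} {c : ℝ} (h : k ≤ k₁) (hP : ∀ l ≤ k₁, P l) (hc : c ≤ t k) :
    min c (e t u B P k₁) ≤ e t u B P k := by
  refine le_e ?_
  rintro d (rfl | rfl | ⟨l, hl, hn, rfl⟩ | ⟨l, hl, hn, rfl⟩)
  · exact (min_le_left _ _).trans hc
  · refine (min_le_right _ _).trans ?_
    linarith [e_le_u (P := P) ht hu ht0 huB k₁, hu h]
  · exact absurd (hP l (hl.le.trans h)) hn
  · have h1 : k₁ < l := by
      by_contra h2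
      exact hn (hP l (not_lt.mp h2))
    refine (min_le_right _ _).trans ?_
    linarith [e_le_gt ht hu ht0 huB h1 hn, hu h]

/-- lower bound near the upper end -/
theorem e_upper {k k₁ : K} {c : ℝ} (h : k₁ ≤ k) (hP : ∀ l, k₁ ≤ l → P l) (hc : u k + c ≤ B) :
    min c (e t u B P k₁) ≤ e t u B P k := by
  refine le_e ?_
  rintro d (rfl | rfl | ⟨l, hl, hn, rfl⟩ | ⟨l, hl, hn, rfl⟩)
  · refine (min_le_right _ _).trans ?_
    linarith [e_le_t (P := P) ht hu ht0 huB k₁, ht h]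
  · exact (min_le_left _ _).trans (by linarith)
  · have h1 : l < k₁ := by
      by_contra h2
      exact hn (hP l (not_lt.mp h2))
    refine (min_le_right _ _).trans ?_
    linarith [e_le_lt ht hu ht0 huB h1 hn, ht h]
  · exact absurd (hP l (h.trans hl.le)) hn

end

/-- a path through a chain of points -/
theorem exists_chain_path (Γ : Set (ℝ × ℝ)) (hΓ : ∀ p ∈ Γ, ∀ q ∈ Γ, p ≤ q ∨ q ≤ p) :
    ∃ T U : ℝ → ℝ, Continuous T ∧ Continuous U ∧ Monotone T ∧ Monotone U ∧
      ∀ p ∈ Γ, T (p.1 + p.2) = p.1 ∧ U (p.1 + p.2) = p.2 := by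
  classical
  set S : Set ℝ := (fun p : ℝ × ℝ => p.1 + p.2) '' Γ with hS
  have hex : ∀ s : ℝ, ∃ r : ℝ, s ∈ S → ∃ p ∈ Γ, p.1 + p.2 = s ∧ p.2 - p.1 = r := by
    intro s
    by_cases h : s ∈ S
    · obtain ⟨p, hp, h1⟩ := h
      exact ⟨p.2 - p.1, fun _ => ⟨p, hp, h1, rfl⟩⟩
    · exact ⟨0, fun h' => absurd h' h⟩
  choose f hf using hex
  have key : ∀ p ∈ Γ, ∀ q ∈ Γ, |(p.2 - p.1) - (q.2 - q.1)| ≤ |(p.1 + p.2) - (q.1 + q.2)| := by
    intro p hp q hq
    rcases hΓ p hp q hq with h | h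
    · have h1 := h.1
      have h2 := h.2
      rw [abs_of_nonpos (by linarith : (p.1 + p.2) - (q.1 + q.2) ≤ 0), abs_le]
      constructor <;> linarith
    · have h1 := h.1
      have h2 := h.2
      rw [abs_of_nonneg (by linarith : 0 ≤ (p.1 + p.2) - (q.1 + q.2)), abs_le]
      constructor <;> linarith
  have hfl : LipschitzOnWith 1 f S := by
    refine LipschitzOnWith.of_dist_le_mul ?_
    intro x hx y hy
    obtain ⟨p, hp, h1, h2⟩ := hf x hx
    obtain ⟨q, hq, h3, h4⟩ := hf y hy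
    rw [Real.dist_eq, Real.dist_eq, ← h2, ← h4, ← h1, ← h3]
    simpa using key p hp q hq
  obtain ⟨g, hg, hgf⟩ := hfl.extend_real
  have hg1 : ∀ x y, |g x - g y| ≤ |x - y| := by
    intro x y
    have := hg.dist_le_mul x y
    rwa [Real.dist_eq, Real.dist_eq, NNReal.coe_one, one_mul] at this
  have hgp : ∀ p ∈ Γ, g (p.1 + p.2) = p.2 - p.1 := by
    intro p hp
    have hs : p.1 + p.2 ∈ S := ⟨p, hp, rfl⟩
    rw [← hgf hs]
    obtain ⟨q, hq, h1, h2⟩ := hf _ hs
    rw [← h2]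
    have h3 := key p hp q hq
    rw [h1, sub_self, abs_zero] at h3
    have h4 := abs_nonpos_iff.mp h3
    linarith
  refine ⟨fun s => (s - g s) / 2, fun s => (s + g s) / 2, ?_, ?_, ?_, ?_, ?_⟩
  · exact (continuous_id.sub hg.continuous).div_const 2
  · exact (continuous_id.add hg.continuous).div_const 2
  · intro x y hxy
    have h1 := hg1 x y
    rw [abs_of_nonpos (by linarith : x - y ≤ 0), abs_le] at h1
    show (x - g x) / 2 ≤ (y - g y) / 2
    linarith [h1.1]
  · intro x y hxy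
    have h1 := hg1 x y
    rw [abs_of_nonpos (by linarith : x - y ≤ 0), abs_le] at h1
    show (x + g x) / 2 ≤ (y + g y) / 2
    linarith [h1.2]
  · intro p hp
    have h1 := hgp p hp
    constructor
    · show (p.1 + p.2 - g (p.1 + p.2)) / 2 = p.1
      rw [h1]; ring
    · show (p.1 + p.2 + g (p.1 + p.2)) / 2 = p.2
      rw [h1]; ring

/-- the path, once the points are given -/
theorem path_of_points (T₀ U₀ : K → ℝ) {A B : ℝ} (hA : 0 < A) (hB : 0 < B)
    (hT : Monotone T₀) (hU : Monotone U₀) (hin : ∀ k, T₀ k ∈ Ioo 0 A ∧ U₀ k ∈ Ioo 0 B)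
    (h3 : (∃ c > 0, ∀ k, c ≤ T₀ k ∧ c ≤ U₀ k) ∨ ∀ ε > 0, ∃ k, T₀ k + U₀ k < ε)
    (h4 : (∃ c > 0, ∀ k, T₀ k ≤ A - c ∧ U₀ k ≤ B - c) ∨
      ∀ ε > 0, ∃ k, A + B - (T₀ k + U₀ k) < ε) :
    ∃ (T U : ℝ → ℝ), Continuous T ∧ Continuous U ∧ Monotone T ∧ Monotone U ∧
      (∀ s ∈ Ioo 0 (A + B), T s ∈ Ioo 0 A ∧ U s ∈ Ioo 0 B) ∧
      (∀ y ∈ Ioo 0 A, ∃ s ∈ Ioo 0 (A + B), T s = y) ∧
      (∀ y ∈ Ioo 0 B, ∃ s ∈ Ioo 0 (A + B), U s = y) ∧
      (∀ k, ∃ s ∈ Ioo 0 (A + B), T s = T₀ k ∧ U s = U₀ k) := by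
  have hm : 0 < min A B / 2 := by
    have := lt_min hA hB
    linarith
  have hmA : min A B ≤ A := min_le_left _ _
  have hmB : min A B ≤ B := min_le_right _ _
  obtain ⟨c1, hc1, hc1m, hc1k, hc1'⟩ : ∃ c1 : ℝ, 0 ≤ c1 ∧ c1 ≤ min A B / 2 ∧
      (∀ k, c1 ≤ T₀ k ∧ c1 ≤ U₀ k) ∧ (0 < c1 ∨ ∀ ε > 0, ∃ k, T₀ k + U₀ k < ε) := by
    rcases h3 with ⟨c, hc, h⟩ | h
    · exact ⟨min c (min A B / 2), (lt_min hc hm).le, min_le_right _ _,
        fun k => ⟨(min_le_left _ _).trans (h k).1, (min_le_left _ _).trans (h k).2⟩,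
        Or.inl (lt_min hc hm)⟩
    · exact ⟨0, le_rfl, hm.le, fun k => ⟨(hin k).1.1.le, (hin k).2.1.le⟩, Or.inr h⟩
  obtain ⟨c2, hc2, hc2m, hc2k, hc2'⟩ : ∃ c2 : ℝ, 0 ≤ c2 ∧ c2 ≤ min A B / 2 ∧
      (∀ k, T₀ k ≤ A - c2 ∧ U₀ k ≤ B - c2) ∧
      (0 < c2 ∨ ∀ ε > 0, ∃ k, A + B - (T₀ k + U₀ k) < ε) := by
    rcases h4 with ⟨c, hc, h⟩ | h
    · refine ⟨min c (min A B / 2), (lt_min hc hm).le, min_le_right _ _,
        fun k => ?_, Or.inl (lt_min hc hm)⟩
      have h5 := min_le_left c (min A B / 2)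
      exact ⟨by linarith [(h k).1], by linarith [(h k).2]⟩
    · exact ⟨0, le_rfl, hm.le, fun k => ⟨by linarith [(hin k).1.2], by linarith [(hin k).2.2]⟩,
        Or.inr h⟩
  set Γ : Set (ℝ × ℝ) := {p | (∃ k, p = (T₀ k, U₀ k)) ∨ (∃ x, 0 ≤ x ∧ x ≤ c1 ∧ p = (x, x)) ∨
    ∃ x, 0 ≤ x ∧ x ≤ c2 ∧ p = (A - x, B - x)} with hΓ
  have hchain : ∀ p ∈ Γ, ∀ q ∈ Γ, p ≤ q ∨ q ≤ p := by
    rintro p (⟨k, rfl⟩ | ⟨x, hx0, hx1, rfl⟩ | ⟨x, hx0, hx1, rfl⟩) q
      (⟨l, rfl⟩ | ⟨y, hy0, hy1, rfl⟩ | ⟨y, hy0, hy1, rfl⟩)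
    · rcases le_total k l with h | h
      · exact Or.inl ⟨hT h, hU h⟩
      · exact Or.inr ⟨hT h, hU h⟩
    · exact Or.inr ⟨hy1.trans (hc1k k).1, hy1.trans (hc1k k).2⟩
    · refine Or.inl ⟨?_, ?_⟩
      · show T₀ k ≤ A - y
        linarith [(hc2k k).1]
      · show U₀ k ≤ B - y
        linarith [(hc2k k).2]
    · exact Or.inl ⟨hx1.trans (hc1k l).1, hx1.trans (hc1k l).2⟩
    · rcases le_total x y with h | h
      · exact Or.inl ⟨h, h⟩
      · exact Or.inr ⟨h, h⟩
    · refine Or.inl ⟨?_, ?_⟩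
      · show x ≤ A - y
        linarith
      · show x ≤ B - y
        linarith
    · refine Or.inr ⟨?_, ?_⟩
      · show T₀ l ≤ A - x
        linarith [(hc2k l).1]
      · show U₀ l ≤ B - x
        linarith [(hc2k l).2]
    · refine Or.inr ⟨?_, ?_⟩
      · show y ≤ A - x
        linarith
      · show y ≤ B - x
        linarith
    · rcases le_total x y with h | h
      · refine Or.inr ⟨?_, ?_⟩
        · show A - y ≤ A - x
          linarith
        · show B - y ≤ B - x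
          linarith
      · refine Or.inl ⟨?_, ?_⟩
        · show A - x ≤ A - y
          linarith
        · show B - x ≤ B - y
          linarith
  obtain ⟨T, U, hTc, hUc, hTm, hUm, hTU⟩ := exists_chain_path Γ hchain
  have hk : ∀ k, T (T₀ k + U₀ k) = T₀ k ∧ U (T₀ k + U₀ k) = U₀ k := fun k =>
    hTU (T₀ k, U₀ k) (Or.inl ⟨k, rfl⟩)
  have hlow : ∀ x, 0 ≤ x → x ≤ c1 → T (x + x) = x ∧ U (x + x) = x := fun x h h' =>
    hTU (x, x) (Or.inr (Or.inl ⟨x, h, h', rfl⟩))
  have hupp : ∀ x, 0 ≤ x → x ≤ c2 → T (A - x + (B - x)) = A - x ∧ U (A - x + (B - x)) = B - x :=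
    fun x h h' => hTU (A - x, B - x) (Or.inr (Or.inr ⟨x, h, h', rfl⟩))
  have hT0 : T 0 = 0 := by simpa using (hlow 0 le_rfl hc1).1
  have hU0 : U 0 = 0 := by simpa using (hlow 0 le_rfl hc1).2
  have hTA : T (A + B) = A := by simpa using (hupp 0 le_rfl hc2).1
  have hUB : U (A + B) = B := by simpa using (hupp 0 le_rfl hc2).2
  refine ⟨T, U, hTc, hUc, hTm, hUm, ?_, ?_, ?_, ?_⟩
  · rintro s ⟨hs0, hs1⟩
    have h1 : 0 < T s ∧ 0 < U s := by
      rcases hc1' with h | h
      · set x := min (s / 2) c1 with hx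
        have hx0 : 0 < x := lt_min (by linarith) h
        have hxs : x + x ≤ s := by
          have := min_le_left (s / 2) c1
          linarith
        obtain ⟨h5, h6⟩ := hlow x hx0.le (min_le_right _ _)
        exact ⟨by have := hTm hxs; linarith, by have := hUm hxs; linarith⟩
      · obtain ⟨k, h5⟩ := h s hs0
        obtain ⟨h6, h7⟩ := hk k
        exact ⟨by have := hTm h5.le; linarith [(hin k).1.1],
          by have := hUm h5.le; linarith [(hin k).2.1]⟩
    have h2 : T s < A ∧ U s < B := by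
      rcases hc2' with h | h
      · set x := min ((A + B - s) / 2) c2 with hx
        have hx0 : 0 < x := lt_min (by linarith) h
        have hxs : s ≤ A - x + (B - x) := by
          have := min_le_left ((A + B - s) / 2) c2
          linarith
        obtain ⟨h5, h6⟩ := hupp x hx0.le (min_le_right _ _)
        exact ⟨by have := hTm hxs; linarith, by have := hUm hxs; linarith⟩
      · obtain ⟨k, h5⟩ := h (A + B - s) (by linarith)
        obtain ⟨h6, h7⟩ := hk k
        have h8 : s ≤ T₀ k + U₀ k := by linarith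
        exact ⟨by have := hTm h8; linarith [(hin k).1.2],
          by have := hUm h8; linarith [(hin k).2.2]⟩
    exact ⟨⟨h1.1, h2.1⟩, ⟨h1.2, h2.2⟩⟩
  · rintro y ⟨hy0, hy1⟩
    have hAB : (0 : ℝ) ≤ A + B := by linarith
    obtain ⟨s, hs, hsy⟩ := intermediate_value_Icc hAB hTc.continuousOn
      (show y ∈ Icc (T 0) (T (A + B)) by rw [hT0, hTA]; exact ⟨hy0.le, hy1.le⟩)
    refine ⟨s, ⟨lt_of_le_of_ne hs.1 ?_, lt_of_le_of_ne hs.2 ?_⟩, hsy⟩
    · rintro rfl
      linarith
    · rintro rfl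
      linarith
  · rintro y ⟨hy0, hy1⟩
    have hAB : (0 : ℝ) ≤ A + B := by linarith
    obtain ⟨s, hs, hsy⟩ := intermediate_value_Icc hAB hUc.continuousOn
      (show y ∈ Icc (U 0) (U (A + B)) by rw [hU0, hUB]; exact ⟨hy0.le, hy1.le⟩)
    refine ⟨s, ⟨lt_of_le_of_ne hs.1 ?_, lt_of_le_of_ne hs.2 ?_⟩, hsy⟩
    · rintro rfl
      linarith
    · rintro rfl
      linarith
  · intro k
    obtain ⟨⟨h5, h6⟩, ⟨h7, h8⟩⟩ := hin k
    exact ⟨T₀ k + U₀ k, ⟨by linarith, by linarith⟩, hk k⟩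

end PathAux

open PathAux in
theorem exists_path {K : Type*} [LinearOrder K] (t u : K → ℝ) (A B : ℝ) (hA : 0 < A) (hB : 0 < B)
    (pos : K → Prop) (ht : Monotone t) (hu : Monotone u)
    (ht0 : ∀ k, 0 ≤ t k) (htA : ∀ k, t k ≤ A) (hu0 : ∀ k, 0 ≤ u k) (huB : ∀ k, u k ≤ B)
    (h2 : ∀ k, pos k → ∃ ε > 0, (∀ k' < k, ¬ pos k' → t k' + ε ≤ t k) ∧
      (∀ k', k < k' → ¬ pos k' → u k + ε ≤ u k') ∧ ε ≤ t k ∧ u k + ε ≤ B)
    (h2' : ∀ k, ¬ pos k → ∃ ε > 0, (∀ k' < k, pos k' → u k' + ε ≤ u k) ∧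
      (∀ k', k < k' → pos k' → t k + ε ≤ t k') ∧ ε ≤ u k ∧ t k + ε ≤ A)
    (h3 : IsEmpty K ∨ (∀ ε > 0, ∃ k, t k + u k < ε) ∨
      ∃ k₁, ∃ c > 0, (∀ k ≤ k₁, pos k ↔ pos k₁) ∧ (pos k₁ → ∀ k, c ≤ t k) ∧
        (¬ pos k₁ → ∀ k, c ≤ u k))
    (h4 : IsEmpty K ∨ (∀ ε > 0, ∃ k, A + B - (t k + u k) < ε) ∨
      ∃ k₁, ∃ c > 0, (∀ k, k₁ ≤ k → (pos k ↔ pos k₁)) ∧ (pos k₁ → ∀ k, u k + c ≤ B) ∧
        (¬ pos k₁ → ∀ k, t k + c ≤ A)) :
    ∃ (a b : ℝ) (T U : ℝ → ℝ), a < b ∧ Continuous T ∧ Continuous U ∧ Monotone T ∧ Monotone U ∧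
      (∀ s ∈ Ioo a b, T s ∈ Ioo 0 A ∧ U s ∈ Ioo 0 B) ∧
      (∀ y ∈ Ioo 0 A, ∃ s ∈ Ioo a b, T s = y) ∧ (∀ y ∈ Ioo 0 B, ∃ s ∈ Ioo a b, U s = y) ∧
      (∀ k, pos k → ∃ s ∈ Ioo a b, T s < t k ∧ u k < U s) ∧
      (∀ k, ¬ pos k → ∃ s ∈ Ioo a b, t k < T s ∧ U s < u k) := by
  classical
  set P : K → Prop := pos with hP
  set N : K → Prop := fun k => ¬ pos k with hN
  have hNN : ∀ k, ¬ N k ↔ pos k := fun k => not_not
  set ep : K → ℝ := e t u B P with hep
  set en : K → ℝ := e u t A N with hen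
  have hep0 : ∀ k, pos k → 0 < ep k := fun k hk => e_pos (h2 k hk)
  have hen0 : ∀ k, ¬ pos k → 0 < en k := by
    intro k hk
    obtain ⟨ε, hε, h5, h6, h7, h8⟩ := h2' k hk
    exact e_pos ⟨ε, hε, fun k' h h' => h5 k' h ((hNN k').1 h'),
      fun k' h h' => h6 k' h ((hNN k').1 h'), h7, h8⟩
  set δ : K → ℝ := fun k => if pos k then ep k else -en k with hδ
  have hδp : ∀ k, pos k → δ k = ep k := fun k hk => if_pos hk
  have hδn : ∀ k, ¬ pos k → δ k = -en k := fun k hk => if_neg hk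
  -- the displacement is monotone
  have hstep : ∀ k k', k ≤ k' → -(2 * (u k' - u k)) ≤ δ k' - δ k ∧
      δ k' - δ k ≤ 2 * (t k' - t k) := by
    intro k k' h
    have hΔt : t k ≤ t k' := ht h
    have hΔu : u k ≤ u k' := hu h
    by_cases hk : pos k <;> by_cases hk' : pos k'
    · rw [hδp k hk, hδp k' hk']
      obtain ⟨h5, h6⟩ := e_same (P := P) ht hu ht0 huB hk hk' h
      constructor <;> linarith
    · rw [hδp k hk, hδn k' hk']
      have hlt : k < k' := lt_of_le_of_ne h fun h' => hk' (h' ▸ hk)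
      have h5 := e_le_gt (P := P) ht hu ht0 huB hlt hk'
      have h6 := e_le_lt (P := N) hu ht hu0 htA hlt ((hNN k).2 hk)
      have h7 := hep0 k hk
      have h8 := hen0 k' hk'
      constructor <;> linarith
    · rw [hδn k hk, hδp k' hk']
      have hlt : k < k' := lt_of_le_of_ne h fun h' => hk (h' ▸ hk')
      have h5 := e_le_lt (P := P) ht hu ht0 huB hlt hk
      have h6 := e_le_gt (P := N) hu ht hu0 htA hlt ((hNN k').2 hk')
      have h7 := hep0 k' hk'
      have h8 := hen0 k hk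
      constructor <;> linarith
    · rw [hδn k hk, hδn k' hk']
      obtain ⟨h5, h6⟩ := e_same (P := N) hu ht hu0 htA hk hk' h
      constructor <;> linarith
  set T₀ : K → ℝ := fun k => t k - δ k / 2 with hT₀
  set U₀ : K → ℝ := fun k => u k + δ k / 2 with hU₀
  have hTm : Monotone T₀ := by
    intro k k' h
    have := (hstep k k' h).2
    show t k - δ k / 2 ≤ t k' - δ k' / 2
    linarith
  have hUm : Monotone U₀ := by
    intro k k' h
    have := (hstep k k' h).1
    show u k + δ k / 2 ≤ u k' + δ k' / 2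
    linarith
  have hTp : ∀ k, pos k → T₀ k = t k - ep k / 2 := fun k hk => by simp only [hT₀, hδp k hk]
  have hTn : ∀ k, ¬ pos k → T₀ k = t k + en k / 2 := fun k hk => by
    simp only [hT₀, hδn k hk]; ring
  have hUp : ∀ k, pos k → U₀ k = u k + ep k / 2 := fun k hk => by simp only [hU₀, hδp k hk]
  have hUn : ∀ k, ¬ pos k → U₀ k = u k - en k / 2 := fun k hk => by
    simp only [hU₀, hδn k hk]; ring
  have hpt : ∀ k, ep k ≤ t k := fun k => e_le_t (P := P) ht hu ht0 huB k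
  have hpu : ∀ k, ep k ≤ B - u k := fun k => e_le_u (P := P) ht hu ht0 huB k
  have hnu : ∀ k, en k ≤ u k := fun k => e_le_t (P := N) hu ht hu0 htA k
  have hnt : ∀ k, en k ≤ A - t k := fun k => e_le_u (P := N) hu ht hu0 htA k
  have hin : ∀ k, T₀ k ∈ Ioo 0 A ∧ U₀ k ∈ Ioo 0 B := by
    intro k
    by_cases hk : pos k
    · rw [hTp k hk, hUp k hk]
      have h5 := hep0 k hk
      have h6 := hpt k
      have h7 := hpu k
      have h8 := htA k
      have h9 := hu0 k
      exact ⟨⟨by linarith, by linarith⟩, ⟨by linarith, by linarith⟩⟩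
    · rw [hTn k hk, hUn k hk]
      have h5 := hen0 k hk
      have h6 := hnt k
      have h7 := hnu k
      have h8 := huB k
      have h9 := ht0 k
      exact ⟨⟨by linarith, by linarith⟩, ⟨by linarith, by linarith⟩⟩
  have hsum : ∀ k, T₀ k + U₀ k = t k + u k := fun k => by simp only [hT₀, hU₀]; ring
  have h3' : (∃ c > 0, ∀ k, c ≤ T₀ k ∧ c ≤ U₀ k) ∨ ∀ ε > 0, ∃ k, T₀ k + U₀ k < ε := by
    rcases h3 with h | h | ⟨k₁, c, hc, h5, h6, h7⟩
    · exact Or.inl ⟨1, one_pos, fun k => h.elim k⟩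
    · right
      intro ε hε
      obtain ⟨k, hk⟩ := h ε hε
      exact ⟨k, by rw [hsum]; exact hk⟩
    · left
      by_cases hk₁ : pos k₁
      · have h8 := h6 hk₁
        have h9 := hep0 k₁ hk₁
        refine ⟨min (c / 2) (min (U₀ k₁) (min c (ep k₁) / 2)), ?_, fun k => ⟨?_, ?_⟩⟩
        · have h10 := (hin k₁).2.1
          have h11 : 0 < min c (ep k₁) := lt_min hc h9
          exact lt_min (by linarith) (lt_min h10 (by linarith))
        · refine (min_le_left _ _).trans ?_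
          by_cases hk : pos k
          · rw [hTp k hk]
            linarith [hpt k, h8 k]
          · rw [hTn k hk]
            linarith [hen0 k hk, h8 k]
        · refine (min_le_right _ _).trans ?_
          rcases le_total k k₁ with hkk | hkk
          · refine (min_le_right _ _).trans ?_
            have hk : pos k := (h5 k hkk).2 hk₁
            have h10 := e_lower (P := P) (c := c) ht hu ht0 huB hkk
              (fun l hl => (h5 l hl).2 hk₁) (h8 k)
            rw [hUp k hk]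
            have h11 := hu0 k
            have h12 : min c (ep k₁) ≤ ep k := h10
            linarith
          · exact (min_le_left _ _).trans (hUm hkk)
      · have h8 := h7 hk₁
        have h9 := hen0 k₁ hk₁
        refine ⟨min (c / 2) (min (T₀ k₁) (min c (en k₁) / 2)), ?_, fun k => ⟨?_, ?_⟩⟩
        · have h10 := (hin k₁).1.1
          have h11 : 0 < min c (en k₁) := lt_min hc h9
          exact lt_min (by linarith) (lt_min h10 (by linarith))
        · refine (min_le_right _ _).trans ?_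
          rcases le_total k k₁ with hkk | hkk
          · refine (min_le_right _ _).trans ?_
            have hk : ¬ pos k := fun h => hk₁ ((h5 k hkk).1 h)
            have h10 := e_lower (P := N) (c := c) hu ht hu0 htA hkk
              (fun l hl => fun h => hk₁ ((h5 l hl).1 h)) (h8 k)
            rw [hTn k hk]
            have h11 := ht0 k
            have h12 : min c (en k₁) ≤ en k := h10
            linarith
          · exact (min_le_left _ _).trans (hTm hkk)
        · refine (min_le_left _ _).trans ?_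
          by_cases hk : pos k
          · rw [hUp k hk]
            linarith [hep0 k hk, h8 k]
          · rw [hUn k hk]
            linarith [hnu k, h8 k]
  have h4' : (∃ c > 0, ∀ k, T₀ k ≤ A - c ∧ U₀ k ≤ B - c) ∨
      ∀ ε > 0, ∃ k, A + B - (T₀ k + U₀ k) < ε := by
    rcases h4 with h | h | ⟨k₁, c, hc, h5, h6, h7⟩
    · exact Or.inl ⟨1, one_pos, fun k => h.elim k⟩
    · right
      intro ε hε
      obtain ⟨k, hk⟩ := h ε hε
      exact ⟨k, by rw [hsum]; exact hk⟩
    · left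
      by_cases hk₁ : pos k₁
      · have h8 := h6 hk₁
        have h9 := hep0 k₁ hk₁
        have h13 := min_le_left (c / 2) (min (A - T₀ k₁) (min c (ep k₁) / 2))
        have h14 := min_le_right (c / 2) (min (A - T₀ k₁) (min c (ep k₁) / 2))
        have h15 := min_le_left (A - T₀ k₁) (min c (ep k₁) / 2)
        have h16 := min_le_right (A - T₀ k₁) (min c (ep k₁) / 2)
        refine ⟨min (c / 2) (min (A - T₀ k₁) (min c (ep k₁) / 2)), ?_, fun k => ⟨?_, ?_⟩⟩
        · have h10 := (hin k₁).1.2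
          have h11 : 0 < min c (ep k₁) := lt_min hc h9
          exact lt_min (by linarith) (lt_min (by linarith) (by linarith))
        · rcases le_total k₁ k with hkk | hkk
          · have hk : pos k := (h5 k hkk).2 hk₁
            have h10 := e_upper (P := P) (c := c) ht hu ht0 huB hkk
              (fun l hl => (h5 l hl).2 hk₁) (h8 k)
            have h12 : min c (ep k₁) ≤ ep k := h10
            rw [hTp k hk]
            linarith [htA k]
          · have := hTm hkk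
            linarith
        · by_cases hk : pos k
          · rw [hUp k hk]
            linarith [hpu k, h8 k]
          · rw [hUn k hk]
            linarith [hen0 k hk, h8 k]
      · have h8 := h7 hk₁
        have h9 := hen0 k₁ hk₁
        have h13 := min_le_left (c / 2) (min (B - U₀ k₁) (min c (en k₁) / 2))
        have h14 := min_le_right (c / 2) (min (B - U₀ k₁) (min c (en k₁) / 2))
        have h15 := min_le_left (B - U₀ k₁) (min c (en k₁) / 2)
        have h16 := min_le_right (B - U₀ k₁) (min c (en k₁) / 2)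
        refine ⟨min (c / 2) (min (B - U₀ k₁) (min c (en k₁) / 2)), ?_, fun k => ⟨?_, ?_⟩⟩
        · have h10 := (hin k₁).2.2
          have h11 : 0 < min c (en k₁) := lt_min hc h9
          exact lt_min (by linarith) (lt_min (by linarith) (by linarith))
        · by_cases hk : pos k
          · rw [hTp k hk]
            linarith [hep0 k hk, h8 k]
          · rw [hTn k hk]
            linarith [hnt k, h8 k]
        · rcases le_total k₁ k with hkk | hkk
          · have hk : ¬ pos k := fun h => hk₁ ((h5 k hkk).1 h)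
            have h10 := e_upper (P := N) (c := c) hu ht hu0 htA hkk
              (fun l hl => fun h => hk₁ ((h5 l hl).1 h)) (h8 k)
            have h12 : min c (en k₁) ≤ en k := h10
            rw [hUn k hk]
            linarith [huB k]
          · have := hUm hkk
            linarith
  obtain ⟨T, U, hTc, hUc, hTm', hUm', h5, h6, h7, h8⟩ :=
    path_of_points T₀ U₀ hA hB hTm hUm hin h3' h4'
  refine ⟨0, A + B, T, U, by linarith, hTc, hUc, hTm', hUm', h5, h6, h7, ?_, ?_⟩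
  · intro k hk
    obtain ⟨s, hs, h9, h10⟩ := h8 k
    refine ⟨s, hs, ?_, ?_⟩
    · rw [h9, hTp k hk]
      linarith [hep0 k hk]
    · rw [h10, hUp k hk]
      linarith [hep0 k hk]
  · intro k hk
    obtain ⟨s, hs, h9, h10⟩ := h8 k
    refine ⟨s, hs, ?_, ?_⟩
    · rw [h9, hTn k hk]
      linarith [hen0 k hk]
    · rw [h10, hUn k hk]
      linarith [hen0 k hk]

end Pool.Agent.Helper921_LeafSpaces
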