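import Mathlib
import Pool.Agent.Helper921_LeafSpaces.Defs

/-!
# Triples of pairwise transverse foliations
-/

namespace Pool.Agent.Helper921_LeafSpaces

open Set Topology

/-- The triple `(Λ₁, Λ₂, Λ₃)` is realized by three pairwise transverse foliations of the plane. -/
def RealizedTriple (Λ₁ Λ₂ Λ₃ : Type*) [TopologicalSpace Λ₁] [TopologicalSpace Λ₂]
    [TopologicalSpace Λ₃] : Prop :=
  ∃ F₁ F₂ F₃ : Setoid Plane, IsFoliation F₁ ∧ IsFoliation F₂ ∧ IsFoliation F₃ ∧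
    AreTransverse F₁ F₂ ∧ AreTransverse F₁ F₃ ∧ AreTransverse F₂ F₃ ∧
    Nonempty (Quotient F₁ ≃ₜ Λ₁) ∧ Nonempty (Quotient F₂ ≃ₜ Λ₂) ∧ Nonempty (Quotient F₃ ≃ₜ Λ₃)

end Pool.Agent.Helper921_LeafSpaces
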