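import Mathlib
import Pool.Agent.Helper921_LeafSpaces.Sides
import Pool.Agent.Helper921_LeafSpaces.Box
import Pool.Agent.Helper921_LeafSpaces.Triple

set_option autoImplicit false
set_option linter.unusedSectionVars false

namespace Pool.Agent.Helper921_LeafSpaces

open Set Topology Filter TopologicalSpace

variable {X : Type*} [TopologicalSpace X]

/-! TARGET. From a fibre function to three pairwise transverse foliations.
Given U ⊆ ℝ × X open with interval fibres J_x = {s | (s,x) ∈ U} ≠ ∅ and a fibre function G as below, let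
F₁ = {s = const}, F₃ = {x = const}, F₂ = {Φ = const} with Φ(s,x) := G(s,x) - 2 s, all on U, which is homeomorphic to the plane.
1. Order/charts: a chart f at x is an increasing open embedding ℝ → X, so for (s, f t) ∈ U, t ↦ G(s, f t) is strictly increasing where
 defined. Openness lemma: if D ⊆ ℝ × ℝ is open and Ψ : D → ℝ is continuous and strictly increasing (or decreasing) in the first variable
 along segments, then (a,b) ↦ (Ψ(a,b), b) is an open map on D (IVT: at (a₀,b₀) take a₁ < a₀ < a₂ close, c₁, c₂ with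
 Ψ(a₁,b) < c₁ < Ψ(a₀,b₀) < c₂ < Ψ(a₂,b) for b near b₀; the image contains (c₁,c₂) × nbhd of b₀).
2. Homeomorphism e : U ≃ₜ ℝ × ℝ, (s,x) ↦ (s, g(G(s,x)/S(s))) with g : (0,1) → ℝ an increasing homeomorphism (e.g. tan(π(y - 1/2)), or
 log(y/(1-y)), i.e. (s,x) ↦ (s, log (G/(S - G)))): it is continuous (S is continuous, being Lipschitz, 0 < G < S on U by hIm),
 injective (two points of a slice are comparable by hT and G is strictly monotone), surjective (hIm) and open (lemma 1 in the charts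
 (s, f t)). Setoids on the plane: F₁ : p ~ q iff (e.symm p).1.1 = (e.symm q).1.1; F₃: iff (e.symm p).1.2 = (e.symm q).1.2;
 F₂: iff Φ (e.symm p) = Φ (e.symm q).
3. Leaves are path connected: F₁: the vertical line. F₃: image of J_x × {x}, J_x an interval. F₂: {Φ = c}: for fixed x, Φ(s,x) is strictly
 decreasing in s (|G(s,x) - G(s',x)| ≤ |s - s'|); Φ maps the slice U_s onto (-2s, S(s) - 2s), both ends are continuous and strictly
 decreasing in s and tend to ∓∞ (|S s - S s'| ≤ |s - s'|), so {s | c ∈ Φ(U_s)} is an open interval I_c, nonempty, and for s ∈ I_c there is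
 exactly one x = x_c(s) with Φ = c; the leaf is the graph s ↦ (s, x_c(s)), which is continuous: (s,x) ↦ (s, Φ(s,x)) is continuous,
 injective and open on U (lemma 1), i.e. a homeomorphism onto {(s,c) | -2s < c < S(s) - 2s}, an open set with interval horizontal slices
 {s : ...} = I_c.
4. A general remark: if every point of the plane is in the range of an open embedding ψ : ℝ × ℝ → ℝ × ℝ such that
 F (ψ (a,b)) (ψ (a',b')) ↔ b = b' and G (ψ (a,b)) (ψ (a',b')) ↔ a = a' then AreTransverse F G (U := range ψ, φ := ψ⁻¹ followed by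
 (a,b) ↦ (2/π arctan a, 2/π arctan b) ∈ Square; plaques: points of the same plaque are in the same leaf so have the same b; conversely
 the segment b = const is a path in leaf ∩ U). And AreTransverse F G together with path connected leaves gives IsFoliation F, and
 IsFoliation G (exchange the coordinates of the square).
 * (F₁,F₃): at e (s₀,x₀), f chart at x₀: ψ(a,b) := e (param s₀ ε b, f (param 0 ε a)) with ε so small that the box is in U.
 * (F₁,F₂): by 3, Γ : (s,x) ↦ (s,Φ(s,x)) is a homeomorphism from U onto an open set of the plane; ψ(a,b) := e (Γ⁻¹ (param s₀ ε b, param c₀ ε a)).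
 * (F₂,F₃): on a box around (s₀,x₀), (s, f t) ↦ (Φ(s, f t), t) is injective, continuous and open (lemma 1, Φ strictly decreasing in s); its
   inverse on a small square gives ψ(a,b) with Φ = param c₀ ε b, x = f (param 0 ε a).
   [AreTransverse F₂ F₃: plaques of F₂ horizontal: b = const iff same Φ.]  For AreTransverse F₁ F₂: plaques of F₁ horizontal: b ↔ s.
5. Leaf spaces: Quotient F₁ ≃ₜ ℝ by s, Quotient F₂ ≃ₜ ℝ by Φ (surjective by 3 and open by 1), Quotient F₃ ≃ₜ X by x (surjective since J_x ≠ ∅,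
 open since U is open in ℝ × X and the projection to X is open); use `IsQuotientMap.homeomorph` or `Homeomorph` from
 `IsOpenQuotientMap`; the setoids may be defined as `Setoid.ker`/`Setoid.comap`. -/


/-- Openness lemma. -/
theorem isOpen_image_of_strictMono {Y : Type*} [TopologicalSpace Y] {D : Set (ℝ × Y)}
    (hD : IsOpen D) {Ψ : ℝ × Y → ℝ} (hc : ∀ p ∈ D, ContinuousAt Ψ p)
    (hm : ∀ a a' b, (a, b) ∈ D → (a', b) ∈ D → a < a' → Ψ (a, b) < Ψ (a', b)) :
    IsOpen ((fun p : ℝ × Y => (Ψ p, p.2)) '' D) := by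
  rw [isOpen_iff_mem_nhds]
  rintro _ ⟨⟨a₀, b₀⟩, hp, rfl⟩
  obtain ⟨u, v, hu, hv, hau, hbv, huv⟩ := isOpen_prod_iff.mp hD a₀ b₀ hp
  obtain ⟨ε, hε, hball⟩ := Metric.isOpen_iff.mp hu a₀ hau
  have hsub : ∀ a ∈ Icc (a₀ - ε / 2) (a₀ + ε / 2), a ∈ u := by
    intro a ha
    apply hball
    rw [Metric.mem_ball, Real.dist_eq, abs_lt]
    constructor <;> linarith [ha.1, ha.2]
  have hD1 : ∀ a ∈ Icc (a₀ - ε / 2) (a₀ + ε / 2), ∀ b ∈ v, (a, b) ∈ D :=
    fun a ha b hb => huv ⟨hsub a ha, hb⟩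
  have m1 : a₀ - ε / 2 ∈ Icc (a₀ - ε / 2) (a₀ + ε / 2) := ⟨le_refl _, by linarith⟩
  have m2 : a₀ + ε / 2 ∈ Icc (a₀ - ε / 2) (a₀ + ε / 2) := ⟨by linarith, le_refl _⟩
  have l1 : Ψ (a₀ - ε / 2, b₀) < Ψ (a₀, b₀) := hm _ _ _ (hD1 _ m1 _ hbv) hp (by linarith)
  have l2 : Ψ (a₀, b₀) < Ψ (a₀ + ε / 2, b₀) := hm _ _ _ hp (hD1 _ m2 _ hbv) (by linarith)
  obtain ⟨c1, hc1, hc1'⟩ := exists_between l1
  obtain ⟨c2, hc2, hc2'⟩ := exists_between l2
  have e1 : ∀ᶠ b in 𝓝 b₀, Ψ (a₀ - ε / 2, b) < c1 := by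
    have h1 : ContinuousAt (fun b => Ψ (a₀ - ε / 2, b)) b₀ :=
      ContinuousAt.comp (f := fun b : Y => ((a₀ - ε / 2, b) : ℝ × Y))
        (hc _ (hD1 _ m1 _ hbv)) (by fun_prop)
    exact h1.eventually (Iio_mem_nhds hc1)
  have e2 : ∀ᶠ b in 𝓝 b₀, c2 < Ψ (a₀ + ε / 2, b) := by
    have h1 : ContinuousAt (fun b => Ψ (a₀ + ε / 2, b)) b₀ :=
      ContinuousAt.comp (f := fun b : Y => ((a₀ + ε / 2, b) : ℝ × Y))
        (hc _ (hD1 _ m2 _ hbv)) (by fun_prop)
    exact h1.eventually (Ioi_mem_nhds hc2')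
  have e3 : ∀ᶠ b in 𝓝 b₀, b ∈ v := hv.mem_nhds hbv
  refine Filter.mem_of_superset (prod_mem_nhds (Ioo_mem_nhds hc1' hc2)
    (e1.and (e2.and e3))) ?_
  rintro ⟨c, b⟩ ⟨hcc, hb1, hb2, hb3⟩
  simp only [mem_Ioo] at hcc
  have hcont : ContinuousOn (fun a => Ψ (a, b)) (Icc (a₀ - ε / 2) (a₀ + ε / 2)) := by
    intro a ha
    apply ContinuousAt.continuousWithinAt
    exact ContinuousAt.comp (f := fun a : ℝ => ((a, b) : ℝ × Y))
        (hc _ (hD1 _ ha _ hb3)) (by fun_prop)
  obtain ⟨a, ha, hac⟩ := intermediate_value_Icc (by linarith) hcont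
    (⟨(hb1.trans hcc.1).le, (hcc.2.trans hb2).le⟩ : c ∈ Icc _ _)
  exact ⟨(a, b), hD1 _ ha _ hb3, by simp [hac]⟩

theorem isOpenEmbedding_slices {L R : X → Set X} (h : IsSides L R)
    {U : Set (ℝ × X)} (hU : IsOpen U)
    (hT : ∀ s x z, (s, x) ∈ U → (s, z) ∈ U → x ≠ z →
      (z ∈ R x ∧ x ∈ L z) ∨ (z ∈ L x ∧ x ∈ R z))
    {Ψ : ℝ × X → ℝ} (hc : ∀ p ∈ U, ContinuousAt Ψ p)
    (hm : ∀ s x z, (s, x) ∈ U → (s, z) ∈ U → z ∈ R x → Ψ (s, x) < Ψ (s, z)) :
    IsOpenEmbedding (fun u : U => ((u.1.1, Ψ u.1) : ℝ × ℝ)) := by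
  apply IsOpenEmbedding.of_continuous_injective_isOpenMap
  · rw [continuous_iff_continuousAt]
    intro u
    apply ContinuousAt.prodMk (by fun_prop)
    exact ContinuousAt.comp (f := fun u : U => u.1) (hc u.1 u.2) (by fun_prop)
  · rintro ⟨⟨s, x⟩, hu⟩ ⟨⟨s', x'⟩, hu'⟩ heq
    simp only [Prod.mk.injEq] at heq
    obtain ⟨rfl, heq⟩ := heq
    have : x = x' := by
      by_contra hne
      rcases hT s x x' hu hu' hne with h1 | h1
      · exact absurd heq (hm s x x' hu hu' h1.1).ne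
      · exact absurd heq (hm s x' x hu' hu h1.2).ne'
    subst this
    rfl
  · intro W hW
    have hW' : IsOpen (Subtype.val '' W : Set (ℝ × X)) := hU.isOpenMap_subtype_val W hW
    have hW'U : (Subtype.val '' W : Set (ℝ × X)) ⊆ U := by
      rintro _ ⟨w, -, rfl⟩; exact w.2
    rw [isOpen_iff_mem_nhds]
    rintro _ ⟨⟨⟨s₀, x₀⟩, hu⟩, hw, rfl⟩
    obtain ⟨f, hf, hf0, hfm⟩ := h.exists_chart x₀
    have hfc : Continuous f := hf.continuous
    set D : Set (ℝ × ℝ) := {p | (p.2, f p.1) ∈ (Subtype.val '' W : Set (ℝ × X))} with hD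
    have hDo : IsOpen D := hW'.preimage (by fun_prop : Continuous fun p : ℝ × ℝ => (p.2, f p.1))
    have him := isOpen_image_of_strictMono (Y := ℝ) hDo (Ψ := fun p => Ψ (p.2, f p.1))
      (by
        intro p hp
        exact ContinuousAt.comp (f := fun p : ℝ × ℝ => (p.2, f p.1)) (hc _ (hW'U hp))
          (by fun_prop))
      (by
        intro a a' b ha ha' haa'
        exact hm b (f a) (f a') (hW'U ha) (hW'U ha') (hfm a a' haa').2)
    have him2 : IsOpen ((Prod.swap : ℝ × ℝ → ℝ × ℝ) ⁻¹'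
        ((fun p : ℝ × ℝ => (Ψ (p.2, f p.1), p.2)) '' D)) := him.preimage continuous_swap
    refine Filter.mem_of_superset (him2.mem_nhds ?_) ?_
    · refine ⟨(0, s₀), ?_, ?_⟩
      · show (s₀, f 0) ∈ (Subtype.val '' W : Set (ℝ × X))
        rw [hf0]
        exact ⟨_, hw, rfl⟩
      · simp [hf0]
    · rintro ⟨s, c⟩ ⟨⟨t, s'⟩, hq, heq⟩
      simp only [Prod.swap_prod_mk, Prod.mk.injEq] at heq
      obtain ⟨h1, h2⟩ := heq
      subst h2
      obtain ⟨w, hwW, hwe⟩ := hq
      refine ⟨w, hwW, ?_⟩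
      simp only [hwe, Prod.mk.injEq, true_and]
      exact h1

/-- The line is homeomorphic to the interval `(-1, 1)`. -/
noncomputable def lineHomeo : ℝ ≃ₜ Ioo (-1 : ℝ) 1 :=
  ((isOpenEmbedding_param (c := 0) (ε := 1) one_pos).isEmbedding.toHomeomorph).trans
    (Homeomorph.setCongr (by rw [range_param one_pos]; norm_num))

theorem areTransverse_of {F G : Setoid Plane}
    (hψ : ∀ p, ∃ ψ : ℝ × ℝ → Plane, IsOpenEmbedding ψ ∧ p ∈ range ψ ∧
      (∀ u v, F (ψ u) (ψ v) ↔ u.2 = v.2) ∧ (∀ u v, G (ψ u) (ψ v) ↔ u.1 = v.1)) :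
    AreTransverse F G := by
  intro p
  obtain ⟨ψ, hψ, hp, hF, hG⟩ := hψ p
  refine ⟨range ψ, (hψ.isEmbedding.toHomeomorph).symm.trans (lineHomeo.prodCongr lineHomeo),
    hψ.isOpen_range, hp, ?_, ?_⟩
  · rintro ⟨_, u, rfl⟩ ⟨_, v, rfl⟩
    have hu : (hψ.isEmbedding.toHomeomorph).symm ⟨ψ u, ⟨u, rfl⟩⟩ = u :=
      hψ.isEmbedding.toHomeomorph_symm_apply u
    have hv : (hψ.isEmbedding.toHomeomorph).symm ⟨ψ v, ⟨v, rfl⟩⟩ = v :=
      hψ.isEmbedding.toHomeomorph_symm_apply v
    rw [Homeomorph.trans_apply, Homeomorph.trans_apply, hu, hv]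
    change _ ↔ lineHomeo u.2 = lineHomeo v.2
    rw [lineHomeo.injective.eq_iff]
    constructor
    · intro hj
      have h1 := hj.mem.2.1
      exact (hF u v).mp h1
    · intro huv
      have hc : IsPathConnected {w : ℝ × ℝ | w.2 = u.2} := by
        apply Convex.isPathConnected
        · intro a ha b hb s t _ _ hst
          simp only [mem_ofPred_eq] at ha hb ⊢
          simp only [Prod.snd_add, Prod.smul_snd, ha, hb, smul_eq_mul]
          rw [← add_mul, hst, one_mul]
        · exact ⟨u, rfl⟩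
      have h2 := (hc.image hψ.continuous).joinedIn (ψ u) ⟨u, rfl, rfl⟩ (ψ v) ⟨v, huv.symm, rfl⟩
      apply h2.mono
      rintro _ ⟨w, hw, rfl⟩
      refine ⟨?_, ⟨w, rfl⟩⟩
      show F (ψ u) (ψ w)
      rw [hF]
      exact hw.symm
  · rintro ⟨_, u, rfl⟩ ⟨_, v, rfl⟩
    have hu : (hψ.isEmbedding.toHomeomorph).symm ⟨ψ u, ⟨u, rfl⟩⟩ = u :=
      hψ.isEmbedding.toHomeomorph_symm_apply u
    have hv : (hψ.isEmbedding.toHomeomorph).symm ⟨ψ v, ⟨v, rfl⟩⟩ = v :=
      hψ.isEmbedding.toHomeomorph_symm_apply v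
    rw [Homeomorph.trans_apply, Homeomorph.trans_apply, hu, hv]
    change _ ↔ lineHomeo u.1 = lineHomeo v.1
    rw [lineHomeo.injective.eq_iff]
    constructor
    · intro hj
      have h1 := hj.mem.2.1
      exact (hG u v).mp h1
    · intro huv
      have hc : IsPathConnected {w : ℝ × ℝ | w.1 = u.1} := by
        apply Convex.isPathConnected
        · intro a ha b hb s t _ _ hst
          simp only [mem_ofPred_eq] at ha hb ⊢
          simp only [Prod.fst_add, Prod.smul_fst, ha, hb, smul_eq_mul]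
          rw [← add_mul, hst, one_mul]
        · exact ⟨u, rfl⟩
      have h2 := (hc.image hψ.continuous).joinedIn (ψ u) ⟨u, rfl, rfl⟩ (ψ v) ⟨v, huv.symm, rfl⟩
      apply h2.mono
      rintro _ ⟨w, hw, rfl⟩
      refine ⟨?_, ⟨w, rfl⟩⟩
      show G (ψ u) (ψ w)
      rw [hG]
      exact hw.symm

theorem isFoliation_left {F G : Setoid Plane} (hl : ∀ p, IsPathConnected (leaf F p))
    (h : AreTransverse F G) : IsFoliation F := by
  refine ⟨hl, fun p => ?_⟩
  obtain ⟨U, φ, h1, h2, h3, -⟩ := h p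
  exact ⟨U, φ, h1, h2, h3⟩

theorem isFoliation_right {F G : Setoid Plane} (hl : ∀ p, IsPathConnected (leaf G p))
    (h : AreTransverse F G) : IsFoliation G := by
  refine ⟨hl, fun p => ?_⟩
  obtain ⟨U, φ, h1, h2, -, h3⟩ := h p
  refine ⟨U, φ.trans (Homeomorph.prodComm _ _), h1, h2, ?_⟩
  intro q q'
  rw [h3 q q']
  simp

theorem areTransverse_ker {Q A B : Type*} [TopologicalSpace Q] [TopologicalSpace A]
    [TopologicalSpace B] (e : Q ≃ₜ Plane) {α : Q → A} {β : Q → B}
    (hγ : IsOpenEmbedding (fun u => (α u, β u)))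
    (hA : ∀ a : A, ∃ f : ℝ → A, IsOpenEmbedding f ∧ f 0 = a)
    (hB : ∀ b : B, ∃ f : ℝ → B, IsOpenEmbedding f ∧ f 0 = b) :
    AreTransverse (Setoid.ker (α ∘ e.symm)) (Setoid.ker (β ∘ e.symm)) := by
  apply areTransverse_of
  intro p
  obtain ⟨f, hf, hf0⟩ := hA (α (e.symm p))
  obtain ⟨g, hg, hg0⟩ := hB (β (e.symm p))
  set γ : Q → A × B := fun u => (α u, β u) with hγd
  have hfc := hf.continuous
  have hgc := hg.continuous
  have hop : IsOpen {w : ℝ × ℝ | (f w.1, g w.2) ∈ range γ} :=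
    hγ.isOpen_range.preimage (by fun_prop : Continuous fun w : ℝ × ℝ => (f w.1, g w.2))
  have h0 : ((0, 0) : ℝ × ℝ) ∈ {w : ℝ × ℝ | (f w.1, g w.2) ∈ range γ} :=
    ⟨e.symm p, by simp [hγd, hf0, hg0]⟩
  obtain ⟨ε, hε, hball⟩ := Metric.isOpen_iff.mp hop _ h0
  have hpar : ∀ a b : ℝ, (f (param 0 ε b), g (param 0 ε a)) ∈ range γ := by
    intro a b
    have : (param 0 ε b, param 0 ε a) ∈ Metric.ball ((0, 0) : ℝ × ℝ) ε := by
      rw [← ball_prod_same]
      have h1 := param_mem (c := 0) hε b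
      have h2 := param_mem (c := 0) hε a
      refine ⟨?_, ?_⟩ <;> rw [Metric.mem_ball, Real.dist_eq, abs_lt] <;>
        constructor <;> linarith [h1.1, h1.2, h2.1, h2.2]
    exact hball this
  choose ψ₀ hψ₀ using fun w : ℝ × ℝ => hpar w.1 w.2
  have hinjp : Function.Injective (param 0 ε) := (param_strictMono hε).injective
  have hk : IsOpenEmbedding (fun w : ℝ × ℝ => (f (param 0 ε w.2), g (param 0 ε w.1))) := by
    have h1 := ((hf.comp (isOpenEmbedding_param (c := 0) hε)).prodMap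
      (hg.comp (isOpenEmbedding_param (c := 0) hε))).comp
        (Homeomorph.prodComm ℝ ℝ).isOpenEmbedding
    exact h1
  have hψo : IsOpenEmbedding ψ₀ := by
    apply IsOpenEmbedding.of_comp ψ₀ hγ
    have : γ ∘ ψ₀ = fun w : ℝ × ℝ => (f (param 0 ε w.2), g (param 0 ε w.1)) := by
      funext w; exact hψ₀ w
    rw [this]
    exact hk
  refine ⟨fun w => e (ψ₀ w), e.isOpenEmbedding.comp hψo, ⟨(0, 0), ?_⟩, ?_, ?_⟩
  · show e (ψ₀ (0, 0)) = p
    have : ψ₀ (0, 0) = e.symm p := by
      apply hγ.injective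
      rw [hψ₀]
      simp only [param_zero, hf0, hg0, hγd]
    rw [this, e.apply_symm_apply]
  · intro u v
    show α (e.symm (e (ψ₀ u))) = α (e.symm (e (ψ₀ v))) ↔ _
    have h1 : α (ψ₀ u) = f (param 0 ε u.2) := congrArg Prod.fst (hψ₀ u)
    have h2 : α (ψ₀ v) = f (param 0 ε v.2) := congrArg Prod.fst (hψ₀ v)
    rw [e.symm_apply_apply, e.symm_apply_apply, h1, h2]
    exact ⟨fun h => hinjp (hf.injective h), fun h => by rw [h]⟩
  · intro u v
    show β (e.symm (e (ψ₀ u))) = β (e.symm (e (ψ₀ v))) ↔ _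
    have h1 : β (ψ₀ u) = g (param 0 ε u.1) := congrArg Prod.snd (hψ₀ u)
    have h2 : β (ψ₀ v) = g (param 0 ε v.1) := congrArg Prod.snd (hψ₀ v)
    rw [e.symm_apply_apply, e.symm_apply_apply, h1, h2]
    exact ⟨fun h => hinjp (hg.injective h), fun h => by rw [h]⟩

/-- leaves of the second coordinate -/
theorem isPathConnected_leaf_snd {Q A B : Type*} [TopologicalSpace Q] [TopologicalSpace A]
    [TopologicalSpace B] (e : Q ≃ₜ Plane) {α : Q → A} {β : Q → B}
    (hγ : IsOpenEmbedding (fun u => (α u, β u)))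
    (hs : ∀ b, IsPathConnected {a | (a, b) ∈ range (fun u => (α u, β u))}) (p : Plane) :
    IsPathConnected (leaf (Setoid.ker (β ∘ e.symm)) p) := by
  set b := β (e.symm p) with hb
  have h1 : (fun a : A => (a, b)) '' {a | (a, b) ∈ range (fun u => (α u, β u))} =
      (fun u => (α u, β u)) '' {u | β u = b} := by
    ext ⟨a, b'⟩
    constructor
    · rintro ⟨a', ⟨u, hu⟩, heq⟩
      simp only [Prod.mk.injEq] at heq hu
      refine ⟨u, hu.2, ?_⟩
      simp only [Prod.mk.injEq]
      exact ⟨hu.1.trans heq.1, hu.2.trans heq.2⟩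
    · rintro ⟨u, hu, heq⟩
      simp only [Prod.mk.injEq] at heq
      simp only [mem_ofPred_eq] at hu
      refine ⟨a, ⟨u, ?_⟩, ?_⟩
      · simp only [Prod.mk.injEq]; exact ⟨heq.1, hu⟩
      · simp only [Prod.mk.injEq, true_and]; rw [← hu, heq.2]
  have h2 := (hs b).image (f := fun a : A => (a, b)) (by fun_prop)
  rw [h1, ← hγ.isInducing.isPathConnected_iff] at h2
  have h3 : leaf (Setoid.ker (β ∘ e.symm)) p = e '' {u | β u = b} := by
    ext q
    rw [e.image_eq_preimage_symm]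
    show (β (e.symm p) = β (e.symm q)) ↔ β (e.symm q) = b
    rw [hb]; exact eq_comm
  rw [h3]
  exact h2.image e.continuous

theorem isPathConnected_leaf_fst {Q A B : Type*} [TopologicalSpace Q] [TopologicalSpace A]
    [TopologicalSpace B] (e : Q ≃ₜ Plane) {α : Q → A} {β : Q → B}
    (hγ : IsOpenEmbedding (fun u => (α u, β u)))
    (hs : ∀ a, IsPathConnected {b | (a, b) ∈ range (fun u => (α u, β u))}) (p : Plane) :
    IsPathConnected (leaf (Setoid.ker (α ∘ e.symm)) p) := by
  have hγ' : IsOpenEmbedding (fun u => (β u, α u)) :=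
    (Homeomorph.prodComm A B).isOpenEmbedding.comp hγ
  apply isPathConnected_leaf_snd e hγ'
  intro b
  convert! hs b using 1
  ext a
  constructor
  · rintro ⟨u, hu⟩
    simp only [Prod.mk.injEq] at hu
    exact ⟨u, by simp [hu.1, hu.2]⟩
  · rintro ⟨u, hu⟩
    simp only [Prod.mk.injEq] at hu
    exact ⟨u, by simp [hu.1, hu.2]⟩

/-- leaf space -/
theorem nonempty_quotient_homeo {Q A : Type*} [TopologicalSpace Q] [TopologicalSpace A]
    (e : Q ≃ₜ Plane) {α : Q → A} (hc : Continuous α) (ho : IsOpenMap α)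
    (hs : Function.Surjective α) : Nonempty (Quotient (Setoid.ker (α ∘ e.symm)) ≃ₜ A) := by
  have hq : IsQuotientMap (α ∘ e.symm) :=
    (ho.comp e.symm.isOpenMap).isQuotientMap (hc.comp e.symm.continuous)
      (hs.comp e.symm.surjective)
  exact ⟨IsQuotientMap.homeomorph (f := ⟨α ∘ e.symm, hc.comp e.symm.continuous⟩) hq⟩

theorem realizedTriple_of_fibre_function {L R : X → Set X} (h : IsSides L R)
    (U : Set (ℝ × X)) (hU : IsOpen U) (hJ : ∀ x, {s | (s, x) ∈ U}.Nonempty)
    (hJ' : ∀ x, OrdConnected {s | (s, x) ∈ U})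
    (hT : ∀ s x z, (s, x) ∈ U → (s, z) ∈ U → x ≠ z →
      (z ∈ R x ∧ x ∈ L z) ∨ (z ∈ L x ∧ x ∈ R z))
    (G : ℝ × X → ℝ) (S : ℝ → ℝ) (hG : Continuous G) (hS0 : ∀ s, 0 < S s)
    (hS : ∀ s s', |S s - S s'| ≤ |s - s'|) (hGL : ∀ s s' x, |G (s, x) - G (s', x)| ≤ |s - s'|)
    (hGm : ∀ s x z, (s, x) ∈ U → (s, z) ∈ U → z ∈ R x → G (s, x) < G (s, z))
    (hIm : ∀ s, (fun x => G (s, x)) '' {x | (s, x) ∈ U} = Ioo 0 (S s)) :
    RealizedTriple ℝ ℝ X := by
  -- facts about `G`
  have hGpos : ∀ s x, (s, x) ∈ U → 0 < G (s, x) ∧ G (s, x) < S s := by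
    intro s x hsx
    have : G (s, x) ∈ Ioo 0 (S s) := by rw [← hIm s]; exact ⟨x, hsx, rfl⟩
    exact this
  have hGsurj : ∀ s y, 0 < y → y < S s → ∃ x, (s, x) ∈ U ∧ G (s, x) = y := by
    intro s y h1 h2
    have : y ∈ (fun x => G (s, x)) '' {x | (s, x) ∈ U} := by rw [hIm s]; exact ⟨h1, h2⟩
    obtain ⟨x, hx, hxy⟩ := this
    exact ⟨x, hx, hxy⟩
  have hSc : Continuous S := by
    rw [Metric.continuous_iff]
    intro b ε hε
    refine ⟨ε, hε, fun a ha => ?_⟩
    rw [Real.dist_eq] at ha ⊢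
    exact lt_of_le_of_lt (hS a b) ha
  -- the homeomorphism with the plane
  have hE : IsOpenEmbedding (fun u : U =>
      ((u.1.1, (fun p : ℝ × X => Real.log (G p / (S p.1 - G p))) u.1) : ℝ × ℝ)) := by
    refine isOpenEmbedding_slices h hU hT
      (Ψ := fun p : ℝ × X => Real.log (G p / (S p.1 - G p))) ?_ ?_
    · rintro ⟨s, x⟩ hp
      obtain ⟨h1, h2⟩ := hGpos s x hp
      have hne : S s - G (s, x) ≠ 0 := by linarith
      apply ContinuousAt.log
      · apply ContinuousAt.div hG.continuousAt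
        · exact (by fun_prop : Continuous fun p : ℝ × X => S p.1 - G p).continuousAt
        · exact hne
      · simp only
        have : 0 < G (s, x) / (S s - G (s, x)) := div_pos h1 (by linarith)
        exact this.ne'
    · intro s x z hx hz hzx
      obtain ⟨h1, h2⟩ := hGpos s x hx
      obtain ⟨h3, h4⟩ := hGpos s z hz
      have h5 := hGm s x z hx hz hzx
      apply Real.log_lt_log (div_pos h1 (by linarith))
      rw [div_lt_div_iff₀ (by linarith) (by linarith)]
      simp only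
      nlinarith
  have hEs : Function.Surjective (fun u : U =>
      ((u.1.1, (fun p : ℝ × X => Real.log (G p / (S p.1 - G p))) u.1) : ℝ × ℝ)) := by
    rintro ⟨s, c⟩
    have hexp := Real.exp_pos c
    have hSs := hS0 s
    obtain ⟨x, hx, hxy⟩ := hGsurj s (S s * (Real.exp c / (1 + Real.exp c)))
      (by positivity) (by
        have : Real.exp c / (1 + Real.exp c) < 1 := by
          rw [div_lt_one (by positivity)]; linarith
        nlinarith)
    refine ⟨⟨(s, x), hx⟩, ?_⟩
    simp only [Prod.mk.injEq, true_and]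
    rw [hxy]
    have : S s * (Real.exp c / (1 + Real.exp c)) / (S s - S s * (Real.exp c / (1 + Real.exp c))) =
        Real.exp c := by
      have h1 : (1 + Real.exp c) ≠ 0 := by positivity
      have h2 : S s - S s * (Real.exp c / (1 + Real.exp c)) = S s / (1 + Real.exp c) := by
        field_simp; ring
      rw [h2]
      field_simp
    rw [this, Real.log_exp]
  let e : U ≃ₜ Plane := hE.isEmbedding.toHomeomorphOfSurjective hEs
  -- the functions
  let α : U → ℝ := fun u => u.1.1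
  let φ : U → ℝ := fun u => G u.1 - 2 * u.1.1
  let ξ : U → X := fun u => u.1.2
  have hαc : Continuous α := by fun_prop
  have hφc : Continuous φ := by fun_prop
  have hξc : Continuous ξ := by fun_prop
  have h12 : IsOpenEmbedding (fun u => (α u, φ u)) := by
    apply isOpenEmbedding_slices h hU hT (Ψ := fun p => G p - 2 * p.1)
    · intro p _
      exact (by fun_prop : Continuous fun p : ℝ × X => G p - 2 * p.1).continuousAt
    · intro s x z hx hz hzx
      have := hGm s x z hx hz hzx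
      simp only
      linarith
  have h13 : IsOpenEmbedding (fun u => (α u, ξ u)) := hU.isOpenEmbedding_subtypeVal
  have hdec : ∀ s s' x, s < s' → G (s', x) - 2 * s' < G (s, x) - 2 * s := by
    intro s s' x hss
    have h1 := hGL s' s x
    have h2 := (abs_le.mp h1).2
    rw [abs_of_pos (by linarith : 0 < s' - s)] at h2
    linarith
  have h23 : IsOpenEmbedding (fun u => (φ u, ξ u)) := by
    apply IsOpenEmbedding.of_continuous_injective_isOpenMap
    · exact hφc.prodMk hξc
    · rintro ⟨⟨s, x⟩, hu⟩ ⟨⟨s', x'⟩, hu'⟩ heq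
      simp only [φ, ξ, Prod.mk.injEq] at heq
      obtain ⟨heq, rfl⟩ := heq
      have : s = s' := by
        rcases lt_trichotomy s s' with h1 | h1 | h1
        · exact absurd heq (hdec s s' x h1).ne'
        · exact h1
        · exact absurd heq (hdec s' s x h1).ne
      subst this
      rfl
    · intro W hW
      have hW' : IsOpen (Subtype.val '' W : Set (ℝ × X)) := hU.isOpenMap_subtype_val W hW
      have him := isOpen_image_of_strictMono hW' (Ψ := fun p => -(G p - 2 * p.1))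
        (fun p _ => (by fun_prop : Continuous fun p : ℝ × X => -(G p - 2 * p.1)).continuousAt)
        (by
          intro a a' b _ _ haa'
          have := hdec a a' b haa'
          simp only
          linarith)
      have him2 : IsOpen ((fun q : ℝ × X => (-q.1, q.2)) ⁻¹'
        ((fun p : ℝ × X => (-(G p - 2 * p.1), p.2)) '' (Subtype.val '' W))) :=
        him.preimage (by fun_prop)
      convert! him2 using 1
      ext ⟨c, x⟩
      constructor
      · rintro ⟨w, hw, heq⟩
        refine ⟨w.1, ⟨w, hw, rfl⟩, ?_⟩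
        simp only [φ, ξ, Prod.mk.injEq] at heq
        simp only [Prod.mk.injEq, neg_inj]
        exact heq
      · rintro ⟨_, ⟨w, hw, rfl⟩, heq⟩
        refine ⟨w, hw, ?_⟩
        simp only [Prod.mk.injEq, neg_inj] at heq
        simp only [φ, ξ, Prod.mk.injEq]
        exact heq
  -- charts
  have chR : ∀ a : ℝ, ∃ f : ℝ → ℝ, IsOpenEmbedding f ∧ f 0 = a :=
    fun a => ⟨fun t => t + a, (Homeomorph.addRight a).isOpenEmbedding, by simp⟩
  have chX : ∀ a : X, ∃ f : ℝ → X, IsOpenEmbedding f ∧ f 0 = a := by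
    intro a
    obtain ⟨f, hf, hf0, -⟩ := h.exists_chart a
    exact ⟨f, hf, hf0⟩
  have T12 := areTransverse_ker e h12 chR chR
  have T13 := areTransverse_ker e h13 chR chX
  have T23 := areTransverse_ker e h23 chR chX
  -- ranges
  have hr12 : ∀ s c, (s, c) ∈ range (fun u => (α u, φ u)) ↔ (-2 * s < c ∧ c < S s - 2 * s) := by
    intro s c
    constructor
    · rintro ⟨⟨⟨s', x⟩, hu⟩, heq⟩
      simp only [α, φ, Prod.mk.injEq] at heq
      obtain ⟨rfl, heq⟩ := heq
      obtain ⟨h1, h2⟩ := hGpos s' x hu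
      constructor <;> linarith
    · rintro ⟨h1, h2⟩
      obtain ⟨x, hx, hxy⟩ := hGsurj s (c + 2 * s) (by linarith) (by linarith)
      refine ⟨⟨(s, x), hx⟩, ?_⟩
      simp only [α, φ, Prod.mk.injEq, true_and, hxy]
      ring
  have hne : ∀ c : ℝ, ∃ s, -2 * s < c ∧ c < S s - 2 * s := by
    intro c
    have h1 := hS0 (-c / 2)
    refine ⟨-c / 2 + S (-c / 2) / 4, by linarith, ?_⟩
    have h2 := (abs_le.mp (hS (-c / 2 + S (-c / 2) / 4) (-c / 2))).1
    rw [show -c / 2 + S (-c / 2) / 4 - -c / 2 = S (-c / 2) / 4 by ring,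
      abs_of_pos (by linarith)] at h2
    linarith
  have pc1 : ∀ s, IsPathConnected {c | (s, c) ∈ range (fun u => (α u, φ u))} := by
    intro s
    have : {c | (s, c) ∈ range (fun u => (α u, φ u))} = Ioo (-2 * s) (S s - 2 * s) := by
      ext c; exact hr12 s c
    rw [this]
    exact (convex_Ioo _ _).isPathConnected (nonempty_Ioo.mpr (by linarith [hS0 s]))
  have pc2 : ∀ c, IsPathConnected {s | (s, c) ∈ range (fun u => (α u, φ u))} := by
    intro c
    apply Convex.isPathConnected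
    · rw [convex_iff_ordConnected]
      constructor
      intro s hs s' hs' t ht
      rw [mem_ofPred_eq, hr12] at hs hs' ⊢
      constructor
      · linarith [ht.1]
      · have h2 := (abs_le.mp (hS s' t)).2
        rw [abs_of_nonneg (by linarith [ht.2] : 0 ≤ s' - t)] at h2
        linarith [ht.2]
    · obtain ⟨s, hs⟩ := hne c
      exact ⟨s, (hr12 s c).mpr hs⟩
  have pc3 : ∀ x, IsPathConnected {s | (s, x) ∈ range (fun u => (α u, ξ u))} := by
    intro x
    have : {s | (s, x) ∈ range (fun u => (α u, ξ u))} = {s | (s, x) ∈ U} := by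
      ext s
      constructor
      · rintro ⟨u, hu⟩
        have : u.1 = (s, x) := hu
        show (s, x) ∈ U
        rw [← this]; exact u.2
      · intro hs
        exact ⟨⟨(s, x), hs⟩, rfl⟩
    rw [this]
    exact (hJ' x).convex.isPathConnected (hJ x)
  have L1 := isPathConnected_leaf_fst e h12 pc1
  have L2 := isPathConnected_leaf_snd e h12 pc2
  have L3 := isPathConnected_leaf_snd e h13 pc3
  refine ⟨_, _, _, isFoliation_left L1 T12, isFoliation_right L2 T12, isFoliation_right L3 T13,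
    T12, T13, T23, ?_, ?_, ?_⟩
  · refine nonempty_quotient_homeo e hαc ?_ ?_
    · have h5 := (isOpenMap_fst (X := ℝ) (Y := ℝ)).comp h12.isOpenMap
      exact h5
    · intro s
      obtain ⟨c, hc⟩ := (pc1 s).nonempty
      obtain ⟨u, hu⟩ := hc
      exact ⟨u, congrArg Prod.fst hu⟩
  · refine nonempty_quotient_homeo e hφc ?_ ?_
    · have h5 := (isOpenMap_snd (X := ℝ) (Y := ℝ)).comp h12.isOpenMap
      exact h5
    · intro c
      obtain ⟨s, hs⟩ := (pc2 c).nonempty
      obtain ⟨u, hu⟩ := hs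
      exact ⟨u, congrArg Prod.snd hu⟩
  · refine nonempty_quotient_homeo e hξc ?_ ?_
    · have h5 := (isOpenMap_snd (X := ℝ) (Y := X)).comp h13.isOpenMap
      exact h5
    · intro x
      obtain ⟨s, hs⟩ := hJ x
      exact ⟨⟨(s, x), hs⟩, rfl⟩

end Pool.Agent.Helper921_LeafSpaces
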