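import Mathlib
import Pool.Agent.Helper921_LeafSpaces.FibreFn
import Pool.Agent.Helper921_LeafSpaces.Triples

set_option autoImplicit false
set_option linter.unusedSectionVars false

namespace Pool.Agent.Helper921_LeafSpaces

open Set Topology Filter TopologicalSpace

variable {X : Type*} [TopologicalSpace X]

/-! TARGET. Reduction to the case where all slices are nonempty.
I := {s | slice nonempty} is open (projection of an open set), nonempty (X nonempty, hJ), contained in Ioo a b. It is preconnected: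
if I ⊆ A ∪ B with A, B open, disjoint on I, both meeting I, then every J_x = {s | (s,x) ∈ U} (an interval) is contained in A or in B;
{x | J_x ⊆ A} = {x | ∃ s ∈ A, (s,x) ∈ U} is open, the same for B; they are disjoint, nonempty and cover X, contradicting
connectedness. So I = Ioo a' b' (a' = sInf I, b' = sSup I), a' < b'. Put c = (a'+b')/2, ε = (b'-a')/2,
U' := {(s,x) | (param c ε s, x) ∈ U} and apply the two given theorems to U'. -/

theorem realizedTriple_of_open [SecondCountableTopology X] [ConnectedSpace X] {L R : X → Set X}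
    (h : IsSides L R) (U : Set (ℝ × X)) (hU : IsOpen U) (a b : ℝ)
    (hab : ∀ s x, (s, x) ∈ U → s ∈ Ioo a b) (hJ : ∀ x, {s | (s, x) ∈ U}.Nonempty)
    (hJ' : ∀ x, OrdConnected {s | (s, x) ∈ U}) (hS : ∀ s, IsPreconnected {x | (s, x) ∈ U})
    (hT : ∀ s x z, (s, x) ∈ U → (s, z) ∈ U → x ≠ z →
      (z ∈ R x ∧ x ∈ L z) ∨ (z ∈ L x ∧ x ∈ R z)) :
    RealizedTriple ℝ ℝ X := by
  set I : Set ℝ := {s | ∃ x, (s, x) ∈ U} with hI
  have hIeq : I = Prod.fst '' U := by
    ext s
    simp [hI]
  have hIo : IsOpen I := by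
    rw [hIeq]
    exact isOpenMap_fst U hU
  have hIne : I.Nonempty := by
    obtain ⟨x⟩ := (inferInstance : Nonempty X)
    obtain ⟨s, hs⟩ := hJ x
    exact ⟨s, x, hs⟩
  have hIpre : IsPreconnected I := by
    intro u v hu hv hsub hneu hnev
    have hA : IsOpen {x | ∃ s ∈ u, (s, x) ∈ U} := by
      have : {x | ∃ s ∈ u, (s, x) ∈ U} = Prod.snd '' (U ∩ (Prod.fst ⁻¹' u)) := by
        ext x
        constructor
        · rintro ⟨s, hs, hx⟩
          exact ⟨(s, x), ⟨hx, hs⟩, rfl⟩
        · rintro ⟨⟨s, y⟩, ⟨hx, hs⟩, rfl⟩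
          exact ⟨s, hs, hx⟩
      rw [this]
      exact isOpenMap_snd _ (hU.inter (hu.preimage continuous_fst))
    have hB : IsOpen {x | ∃ s ∈ v, (s, x) ∈ U} := by
      have : {x | ∃ s ∈ v, (s, x) ∈ U} = Prod.snd '' (U ∩ (Prod.fst ⁻¹' v)) := by
        ext x
        constructor
        · rintro ⟨s, hs, hx⟩
          exact ⟨(s, x), ⟨hx, hs⟩, rfl⟩
        · rintro ⟨⟨s, y⟩, ⟨hx, hs⟩, rfl⟩
          exact ⟨s, hs, hx⟩
      rw [this]
      exact isOpenMap_snd _ (hU.inter (hv.preimage continuous_fst))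
    have h1 := (isPreconnected_univ (α := X)) _ _ hA hB (by
      intro x _
      obtain ⟨s, hs⟩ := hJ x
      rcases hsub ⟨x, hs⟩ with h | h
      · exact Or.inl ⟨s, h, hs⟩
      · exact Or.inr ⟨s, h, hs⟩) (by
      obtain ⟨s, ⟨x, hx⟩, hs⟩ := hneu
      exact ⟨x, trivial, s, hs, hx⟩) (by
      obtain ⟨s, ⟨x, hx⟩, hs⟩ := hnev
      exact ⟨x, trivial, s, hs, hx⟩)
    obtain ⟨x, _, ⟨s, hs, hx⟩, ⟨t, ht, hx'⟩⟩ := h1
    have hJc : IsPreconnected {s | (s, x) ∈ U} := (hJ' x).isPreconnected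
    obtain ⟨r, hr, hr1, hr2⟩ := hJc u v hu hv (fun s hs => hsub ⟨x, hs⟩) ⟨s, hx, hs⟩ ⟨t, hx', ht⟩
    exact ⟨r, ⟨x, hr⟩, hr1, hr2⟩
  have hIc : IsConnected I := ⟨hIne, hIpre⟩
  have hIab : I ⊆ Ioo a b := by
    rintro s ⟨x, hx⟩
    exact hab s x hx
  have hbb : BddBelow I := ⟨a, fun s hs => (hIab hs).1.le⟩
  have hba : BddAbove I := ⟨b, fun s hs => (hIab hs).2.le⟩
  set a' := sInf I with ha'
  set b' := sSup I with hb'
  have hIoo : I = Ioo a' b' := by
    apply Set.Subset.antisymm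
    · intro s hs
      obtain ⟨δ, hδ, hball⟩ := Metric.isOpen_iff.1 hIo s hs
      constructor
      · have h1 : s - δ / 2 ∈ I := hball (by
          rw [Metric.mem_ball, Real.dist_eq, show s - δ / 2 - s = -(δ / 2) by ring, abs_neg,
            abs_of_pos (by linarith)]
          linarith)
        have h2 := csInf_le hbb h1
        linarith
      · have h1 : s + δ / 2 ∈ I := hball (by
          rw [Metric.mem_ball, Real.dist_eq, show s + δ / 2 - s = δ / 2 by ring,
            abs_of_pos (by linarith)]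
          linarith)
        have h2 := le_csSup hba h1
        linarith
    · exact hIc.Ioo_csInf_csSup_subset hbb hba
  have hlt : a' < b' := by
    obtain ⟨s, hs⟩ := hIne
    rw [hIoo] at hs
    exact hs.1.trans hs.2
  set c := (a' + b') / 2 with hc
  set ε := (b' - a') / 2 with hε
  have hεpos : 0 < ε := by rw [hε]; linarith
  have e1 : c - ε = a' := by rw [hc, hε]; ring
  have e2 : c + ε = b' := by rw [hc, hε]; ring
  have hmem : ∀ s, param c ε s ∈ I := by
    intro s
    rw [hIoo, ← e1, ← e2]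
    exact param_mem hεpos s
  set U' : Set (ℝ × X) := {p | (param c ε p.1, p.2) ∈ U} with hU'
  have hU'o : IsOpen U' := by
    apply hU.preimage
    exact ((continuous_param c ε).comp continuous_fst).prodMk continuous_snd
  have hT' : ∀ s x z, (s, x) ∈ U' → (s, z) ∈ U' → x ≠ z →
      (z ∈ R x ∧ x ∈ L z) ∨ (z ∈ L x ∧ x ∈ R z) := fun s x z hx hz hne =>
    hT (param c ε s) x z hx hz hne
  obtain ⟨G, S, hG, hS0, hSL, hGL, hGm, hIm⟩ := exists_fibre_function h U' hU'o
    (fun s => by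
      obtain ⟨x, hx⟩ := hmem s
      exact ⟨x, hx⟩)
    (fun s => hS (param c ε s)) hT'
  refine realizedTriple_of_fibre_function h U' hU'o ?_ ?_ hT' G S hG hS0 hSL hGL hGm hIm
  · intro x
    obtain ⟨t, ht⟩ := hJ x
    have h1 : t ∈ I := ⟨x, ht⟩
    rw [hIoo, ← e1, ← e2, ← range_param hεpos] at h1
    obtain ⟨s, rfl⟩ := h1
    exact ⟨s, ht⟩
  · intro x
    exact (hJ' x).preimage_mono (param_strictMono hεpos).monotone

end Pool.Agent.Helper921_LeafSpaces
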