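import Mathlib
import Pool.Agent.Helper921_LeafSpaces.Ends

/-!
# The region swept out by the moving chain
-/

namespace Pool.Agent.Helper921_LeafSpaces

open Set Topology Filter TopologicalSpace

set_option linter.unusedSectionVars false

variable {X : Type*} [TopologicalSpace X] {L R : X → Set X} {σ : Set X} {d : ℕ → X}
  {a b a' b' : X → ℝ} {T V : ℝ → ℝ} {I : Set ℝ}

/-- The data of the two clocks and of the path. -/
structure Setup (L R : X → Set X) (σ : Set X) (d : ℕ → X) (a b a' b' : X → ℝ) (T V : ℝ → ℝ)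
    (I : Set ℝ) : Prop where
  sides : IsSides L R
  core : IsCoreOrder L R σ
  up : IsSlots L R σ d a b
  down : IsSlots R L σᶜ d a' b'
  pos : ∀ c, Bent L c → Bent R c → c ∈ σ → ∀ s ∈ I, tU R L σᶜ d c ≤ T s → tU L R σ d c < V s
  neg : ∀ c, Bent L c → Bent R c → c ∉ σ → ∀ s ∈ I, tU L R σ d c ≤ V s → tU R L σᶜ d c < T s

theorem Setup.swap (S : Setup L R σ d a b a' b' T V I) : Setup R L σᶜ d a' b' a b V T I where
  sides := S.sides.symm
  core := S.core.swap
  up := S.down
  down := by rw [compl_compl]; exact S.up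
  pos c h1 h2 h3 s hs h4 := by
    rw [compl_compl] at h4
    exact S.neg c h2 h1 h3 s hs h4
  neg c h1 h2 h3 s hs h4 := by
    rw [compl_compl]
    exact S.pos c h2 h1 (not_not.1 h3) s hs h4

/-- The point `x` is alive at time `s`. -/
def Alive (L R : X → Set X) (σ : Set X) (d : ℕ → X) (a b a' b' : X → ℝ) (T V : ℝ → ℝ) (s : ℝ)
    (x : X) : Prop :=
  V s ∈ slot L R σ d a b x ∧ T s ∈ slot R L σᶜ d a' b' x

theorem Alive.swap {s : ℝ} {x : X} (h : Alive L R σ d a b a' b' T V s x) :
    Alive R L σᶜ d a' b' a b V T s x := by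
  unfold Alive
  rw [compl_compl]
  exact ⟨h.2, h.1⟩

/-- `x` is below `z`, without obstruction. -/
def Good (L R : X → Set X) (x z : X) : Prop :=
  z ∈ R x ∧ x ∈ L z ∧ ∀ w, x ∈ R w → w ∈ R x → z ∈ L w → w ∈ L z → False

theorem Good.swap {x z : X} (h : Good L R x z) : Good R L z x :=
  ⟨h.2.1, h.1, fun w h1 h2 h3 h4 => h.2.2 w h3 h4 h1 h2⟩

theorem good_of_pure_right (h : IsSides L R) {x z : X} (hx : ¬ Bent R x) (hz : z ∈ R x) :
    Good L R x z :=
  ⟨hz, h.pure_right hx hz, fun _ h1 h2 _ _ => h.not_both (h.pure_right hx h2) h1⟩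

theorem good_of_pure_left (h : IsSides L R) {x z : X} (hx : ¬ Bent L x) (hz : z ∈ L x) :
    Good L R z x := (good_of_pure_right h.symm hx hz).swap

namespace Setup

theorem tL_mono (S : Setup L R σ d a b a' b' T V I) {k k' : X}
    (h1 : Bent L k) (h2 : Bent R k) (h1' : Bent L k') (h2' : Bent R k')
    (hkk : k ∈ west L R σ k') : tU R L σᶜ d k ≤ tU R L σᶜ d k' :=
  S.core.swap.tU_mono S.sides.symm h2 h1 h2' h1' (by rw [west_swap]; exact hkk)

theorem west_le' (S : Setup L R σ d a b a' b' T V I) {x k : X} (h1 : Bent R x)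
    (h2 : ¬ Bent L x) (h3 : Bent L k) (h4 : Bent R k) (hx : x ∈ west L R σ k) :
    b' x ≤ tU R L σᶜ d k := S.down.west_le x k h1 h2 h4 h3 (by rw [west_swap]; exact hx)

theorem east_le' (S : Setup L R σ d a b a' b' T V I) {x k : X} (h1 : Bent R x)
    (h2 : ¬ Bent L x) (h3 : Bent L k) (h4 : Bent R k) (hx : x ∉ west L R σ k) :
    tU R L σᶜ d k ≤ a' x := S.down.east_le x k h1 h2 h4 h3 (by rw [west_swap]; exact hx)

/-- Reading of an alive core point. -/
theorem alive_pos {s : ℝ} {x : X} (hx : Alive L R σ d a b a' b' T V s x) (h1 : Bent L x)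
    (h2 : Bent R x) (hσ : x ∈ σ) : tU L R σ d x < V s ∧ T s < tU R L σᶜ d x :=
  ⟨(mem_slot_core_pos h1 h2 hσ).1 hx.1,
    (mem_slot_core_neg (σ := σᶜ) h2 h1 (fun e => e hσ)).1 hx.2⟩

theorem alive_neg {s : ℝ} {x : X} (hx : Alive L R σ d a b a' b' T V s x) (h1 : Bent L x)
    (h2 : Bent R x) (hσ : x ∉ σ) : V s < tU L R σ d x ∧ tU R L σᶜ d x < T s :=
  ⟨(mem_slot_core_neg h1 h2 hσ).1 hx.1, (mem_slot_core_pos h2 h1 hσ).1 hx.2⟩

theorem alive_plus {s : ℝ} {x : X} (hx : Alive L R σ d a b a' b' T V s x) (h1 : Bent L x)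
    (h2 : ¬ Bent R x) : a x < V s ∧ V s < b x := (mem_slot_plus h1 h2).1 hx.1

theorem alive_minus {s : ℝ} {x : X} (hx : Alive L R σ d a b a' b' T V s x) (h1 : ¬ Bent L x)
    (h2 : Bent R x) : a' x < T s ∧ T s < b' x := (mem_slot_plus h2 h1).1 hx.2

/-- a core point and a point with a pure right side -/
theorem comp_core_plus (S : Setup L R σ d a b a' b' T V I) {s : ℝ} (hs : s ∈ I) {x z : X}
    (hx : Alive L R σ d a b a' b' T V s x) (hz : Alive L R σ d a b a' b' T V s z)
    (hxz : x ≠ z) (hxL : Bent L x) (hxR : Bent R x) (hzL : Bent L z) (hzR : ¬ Bent R z) :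
    Good L R x z ∨ Good L R z x := by
  have h := S.sides
  have hK := S.core
  by_cases hxz' : x ∈ R z
  · exact Or.inr (good_of_pure_right h hzR hxz')
  have hxLz : x ∈ L z := h.left_of_notMem_right hxz hxz'
  have hz1 := alive_plus hz hzL hzR
  left
  by_cases hσ : x ∈ σ
  · have hx1 := alive_pos hx hxL hxR hσ
    have hzRx : z ∈ R x := by
      apply h.right_of_notMem_left (Ne.symm hxz)
      intro hc
      have := S.up.west_le z x hzL hzR hxL hxR (by rw [west_pos hσ]; exact hc)
      linarith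
    refine ⟨hzRx, hxLz, fun w h1 h2 h3 h4 => ?_⟩
    have hwR : Bent R w := ⟨x, h1, h2⟩
    have hwL : Bent L w := ⟨z, h3, h4⟩
    have hne : x ≠ w := fun e => h.ne_of_right h1 e
    have key := hK x w hxL hxR hwL hwR hne
    have h5 : x ∈ west L R σ w := key.2 (by
      rw [west_pos hσ]; exact fun h6 => h.not_both h6 h2)
    have hwσ : w ∉ σ := by
      intro e
      rw [west_pos e] at h5
      exact h.not_both h5 h1
    have h6 := S.up.east_le z w hzL hzR hwL hwR (by
      rw [west_neg hwσ]; exact fun h7 => h.not_both h3 h7)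
    have h7 := S.neg w hwL hwR hwσ s hs (by linarith)
    have h8 := S.tL_mono hxL hxR hwL hwR h5
    linarith
  · have hx1 := alive_neg hx hxL hxR hσ
    have hzRx : z ∈ R x := by
      by_contra hc
      have := S.up.east_le z x hzL hzR hxL hxR (by rw [west_neg hσ]; exact hc)
      linarith
    refine ⟨hzRx, hxLz, fun w h1 h2 h3 h4 => ?_⟩
    have hwR : Bent R w := ⟨x, h1, h2⟩
    have hwL : Bent L w := ⟨z, h3, h4⟩
    have hne : w ≠ x := fun e => h.ne_of_right h2 e
    have h5 : w ∈ west L R σ x := by rw [west_neg hσ]; exact h2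
    have h6 := (hK w x hwL hwR hxL hxR hne).1 h5
    have hwσ : w ∈ σ := by
      by_contra e
      rw [west_neg e] at h6
      exact h6 h1
    have h7 := S.up.west_le z w hzL hzR hwL hwR (by rw [west_pos hwσ]; exact h3)
    have h8 := S.tL_mono hwL hwR hxL hxR h5
    have h9 := S.pos w hwL hwR hwσ s hs (by linarith)
    linarith

/-- a point with a pure right side and a point with a pure left side -/
theorem comp_plus_minus (S : Setup L R σ d a b a' b' T V I) {s : ℝ} (hs : s ∈ I) {x z : X}
    (hx : Alive L R σ d a b a' b' T V s x) (hz : Alive L R σ d a b a' b' T V s z)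
    (hxz : x ≠ z) (hxL : Bent L x) (hxR : ¬ Bent R x) (hzL : ¬ Bent L z) (hzR : Bent R z) :
    Good L R x z ∨ Good L R z x := by
  have h := S.sides
  by_cases h1 : z ∈ R x
  · exact Or.inl (good_of_pure_right h hxR h1)
  by_cases h2 : x ∈ L z
  · exact Or.inl (good_of_pure_left h hzL h2)
  have h1' : z ∈ L x := h.left_of_notMem_right (Ne.symm hxz) h1
  have h2' : x ∈ R z := h.right_of_notMem_left hxz h2
  refine Or.inr ⟨h2', h1', fun w h3 h4 h5 h6 => ?_⟩
  have hwR : Bent R w := ⟨z, h3, h4⟩
  have hwL : Bent L w := ⟨x, h5, h6⟩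
  have hx1 := alive_plus hx hxL hxR
  have hz1 := alive_minus hz hzL hzR
  by_cases hwσ : w ∈ σ
  · have h7 := S.up.west_le x w hxL hxR hwL hwR (by rw [west_pos hwσ]; exact h5)
    have h8 := S.east_le' hzR hzL hwL hwR (by
      rw [west_pos hwσ]; exact fun h9 => h.not_both h9 h3)
    have h9 := S.pos w hwL hwR hwσ s hs (by linarith)
    linarith
  · have h7 := S.west_le' hzR hzL hwL hwR (by rw [west_neg hwσ]; exact h3)
    have h8 := S.up.east_le x w hxL hxR hwL hwR (by
      rw [west_neg hwσ]; exact fun h9 => h.not_both h5 h9)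
    have h9 := S.neg w hwL hwR hwσ s hs (by linarith)
    linarith

/-- two points with pure right sides -/
theorem comp_plus_plus (S : Setup L R σ d a b a' b' T V I) {s : ℝ} {x z : X}
    (hx : Alive L R σ d a b a' b' T V s x) (hz : Alive L R σ d a b a' b' T V s z)
    (hxz : x ≠ z) (hxL : Bent L x) (hxR : ¬ Bent R x) (hzL : Bent L z) (hzR : ¬ Bent R z) :
    Good L R x z ∨ Good L R z x := by
  have h := S.sides
  by_cases h1 : z ∈ R x
  · exact Or.inl (good_of_pure_right h hxR h1)
  by_cases h2 : x ∈ R z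
  · exact Or.inr (good_of_pure_right h hzR h2)
  have hx1 := alive_plus hx hxL hxR
  have hz1 := alive_plus hz hzL hzR
  rcases S.up.disj x z hxL hxR hzL hzR hxz h1 h2 with h3 | h3 <;> linarith

/-- two core points -/
theorem comp_core_core (S : Setup L R σ d a b a' b' T V I) {s : ℝ} (hs : s ∈ I) {x z : X}
    (hx : Alive L R σ d a b a' b' T V s x) (hz : Alive L R σ d a b a' b' T V s z)
    (hxL : Bent L x) (hxR : Bent R x) (hzL : Bent L z) (hzR : Bent R z)
    (hxz : x ∈ west L R σ z) :
    Good L R x z ∨ Good L R z x := by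
  have h := S.sides
  have hK := S.core
  have hne : x ≠ z := by rintro rfl; exact h.notMem_west _ hxz
  have hzx := (hK x z hxL hxR hzL hzR hne).1 hxz
  have hU := hK.tU_mono (d := d) h hxL hxR hzL hzR hxz
  have hL := S.tL_mono hxL hxR hzL hzR hxz
  by_cases hxσ : x ∈ σ <;> by_cases hzσ : z ∈ σ
  · have hx1 := alive_pos hx hxL hxR hxσ
    have hz1 := alive_pos hz hzL hzR hzσ
    rw [west_pos hzσ] at hxz
    rw [west_pos hxσ] at hzx
    have hzRx := h.right_of_notMem_left (Ne.symm hne) hzx
    refine Or.inl ⟨hzRx, hxz, fun w h1 h2 h3 h4 => ?_⟩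
    have hwR : Bent R w := ⟨x, h1, h2⟩
    have hwL : Bent L w := ⟨z, h3, h4⟩
    have hxw : x ≠ w := fun e => h.ne_of_right h1 e
    have h5 : x ∈ west L R σ w := (hK x w hxL hxR hwL hwR hxw).2 (by
      rw [west_pos hxσ]; exact fun h6 => h.not_both h6 h2)
    have hwσ : w ∉ σ := by
      intro e
      rw [west_pos e] at h5
      exact h.not_both h5 h1
    have h6 := hK.tU_mono (d := d) h hwL hwR hzL hzR (by rw [west_pos hzσ]; exact h4)
    have h7 := S.neg w hwL hwR hwσ s hs (by linarith)
    have h8 := S.tL_mono hxL hxR hwL hwR h5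
    linarith
  · have hx1 := alive_pos hx hxL hxR hxσ
    have hz1 := alive_neg hz hzL hzR hzσ
    linarith
  · have hx1 := alive_neg hx hxL hxR hxσ
    have hz1 := alive_pos hz hzL hzR hzσ
    linarith
  · have hx1 := alive_neg hx hxL hxR hxσ
    have hz1 := alive_neg hz hzL hzR hzσ
    rw [west_neg hzσ] at hxz
    rw [west_neg hxσ] at hzx
    have hzLx := h.left_of_notMem_right (Ne.symm hne) hzx
    refine Or.inr ⟨hxz, hzLx, fun w h1 h2 h3 h4 => ?_⟩
    have hwR : Bent R w := ⟨z, h1, h2⟩
    have hwL : Bent L w := ⟨x, h3, h4⟩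
    have hxw : x ≠ w := fun e => h.ne_of_left h3 e
    have h5 : x ∈ west L R σ w := (hK x w hxL hxR hwL hwR hxw).2 (by
      rw [west_neg hxσ]; exact fun h6 => h.not_both h4 h6)
    have hwσ : w ∈ σ := by
      by_contra e
      rw [west_neg e] at h5
      exact h.not_both h3 h5
    have h6 := S.tL_mono hwL hwR hzL hzR (by rw [west_neg hzσ]; exact h2)
    have h7 := S.pos w hwL hwR hwσ s hs (by linarith)
    have h8 := hK.tU_mono (d := d) h hxL hxR hwL hwR h5
    linarith

/-- **Any two points alive at the same time are comparable, without obstruction.** -/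
theorem comp (S : Setup L R σ d a b a' b' T V I) {s : ℝ} (hs : s ∈ I) {x z : X}
    (hx : Alive L R σ d a b a' b' T V s x) (hz : Alive L R σ d a b a' b' T V s z)
    (hxz : x ≠ z) : Good L R x z ∨ Good L R z x := by
  have h := S.sides
  by_cases hxL : Bent L x <;> by_cases hxR : Bent R x <;> by_cases hzL : Bent L z <;>
    by_cases hzR : Bent R z
  -- x core
  · rcases S.core.total hxL hxR hzL hzR hxz with h1 | h1
    · exact S.comp_core_core hs hx hz hxL hxR hzL hzR h1
    · exact (S.comp_core_core hs hz hx hzL hzR hxL hxR h1).symm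
  · exact S.comp_core_plus hs hx hz hxz hxL hxR hzL hzR
  · rcases S.swap.comp_core_plus hs hx.swap hz.swap hxz hxR hxL hzR hzL with h1 | h1
    · exact Or.inr h1.swap
    · exact Or.inl h1.swap
  · rcases h.mem_or hxz with h1 | h1
    · exact Or.inl (good_of_pure_left h hzL h1)
    · exact Or.inr (good_of_pure_right h hzR h1)
  -- x plus
  · exact (S.comp_core_plus hs hz hx (Ne.symm hxz) hzL hzR hxL hxR).symm
  · exact S.comp_plus_plus hx hz hxz hxL hxR hzL hzR
  · exact S.comp_plus_minus hs hx hz hxz hxL hxR hzL hzR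
  · rcases h.mem_or hxz with h1 | h1
    · exact Or.inl (good_of_pure_left h hzL h1)
    · exact Or.inr (good_of_pure_right h hzR h1)
  -- x minus
  · rcases S.swap.comp_core_plus hs hz.swap hx.swap (Ne.symm hxz) hzR hzL hxR hxL with h1 | h1
    · exact Or.inl h1.swap
    · exact Or.inr h1.swap
  · exact (S.comp_plus_minus hs hz hx (Ne.symm hxz) hzL hzR hxL hxR).symm
  · rcases S.swap.comp_plus_plus hx.swap hz.swap hxz hxR hxL hzR hzL with h1 | h1
    · exact Or.inr h1.swap
    · exact Or.inl h1.swap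
  · rcases h.mem_or hxz with h1 | h1
    · exact Or.inl (good_of_pure_left h hzL h1)
    · exact Or.inr (good_of_pure_right h hzR h1)
  all_goals
    rcases h.mem_or (Ne.symm hxz) with h1 | h1
    · exact Or.inr (good_of_pure_left h hxL h1)
    · exact Or.inl (good_of_pure_right h hxR h1)

/-- A point between two alive points is alive. -/
theorem between (S : Setup L R σ d a b a' b' T V I) {s : ℝ} {x z w : X}
    (hx : Alive L R σ d a b a' b' T V s x) (hz : Alive L R σ d a b a' b' T V s z)
    (h1 : x ∈ L w) (h2 : w ∈ R x) (h3 : z ∈ R w) (h4 : w ∈ L z) :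
    Alive L R σ d a b a' b' T V s w :=
  ⟨S.up.mono S.sides S.core h3 h4 hz.1, S.down.mono S.sides.symm S.core.swap h1 h2 hx.2⟩

theorem convex (S : Setup L R σ d a b a' b' T V I) {s : ℝ} (hs : s ∈ I) {x z w : X}
    (hx : Alive L R σ d a b a' b' T V s x) (hz : Alive L R σ d a b a' b' T V s z)
    (h1 : x ∈ L w) (h2 : z ∈ R w) : Alive L R σ d a b a' b' T V s w := by
  have h := S.sides
  have hxz : x ≠ z := by rintro rfl; exact h.not_both h1 h2
  have hxw : x ≠ w := h.ne_of_left h1
  have hzw : z ≠ w := h.ne_of_right h2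
  rcases S.comp hs hx hz hxz with hg | hg
  · have h3 : w ∈ R x := by
      apply h.right_of_notMem_left (Ne.symm hxw)
      intro hc
      have h4 : insert x (R x) ⊆ L w := h.nest_ll h1 hc
      exact h.not_both (h4 (mem_insert_of_mem _ hg.1)) h2
    have h4 : w ∈ L z := by
      apply h.left_of_notMem_right (Ne.symm hzw)
      intro hc
      have h4 : insert z (L z) ⊆ R w := h.nest_rr h2 hc
      exact h.not_both h1 (h4 (mem_insert_of_mem _ hg.2.1))
    exact S.between hx hz h1 h3 h2 h4
  · exfalso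
    have h3 : w ∈ L x := by
      apply h.left_of_notMem_right (Ne.symm hxw)
      intro hc
      have h4 : insert x (L x) ⊆ L w := h.nest_lr h1 hc
      exact h.not_both (h4 (mem_insert_of_mem _ hg.2.1)) h2
    have h4 : w ∈ R z := by
      apply h.right_of_notMem_left (Ne.symm hzw)
      intro hc
      have h4 : insert z (R z) ⊆ R w := h.nest_rl h2 hc
      exact h.not_both h1 (h4 (mem_insert_of_mem _ hg.1))
    exact hg.2.2 w h2 h4 h1 h3

/-- To the right of an alive point there are points whose upper slot contains the time. -/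
theorem exists_right [PreconnectedSpace X] (S : Setup L R σ d a b a' b' T V I) {s : ℝ}
    (hs : s ∈ I) {f : ℝ → X} (hf : IsOpenEmbedding f)
    (hfo : ∀ s t, s < t → f s ∈ L (f t) ∧ f t ∈ R (f s))
    (hx : Alive L R σ d a b a' b' T V s (f 0)) (h0 : 0 < V s)
    (h1 : (∃ x, Bent L x) → V s < mU L d univ) :
    ∃ t, 0 < t ∧ V s ∈ slot L R σ d a b (f t) := by
  have h := S.sides
  have hK := S.core
  refine S.up.right_cont h hK hf hfo hx.1 h0 h1 ?_
  intro c hcL hcR _ hcx hxc
  have hxR : Bent R (f 0) := ⟨c, hcx, hxc⟩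
  have hne : f 0 ≠ c := h.ne_of_right hxc
  by_cases hxL : Bent L (f 0)
  · have key := hK (f 0) c hxL hxR hcL hcR hne
    have key' := hK c (f 0) hcL hcR hxL hxR (Ne.symm hne)
    constructor
    · intro hcσ
      have h2 : f 0 ∉ west L R σ c := by
        rw [west_pos hcσ]; exact fun h3 => h.not_both h3 hxc
      have h3 : c ∈ west L R σ (f 0) := key'.2 h2
      have hxσ : f 0 ∉ σ := by
        intro e
        rw [west_pos e] at h3
        exact h.not_both h3 hcx
      have h4 := alive_neg hx hxL hxR hxσ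
      have h5 := S.tL_mono hcL hcR hxL hxR h3
      exact S.pos c hcL hcR hcσ s hs (by linarith)
    · intro hcσ
      have h2 : f 0 ∈ west L R σ c := by rw [west_neg hcσ]; exact hxc
      have h3 : c ∉ west L R σ (f 0) := key.1 h2
      have hxσ : f 0 ∈ σ := by
        by_contra e
        rw [west_neg e] at h3
        exact h3 hcx
      have h4 := alive_pos hx hxL hxR hxσ
      have h5 := S.tL_mono hxL hxR hcL hcR h2
      by_contra hc
      have h6 := S.neg c hcL hcR hcσ s hs (not_lt.1 hc)
      linarith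
  · have h4 := alive_minus hx hxL hxR
    constructor
    · intro hcσ
      have h2 : f 0 ∉ west L R σ c := by
        rw [west_pos hcσ]; exact fun h3 => h.not_both h3 hxc
      have h5 := S.east_le' hxR hxL hcL hcR h2
      exact S.pos c hcL hcR hcσ s hs (by linarith)
    · intro hcσ
      have h2 : f 0 ∈ west L R σ c := by rw [west_neg hcσ]; exact hxc
      have h5 := S.west_le' hxR hxL hcL hcR h2
      by_contra hc
      have h6 := S.neg c hcL hcR hcσ s hs (not_lt.1 hc)
      linarith

end Setup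

end Pool.Agent.Helper921_LeafSpaces
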