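import Mathlib
import Pool.Agent.Helper921_LeafSpaces.Region
import Pool.Agent.Helper921_LeafSpaces.Path
import Pool.Agent.Helper921_LeafSpaces.Convex
import Pool.Agent.Helper921_LeafSpaces.Reduce

/-!
# Existence of the region
-/

namespace Pool.Agent.Helper921_LeafSpaces

open Set Topology Filter TopologicalSpace

set_option linter.unusedSectionVars false

variable {X : Type*} [TopologicalSpace X] {L R : X → Set X} {σ : Set X} {d : ℕ → X}

open Classical in
/-- The total reading of the upper clock. -/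
noncomputable def MU (L : X → Set X) (d : ℕ → X) : ℝ := if ∃ x, Bent L x then mU L d univ else 1

theorem MU_eq (h : ∃ x, Bent L x) : MU L d = mU L d univ := by simp only [MU, h, if_true]

theorem MU_pos (h : IsSides L R) (hd : DenseRange d) : 0 < MU L d := by
  by_cases hx : ∃ x, Bent L x
  · rw [MU_eq hx]
    obtain ⟨x, hx⟩ := hx
    obtain ⟨f, hf, rfl, hfo⟩ := h.exists_chart x
    exact (germ_pos h hd hf hfo hx).trans_le (mU_le_univ _)
  · simp only [MU, hx, if_false]; exact one_pos

/-- **The region.** -/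
theorem exists_region [ConnectedSpace X] [SecondCountableTopology X] (h : IsSides L R)
    (hthree : ∀ (x : Fin 3 → X) (S : Fin 3 → X → Set X), (∀ i, S i = L ∨ S i = R) →
      (∀ i, Bent (S i) (x i)) → ¬ ∀ i j, i ≠ j → Disjoint (S i (x i)) (S j (x j))) :
    ∃ (U : Set (ℝ × X)) (a b : ℝ), IsOpen U ∧ (∀ s x, (s, x) ∈ U → s ∈ Ioo a b) ∧
      (∀ x, {s | (s, x) ∈ U}.Nonempty) ∧ (∀ x, OrdConnected {s | (s, x) ∈ U}) ∧
      (∀ s, IsPreconnected {x | (s, x) ∈ U}) ∧
      (∀ s x z, (s, x) ∈ U → (s, z) ∈ U → x ≠ z →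
        (z ∈ R x ∧ x ∈ L z) ∨ (z ∈ L x ∧ x ∈ R z)) := by
  classical
  obtain ⟨σ, hK⟩ := exists_core_order h hthree
  change IsCoreOrder L R σ at hK
  obtain ⟨d, hd⟩ := exists_dense_seq X
  obtain ⟨a, b, hup1, hup2, hup3, hup4, hup5, hup6⟩ := exists_slots (d := d) h hK hd
  have hup : IsSlots L R σ d a b := ⟨hup1, hup2, hup3, hup4, hup5, hup6⟩
  obtain ⟨a', b', hdo1, hdo2, hdo3, hdo4, hdo5, hdo6⟩ :=
    exists_slots (d := d) h.symm hK.swap hd
  have hdown : IsSlots R L σᶜ d a' b' := ⟨hdo1, hdo2, hdo3, hdo4, hdo5, hdo6⟩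
  -- the core as a linear order
  let K : Type _ := {k : X // Bent L k ∧ Bent R k}
  let rel : K → K → Prop := fun k k' => k.1 ∈ west L R σ k'.1
  have : IsStrictTotalOrder K rel :=
    { trichotomous := by
        intro k k' h1 h2
        by_contra hne
        rcases hK.total k.2.1 k.2.2 k'.2.1 k'.2.2 (fun e => hne (Subtype.ext e)) with h3 | h3
        · exact h1 h3
        · exact h2 h3
      irrefl := fun k => h.notMem_west _
      trans := fun k k' k'' h1 h2 => hK.subset h k'.2.1 k'.2.2 k''.2.1 k''.2.2 h2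
        (mem_insert_of_mem _ h1) }
  let _ : LinearOrder K := linearOrderOfSTO rel
  have lt_iff : ∀ k k' : K, k < k' ↔ k.1 ∈ west L R σ k'.1 := fun k k' => Iff.rfl
  have hA : 0 < MU R d := MU_pos h.symm hd
  have hB : 0 < MU L d := MU_pos h hd
  have hcoreL : ∀ k : K, MU L d = mU L d univ := fun k => MU_eq ⟨k.1, k.2.1⟩
  have hcoreR : ∀ k : K, MU R d = mU R d univ := fun k => MU_eq ⟨k.1, k.2.2⟩
  have hUmono : Monotone (fun k : K => tU L R σ d k.1) := by
    intro k k' hkk
    rcases eq_or_lt_of_le hkk with h1 | h1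
    · rw [h1]
    · exact hK.tU_mono h k.2.1 k.2.2 k'.2.1 k'.2.2 ((lt_iff _ _).1 h1)
  have hTmono : Monotone (fun k : K => tU R L σᶜ d k.1) := by
    intro k k' hkk
    rcases eq_or_lt_of_le hkk with h1 | h1
    · rw [h1]
    · exact hK.swap.tU_mono h.symm k.2.2 k.2.1 k'.2.2 k'.2.1
        (by rw [west_swap]; exact (lt_iff _ _).1 h1)
  have htU0 : ∀ (L R : X → Set X) (σ : Set X) (k : X), 0 ≤ tU L R σ d k := fun L R σ k =>
    (mU_nonneg _).trans (mU_west_le k)
  have htU1 : ∀ (L R : X → Set X) (σ : Set X) (k : X), tU L R σ d k ≤ mU L d univ :=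
    fun L R σ k => (tU_le k).trans (mU_le_univ _)
  -- the two sides
  have hsplit : ∀ (S : X → Set X) (k : X), mU S d univ ≤
      mU S d (west L R σ k) + mU S d (insert k (west L R σᶜ k)) := by
    intro S k
    have h1 : mU S d univ ≤ mU S d (west L R σ k ∪ insert k (west L R σᶜ k)) := by
      refine mU_mono fun x _ _ => ?_
      by_cases hx : x = k
      · exact Or.inr (Or.inl hx)
      · by_cases hw : x ∈ west L R σ k
        · exact Or.inl hw
        · exact Or.inr (Or.inr ((h.west_compl hx).2 hw))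
    refine h1.trans ?_
    unfold mU
    rw [union_inter_distrib_right]
    exact mass_union_le d _ _
  have hdisj : ∀ (S : X → Set X) (k : X),
      mU S d (insert k (west L R σ k)) + mU S d (west L R σᶜ k) ≤ mU S d univ := by
    intro S k
    rw [← mU_union]
    · exact mU_le_univ _
    · rintro x (hx | hx) hx'
      · rw [hx] at hx'
        exact h.notMem_west _ hx'
      · have hne : x ≠ k := by rintro rfl; exact h.notMem_west _ hx
        exact (h.west_compl hne).1 hx' hx
  have hmU : ∀ (S : X → Set X) (A : Set X), mU S d A ≤ mass d A := fun S A =>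
    mass_mono d inter_subset_left
  -- bounds for the readings
  have hu1 : ∀ k : X, mU L d (west L R σ k) ≤ tU L R σ d k := fun k => mU_west_le k
  have hu2 : ∀ k : X, tU L R σ d k ≤ mU L d (insert k (west L R σ k)) := fun k => tU_le k
  have ht1 : ∀ k : X, mU R d (west L R σ k) ≤ tU R L σᶜ d k := by
    intro k
    have := mU_west_le (L := R) (R := L) (σ := σᶜ) (d := d) k
    rwa [west_swap] at this
  have ht2 : ∀ k : X, tU R L σᶜ d k ≤ mU R d (insert k (west L R σ k)) := by
    intro k
    have := tU_le (L := R) (R := L) (σ := σᶜ) (d := d) k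
    rwa [west_swap] at this
  obtain ⟨a₀, b₀, T, V, hab, hTc, hVc, hTm, hVm, hin, hTs, hVs, hp, hn⟩ :=
    exists_path (K := K) (fun k => tU R L σᶜ d k.1) (fun k => tU L R σ d k.1) (MU R d) (MU L d)
      hA hB (fun k => k.1 ∈ σ) hTmono hUmono (fun k => htU0 R L σᶜ k.1)
      (fun k => by rw [hcoreR k]; exact htU1 R L σᶜ k.1) (fun k => htU0 L R σ k.1)
      (fun k => by rw [hcoreL k]; exact htU1 L R σ k.1)
      (by
        intro k hk
        obtain ⟨ε, hε, h1, h2, h3, h4⟩ := exists_gap h hK hd k.2.1 k.2.2 hk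
        refine ⟨ε, hε, fun k' hk' hn => h1 k'.1 k'.2.1 k'.2.2 ((lt_iff _ _).1 hk') hn,
          fun k' hk' hn => h2 k'.1 k'.2.1 k'.2.2 ((lt_iff _ _).1 hk') hn, h3, ?_⟩
        rw [hcoreL k]; exact h4)
      (by
        intro k hk
        obtain ⟨ε, hε, h1, h2, h3, h4⟩ := exists_gap (σ := σᶜ) h.symm hK.swap hd k.2.2 k.2.1 hk
        simp only [compl_compl, west_swap] at h1 h2 h3 h4
        refine ⟨ε, hε, fun k' hk' hn => h1 k'.1 k'.2.2 k'.2.1 ((lt_iff _ _).1 hk')
          (fun e => e hn), fun k' hk' hn => h2 k'.1 k'.2.2 k'.2.1 ((lt_iff _ _).1 hk')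
          (fun e => e hn), h3, ?_⟩
        rw [hcoreR k]; exact h4)
      (by
        rcases west_end (d := d) h hK hd with h1 | h1 | ⟨k₁, hk1, hk2, c, hc, h2, h3, h4⟩
        · exact Or.inl ⟨fun k => h1 k.1 k.2.1 k.2.2⟩
        · right; left
          intro ε hε
          obtain ⟨k, hk1, hk2, hk3⟩ := h1 (ε / 2) (half_pos hε)
          refine ⟨⟨k, hk1, hk2⟩, ?_⟩
          have h5 := (hu2 k).trans (hmU L _)
          have h6 := (ht2 k).trans (hmU R _)
          simp only
          linarith
        · right; right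
          refine ⟨⟨k₁, hk1, hk2⟩, c, hc, ?_, ?_, ?_⟩
          · intro k hk
            apply h2 k.1 k.2.1 k.2.2
            rcases eq_or_lt_of_le hk with e | e
            · exact Or.inl (congrArg Subtype.val e)
            · exact Or.inr ((lt_iff _ _).1 e)
          · intro e k
            exact (h3 e k.1 k.2.1 k.2.2).trans (ht1 k.1)
          · intro e k
            exact (h4 e k.1 k.2.1 k.2.2).trans (hu1 k.1))
      (by
        rcases west_end (σ := σᶜ) (d := d) h (hK.compl h) hd with
          h1 | h1 | ⟨k₁, hk1, hk2, c, hc, h2, h3, h4⟩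
        · exact Or.inl ⟨fun k => h1 k.1 k.2.1 k.2.2⟩
        · right; left
          intro ε hε
          obtain ⟨k, hk1, hk2, hk3⟩ := h1 (ε / 2) (half_pos hε)
          refine ⟨⟨k, hk1, hk2⟩, ?_⟩
          rw [hcoreL ⟨k, hk1, hk2⟩, hcoreR ⟨k, hk1, hk2⟩]
          have h5 := hsplit L k
          have h6 := hsplit R k
          have h7 := hmU L (insert k (west L R σᶜ k))
          have h8 := hmU R (insert k (west L R σᶜ k))
          have h9 := hu1 k
          have h10 := ht1 k
          simp only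
          linarith
        · right; right
          refine ⟨⟨k₁, hk1, hk2⟩, c, hc, ?_, ?_, ?_⟩
          · intro k hk
            have h5 := h2 k.1 k.2.1 k.2.2 (by
              rcases eq_or_lt_of_le hk with e | e
              · exact Or.inl (congrArg Subtype.val e).symm
              · right
                have e1 : k₁ ∈ west L R σ k.1 := (lt_iff _ _).1 e
                have hne : k₁ ≠ k.1 := by
                  intro e2
                  rw [e2] at e1
                  exact h.notMem_west _ e1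
                exact (h.west_compl (Ne.symm hne)).2 ((hK k₁ k.1 hk1 hk2 k.2.1 k.2.2 hne).1 e1))
            simp only [mem_compl_iff] at h5
            exact not_iff_not.1 h5
          · intro e k
            have h5 := h4 (fun e' => e' e) k.1 k.2.1 k.2.2
            have h6 := hdisj L k.1
            have h7 := hu2 k.1
            rw [hcoreL k]
            linarith
          · intro e k
            have h5 := h3 e k.1 k.2.1 k.2.2
            have h6 := hdisj R k.1
            have h7 := ht2 k.1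
            rw [hcoreR k]
            linarith)
  have S : Setup L R σ d a b a' b' T V (Ioo a₀ b₀) :=
    { sides := h
      core := hK
      up := hup
      down := hdown
      pos := by
        intro c hc1 hc2 hcσ s hs hle
        obtain ⟨s', hs', h1, h2⟩ := hp ⟨c, hc1, hc2⟩ hcσ
        have h3 : s' ≤ s := by
          by_contra hc
          exact absurd (hTm (not_le.1 hc).le) (not_le.2 (lt_of_lt_of_le h1 hle))
        exact h2.trans_le (hVm h3)
      neg := by
        intro c hc1 hc2 hcσ s hs hle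
        obtain ⟨s', hs', h1, h2⟩ := hn ⟨c, hc1, hc2⟩ hcσ
        have h3 : s' ≤ s := by
          by_contra hc
          exact absurd (hVm (not_le.1 hc).le) (not_le.2 (lt_of_lt_of_le h2 hle))
        exact h1.trans_le (hTm h3) }
  let U : Set (ℝ × X) := {p | p.1 ∈ Ioo a₀ b₀ ∧ Alive L R σ d a b a' b' T V p.1 p.2}
  have hUo : IsOpen U := by
    rw [isOpen_iff_mem_nhds]
    rintro ⟨s, x⟩ ⟨hs, hx⟩
    obtain ⟨f, hf, rfl, hfo⟩ := h.exists_chart x
    obtain ⟨t₁, ht₁, h1⟩ := S.exists_right hs hf hfo hx (hin s hs).2.1 (fun e => by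
      rw [← MU_eq e]; exact (hin s hs).2.2)
    have hneg := chart_neg hf hfo
    obtain ⟨t₂, ht₂, h2⟩ := S.swap.exists_right hs hneg.1 hneg.2 (by
      simpa using hx.swap) (hin s hs).1.1 (fun e => by
      rw [← MU_eq e]; exact (hin s hs).1.2)
    simp only at h2
    have hN : (Ioo a₀ b₀ ∩ (V ⁻¹' (slot L R σ d a b (f t₁)) ∩
        T ⁻¹' (slot R L σᶜ d a' b' (f (-t₂))))) ×ˢ (f '' Ioo (-t₂) t₁) ∈ 𝓝 (s, f 0) := by
      refine prod_mem_nhds (inter_mem (isOpen_Ioo.mem_nhds hs) (inter_mem ?_ ?_)) ?_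
      · exact (isOpen_slot _).preimage hVc |>.mem_nhds h1
      · exact (isOpen_slot _).preimage hTc |>.mem_nhds h2
      · exact (hf.isOpenMap _ isOpen_Ioo).mem_nhds ⟨0, ⟨by linarith, ht₁⟩, rfl⟩
    refine mem_of_superset hN ?_
    rintro ⟨s', w⟩ ⟨⟨hs', hV', hT'⟩, ⟨v, hv, rfl⟩⟩
    refine ⟨hs', ?_, ?_⟩
    · exact hup.mono h hK (hfo v t₁ hv.2).2 (hfo v t₁ hv.2).1 hV'
    · exact hdown.mono h.symm hK.swap (hfo (-t₂) v hv.1).1 (hfo (-t₂) v hv.1).2 hT'
  refine ⟨U, a₀, b₀, hUo, fun s x hsx => hsx.1, ?_, ?_, ?_, ?_⟩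
  · -- every point is alive at some time
    intro x
    by_cases hxL : Bent L x
    · by_cases hxR : Bent R x
      · by_cases hσ : x ∈ σ
        · obtain ⟨s, hs, h1, h2⟩ := hp ⟨x, hxL, hxR⟩ hσ
          exact ⟨s, hs, (mem_slot_core_pos hxL hxR hσ).2 h2,
            (mem_slot_core_neg (σ := σᶜ) hxR hxL (fun e => e hσ)).2 h1⟩
        · obtain ⟨s, hs, h1, h2⟩ := hn ⟨x, hxL, hxR⟩ hσ
          exact ⟨s, hs, (mem_slot_core_neg hxL hxR hσ).2 h2,
            (mem_slot_core_pos (σ := σᶜ) hxR hxL hσ).2 h1⟩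
      · obtain ⟨f, hf, rfl, hfo⟩ := h.exists_chart x
        have h1 := germ_pos (d := d) h hd hf hfo hxL
        have h2 : mU L d (f '' Ioo 0 1) ≤ mU L d (R (f 0)) := by
          refine mU_mono ?_
          rintro _ ⟨t, ht, rfl⟩ -
          exact (hfo 0 t ht.1).2
        have h3 := hup.length _ hxL hxR
        have h4 := hup.bound _ hxL hxR
        obtain ⟨s, hs, h5⟩ := hVs ((a (f 0) + b (f 0)) / 2) ⟨by linarith, by
          rw [MU_eq ⟨_, hxL⟩]; linarith⟩
        refine ⟨s, hs, (mem_slot_plus hxL hxR).2 ?_, slot_univ hxR _⟩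
        rw [h5]
        constructor <;> linarith
    · by_cases hxR : Bent R x
      · obtain ⟨f, hf, rfl, hfo⟩ := h.exists_chart x
        have h1 := germ_pos' (d := d) h hd hf hfo hxR
        have h2 : mU R d (f '' Ioo (-1) 0) ≤ mU R d (L (f 0)) := by
          refine mU_mono ?_
          rintro _ ⟨t, ht, rfl⟩ -
          exact (hfo t 0 ht.2).1
        have h3 := hdown.length _ hxR hxL
        have h4 := hdown.bound _ hxR hxL
        obtain ⟨s, hs, h5⟩ := hTs ((a' (f 0) + b' (f 0)) / 2) ⟨by linarith, by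
          rw [MU_eq ⟨_, hxR⟩]; linarith⟩
        refine ⟨s, hs, slot_univ hxL _, (mem_slot_plus hxR hxL).2 ?_⟩
        rw [h5]
        constructor <;> linarith
      · exact ⟨(a₀ + b₀) / 2, ⟨by linarith, by linarith⟩, slot_univ hxL _, slot_univ hxR _⟩
  · intro x
    have h1 : {s | (s, x) ∈ U} = Ioo a₀ b₀ ∩ (V ⁻¹' (slot L R σ d a b x) ∩
        T ⁻¹' (slot R L σᶜ d a' b' x)) := rfl
    rw [h1]
    exact ordConnected_Ioo.inter (((ordConnected_slot x).preimage_mono hVm).inter
      ((ordConnected_slot x).preimage_mono hTm))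
  · intro s
    by_cases hs : s ∈ Ioo a₀ b₀
    · apply isPreconnected_of_convex h
      · exact hUo.preimage (by fun_prop : Continuous fun x : X => (s, x))
      · intro x hx z hz w h1 h2
        exact ⟨hs, S.convex hs hx.2 hz.2 h1 h2⟩
    · have h1 : {x | (s, x) ∈ U} = ∅ := by
        rw [Set.eq_empty_iff_forall_notMem]
        exact fun x hx => hs hx.1
      rw [h1]
      exact isPreconnected_empty
  · intro s x z hx hz hxz
    rcases S.comp hx.1 hx.2 hz.2 hxz with h1 | h1
    · exact Or.inl ⟨h1.1, h1.2.1⟩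
    · exact Or.inr ⟨h1.2.1, h1.1⟩

/-- **Sufficiency.** -/
theorem realizedTriple_of_three [ConnectedSpace X] [SecondCountableTopology X]
    (h : IsSides L R)
    (hthree : ∀ (x : Fin 3 → X) (S : Fin 3 → X → Set X), (∀ i, S i = L ∨ S i = R) →
      (∀ i, Bent (S i) (x i)) → ¬ ∀ i j, i ≠ j → Disjoint (S i (x i)) (S j (x j))) :
    RealizedTriple ℝ ℝ X := by
  obtain ⟨U, a, b, hUo, hab, hJ, hJ', hS, hT⟩ := exists_region h hthree
  exact realizedTriple_of_open h U hUo a b hab hJ hJ' hS hT

end Pool.Agent.Helper921_LeafSpaces
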