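import Mathlib
import Pool.Agent.Helper921_LeafSpaces.Obst2
import Pool.Agent.Helper921_LeafSpaces.NotAligned
import Pool.Agent.Helper921_LeafSpaces.SidesExist
import Pool.Agent.Helper921_LeafSpaces.Sweep

/-!
# Pairs and triples with Hausdorff members
-/

namespace Pool.Agent.Helper921_LeafSpaces

open Set Topology Filter TopologicalSpace

variable {X : Type*} [TopologicalSpace X]

theorem isBentHalfSpace_right {L R : X → Set X} (h : IsSides L R)
    (hR : ∀ x, IsPreconnected (R x)) {x : X} (hb : Bent R x) : IsBentHalfSpace (R x) := by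
  obtain ⟨z, hz, hx⟩ := hb
  have hzx : z ≠ x := h.ne_of_right hz
  refine ⟨x, z, hzx, ?_, z, hz, not_aligned_of_right h hz hx⟩
  apply Subset.antisymm
  · exact (hR x).subset_connectedComponentIn hz fun w hw => h.ne_of_right hw
  · exact h.subset_right isPreconnected_connectedComponentIn
      (fun hc => connectedComponentIn_subset _ _ hc rfl) (mem_connectedComponentIn hzx) hz

theorem isBentHalfSpace_left {L R : X → Set X} (h : IsSides L R)
    (hL : ∀ x, IsPreconnected (L x)) {x : X} (hb : Bent L x) : IsBentHalfSpace (L x) :=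
  isBentHalfSpace_right h.symm hL hb

/-- **Sufficiency.** -/
theorem realizedTriple_of_not_three [SimplyConnectedSpace X] (hX : IsOneManifold X)
    (hthree : ¬ ∃ H : Fin 3 → Set X, (∀ i, IsBentHalfSpace (H i)) ∧
      ∀ i j, i ≠ j → Disjoint (H i) (H j)) : RealizedTriple ℝ ℝ X := by
  have := hX.secondCountable
  obtain ⟨L, R, h, hL, hR⟩ := exists_isSides hX.locReal
  refine realizedTriple_of_three h fun x S hS hb hd => hthree ⟨fun i => S i (x i), ?_, hd⟩
  intro i
  change IsBentHalfSpace (S i (x i))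
  rcases hS i with e | e
  · have := hb i
    rw [e] at this ⊢
    exact isBentHalfSpace_left h hL this
  · have := hb i
    rw [e] at this ⊢
    exact isBentHalfSpace_right h hR this

theorem RealizedTriple.pair {Λ₁ Λ₂ Λ₃ : Type*} [TopologicalSpace Λ₁] [TopologicalSpace Λ₂]
    [TopologicalSpace Λ₃] (h : RealizedTriple Λ₁ Λ₂ Λ₃) : Realized Λ₁ Λ₃ := by
  obtain ⟨F₁, F₂, F₃, h1, h2, h3, h4, h5, h6, h7, h8, h9⟩ := h
  exact ⟨F₁, F₃, h1, h3, h5, h7, h9⟩

/-- **Classification of the pairs with a Hausdorff member.** -/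
theorem realized_real_iff [SimplyConnectedSpace X] (hX : IsOneManifold X) :
    Realized ℝ X ↔ ¬ ∃ H : Fin 3 → Set X, (∀ i, IsBentHalfSpace (H i)) ∧
      ∀ i j, i ≠ j → Disjoint (H i) (H j) := by
  constructor
  · rintro h ⟨H, hH, hd⟩
    exact not_three_bent hX h H hH hd
  · intro h
    exact (realizedTriple_of_not_three hX h).pair

/-- **Classification of the triples with two Hausdorff members.** -/
theorem realizedTriple_real_real_iff [SimplyConnectedSpace X] (hX : IsOneManifold X) :
    RealizedTriple ℝ ℝ X ↔ ¬ ∃ H : Fin 3 → Set X, (∀ i, IsBentHalfSpace (H i)) ∧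
      ∀ i j, i ≠ j → Disjoint (H i) (H j) :=
  ⟨fun h => (realized_real_iff hX).1 h.pair, realizedTriple_of_not_three hX⟩

end Pool.Agent.Helper921_LeafSpaces
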